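import Pool.Agent.H1.KK.Inst

set_option autoImplicit false
set_option linter.unusedSectionVars false

/-!
# Regular coherence and products with free abelian groups
-/

namespace Pool.Agent.H1.KK

open Matrix TH57.Thr Pool.Agent.K4H37.MT Pool.Agent.H1.MV Pool.Agent.H1.MK

variable {C : ∀ (k : Type) [Ring k], Prop} (hC : RCls C) {Q : Type} [Group Q]

/-- `(Q × ℤⁿ) × ℤ` and `Q × ℤⁿ⁺¹` -/
def zpLast (Q : Type) [Group Q] (n : ℕ) :
    (Q × Zp n) × Multiplicative ℤ ≃* Q × Zp (n + 1) :=
  MulEquiv.prodAssoc.trans (MulEquiv.prodCongr (MulEquiv.refl Q)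
    (MulEquiv.prodComm.trans (zpSucc n).symm))

include hC in
theorem nice_zn (n : ℕ) (h : ∀ (k : Type) [Ring k], C k → Nice (MonoidAlgebra k Q)) :
    ∀ (k : Type) [Ring k], C k → Nice (MonoidAlgebra k (Q × Zp n)) := by
  induction n with
  | zero =>
    intro k _ hk
    let e : Q ≃* Q × Zp 0 :=
      { toFun := fun q => (q, 1)
        invFun := fun x => x.1
        left_inv := fun _ => rfl
        right_inv := fun x => Prod.ext rfl (Subsingleton.elim _ _)
        map_mul' := fun x y => Prod.ext rfl (one_mul (1 : Zp 0)).symm }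
    exact nice_congr e (h k hk)
  | succ n ih =>
    intro k _ hk
    have h1 := ih (Lau k) (hC.lau k hk)
    have e1 : MonoidAlgebra (Lau k) (Q × Zp n) ≃+*
        MonoidAlgebra k ((Q × Zp n) × Multiplicative ℤ) :=
      (MonoidAlgebra.curryRingEquiv (R := k) (M := Q × Zp n) (N := Multiplicative ℤ)).symm
    exact nice_congr (zpLast Q n) (Nice.ringEquiv e1 h1)

end Pool.Agent.H1.KK
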