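import Pool.Agent.H1.KK.CoreK
import Pool.Agent.H1.MK.Lin

set_option autoImplicit false
set_option linter.unusedSectionVars false
set_option linter.unusedSimpArgs false

/-!
# All classes are in the system
-/

namespace Pool.Agent.H1.KK

open Matrix TH57.Thr Pool.Agent.K4H37.MT Pool.Agent.H1.MV

section lin

variable {k : Type} [Ring k] {G V : Type} [Group G] [MulAction G V] [DecidableEq V]
  {T : SimpleGraph V} {N : KI (MonoidAlgebra k G)} {κ : Type} [Fintype κ] [DecidableEq κ]

/-- every class is in the system -/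
theorem all_K (hg : Good V N) (hT : T.IsTree)
    (hact : ∀ (g : G) (v w : V), T.Adj v w → T.Adj (g • v) (g • w))
    (hinv : ∀ (g : G) (v w : V), T.Adj v w → ¬ (g • v = w ∧ g • w = v)) 
    (hNil : ∀ (J : Type) [Fintype J] [DecidableEq J] (σ : J → V × V)
      (x y : Matrix J J (MonoidAlgebra k G)), Ty σ σ (fun q p => nb T p q) x →
      y * (1 + x) = 1 → N.Tr (1 + x))
    (hS : ∀ v w : V, T.Adj v w → AllSI (io k (MulAction.stabilizer G ((v, w) : V × V))))
    (X : (Matrix κ κ (MonoidAlgebra k G))ˣ) : N.car κ X := by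
  classical
  by_cases hsub : Subsingleton V
  · obtain ⟨v₀⟩ := hT.connected.nonempty
    apply hg.same (fun _ => v₀) X
    · intro i j g _
      exact Subsingleton.elim _ _
    · intro i j g _
      exact Subsingleton.elim _ _
  have hedge : ∃ v w, T.Adj v w := by
    by_contra hcon
    push Not at hcon
    apply hsub
    refine ⟨fun v w => ?_⟩
    by_contra hne
    obtain ⟨c, hc, _⟩ := toward_exists hT (w := v) (b := w) hne
    exact hcon _ _ hc
  obtain ⟨v₁, w₁, hvw⟩ := hedge
  obtain ⟨_, f₀, hf₀, _⟩ := isE_exists hact hinv hvw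
  set u₀ := f₀.1 with hu₀
  -- the coefficients
  let A : Type := {g : G // g ∈ suppF X.val}
  let C : A → Matrix κ κ k := fun a => Matrix.of fun i j => (X.val i j).coeff a.1
  let d : A → G := fun a => a.1
  have hX : X.val = Matrix.of fun i j => ∑ a, MonoidAlgebra.single (d a) (C a i j) := by
    ext1 i j
    rw [← sum_suppF X.val i j, Matrix.of_apply]
    exact (Finset.sum_coe_sort (suppF X.val)
      (fun g => MonoidAlgebra.single g ((X.val i j).coeff g))).symm
  -- the paths
  have hw : ∀ i, ∃ p : T.Walk u₀ (d i • u₀), True := fun i =>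
    ⟨(hT.connected u₀ (d i • u₀)).some, trivial⟩
  choose p _ using hw
  let r : A → ℕ := fun i => (p i).length
  let w : A → ℕ → V := fun i k => (p i).getVert k
  have hadjw : ∀ i k, k < r i → T.Adj (w i k) (w i (k + 1)) := fun i k hk =>
    (p i).adj_getVert_succ hk
  have hedge : ∀ i k, ∃ (h : G) (f : V × V), k < r i → (IsE G T f ∧
      (h • f = (w i k, w i (k + 1)) ∨ h • f = (w i (k + 1), w i k))) := by
    intro i k
    by_cases hk : k < r i
    · obtain ⟨h, f, h1, h2⟩ := isE_exists hact hinv (hadjw i k hk)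
      exact ⟨h, f, fun _ => ⟨h1, h2⟩⟩
    · exact ⟨1, f₀, fun h => absurd h hk⟩
  choose h f hf using hedge
  obtain ⟨M, hM, hMT⟩ := Red.same (a := X) (M := MK.Sub C d r h) (by
    have h9 := MK.sub_red (le_refl (MK.TG k G)) C d r h
    rw [← hX] at h9
    exact h9)
  -- the locations
  let ν : κ ⊕ (Σ p : κ × A, Fin (r p.2)) → V := Sum.elim (fun _ => u₀)
    (fun p => w p.1.2 (p.2.1 + 1))
  let ε : κ ⊕ (Σ p : κ × A, Fin (r p.2)) → V × V := Sum.elim (fun _ => f₀)
    (fun p => f p.1.2 p.2.1)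
  have hE : ∀ j, IsE G T (ε j) := by
    rintro (j | p)
    · exact hf₀
    · exact (hf p.1.2 p.2.1 p.2.2).1
  have hty : Ty ν ε (fun x f => x = f.1 ∨ x = f.2) M.val := by
    rw [hM]
    rintro (i | p₁) (j | q) g hg
    · unfold MK.Sub at hg
      rw [fromBlocks_apply₁₁, Matrix.of_apply, MonoidAlgebra.coeff_sum,
        Finsupp.finsetSum_apply] at hg
      left
      change g⁻¹ • u₀ = u₀
      obtain ⟨a, _, ha⟩ := Finset.exists_ne_zero_of_sum_ne_zero hg
      obtain ⟨h1, h2⟩ := MK.coeff_ite_ne ha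
      rw [h2, inv_smul_eq_iff]
      exact (p a).eq_of_length_eq_zero h1
    · unfold MK.Sub at hg
      rw [fromBlocks_apply₁₂, Matrix.of_apply] at hg
      obtain ⟨h2, h3⟩ := MK.coeff_ite_ne hg
      have h0 : 0 < r q.1.2 := by
        have := q.2.2
        omega
      have hw0 : w q.1.2 0 = u₀ := (p q.1.2).getVert_zero
      change g⁻¹ • u₀ = (f q.1.2 q.2.1).1 ∨ g⁻¹ • u₀ = (f q.1.2 q.2.1).2
      rw [h2, h3, inv_smul_eq_iff, inv_smul_eq_iff, ← hw0]
      rcases (hf q.1.2 0 h0).2 with h4 | h4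
      · left; exact (congrArg Prod.fst h4).symm
      · right; exact (congrArg Prod.snd h4).symm
    · unfold MK.Sub at hg
      rw [fromBlocks_apply₂₁, Matrix.of_apply] at hg
      obtain ⟨⟨h1, h2⟩, h3⟩ := MK.coeff_ite_ne hg
      left
      change g⁻¹ • w p₁.1.2 (p₁.2.1 + 1) = u₀
      rw [h3, inv_smul_eq_iff, h1]
      exact (p p₁.1.2).getVert_length
    · unfold MK.Sub at hg
      rw [fromBlocks_apply₂₂, Matrix.of_apply] at hg
      change g⁻¹ • w p₁.1.2 (p₁.2.1 + 1) = (f q.1.2 q.2.1).1 ∨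
        g⁻¹ • w p₁.1.2 (p₁.2.1 + 1) = (f q.1.2 q.2.1).2
      rcases MK.coeff_add_ne hg with hg | hg
      · obtain ⟨h1, h2⟩ := MK.coeff_ite_ne hg
        rw [← h1, h2, inv_smul_eq_iff, inv_smul_eq_iff]
        rcases (hf p₁.1.2 p₁.2.1 p₁.2.2).2 with h4 | h4
        · right; exact (congrArg Prod.snd h4).symm
        · left; exact (congrArg Prod.fst h4).symm
      · obtain ⟨⟨h1, h1'⟩, h2⟩ := MK.coeff_ite_ne hg
        have hlt : p₁.2.1 + 1 < r p₁.1.2 := by
          have h3 := q.2.2
          have h4 : r p₁.1.2 = r q.1.2 := by rw [h1]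
          omega
        rw [h1', ← h1, h2, inv_smul_eq_iff, inv_smul_eq_iff]
        rcases (hf p₁.1.2 (p₁.2.1 + 1) hlt).2 with h4 | h4
        · left; exact (congrArg Prod.fst h4).symm
        · right; exact (congrArg Prod.snd h4).symm
  have hVM : N.car _ M := by
    refine coreK hg hT hact hNil ν ε (fun j => (hE j).1)
      (fun g j j' hg => isE_good (hE j) (hE j') hg)
      (fun g j j' => isE_no (hE j) (hE j') g) M _ _
      (MK.two_parts ν ε (fun j => (hE j).1) M.val hty) Ty.res Ty.res ?_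
    intro j
    exact hS (ε j).1 (ε j).2 (hE j).1
  obtain ⟨v₂⟩ := hT.connected.nonempty
  have h1 := hg.of_TT v₂ hMT
  apply N.unst (μ := (Σ p : κ × A, Fin (r p.2)))
  have h2 : Units.map (stm (Σ p : κ × A, Fin (r p.2))) X =
      (M * (Units.map (stm (Σ p : κ × A, Fin (r p.2))) X)⁻¹)⁻¹ * M := by
    group
  rw [h2]
  exact N.mul _ _ (N.inv _ h1) hVM

end lin

end Pool.Agent.H1.KK
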