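import Pool.Agent.H1.KK.Mix

set_option autoImplicit false
set_option linter.unusedSectionVars false
set_option linter.unusedSimpArgs false

/-!
# The line graph without growth of the nilpotency index, and König's lemma
-/

namespace Pool.Agent.H1.KK

open Matrix TH57.Thr Pool.Agent.K4H37.MT Pool.Agent.H1.MV

section line

variable {k : Type} [Ring k] {G : Type} [Group G] {X : Type} [MulAction G X]
  {J : Type} [Fintype J] [DecidableEq J]

open Classical in
/-- the next locations -/
noncomputable def nxF (σ : J → X) (x : Matrix J J (MonoidAlgebra k G)) : Finset X :=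
  (Finset.univ : Finset (↥(suppF x) × J)).image fun b => b.1.1⁻¹ • σ b.2

/-- indices together with the next location -/
def Nx (σ : J → X) (x : Matrix J J (MonoidAlgebra k G)) : Type :=
  {a : J × ↥(nxF σ x) // ∃ (g : G) (j' : J), (x j' a.1).coeff g ≠ 0 ∧ g⁻¹ • σ j' = a.2.1}

noncomputable instance (σ : J → X) (x : Matrix J J (MonoidAlgebra k G)) : Fintype (Nx σ x) := by
  classical
  unfold Nx
  infer_instance

noncomputable instance (σ : J → X) (x : Matrix J J (MonoidAlgebra k G)) :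
    DecidableEq (Nx σ x) := Classical.decEq _

variable {σ : J → X} {x : Matrix J J (MonoidAlgebra k G)} {r : X → X → Prop}

/-- the index -/
def Nx.jj (a : Nx σ x) : J := a.1.1

/-- the next location -/
def Nx.nl (a : Nx σ x) : X := a.1.2.1

theorem Nx.ex (a : Nx σ x) : ∃ (g : G) (j' : J), (x j' a.jj).coeff g ≠ 0 ∧ g⁻¹ • σ j' = a.nl := a.2

theorem Nx.ext' {a b : Nx σ x} (h1 : a.jj = b.jj) (h2 : a.nl = b.nl) : a = b :=
  Subtype.ext (Prod.ext h1 (Subtype.ext h2))

theorem Nx.mk' {i j : J} {g : G} (h : (x i j).coeff g ≠ 0) :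
    ∃ a : Nx σ x, a.jj = j ∧ a.nl = g⁻¹ • σ i := by
  classical
  have h1 : g⁻¹ • σ i ∈ nxF σ x := by
    unfold nxF
    exact Finset.mem_image.2 ⟨(⟨g, mem_suppF h⟩, i), Finset.mem_univ _, rfl⟩
  exact ⟨⟨(j, ⟨_, h1⟩), g, i, h, rfl⟩, rfl, rfl⟩

variable (σ x)

/-- the location -/
def sN (a : Nx σ x) : X × X := (σ a.jj, a.nl)

/-- the columns -/
def Ncol : Matrix J (Nx σ x) (MonoidAlgebra k G) := Matrix.of fun i a => x i a.jj

/-- the parts of the columns -/
noncomputable def Nu : Matrix J (Nx σ x) (MonoidAlgebra k G) :=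
  MV.res σ (fun a : Nx σ x => a.nl) Eq (Ncol σ x)

/-- the projection to the index -/
noncomputable def Nv : Matrix (Nx σ x) J (MonoidAlgebra k G) :=
  Matrix.of fun a i => if i = a.jj then 1 else 0

open Classical in
theorem Nu_coeff (i : J) (a : Nx σ x) (g : G) : ((Nu σ x) i a).coeff g =
    if g⁻¹ • σ i = a.nl then (x i a.jj).coeff g else 0 := by
  unfold Nu
  rw [res_coeff]
  rfl

theorem Nu_Nv : Nu σ x * Nv σ x = x := by
  classical
  ext1 i j
  apply MonoidAlgebra.coeff_injective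
  ext g
  rw [Matrix.mul_apply, MonoidAlgebra.coeff_sum, Finsupp.finsetSum_apply]
  have h1 : ∀ a : Nx σ x, ((Nu σ x i a * Nv σ x a j).coeff g) =
      if j = a.jj ∧ g⁻¹ • σ i = a.nl then (x i j).coeff g else 0 := by
    intro a
    unfold Nv
    rw [Matrix.of_apply]
    by_cases h2 : j = a.jj
    · rw [if_pos h2, mul_one, Nu_coeff]
      by_cases h3 : g⁻¹ • σ i = a.nl
      · rw [if_pos h3, if_pos ⟨h2, h3⟩, h2]
      · rw [if_neg h3, if_neg (fun h => h3 h.2)]
    · rw [if_neg h2, mul_zero, if_neg (fun h => h2 h.1)]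
      rfl
  rw [Finset.sum_congr rfl (fun a _ => h1 a)]
  by_cases hg : (x i j).coeff g = 0
  · rw [hg]
    apply Finset.sum_eq_zero
    intro a _
    rw [ite_self]
  · obtain ⟨a, ha1, ha2⟩ := Nx.mk' (σ := σ) hg
    rw [Finset.sum_eq_single a]
    · rw [if_pos ⟨ha1.symm, ha2.symm⟩]
    · intro b _ hb
      rw [if_neg]
      rintro ⟨h2, h3⟩
      apply hb
      exact Nx.ext' (by rw [← h2, ha1]) (by rw [← h3, ha2])
    · intro h
      exact absurd (Finset.mem_univ _) h

theorem Nv_Nu_apply (a b : Nx σ x) : (Nv σ x * Nu σ x) a b = Nu σ x a.jj b := by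
  rw [Matrix.mul_apply, Finset.sum_eq_single a.jj]
  · unfold Nv
    rw [Matrix.of_apply, if_pos rfl, one_mul]
  · intro i _ hi
    unfold Nv
    rw [Matrix.of_apply, if_neg hi, zero_mul]
  · intro h
    exact absurd (Finset.mem_univ _) h

variable {σ x}

theorem sN_r (hx : Ty σ σ (fun q p => r p q) x) (a : Nx σ x) : r (sN σ x a).1 (sN σ x a).2 := by
  obtain ⟨g, j', h1, h2⟩ := a.ex
  change r (σ a.jj) a.nl
  rw [← h2]
  exact hx _ _ _ h1

theorem Ty.lineN (hr : ∀ (g : G) p q, r p q → r (g • p) (g • q))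
    (hx : Ty σ σ (fun q p => r p q) x) :
    Ty (sN σ x) (sN σ x) (fun q p => lin r p q) (Nv σ x * Nu σ x) := by
  classical
  intro a b g hg
  rw [Nv_Nu_apply, Nu_coeff] at hg
  by_cases h : g⁻¹ • σ a.jj = b.nl
  · exact ⟨sN_r hx b, h.symm, hr g⁻¹ _ _ (sN_r hx a)⟩
  · rw [if_neg h] at hg
    exact absurd rfl hg

/-- the nilpotency index does not grow -/
theorem line_nil (hr : ∀ (g : G) p q, r p q → r (g • p) (g • q)) (hD : Det r)
    (hx : Ty σ σ (fun q p => r p q) x) {n : ℕ} (hn0 : 0 < n) (hn : x ^ n = 0) :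
    (Nv σ x * Nu σ x) ^ n = 0 := by
  classical
  obtain ⟨l, rfl⟩ : ∃ l, n = l + 1 := ⟨n - 1, by omega⟩
  have h2 : ∀ l : ℕ, (Nv σ x * Nu σ x) ^ (l + 1) = Nv σ x * (x ^ l * Nu σ x) := by
    intro l
    induction l with
    | zero => rw [pow_zero, Matrix.one_mul, zero_add, pow_one]
    | succ l ihl =>
      rw [pow_succ, ihl, pow_succ]
      simp only [Matrix.mul_assoc]
      rw [← Matrix.mul_assoc (Nu σ x), Nu_Nv]
  rw [h2]
  -- the columns
  have hcol : x ^ l * Ncol σ x = 0 := by
    have h3 : Ncol σ x = x * (Matrix.of fun (i : J) (a : Nx σ x) => if i = a.jj then 1 else 0 :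
        Matrix J (Nx σ x) (MonoidAlgebra k G)) := by
      ext1 i a
      rw [Matrix.mul_apply, Finset.sum_eq_single a.jj]
      · rw [Matrix.of_apply, if_pos rfl, mul_one]; rfl
      · intro j _ hj
        rw [Matrix.of_apply, if_neg hj, mul_zero]
      · intro h
        exact absurd (Finset.mem_univ _) h
    rw [h3, ← Matrix.mul_assoc, ← pow_succ, hn, Matrix.zero_mul]
  have hsplit : Nu σ x + MV.res σ (fun a : Nx σ x => a.nl) (fun p q => ¬ p = q) (Ncol σ x) =
      Ncol σ x := res_add_not (ρ := Eq) _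
  have t1 : Ty σ (sN σ x) (fun q z => q = z.2 ∧ r z.1 z.2) (Nu σ x) := by
    intro i a g hg
    rw [Nu_coeff] at hg
    by_cases h : g⁻¹ • σ i = a.nl
    · exact ⟨h, sN_r hx a⟩
    · rw [if_neg h] at hg
      exact absurd rfl hg
  have t2 : Ty σ (sN σ x) (fun q z => ¬ q = z.2 ∧ r z.1 q ∧ r z.1 z.2)
      (MV.res σ (fun a : Nx σ x => a.nl) (fun p q => ¬ p = q) (Ncol σ x)) := by
    intro i a g hg
    rw [res_coeff] at hg
    by_cases h : ¬ g⁻¹ • σ i = a.nl
    · rw [if_pos h] at hg
      exact ⟨h, hx _ _ _ hg, sN_r hx a⟩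
    · rw [if_neg h] at hg
      exact absurd rfl hg
  have hpow : Ty σ σ (fun q p => Path r l p q) (x ^ l) := hx.pow hr l
  have hginv : GInv G (fun q p : X => Path r l p q) := fun g q p h => h.smul hr g
  have u1 : Ty σ (sN σ x) (fun q z => Path r l z.2 q ∧ r z.1 z.2) (x ^ l * Nu σ x) :=
    hpow.mul t1 hginv (fun q s z h1 h2 => ⟨by rw [← h2.1]; exact h1, h2.2⟩)
  have u2 : Ty σ (sN σ x) (fun q z => ∃ s, ¬ s = z.2 ∧ r z.1 s ∧ Path r l s q ∧ r z.1 z.2)
      (x ^ l * MV.res σ (fun a : Nx σ x => a.nl) (fun p q => ¬ p = q) (Ncol σ x)) :=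
    hpow.mul t2 hginv (fun q s z h1 h2 => ⟨s, h2.1, h2.2.1, h1, h2.2.2⟩)
  have h3 := (Ty.parts u1 u2 (by
    rintro q z ⟨h4, h5⟩ ⟨s, h6, h7, h8, _⟩
    obtain ⟨f, f0, fl, fs⟩ := Path.cons h5 h4
    obtain ⟨f', f0', fl', fs'⟩ := Path.cons h7 h8
    obtain ⟨u, u0, ul, us⟩ := h4
    obtain ⟨v, v0, vl, vs⟩ := h8
    have h9 := hD (l + 1) (fun i => if i = 0 then z.1 else u (i - 1))
      (fun i => if i = 0 then z.1 else v (i - 1)) (by
        intro i hi
        beta_reduce
        by_cases h : i = 0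
        · subst h
          rw [if_pos rfl, if_neg (by omega)]
          change r z.1 (u 0)
          rw [u0]; exact h5
        · rw [if_neg h, if_neg (by omega)]
          have := us (i - 1) (by omega)
          rwa [show i - 1 + 1 = i + 1 - 1 by omega] at this) (by
        intro i hi
        beta_reduce
        by_cases h : i = 0
        · subst h
          rw [if_pos rfl, if_neg (by omega)]
          change r z.1 (v 0)
          rw [v0]; exact h7
        · rw [if_neg h, if_neg (by omega)]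
          have := vs (i - 1) (by omega)
          rwa [show i - 1 + 1 = i + 1 - 1 by omega] at this) (by simp) (by simp [ul, vl]) 1
      (by omega)
    beta_reduce at h9
    rw [if_neg (by omega), if_neg (by omega)] at h9
    change u 0 = v 0 at h9
    rw [u0, v0] at h9
    exact h6 h9.symm) (by rw [← Matrix.mul_add, hsplit, hcol])).1
  rw [h3, Matrix.mul_zero]

end line

section loc

variable {k : Type} [Ring k] {G : Type} [Group G]

/-- After `m` passages to the line graph the stabilisers of the locations are in the class or the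
translations are in the system. -/
def LocU (N : KI (MonoidAlgebra k G)) (𝒩 : Subgroup G → Prop) (n : ℕ) :
    ∀ (_ : ℕ) (X : Type) (_ : MulAction G X) (_ : X → X → Prop) (J : Type)
    (_ : Fintype J) (_ : DecidableEq J) (_ : J → X) (_ : Matrix J J (MonoidAlgebra k G)), Prop
  | 0, X, _, r, J, _, _, σ, _ => ∀ j : J, ¬ 𝒩 (MulAction.stabilizer G (σ j)) →
      ∀ (q : X) (h : G) (d : ℕ), 0 < d → d < n → Path r d (σ j) q → h • q = σ j →
      HK N (Subgroup.closure ((MulAction.stabilizer G (σ j) : Set G) ∪ {h}))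
  | m + 1, X, _, r, _, _, _, σ, x => LocU N 𝒩 n m (X × X) inferInstance (lin r) (Nx σ x)
      inferInstance inferInstance (sN σ x) (Nv σ x * Nu σ x)

theorem nil_locU {N : KI (MonoidAlgebra k G)} {𝒩 : Subgroup G → Prop} (hC : Cls 𝒩)
    (hN : ∀ H, 𝒩 H → Nice (MonoidAlgebra k H)) {n : ℕ} (hn0 : 0 < n) (m : ℕ) :
    ∀ (X : Type) [iX : MulAction G X] (r : X → X → Prop)
    (_ : ∀ (g : G) p q, r p q → r (g • p) (g • q)) (_ : Det r)
    (J : Type) [iF : Fintype J] [iD : DecidableEq J] (σ : J → X)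
    (x : Matrix J J (MonoidAlgebra k G)) (_ : LocU N 𝒩 n m X iX r J iF iD σ x)
    (_ : Ty σ σ (fun q p => r p q) x) (_ : x ^ n = 0), N.Tr (1 + x) := by
  induction m with
  | zero =>
    intro X _ r hr hD J _ _ σ x hσ hx hn
    exact nil_mix hC hN hr hD hx hn hσ
  | succ m ih =>
    intro X _ r hr hD J _ _ σ x hσ hx hn
    have h1 := ih (X × X) (lin r) (lin_smul hr) (lin_det hD) (Nx σ x) (sN σ x) (Nv σ x * Nu σ x)
      hσ (Ty.lineN hr hx) (line_nil hr hD hx hn0 hn)
    have h3 := KI.Tr.uv _ _ h1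
    rwa [Nu_Nv] at h3

/-- a bad path -/
def BadW (N : KI (MonoidAlgebra k G)) (𝒩 : Subgroup G → Prop) (n : ℕ) {X : Type} [MulAction G X]
    (r : X → X → Prop) (m : ℕ) (f : ℕ → X) : Prop :=
  ¬ 𝒩 (Fx G m f) ∧ ∃ (F : ℕ → X) (h : G) (d : ℕ), 0 < d ∧ d < n ∧ (∀ i ≤ m, F i = f i) ∧
    (∀ i < m + d, r (F i) (F (i + 1))) ∧ (∀ i ≤ m, h • F (i + d) = F i) ∧
    ¬ HK N (Subgroup.closure ((Fx G m f : Set G) ∪ {h}))

theorem closure_mono' {A B : Subgroup G} (h : A ≤ B) (g : G) :
    Subgroup.closure ((A : Set G) ∪ {g}) ≤ Subgroup.closure ((B : Set G) ∪ {g}) :=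
  Subgroup.closure_mono (Set.union_subset_union_left _ h)

theorem Wd.lowN {X J : Type} [MulAction G X] [Fintype J] [DecidableEq J] {σ : J → X}
    {x : Matrix J J (MonoidAlgebra k G)} (m : ℕ) :
    ∀ (a : Nx σ x) (F : ℕ → X × X), Wd (sN σ x) (Nv σ x * Nu σ x) m a F →
      Wd σ x (m + 1) a.jj (low m F) := by
  classical
  induction m with
  | zero =>
    intro a F h
    have h0 : F 0 = sN σ x a := h
    obtain ⟨g, j', h1, h2⟩ := a.ex
    refine ⟨?_, j', g, h1, ?_⟩
    · unfold MV.low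
      rw [if_pos le_rfl, h0]; rfl
    · change g • MV.low 0 F (0 + 1) = σ j'
      unfold MV.low
      rw [if_neg (by omega), h0]
      change g • a.nl = σ j'
      rw [← h2, smul_inv_smul]
  | succ m ih =>
    intro a F h
    obtain ⟨h0, b, g, hg, hW⟩ := h
    rw [Nv_Nu_apply, Nu_coeff] at hg
    by_cases hba : g⁻¹ • σ b.jj = a.nl
    · rw [if_pos hba] at hg
      have h3 := ih b _ hW
      refine ⟨?_, b.jj, g, hg, ?_⟩
      · unfold MV.low
        rw [if_pos (by omega), h0]; rfl
      · convert h3 using 2 with i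
        unfold MV.low
        by_cases hi : i ≤ m
        · rw [if_pos (by omega), if_pos hi]; rfl
        · rw [if_neg (by omega), if_neg hi]; rfl
    · rw [if_neg hba] at hg
      exact absurd rfl hg

theorem not_locU {N : KI (MonoidAlgebra k G)} {𝒩 : Subgroup G → Prop} (hC : Cls 𝒩) {n : ℕ}
    (m : ℕ) :
    ∀ (X : Type) [iX : MulAction G X] (r : X → X → Prop)
    (J : Type) [iF : Fintype J] [iD : DecidableEq J] (σ : J → X)
    (x : Matrix J J (MonoidAlgebra k G)) (_ : ¬ LocU N 𝒩 n m X iX r J iF iD σ x),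
    ∃ (j : J) (f : ℕ → X), Wd σ x m j f ∧ BadW N 𝒩 n r m f := by
  induction m with
  | zero =>
    intro X _ r J _ _ σ x h
    unfold LocU at h
    push Not at h
    obtain ⟨j, h1, q, h, d, hd0, hdn, ⟨F, F0, Fd, Fs⟩, hq, hbad⟩ := h
    have hst : MulAction.stabilizer G (σ j) ≤ Fx G 0 (fun _ => σ j) := fun g hg i _ => hg
    refine ⟨j, fun _ => σ j, rfl, fun h3 => h1 (hC.anti _ _ hst h3), F, h, d, hd0, hdn, ?_, ?_,
      ?_, fun h4 => hbad (h4.anti (closure_mono' hst h))⟩
    · intro i hi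
      have : i = 0 := by omega
      rw [this, F0]
    · intro i hi
      exact Fs i (by omega)
    · intro i hi
      have : i = 0 := by omega
      rw [this, zero_add, Fd, hq, F0]
  | succ m ih =>
    intro X _ r J _ _ σ x h
    obtain ⟨a, F, hW, hF, F', h, d, hd0, hdn, h1, h2, h3, h4⟩ := ih (X × X) (lin r) (Nx σ x)
      (sN σ x) (Nv σ x * Nu σ x) h
    have hle : Fx G m F ≤ Fx G (m + 1) (low m F) := by
      intro g hg i hi
      unfold low
      by_cases h3 : i ≤ m
      · rw [if_pos h3]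
        exact congrArg Prod.fst (hg i h3)
      · rw [if_neg h3]
        exact congrArg Prod.snd (hg m le_rfl)
    refine ⟨a.jj, low m F, Wd.lowN m a F hW, fun h5 => hF (hC.anti _ _ hle h5), low (m + d) F', h,
      d, hd0, hdn, ?_, ?_, ?_, fun h5 => h4 (h5.anti (closure_mono' hle h))⟩
    · intro i hi
      unfold low
      by_cases h5 : i ≤ m
      · rw [if_pos (by omega), if_pos h5, h1 i h5]
      · have h6 : i = m + 1 := by omega
        subst h6
        rw [if_pos (by omega), if_neg h5, ← h1 m le_rfl]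
        exact (h2 m (by omega)).2.1.symm
    · intro i hi
      unfold low
      by_cases h5 : i + 1 ≤ m + d
      · rw [if_pos (by omega), if_pos h5, ← (h2 i (by omega)).2.1]
        exact (h2 i (by omega)).1
      · have h6 : i = m + d := by omega
        subst h6
        rw [if_pos le_rfl, if_neg h5]
        have := (h2 (m + d - 1) (by omega)).2.2
        rwa [show m + d - 1 + 1 = m + d by omega] at this
    · intro i hi
      unfold low
      by_cases h5 : i ≤ m
      · rw [if_pos (by omega), if_pos (by omega)]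
        exact congrArg Prod.fst (h3 i h5)
      · have h6 : i = m + 1 := by omega
        subst h6
        rw [if_neg (by omega), if_pos (by omega), ← (h2 m (by omega)).2.1]
        exact congrArg Prod.snd (h3 m le_rfl)

end loc

section koenig

variable {k : Type} [Ring k] {G : Type} [Group G] {X J : Type} [MulAction G X]
  {σ : J → X} {x : Matrix J J (MonoidAlgebra k G)}

/-- From `j` there are arbitrarily long words with the property. -/
def LgP (σ : J → X) (x : Matrix J J (MonoidAlgebra k G)) (PP : ℕ → (ℕ → X) → Prop) (j : J) :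
    Prop := ∀ m : ℕ, ∃ f : ℕ → X, Wd σ x m j f ∧ PP m f

/-- one more point -/
def cn (p : X) (g : G) (f : ℕ → X) (i : ℕ) : X := if i = 0 then p else g⁻¹ • f (i - 1)

theorem anti_le {PP : ℕ → (ℕ → X) → Prop} (hPP : ∀ m f, PP (m + 1) f → PP m f) {m n : ℕ}
    (h : m ≤ n) {f : ℕ → X} (hf : PP n f) : PP m f := by
  induction h with
  | refl => exact hf
  | step _ ih => exact ih (hPP _ _ hf)

theorem LgP.step [Finite J] {PP : ℕ → (ℕ → X) → Prop} (hPP : ∀ m f, PP (m + 1) f → PP m f)
    {j : J} (h : LgP σ x PP j) :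
    ∃ (j' : J) (g : G), (x j' j).coeff g ≠ 0 ∧
      LgP σ x (fun m f => PP (m + 1) (cn (σ j) g f)) j' := by
  classical
  have := Fintype.ofFinite J
  let A : Finset (J × G) := (Finset.univ : Finset J).biUnion fun j' =>
    ((x j' j).coeff.support).image fun g => (j', g)
  have hA : ∀ p : J × G, (x p.1 j).coeff p.2 ≠ 0 → p ∈ A := by
    rintro ⟨j', g⟩ hp
    refine Finset.mem_biUnion.2 ⟨j', Finset.mem_univ _, ?_⟩
    exact Finset.mem_image.2 ⟨g, Finsupp.mem_support_iff.2 hp, rfl⟩
  by_contra hcon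
  push Not at hcon
  have hb : ∀ p : J × G, ∃ m : ℕ, (x p.1 j).coeff p.2 ≠ 0 → ∀ (f : ℕ → X),
      Wd σ x m p.1 f → ¬ PP (m + 1) (cn (σ j) p.2 f) := by
    intro p
    by_cases hp : (x p.1 j).coeff p.2 ≠ 0
    · have h1 := hcon p.1 p.2 hp
      unfold LgP at h1
      push Not at h1
      obtain ⟨m, hm⟩ := h1
      exact ⟨m, fun _ f h1 => hm f h1⟩
    · exact ⟨0, fun h => absurd h hp⟩
  choose b hb using hb
  obtain ⟨f, hW, hbad⟩ := h (A.sup b + 1)
  obtain ⟨h0, j', g₀, hg₀, hW'⟩ := hW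
  have hle : b (j', g₀) ≤ A.sup b := Finset.le_sup (f := b) (hA (j', g₀) hg₀)
  refine hb (j', g₀) hg₀ (fun i => g₀ • f (i + 1)) (hW'.initl hle) ?_
  have h1 : cn (σ j) (j', g₀).2 (fun i => g₀ • f (i + 1)) = f := by
    funext i
    unfold cn
    by_cases hi : i = 0
    · rw [if_pos hi, hi, h0]
    · rw [if_neg hi]
      beta_reduce
      rw [inv_smul_smul, show i - 1 + 1 = i by omega]
  rw [h1]
  exact anti_le hPP (by omega) hbad

/-- the data of an infinite word -/
structure NdP (σ : J → X) (x : Matrix J J (MonoidAlgebra k G)) where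
  /-- the property -/
  PP : ℕ → (ℕ → X) → Prop
  /-- it is inherited by initial segments -/
  an : ∀ m f, PP (m + 1) f → PP m f
  /-- the state -/
  j : J
  /-- the translation to the first coordinate system -/
  t : G
  /-- there are long words -/
  lg : LgP σ x PP j

/-- König's lemma. -/
theorem exists_rayP [Finite J] {PP : ℕ → (ℕ → X) → Prop} (hPP : ∀ m f, PP (m + 1) f → PP m f)
    (hPc : ∀ m f f', (∀ i ≤ m, f i = f' i) → PP m f → PP m f') (r : X → X → Prop)
    (hr : ∀ (g : G) p q, r p q → r (g • p) (g • q)) (hx : Ty σ σ (fun q p => r p q) x)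
    {j : J} (h : LgP σ x PP j) :
    ∃ f : ℕ → X, f 0 = σ j ∧ (∀ i, r (f i) (f (i + 1))) ∧ ∀ n, PP n f := by
  classical
  have hstep : ∀ N : NdP σ x, ∃ N' : NdP σ x, ∃ g : G, (x N'.j N.j).coeff g ≠ 0 ∧
      N'.PP = (fun m f => N.PP (m + 1) (cn (σ N.j) g f)) ∧ N'.t = N.t * g⁻¹ := by
    intro N
    obtain ⟨j', g, hg, hL⟩ := LgP.step N.an N.lg
    exact ⟨⟨_, fun m f h => N.an _ _ h, j', N.t * g⁻¹, hL⟩, g, hg, rfl, rfl⟩
  choose nx gg hgg hH ht using hstep
  let S : ℕ → NdP σ x := fun n => Nat.rec ⟨PP, hPP, j, 1, h⟩ (fun _ N => nx N) n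
  have hS : ∀ n, S (n + 1) = nx (S n) := fun n => rfl
  have hS0 : S 0 = ⟨PP, hPP, j, 1, h⟩ := rfl
  let F : ℕ → X := fun n => (S n).t • σ (S n).j
  have hts : ∀ s, (S (s + 1)).t = (S s).t * (gg (S s))⁻¹ := fun s => by rw [hS, ht]
  have key : ∀ (s m : ℕ) (f' : ℕ → X), (S s).PP m f' →
      PP (m + s) (fun i => if i < s then F i else (S s).t • f' (i - s)) := by
    intro s
    induction s with
    | zero =>
      intro m f' h1
      rw [hS0] at h1
      have e1 : (fun i => if i < 0 then F i else (S 0).t • f' (i - 0)) = f' := by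
        funext i
        rw [if_neg (by omega), hS0]
        change (1 : G) • f' (i - 0) = f' i
        rw [one_smul, Nat.sub_zero]
      rw [e1]
      exact h1
    | succ s ih =>
      intro m f' h1
      rw [hS, hH] at h1
      have h2 := ih (m + 1) _ h1
      have h3 : m + 1 + s = m + (s + 1) := by omega
      rw [h3] at h2
      convert h2 using 2 with i
      rcases Nat.lt_trichotomy i s with h4 | h4 | h4
      · rw [if_pos (by omega), if_pos h4]
      · subst h4
        rw [if_pos (by omega), if_neg (by omega)]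
        unfold cn
        rw [if_pos (by omega)]
      · rw [if_neg (by omega), if_neg (by omega)]
        unfold cn
        rw [if_neg (by omega), hts, mul_smul, show i - s - 1 = i - (s + 1) by omega]
  refine ⟨F, ?_, ?_, ?_⟩
  · change (S 0).t • σ (S 0).j = σ j
    rw [hS0, one_smul]
  · intro i
    have h1 := hx (S (i + 1)).j (S i).j (gg (S i)) (by rw [hS]; exact hgg (S i))
    have h2 := hr (S i).t _ _ h1
    rw [← mul_smul] at h2
    change r ((S i).t • σ (S i).j) ((S (i + 1)).t • σ (S (i + 1)).j)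
    rw [hts]
    exact h2
  · intro n
    obtain ⟨f, hW, hbad⟩ := (S n).lg 0
    have hW' : f 0 = σ (S n).j := hW
    have h1 := key n 0 f hbad
    rw [zero_add] at h1
    refine hPc _ _ _ ?_ h1
    intro i hi
    beta_reduce
    rcases Nat.lt_or_ge i n with h2 | h2
    · rw [if_pos h2]
    · have h3 : i = n := by omega
      subst h3
      rw [if_neg (by omega), Nat.sub_self, hW']

end koenig

section main

variable {k : Type} [Ring k] {G : Type} [Group G]

theorem BadW.anti {N : KI (MonoidAlgebra k G)} {𝒩 : Subgroup G → Prop} (hC : Cls 𝒩) {n : ℕ}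
    {X : Type} [MulAction G X] {r : X → X → Prop} {m : ℕ} {f : ℕ → X}
    (h : BadW N 𝒩 n r (m + 1) f) : BadW N 𝒩 n r m f := by
  obtain ⟨h1, F, g, d, hd0, hdn, h2, h3, h4, h5⟩ := h
  have hle : Fx G (m + 1) f ≤ Fx G m f := fun u hu i hi => hu i (by omega)
  exact ⟨fun h6 => h1 (hC.anti _ _ hle h6), F, g, d, hd0, hdn, fun i hi => h2 i (by omega),
    fun i hi => h3 i (by omega), fun i hi => h4 i (by omega),
    fun h6 => h5 (h6.anti (closure_mono' hle g))⟩

theorem BadW.congr {N : KI (MonoidAlgebra k G)} {𝒩 : Subgroup G → Prop} {n : ℕ}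
    {X : Type} [MulAction G X] {r : X → X → Prop} {m : ℕ} {f f' : ℕ → X}
    (hf : ∀ i ≤ m, f i = f' i) (h : BadW N 𝒩 n r m f) : BadW N 𝒩 n r m f' := by
  have hFx : Fx G m f = Fx G m f' := by
    ext g
    constructor
    · intro h i hi
      rw [← hf i hi]; exact h i hi
    · intro h i hi
      rw [hf i hi]; exact h i hi
  obtain ⟨h1, F, g, d, hd0, hdn, h2, h3, h4, h5⟩ := h
  rw [hFx] at h1 h5
  exact ⟨h1, F, g, d, hd0, hdn, fun i hi => (h2 i hi).trans (hf i hi), h3, h4, h5⟩

theorem exists_locU {N : KI (MonoidAlgebra k G)} {𝒩 : Subgroup G → Prop} (hC : Cls 𝒩) {n : ℕ}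
    {X J : Type} [MulAction G X] [Fintype J] [DecidableEq J] {σ : J → X}
    {x : Matrix J J (MonoidAlgebra k G)} (r : X → X → Prop)
    (hr : ∀ (g : G) p q, r p q → r (g • p) (g • q)) (hx : Ty σ σ (fun q p => r p q) x)
    (hray : ∀ f : ℕ → X, (∀ i, r (f i) (f (i + 1))) → ∃ m, ¬ BadW N 𝒩 n r m f) :
    ∃ m, LocU N 𝒩 n m X inferInstance r J inferInstance inferInstance σ x := by
  classical
  by_contra hcon
  push Not at hcon
  have h1 := fun m => not_locU hC m X r J σ x (hcon m)
  have h2 : ∃ j, LgP σ x (fun m f => BadW N 𝒩 n r m f) j := by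
    by_contra hno
    unfold LgP at hno
    push Not at hno
    choose b hb using hno
    obtain ⟨j, f, hW, hf⟩ := h1 (Finset.univ.sup b)
    have hle : b j ≤ Finset.univ.sup b := Finset.le_sup (f := b) (Finset.mem_univ j)
    exact hb j f (hW.initl hle) (anti_le (PP := fun m f => BadW N 𝒩 n r m f)
      (fun m f h => BadW.anti hC h) hle hf)
  obtain ⟨j, hj⟩ := h2
  obtain ⟨f, _, hf, hfix⟩ := exists_rayP (PP := fun m f => BadW N 𝒩 n r m f)
    (fun m f h => BadW.anti hC h) (fun m f f' h h' => BadW.congr h h') r hr hx hj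
  obtain ⟨m, hm⟩ := hray f hf
  exact hm (hfix m)

/-- **Nilpotent located matrices**: for each ray and each length `d` an initial segment has a
stabiliser in the class, or together with each translation by `d` it generates a subgroup whose
group ring has only classes in the system. -/
theorem nil_U {N : KI (MonoidAlgebra k G)} {𝒩 : Subgroup G → Prop} (hC : Cls 𝒩)
    (hN : ∀ H, 𝒩 H → Nice (MonoidAlgebra k H))
    {X J : Type} [MulAction G X] [Fintype J] [DecidableEq J] {σ : J → X}
    {x : Matrix J J (MonoidAlgebra k G)} (r : X → X → Prop)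
    (hr : ∀ (g : G) p q, r p q → r (g • p) (g • q)) (hD : Det r)
    (hx : Ty σ σ (fun q p => r p q) x) {n : ℕ} (hn : x ^ n = 0)
    (hray : ∀ f : ℕ → X, (∀ i, r (f i) (f (i + 1))) → ∀ d : ℕ, 0 < d →
      ∃ m, 𝒩 (Fx G m f) ∨ ∀ h : G, (∀ i ≤ m, h • f (i + d) = f i) →
        HK N (Subgroup.closure ((Fx G m f : Set G) ∪ {h}))) : N.Tr (1 + x) := by
  classical
  obtain ⟨m, hm⟩ := exists_locU (N := N) (n := n + 1) hC r hr hx (by
    intro f hf
    have h1 : ∀ d : ℕ, ∃ m, 0 < d → (𝒩 (Fx G m f) ∨ ∀ h : G, (∀ i ≤ m, h • f (i + d) = f i) →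
        HK N (Subgroup.closure ((Fx G m f : Set G) ∪ {h}))) := by
      intro d
      rcases Nat.eq_zero_or_pos d with h | h
      · exact ⟨0, fun h' => absurd h' (by omega)⟩
      · obtain ⟨m, hm⟩ := hray f hf d h
        exact ⟨m, fun _ => hm⟩
    choose M hM using h1
    refine ⟨(Finset.range (n + 1)).sup fun d => M d + d, ?_⟩
    rintro ⟨h1, F, h, d, hd0, hdn, h2, h3, h4, h5⟩
    obtain ⟨m, hm⟩ : ∃ m, m = (Finset.range (n + 1)).sup fun d => M d + d := ⟨_, rfl⟩
    rw [← hm] at h1 h2 h3 h4 h5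
    have hle : M d + d ≤ m := by
      rw [hm]
      exact Finset.le_sup (f := fun d => M d + d) (Finset.mem_range.2 hdn)
    have hFx : Fx G m f ≤ Fx G (M d) f := fun u hu i hi => hu i (by omega)
    rcases hM d hd0 with h6 | h6
    · exact h1 (hC.anti _ _ hFx h6)
    · apply h5
      refine (h6 h ?_).anti (closure_mono' hFx h)
      intro i hi
      rw [← h2 (i + d) (by omega), h4 i (by omega), h2 i (by omega)])
  exact nil_locU hC hN (Nat.succ_pos n) m X r hr hD J σ x hm hx (by rw [pow_succ, hn, zero_mul])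

end main

section tree

variable {k : Type} [Ring k] {G V : Type} [Group G] [MulAction G V] {T : SimpleGraph V}
  {J : Type} [Fintype J] [DecidableEq J] {σ : J → V × V}

/-- Invertible matrices `1 + x` with a located matrix `x` over a tree. -/
theorem tr_of_tree {N : KI (MonoidAlgebra k G)} (hT : T.IsTree)
    (hact : ∀ (g : G) (v w : V), T.Adj v w → T.Adj (g • v) (g • w))
    {𝒩 : Subgroup G → Prop} (hC : Cls 𝒩) (hN : ∀ H, 𝒩 H → Nice (MonoidAlgebra k H))
    (hm : ∀ p : ℕ → V, (∀ i, T.Adj (p i) (p (i + 1))) → (∀ i, p (i + 2) ≠ p i) →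
      ∀ d : ℕ, 0 < d → ∃ n, 𝒩 (Fx G n p) ∨ ∀ h : G, (∀ i ≤ n, h • p (i + d) = p i) →
        HK N (Subgroup.closure ((Fx G n p : Set G) ∪ {h})))
    {x y : Matrix J J (MonoidAlgebra k G)} (hx : Ty σ σ (fun q p => nb T p q) x)
    (h2 : y * (1 + x) = 1) : N.Tr (1 + x) := by
  obtain ⟨n, hn⟩ := nilp_of_unit hT hact hx h2
  refine nil_U hC hN (nb T) (fun g p q h => nb_smul hact g p q h)
    (fun n p q hp hq h0 hn => nb_det hT n p q hp hq h0 hn) hx hn ?_
  intro f hf d hd
  obtain ⟨m, hm⟩ := hm (fun i => (f i).1) (fun i => by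
    beta_reduce
    rw [(hf i).2.2.1]; exact (hf i).1) (fun i => by
    beta_reduce
    rw [(hf (i + 1)).2.2.1]; exact (hf i).2.2.2) d hd
  have hFx : Fx G m f ≤ Fx G m (fun i => (f i).1) := fun u hu i hi =>
    congrArg Prod.fst (hu i hi)
  refine ⟨m, ?_⟩
  rcases hm with h | h
  · left
    exact hC.anti _ _ hFx h
  · right
    intro g hg
    exact (h g (fun i hi => congrArg Prod.fst (hg i hi))).anti (closure_mono' hFx g)

end tree

end Pool.Agent.H1.KK
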