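import Pool.Agent.H1.KK.SeMap
import Pool.Agent.H1.KK.LinK
import Pool.Agent.H1.KK.LineU
import Pool.Agent.H1.MK.KZero

set_option autoImplicit false
set_option linter.unusedSectionVars false
set_option linter.unusedSimpArgs false

/-!
# The boundary map and stably induced modules
-/

namespace Pool.Agent.H1.KK

open Matrix TH57.Thr Pool.Agent.K4H37.MT Pool.Agent.H1.MV Pool.Agent.H1.MK

section km

variable {S : Type} [Ring S] {m n : Type} [Fintype m] [DecidableEq m] [Fintype n] [DecidableEq n]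

/-- the class of an idempotent matrix -/
def km (e : Matrix m m S) (he : e * e = e) : KZ S :=
  @kz S _ (Mo e) _ _ (mo_finite e) (mo_projective he)

theorem km_eq {e : Matrix m m S} (he : e * e = e) {f : Matrix n n S} (hf : f * f = f) :
    km e he = km f hf ↔ SE (S := S) (Mo e) (Mo f) :=
  @kz_eq S _ (Mo e) (Mo f) _ _ (mo_finite e) (mo_projective he) _ _ (mo_finite f)
    (mo_projective hf)

theorem km_mul {e : Matrix m m S} (he : e * e = e) {f : Matrix n n S} (hf : f * f = f) :
    km e he * km f hf = km (fromBlocks e 0 0 f) (blocks_idem he hf) := by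
  have i1 := mo_finite e
  have i2 := mo_projective he
  have i3 := mo_finite f
  have i4 := mo_projective hf
  have i5 := mo_finite (fromBlocks e 0 0 f)
  have i6 := mo_projective (blocks_idem he hf)
  have h1 : km e he * km f hf = kz (S := S) (Mo e × Mo f) := rfl
  rw [h1]
  exact kz_eq.2 (SE.of_equiv (moBlocks e f).symm)

theorem km_one : km (1 : Matrix m m S) (Matrix.one_mul _) = 1 := by
  have i1 := mo_finite (1 : Matrix m m S)
  have i2 := mo_projective (Matrix.one_mul (1 : Matrix m m S))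
  exact (@kz_one_iff S _ (Mo (1 : Matrix m m S)) _ _ i1 i2).2
    (StablyFree.iso (moOne S m).symm StablyFree.of_free)

theorem km_compl {e : Matrix m m S} (he : e * e = e) :
    km (1 - e) (one_sub_idem he) * km e he = 1 := by
  have i1 := mo_finite e
  have i2 := mo_projective he
  have i3 := mo_finite (1 - e)
  have i4 := mo_projective (one_sub_idem he)
  have h1 : km (1 - e) (one_sub_idem he) * km e he = kz (S := S) (Mo (1 - e) × Mo e) := rfl
  rw [h1, kz_one_iff]
  exact StablyFree.iso ((LinearEquiv.prodComm S _ _).trans (dec e he).symm).symm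
    StablyFree.of_free

variable {k : Type} [Ring k]

/-- the classes which are induced -/
noncomputable def IK (φ : k →+* S) : Subgroup (KZ S) where
  carrier := {x | ∃ (ν : Type) (_ : Fintype ν) (_ : DecidableEq ν) (p : Matrix ν ν k)
    (hp : p * p = p), x = km (p.map φ) (map_idem φ hp)}
  mul_mem' := by
    rintro _ _ ⟨ν, i1, i2, p, hp, rfl⟩ ⟨ν', i3, i4, p', hp', rfl⟩
    refine ⟨ν ⊕ ν', inferInstance, inferInstance, fromBlocks p 0 0 p', blocks_idem hp hp', ?_⟩
    rw [km_mul, km_eq]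
    rw [blocks_map]
    exact SE.refl _
  one_mem' := by
    refine ⟨Unit, inferInstance, inferInstance, 1, Matrix.one_mul _, ?_⟩
    rw [← km_one (m := Unit), km_eq, Matrix.map_one _ (map_zero _) (map_one _)]
    exact SE.refl _
  inv_mem' := by
    rintro _ ⟨ν, i1, i2, p, hp, rfl⟩
    refine ⟨ν, i1, i2, 1 - p, one_sub_idem hp, ?_⟩
    rw [inv_eq_iff_mul_eq_one, mul_comm, ← km_compl (map_idem φ hp)]
    congr 1
    rw [km_eq, sub_map]
    exact SE.refl _

theorem km_mem {φ : k →+* S} {e : Matrix m m S} (he : e * e = e) :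
    km e he ∈ IK φ ↔ SI φ (Mo e) := by
  constructor
  · rintro ⟨ν, i1, i2, p, hp, h⟩
    rw [km_eq] at h
    exact ⟨ν, i1, i2, p, hp, h⟩
  · rintro ⟨ν, i1, i2, p, hp, h⟩
    refine ⟨ν, i1, i2, p, hp, ?_⟩
    rw [km_eq]
    exact h

end km

section fun_

variable {S' S : Type} [Ring S'] [Ring S] (φ : S' →+* S) {ι : Type} [Fintype ι] [DecidableEq ι]

/-- **Functoriality of the boundary map**: the boundary of the matrices which come from `S'` is
induced. -/
theorem bd_map2 (u : (Matrix ι ι (Lau S'))ˣ) (u' : (Matrix ι ι (Lau S))ˣ)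
    (hu : u'.val = u.val.map (LF φ)) : ∃ (n : ℕ) (p : Matrix (Fin n) (Fin n) S') (hp : p * p = p),
      Bd u' (km (p.map φ) (map_idem φ hp)) := by
  classical
  obtain ⟨x, k, hk⟩ := Bd.exists u
  obtain ⟨hle, P, _, _, _, _, f, hf, hf0, _⟩ := hk k le_rfl
  obtain ⟨n, p, hp, ⟨e⟩⟩ := exists_mo (S := S') P
  -- the quotient map with values in rows
  let f₁ : Dl u →ₗ[S'] (Fin n → S') := (Mo p).subtype ∘ₗ e.toLinearMap ∘ₗ f
  have hf1 : ∀ d, f₁ d = ((e (f d) : Mo p) : Fin n → S') := fun _ => rfl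
  have hf1p : ∀ d, f₁ d ᵥ* p = f₁ d := fun d => (mem_mo_iff hp _).1 (e (f d)).2
  have hf10 : ∀ d : Dl u, f₁ d = 0 ↔ (d : ι → Lau S') ∈ Lc S' ι k := by
    intro d
    rw [← hf0 d, hf1]
    constructor
    · intro h
      exact e.map_eq_zero_iff.1 (Subtype.ext h)
    · intro h
      rw [h, map_zero]; rfl
  have hsec : ∀ l : Fin n, ∃ σ : Dl u, f₁ σ = p l := by
    intro l
    have h1 : p l ∈ Mo p := by
      refine ⟨Pi.single l 1, ?_⟩
      change Pi.single l 1 ᵥ* p = p l
      rw [Matrix.single_one_vecMul]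
      rfl
    obtain ⟨d, hd⟩ := hf (e.symm ⟨p l, h1⟩)
    refine ⟨d, ?_⟩
    rw [hf1, hd, LinearEquiv.apply_symm_apply]
  choose σ hσ using hsec
  have hker : ∀ d : Dl u, (d : ι → Lau S') - ∑ l, f₁ d l • (σ l : ι → Lau S') ∈ Lc S' ι k := by
    intro d
    have h1 : (d : ι → Lau S') - ∑ l, f₁ d l • (σ l : ι → Lau S') =
        ((d - ∑ l, f₁ d l • σ l : Dl u) : ι → Lau S') := by
      rw [Submodule.coe_sub, Submodule.coe_sum]
      rfl
    rw [h1, ← hf10, map_sub, map_sum]
    have h2 : ∑ l, f₁ (f₁ d l • σ l) = f₁ d ᵥ* p := by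
      funext j
      rw [Finset.sum_apply]
      apply Finset.sum_congr rfl
      intro l _
      rw [map_smul, hσ]
      rfl
    rw [h2, hf1p, sub_self]
  -- the retraction
  let r : (ι → Lau S') →ₗ[S'] Dl u := LinearMap.codRestrict (Dl u)
    ((rm u).toLinearMap ∘ₗ trn S' ι ∘ₗ (rm u).symm.toLinearMap)
    (fun v => Submodule.mem_map_of_mem (trn_mem _))
  have hr : ∀ d : Dl u, r (d : ι → Lau S') = d := by
    rintro ⟨_, ⟨w, hw, rfl⟩⟩
    apply Subtype.ext
    change rm u (trn S' ι ((rm u).symm (rm u w))) = rm u w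
    rw [LinearEquiv.symm_apply_apply, trn_eq hw]
  obtain ⟨g, hg⟩ : ∃ g : (ι → Lau S) →ₗ[S] (Fin n → S),
      ∀ d : Dl u, g (rw' φ (d : ι → Lau S')) = fun l => φ (f₁ d l) := by
    refine ⟨ext' φ (f₁ ∘ₗ r), ?_⟩
    intro d
    have h1 := ext'_rw φ (f₁ ∘ₗ r) (d : ι → Lau S')
    rw [LinearMap.comp_apply, hr] at h1
    exact h1
  -- induction over the lattice
  have hind : ∀ {Q : (ι → Lau S) → Prop}, Q 0 → (∀ v w, Q v → Q w → Q (v + w)) →
      (∀ (c : S) v, Q v → Q (c • v)) → (∀ d : Dl u, Q (rw' φ (d : ι → Lau S'))) →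
      ∀ w ∈ Dl u', Q w := by
    intro Q h0 hadd hsmul hd
    rintro _ ⟨w, hw, rfl⟩
    refine lat_ind (a := fun _ => (0 : ℤ)) (P := fun w => Q (rm u' w))
      ?_ ?_ ?_ ?_ w hw
    · beta_reduce
      rw [map_zero]; exact h0
    · intro v w hv hw
      rw [map_add]; exact hadd _ _ hv hw
    · intro c v hv
      rw [map_smul]; exact hsmul _ _ hv
    · intro i m hm
      have h1 : rm u' (mno S i m) =
          rw' φ (rm u (mno S' i m) : ι → Lau S') := by
        rw [rm_apply, rm_apply, rw_vecMul, rw_mno, hu]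
      rw [h1]
      exact hd ⟨_, Submodule.mem_map_of_mem (mno_Lc hm)⟩
  have hpφ : (p.map φ) * (p.map φ) = p.map φ := by
    rw [← Matrix.map_mul, hp]
  have hgm : ∀ w ∈ Dl u', g w ∈ Mo (p.map φ) := by
    refine hind ?_ ?_ ?_ ?_
    · rw [map_zero]; exact Submodule.zero_mem _
    · intro v w hv hw
      rw [map_add]; exact Submodule.add_mem _ hv hw
    · intro c v hv
      rw [map_smul]; exact Submodule.smul_mem _ _ hv
    · intro d
      rw [hg, mem_mo_iff hpφ]
      funext j
      have h1 := congrFun (hf1p d) j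
      change ∑ l, φ (f₁ d l) * φ (p l j) = φ (f₁ d j)
      rw [← h1]
      change _ = φ (∑ l, f₁ d l * p l j)
      rw [map_sum]
      apply Finset.sum_congr rfl
      intro l _
      rw [map_mul]
  have hgk : ∀ w ∈ Dl u',
      w - ∑ l, g w l • rw' φ (σ l : ι → Lau S') ∈ Lc S ι k := by
    refine hind ?_ ?_ ?_ ?_
    · rw [map_zero]
      simp
    · intro v w hv hw
      have h1 : v + w - ∑ l, g (v + w) l • rw' φ (σ l : ι → Lau S') =
          (v - ∑ l, g v l • rw' φ (σ l : ι → Lau S')) +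
          (w - ∑ l, g w l • rw' φ (σ l : ι → Lau S')) := by
        rw [map_add]
        simp only [Pi.add_apply, add_smul, Finset.sum_add_distrib]
        abel
      rw [h1]
      exact Submodule.add_mem _ hv hw
    · intro c v hv
      have h1 : c • v - ∑ l, g (c • v) l • rw' φ (σ l : ι → Lau S') =
          c • (v - ∑ l, g v l • rw' φ (σ l : ι → Lau S')) := by
        rw [map_smul, smul_sub, Finset.smul_sum]
        simp only [Pi.smul_apply, smul_eq_mul, mul_smul]
      rw [h1]
      exact Submodule.smul_mem _ _ hv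
    · intro d
      rw [hg]
      have h1 : rw' φ (d : ι → Lau S') - ∑ l, φ (f₁ d l) • rw' φ (σ l : ι → Lau S') =
          rw' φ ((d : ι → Lau S') - ∑ l, f₁ d l • (σ l : ι → Lau S')) := by
        rw [sub_eq_iff_eq_add]
        have h2 : ∀ (T : Finset (Fin n)), rw' φ (∑ l ∈ T, f₁ d l • (σ l : ι → Lau S')) =
            ∑ l ∈ T, φ (f₁ d l) • rw' φ (σ l : ι → Lau S') := by
          intro T
          induction T using Finset.induction_on with
          | empty =>
            rw [Finset.sum_empty, Finset.sum_empty]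
            funext i
            exact map_zero (LF φ)
          | insert l T hl ih =>
            rw [Finset.sum_insert hl, Finset.sum_insert hl, rw_add, rw_smul, ih]
        rw [← h2, ← rw_add, sub_add_cancel]
      rw [h1]
      exact rw_Lc φ (hker d)
  have hle' : Lc S ι k ≤ Dl u' := by
    apply lat_le
    intro i m hm
    obtain ⟨v, hv, hv'⟩ := hle (mno_Lc (S := S') (i := i) hm)
    refine ⟨rw' φ v, rw_Lc φ hv, ?_⟩
    have h1 : rw' φ (rm u v : ι → Lau S') = rw' φ (mno S' i m) := congrArg (rw' φ) hv'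
    rw [rw_mno, rm_apply, rw_vecMul, ← hu] at h1
    exact h1
  have hg0 : ∀ w ∈ Lc S ι k, g w = 0 := by
    intro w hw
    refine lat_ind (a := fun _ => k) (P := fun w => g w = 0) (map_zero g) ?_ ?_ ?_ w hw
    · intro v w hv hw
      rw [map_add, hv, hw, add_zero]
    · intro c v hv
      rw [map_smul, hv, smul_zero]
    · intro i m hm
      have h1 : mno S' i m ∈ Lc S' ι k := mno_Lc hm
      have h2 := hg ⟨_, hle h1⟩
      rw [rw_mno] at h2
      rw [h2, (hf10 ⟨_, hle h1⟩).2 h1]
      funext l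
      exact map_zero φ
  have hfin := mo_finite (p.map φ)
  have hproj := mo_projective hpφ
  obtain ⟨F, hF⟩ : ∃ F : Dl u' →ₗ[S] Mo (p.map φ),
      ∀ w, ((F w : Mo (p.map φ)) : Fin n → S) = g w :=
    ⟨LinearMap.codRestrict (Mo (p.map φ)) (g.domRestrict (Dl u'))
      (fun w => hgm w.1 w.2), fun w => rfl⟩
  have hσ' : ∀ l, rw' φ (σ l : ι → Lau S') ∈ Dl u' := by
    intro l
    obtain ⟨w, hw, hw'⟩ := (σ l).2
    refine ⟨rw' φ w, rw_Lc φ hw, ?_⟩
    have h1 : rw' φ (rm u w : ι → Lau S') = rw' φ (σ l : ι → Lau S') := congrArg (rw' φ) hw'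
    rw [rm_apply, rw_vecMul, ← hu] at h1
    exact h1
  have hsurj : Function.Surjective F := by
    rintro ⟨w, ⟨v, hv⟩⟩
    refine ⟨⟨_, Submodule.sum_mem _ (fun l (_ : l ∈ Finset.univ) =>
      Submodule.smul_mem _ (v l) (hσ' l))⟩, ?_⟩
    apply Subtype.ext
    rw [hF]
    refine Eq.trans ?_ hv
    change g (∑ l, v l • rw' φ (σ l : ι → Lau S')) = v ᵥ* p.map φ
    rw [map_sum]
    funext j
    rw [Finset.sum_apply]
    apply Finset.sum_congr rfl
    intro l _
    rw [map_smul, hg, hσ]
    rfl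
  have hker' : ∀ w : Dl u', F w = 0 ↔ (w : ι → Lau S) ∈ Lc S ι k := by
    intro w
    constructor
    · intro h
      have h1 : g w = 0 := by
        rw [← hF, h]; rfl
      have h2 := hgk w w.2
      rw [h1] at h2
      have h3 : (w : ι → Lau S) - ∑ l, (0 : Fin n → S) l • rw' φ (σ l : ι → Lau S') = w := by
        rw [Finset.sum_eq_zero (fun l _ => ?_), sub_zero]
        rw [Pi.zero_apply, zero_smul]
      rwa [h3] at h2
    · intro h
      apply Subtype.ext
      rw [hF, hg0 w h]; rfl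
  exact ⟨n, p, hp, Bd.of_one (k := k) ⟨hle', Mo (p.map φ), inferInstance, inferInstance, hfin,
    hproj, F, hsurj, hker', rfl⟩⟩


end fun_

end Pool.Agent.H1.KK
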