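import Pool.Agent.H1.KK.Gen
import Pool.Agent.H1.MV.Line

set_option autoImplicit false
set_option linter.unusedSectionVars false
set_option linter.unusedSimpArgs false

/-!
# The class of groups for `K₀` and `K₁`
-/

namespace Pool.Agent.H1.KK

open Matrix TH57.Thr Pool.Agent.K4H37.MT Pool.Agent.H1.MV Pool.Agent.H1.MK

section int

variable {k : Type} [Ring k] {H : Type} [Group H]

/-- `K₁` of a product with the integers -/
theorem a1_int_prod (h1 : A1 k H) (h2 : AllSI (io k H)) (h3 : Nice (MonoidAlgebra k H)) :
    A1 k (Multiplicative ℤ × H) := by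
  classical
  letI : MulAction (Multiplicative ℤ × H) ℤ := trAct H
  have hsm : ∀ (p : Multiplicative ℤ × H) (x : ℤ), p • x = Multiplicative.toAdd p.1 + x :=
    fun _ _ => rfl
  have hone : ∀ (p : Multiplicative ℤ × H) (x : ℤ), p • x = x ↔ p.1 = 1 := by
    intro p x
    rw [hsm]
    constructor
    · intro h
      apply Multiplicative.toAdd.injective
      rw [toAdd_one]
      omega
    · intro h
      rw [h, toAdd_one, zero_add]
  refine a1_tree (T := lineG) (V := ℤ) lineG_tree ?_ ?_ ?_ ?_ ?_
  · intro g v w h
    rw [lineG_adj] at h ⊢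
    rw [hsm, hsm]
    omega
  · intro g v w h
    rw [lineG_adj] at h
    rw [hsm, hsm]
    omega
  · intro v
    have hiso : MulAction.stabilizer (Multiplicative ℤ × H) v ≃* H :=
      kerIso _ (fun q => by
        rw [MulAction.mem_stabilizer_iff]
        exact hone q v)
    exact A1.congr hiso.symm h1
  · intro v w h
    have hiso : MulAction.stabilizer (Multiplicative ℤ × H) ((v, w) : ℤ × ℤ) ≃* H :=
      kerIso _ (fun q => by
        rw [MulAction.mem_stabilizer_iff]
        constructor
        · intro h
          exact (hone q v).1 (congrArg Prod.fst h)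
        · intro h
          exact Prod.ext ((hone q v).2 h) ((hone q w).2 h))
    exact AllSI.congr hiso.symm h2
  · intro p _ _ d _
    refine ⟨0, Or.inl ?_⟩
    have hiso : Fx (Multiplicative ℤ × H) 0 p ≃* H := kerIso _ (fun q => by
      constructor
      · intro h
        exact (hone q (p 0)).1 (h 0 le_rfl)
      · intro h i hi
        exact (hone q (p i)).2 h)
    exact nice_congr hiso.symm h3

/-- the trivial group -/
theorem a1_trivial (G : Type) [Group G] [Subsingleton G] : A1 k G := by
  intro κ _ _ x
  apply genK_gen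
  left
  letI : Unique G := ⟨⟨1⟩, fun _ => Subsingleton.elim _ _⟩
  have h1 : ∀ y : MonoidAlgebra k G, io k G (MK.aug k G y) = y := by
    intro y
    induction y using MonoidAlgebra.induction_linear with
    | zero => rw [map_zero, map_zero]
    | add f g hf hg => rw [map_add, map_add, hf, hg]
    | single a b =>
      rw [aug_single, io_apply]
      congr 1
      exact Subsingleton.elim _ _
  refine ⟨Units.map (mpm (MK.aug k G)) x, ?_⟩
  ext1 i j
  exact (h1 _).symm

theorem a1_zp (h : Reg k) (n : ℕ) : A1 k (Zp n) := by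
  induction n with
  | zero => exact a1_trivial _
  | succ n ih => exact A1.congr (zpSucc n).symm (a1_int_prod ih (allSI_zp h n) (h.zp n).nice)

end int

section cls

variable {C : ∀ (k : Type) [Ring k], Prop} {G : Type} [Group G]

/-- the class of groups -/
def FK (C : ∀ (k : Type) [Ring k], Prop) (G : Type) [Group G] : Prop :=
  ∀ (k : Type) [Ring k], C k → ∀ H : Subgroup G, AllSI (io k H) ∧ A1 k H

theorem FK.kr (h : FK C G) : KR C G := fun k _ hk H => (h k hk H).1

theorem FK.inj (h : FK C G) {K : Type} [Group K] (f : K →* G) (hf : Function.Injective f)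
    (k : Type) [Ring k] (hk : C k) : AllSI (io k K) ∧ A1 k K :=
  ⟨AllSI.congr (MonoidHom.ofInjective hf).symm (h k hk f.range).1,
    A1.congr (MonoidHom.ofInjective hf).symm (h k hk f.range).2⟩

theorem FK.of_inj (h : FK C G) {K : Type} [Group K] (f : K →* G) (hf : Function.Injective f) :
    FK C K := by
  intro k _ hk H
  exact h.inj (f.comp H.subtype) (hf.comp H.subtype_injective) k hk

theorem fk_zp (hC : RCls C) (m : ℕ) : FK C (Zp m) := by
  intro k _ hk H
  obtain ⟨n, ⟨e⟩⟩ := zp_sub m H
  exact ⟨AllSI.congr e.symm (allSI_zp (hC.reg k hk) n), A1.congr e.symm (a1_zp (hC.reg k hk) n)⟩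

/-- directed unions -/
theorem FK.union (h : ∀ F : Finset G, ∃ H : Subgroup G, (∀ x ∈ F, x ∈ H) ∧ FK C H) :
    FK C G := by
  classical
  intro k _ hk L
  refine ⟨KR.union (fun F => (h F).imp fun H hH => ⟨hH.1, hH.2.kr⟩) k hk L, ?_⟩
  intro κ _ _ x
  obtain ⟨F, hF⟩ : ∃ F : Finset L, ∀ i j g, ((x.val i j).coeff g ≠ 0 ∨
      ((x⁻¹).val i j).coeff g ≠ 0) → g ∈ F := by
    refine ⟨Finset.univ.biUnion fun q : κ × κ => (x.val q.1 q.2).coeff.support ∪
      ((x⁻¹).val q.1 q.2).coeff.support, ?_⟩
    intro i j g hg
    refine Finset.mem_biUnion.2 ⟨(i, j), Finset.mem_univ _, Finset.mem_union.2 ?_⟩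
    exact hg.imp Finsupp.mem_support_iff.2 Finsupp.mem_support_iff.2
  obtain ⟨H, hH, hW⟩ := h (F.image fun q : L => (q : G))
  let K : Subgroup L := H.subgroupOf L
  let g : K →* H :=
    { toFun := fun x => ⟨((x : L) : G), x.2⟩
      map_one' := rfl
      map_mul' := fun _ _ => rfl }
  have hg : Function.Injective g := by
    intro x y hxy
    apply Subtype.ext
    apply Subtype.ext
    exact congrArg (fun z : H => (z : G)) hxy
  have hA : A1 k K := (hW.inj g hg k hk).2
  refine hk_of_sub (N := genK (S1 k L)) (S := K) (fun κ _ _ a => a1_sub hA a) κ x ?_ ?_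
  · intro i j g hg
    exact hH _ (Finset.mem_image.2 ⟨g, hF i j g (Or.inl hg), rfl⟩)
  · intro i j g hg
    exact hH _ (Finset.mem_image.2 ⟨g, hF i j g (Or.inr hg), rfl⟩)

/-- **The closure theorem** -/
theorem FK.tree (hC : RCls C) {V : Type} [MulAction G V] {T : SimpleGraph V} (hT : T.IsTree)
    (hact : ∀ (g : G) (v w : V), T.Adj v w → T.Adj (g • v) (g • w))
    (hinv : ∀ (g : G) (v w : V), T.Adj v w → ¬ (g • v = w ∧ g • w = v))
    (hV : ∀ v : V, FK C (MulAction.stabilizer G v))
    (hm : ∀ p : ℕ → V, (∀ i, T.Adj (p i) (p (i + 1))) → (∀ i, p (i + 2) ≠ p i) →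
      ∀ d : ℕ, 0 < d → ∃ m, Fx G m p = ⊥ ∨
        (∀ (k : Type) [Ring k], C k → Nice (MonoidAlgebra k (Fx G m p))) ∨
        ∀ h : G, (∀ i ≤ m, h • p (i + d) = p i) →
          FK C (Subgroup.closure ((Fx G m p : Set G) ∪ {h}))) : FK C G := by
  intro k _ hk K
  constructor
  · refine KR.tree hC hT hact hinv (fun v => (hV v).kr) ?_ k hk K
    intro p h1 h2 d hd
    obtain ⟨m, hm⟩ := hm p h1 h2 d hd
    exact ⟨m, hm.imp_right (Or.imp_right fun h g hg => (h g hg).kr)⟩
  refine a1_tree (G := K) (V := V) (T := T) hT (fun g v w h => hact g v w h)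
    (fun g v w h => hinv g v w h) ?_ ?_ ?_
  · intro v
    let f : MulAction.stabilizer K v →* MulAction.stabilizer G v :=
      { toFun := fun x => ⟨((x : K) : G), x.2⟩
        map_one' := rfl
        map_mul' := fun _ _ => rfl }
    refine ((hV v).inj f ?_ k hk).2
    intro x y hxy
    apply Subtype.ext
    apply Subtype.ext
    exact congrArg (fun z : MulAction.stabilizer G v => (z : G)) hxy
  · intro v w _
    let f : MulAction.stabilizer K ((v, w) : V × V) →* MulAction.stabilizer G v :=
      { toFun := fun x => ⟨((x : K) : G), congrArg Prod.fst (MulAction.mem_stabilizer_iff.1 x.2)⟩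
        map_one' := rfl
        map_mul' := fun _ _ => rfl }
    refine ((hV v).inj f ?_ _ hk).1
    intro x y hxy
    apply Subtype.ext
    apply Subtype.ext
    exact congrArg (fun z : MulAction.stabilizer G v => (z : G)) hxy
  · intro p h1 h2 d hd
    obtain ⟨m, hm⟩ := hm p h1 h2 d hd
    refine ⟨m, ?_⟩
    let f : Fx K m p →* Fx G m p :=
      { toFun := fun x => ⟨((x : K) : G), x.2⟩
        map_one' := rfl
        map_mul' := fun _ _ => rfl }
    have hf : Function.Injective f := by
      intro x y hxy
      apply Subtype.ext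
      apply Subtype.ext
      exact congrArg (fun z : Fx G m p => (z : G)) hxy
    rcases hm with hm | hm | hm
    · left
      apply nice_bot' (hC.reg _ hk).nice
      rw [Subgroup.eq_bot_iff_forall]
      intro x hx
      have h3 : ((x : K) : G) ∈ Fx G m p := hx
      rw [hm, Subgroup.mem_bot] at h3
      exact Subtype.ext h3
    · left
      exact nice_congr (MonoidHom.ofInjective hf).symm (Nice.sub f.range (hm _ hk))
    · right
      intro h hper
      have h3 := hm (h : G) (fun i hi => hper i hi)
      have hle : (Subgroup.closure ((Fx K m p : Set K) ∪ {h})).map K.subtype ≤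
          Subgroup.closure ((Fx G m p : Set G) ∪ {(h : G)}) := by
        rw [MonoidHom.map_closure, Subgroup.closure_le]
        rintro _ ⟨g, hg | hg, rfl⟩
        · exact Subgroup.subset_closure (Or.inl hg)
        · have hg' : g = h := hg
          rw [hg']
          exact Subgroup.subset_closure (Or.inr rfl)
      let f : Subgroup.closure ((Fx K m p : Set K) ∪ {h}) →*
          Subgroup.closure ((Fx G m p : Set G) ∪ {(h : G)}) :=
        { toFun := fun x => ⟨((x : K) : G), hle ⟨(x : K), x.2, rfl⟩⟩
          map_one' := rfl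
          map_mul' := fun _ _ => rfl }
      refine (h3.inj f ?_ k hk).2
      intro x y hxy
      apply Subtype.ext
      apply Subtype.ext
      exact congrArg (fun z : Subgroup.closure ((Fx G m p : Set G) ∪ {(h : G)}) => (z : G)) hxy

end cls

end Pool.Agent.H1.KK
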