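import Pool.Agent.H1.KK.LineU
import Pool.Agent.H1.MK.Lin
import Pool.Agent.H1.MV.Zn2

set_option autoImplicit false
set_option linter.unusedSectionVars false
set_option linter.unusedSimpArgs false
set_option linter.style.haveILetI false

/-!
# The closure theorem for Whitehead groups: translations
-/

namespace Pool.Agent.H1.KK

open Matrix TH57.Thr Pool.Agent.K4H37.MT Pool.Agent.H1.MV

section closure

variable {G V : Type} [Group G] [MulAction G V] {T : SimpleGraph V}

theorem tg_le_tu (G : Type) [Group G] : MK.TG ℤ G ≤ TU G := by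
  rintro u ⟨g, ε, hu⟩
  exact ⟨g, ε, hu⟩

/-- **The closure theorem** with translations. -/
theorem stable_U (hT : T.IsTree)
    (hact : ∀ (g : G) (v w : V), T.Adj v w → T.Adj (g • v) (g • w))
    (hinv : ∀ (g : G) (v w : V), T.Adj v w → ¬ (g • v = w ∧ g • w = v))
    (hV : ∀ (v : V) (n : ℕ), WhT (MulAction.stabilizer G v × Zp n))
    (hE : ∀ v w : V, T.Adj v w → ∀ n : ℕ, WhT (MulAction.stabilizer G ((v, w) : V × V) × Zp n))
    (hm : ∀ p : ℕ → V, (∀ i, T.Adj (p i) (p (i + 1))) → (∀ i, p (i + 2) ≠ p i) →
      ∀ d : ℕ, 0 < d → ∃ m, Fx G m p = ⊥ ∨ (∀ n, Nice (MonoidAlgebra ℤ (Fx G m p × Zp n))) ∨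
        ∀ h : G, (∀ i ≤ m, h • p (i + d) = p i) →
          ∀ n : ℕ, WhT (Subgroup.closure ((Fx G m p : Set G) ∪ {h}) × Zp n)) (n : ℕ) :
    WhT (G × Zp n) := by
  classical
  letI : MulAction (G × Zp n) V := fstAct G (Zp n) V
  have hsm : ∀ (p : G × Zp n) (v : V), p • v = p.1 • v := fun _ _ => rfl
  intro N X
  have key : MK.VC (TU (G × Zp n)) V X := by
    refine MK.vc_nil (T := T) (tg_le_tu _) hT (fun g v w h => hact g.1 v w h)
      (fun g v w h => hinv g.1 v w h) ?_ ?_ X
    · intro J _ _ σ x y hx hyx
      refine tr_of_tree (N := ofU (TU (G × Zp n))) (T := T)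
        (𝒩 := fun H => Nice (MonoidAlgebra ℤ H)) hT (fun g v w h => hact g.1 v w h) nice_cls
        (fun _ h => h) ?_ hx hyx
      intro p h1 h2 d hd
      obtain ⟨m, hm⟩ := hm p h1 h2 d hd
      refine ⟨m, ?_⟩
      have hiso : Fx (G × Zp n) m p ≃* Fx G m p × Zp n := prodIso _ _ (fun q => Iff.rfl)
      rcases hm with hm | hm | hm
      · -- trivial stabiliser
        left
        have : Unique (Fx G m p) := by
          rw [hm]
          infer_instance
        exact Nice.ringEquiv (MonoidAlgebra.domCongr ℤ ℤ
          (hiso.trans (MulEquiv.uniqueProd (M := Zp n) (N := Fx G m p))).symm).toRingEquiv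
          (nice_zp n)
      · left
        exact Nice.ringEquiv (MonoidAlgebra.domCongr ℤ ℤ hiso.symm).toRingEquiv (hm n)
      · right
        rintro ⟨h, z⟩ hper
        obtain ⟨S', hS'⟩ : ∃ S' : Subgroup (G × Zp n), S' =
          Subgroup.closure ((Fx (G × Zp n) m p : Set (G × Zp n)) ∪ {(h, z)}) := ⟨_, rfl⟩
        rw [← hS']
        have hk : ∀ z : Zp n, ((1, z) : G × Zp n) ∈ S' := by
          intro z
          rw [hS']
          exact Subgroup.subset_closure (Or.inl (fun i _ => one_smul G (p i)))
        have e1 : S'.comap (MonoidHom.inl G (Zp n)) =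
            Subgroup.closure ((Fx G m p : Set G) ∪ {h}) := by
          apply le_antisymm
          · have h3 : S' ≤ (Subgroup.closure ((Fx G m p : Set G) ∪ {h})).comap
                (MonoidHom.fst G (Zp n)) := by
              rw [hS', Subgroup.closure_le]
              rintro q (hq | hq)
              · exact Subgroup.subset_closure (Or.inl hq)
              · have hq' : q = (h, z) := hq
                rw [hq']
                exact Subgroup.subset_closure (Or.inr rfl)
            intro g hg
            exact h3 hg
          · rw [Subgroup.closure_le]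
            rintro g (hg | hg)
            · change ((g, 1) : G × Zp n) ∈ S'
              rw [hS']
              exact Subgroup.subset_closure (Or.inl hg)
            · have hg' : g = h := hg
              rw [hg']
              change ((h, 1) : G × Zp n) ∈ S'
              have h4 : ((h, z) : G × Zp n) ∈ S' := by
                rw [hS']
                exact Subgroup.subset_closure (Or.inr rfl)
              have h5 := mul_mem h4 (hk z⁻¹)
              have h6 : ((h, z) : G × Zp n) * (1, z⁻¹) = (h, 1) := by
                apply Prod.ext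
                · exact mul_one _
                · exact mul_inv_cancel _
              rwa [h6] at h5
        refine HT.prod hk ?_
        rw [e1]
        exact hm h hper n
    · intro v w h
      apply stablyFree_of_wh
      have hiso : MulAction.stabilizer (G × Zp n) ((v, w) : V × V) ≃*
          MulAction.stabilizer G ((v, w) : V × V) × Zp n := prodIso _ _ (fun q => Iff.rfl)
      exact WhT.congr ((shiftIso _ n).trans (MulEquiv.prodCongr (MulEquiv.refl _) hiso.symm))
        (hE v w h (n + 1))
  obtain ⟨μ, _, _, ω, y, hr, h1, h2, h3⟩ := key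
  have hy : TT (TU (G × Zp n)) y :=
    tt_block (V := V) (fun v => by
      have hiso : MulAction.stabilizer (G × Zp n) v ≃* MulAction.stabilizer G v × Zp n :=
        prodIso _ _ (fun q => Iff.rfl)
      exact WhT.congr hiso.symm (hV v n)) _ μ rfl ω y hr h1 h2
  have h4 := TT_mul _ _ _ h3 (TT_blockSum (TT_one _) hy)
  rw [blockSum_mul, mul_one, inv_mul_cancel, blockSum_one] at h4
  exact TT_unst _ _ h4

theorem SW.sub {G : Type} [Group G] (h : SW G) (H : Subgroup G) : SW H :=
  h.of_inj H.subtype H.subtype_injective

/-- **The hereditary closure theorem** with translations -/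
theorem SW.trans (hT : T.IsTree)
    (hact : ∀ (g : G) (v w : V), T.Adj v w → T.Adj (g • v) (g • w))
    (hinv : ∀ (g : G) (v w : V), T.Adj v w → ¬ (g • v = w ∧ g • w = v))
    (hV : ∀ v : V, SW (MulAction.stabilizer G v))
    (hm : ∀ p : ℕ → V, (∀ i, T.Adj (p i) (p (i + 1))) → (∀ i, p (i + 2) ≠ p i) →
      ∀ d : ℕ, 0 < d → ∃ m, Fx G m p = ⊥ ∨ (∀ n, Nice (MonoidAlgebra ℤ (Fx G m p × Zp n))) ∨
        ∀ h : G, (∀ i ≤ m, h • p (i + d) = p i) →
          SW (Subgroup.closure ((Fx G m p : Set G) ∪ {h}))) : SW G := by
  intro K n
  refine stable_U (G := K) (V := V) (T := T) hT (fun g v w h => hact g v w h)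
    (fun g v w h => hinv g v w h) ?_ ?_ ?_ n
  · intro v n
    let f : MulAction.stabilizer K v →* MulAction.stabilizer G v :=
      { toFun := fun x => ⟨((x : K) : G), x.2⟩
        map_one' := rfl
        map_mul' := fun _ _ => rfl }
    refine (hV v).inj f ?_ n
    intro x y hxy
    apply Subtype.ext
    apply Subtype.ext
    exact congrArg (fun z : MulAction.stabilizer G v => (z : G)) hxy
  · intro v w _ n
    let f : MulAction.stabilizer K ((v, w) : V × V) →* MulAction.stabilizer G v :=
      { toFun := fun x => ⟨((x : K) : G), congrArg Prod.fst (MulAction.mem_stabilizer_iff.1 x.2)⟩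
        map_one' := rfl
        map_mul' := fun _ _ => rfl }
    refine (hV v).inj f ?_ n
    intro x y hxy
    apply Subtype.ext
    apply Subtype.ext
    exact congrArg (fun z : MulAction.stabilizer G v => (z : G)) hxy
  · intro p h1 h2 d hd
    obtain ⟨m, hm⟩ := hm p h1 h2 d hd
    refine ⟨m, ?_⟩
    let f : Fx K m p →* Fx G m p :=
      { toFun := fun x => ⟨((x : K) : G), x.2⟩
        map_one' := rfl
        map_mul' := fun _ _ => rfl }
    have hf : Function.Injective f := by
      intro x y hxy
      apply Subtype.ext
      apply Subtype.ext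
      exact congrArg (fun z : Fx G m p => (z : G)) hxy
    rcases hm with hm | hm | hm
    · left
      rw [Subgroup.eq_bot_iff_forall]
      intro x hx
      have h3 : ((x : K) : G) ∈ Fx G m p := hx
      rw [hm, Subgroup.mem_bot] at h3
      exact Subtype.ext h3
    · right
      left
      intro n
      exact nice_inj f hf n (hm n)
    · right
      right
      intro h hper n
      have h3 := hm (h : G) (fun i hi => hper i hi)
      have hle : (Subgroup.closure ((Fx K m p : Set K) ∪ {h})).map K.subtype ≤
          Subgroup.closure ((Fx G m p : Set G) ∪ {(h : G)}) := by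
        rw [MonoidHom.map_closure, Subgroup.closure_le]
        rintro _ ⟨g, hg | hg, rfl⟩
        · exact Subgroup.subset_closure (Or.inl hg)
        · have hg' : g = h := hg
          rw [hg']
          exact Subgroup.subset_closure (Or.inr rfl)
      let f : Subgroup.closure ((Fx K m p : Set K) ∪ {h}) →*
          Subgroup.closure ((Fx G m p : Set G) ∪ {(h : G)}) :=
        { toFun := fun x => ⟨((x : K) : G), hle ⟨(x : K), x.2, rfl⟩⟩
          map_one' := rfl
          map_mul' := fun _ _ => rfl }
      refine h3.inj f ?_ n
      intro x y hxy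
      apply Subtype.ext
      apply Subtype.ext
      exact congrArg (fun z : Subgroup.closure ((Fx G m p : Set G) ∪ {(h : G)}) => (z : G)) hxy

end closure

end Pool.Agent.H1.KK
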