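import Pool.Agent.H1.KK.GF
import Pool.Agent.H1.KK.FK
import Pool.Agent.H1.KK.Wh

set_option autoImplicit false
set_option linter.unusedSectionVars false
set_option linter.unusedSimpArgs false

/-!
# Directed colimits of groups
-/

namespace Pool.Agent.H1.KK

open Matrix TH57.Thr Pool.Agent.K4H37.MT Pool.Agent.H1.MV Pool.Agent.H1.MK

/-- the group `G` is the directed colimit of the groups `H i` -/
structure DC {I : Type} [Preorder I] (H : I → Type) [∀ i, Group (H i)]
    (f : ∀ i j, i ≤ j → H i →* H j) {G : Type} [Group G] (φ : ∀ i, H i →* G) : Prop where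
  nonempty : Nonempty I
  directed : ∀ i j : I, ∃ l, i ≤ l ∧ j ≤ l
  trans : ∀ (i j l : I) (h : i ≤ j) (h' : j ≤ l) (x : H i),
    f j l h' (f i j h x) = f i l (h.trans h') x
  comp : ∀ (i j : I) (h : i ≤ j) (x : H i), φ j (f i j h x) = φ i x
  surj : ∀ g : G, ∃ (i : I) (x : H i), φ i x = g
  inj : ∀ (i : I) (x : H i), φ i x = 1 → ∃ (j : I) (h : i ≤ j), f i j h x = 1

section dc

variable {I : Type} [Preorder I] {H : I → Type} [∀ i, Group (H i)]
  {f : ∀ i j, i ≤ j → H i →* H j} {G : Type} [Group G] {φ : ∀ i, H i →* G}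

theorem DC.eq (h : DC H f φ) {i : I} {x y : H i} (hxy : φ i x = φ i y) :
    ∃ (j : I) (hj : i ≤ j), f i j hj x = f i j hj y := by
  obtain ⟨j, hj, h1⟩ := h.inj i (x * y⁻¹) (by rw [map_mul, map_inv, hxy, mul_inv_cancel])
  refine ⟨j, hj, ?_⟩
  rw [map_mul, map_inv, mul_inv_eq_one] at h1
  exact h1

/-- finitely many upper bounds -/
theorem DC.bound (h : DC H f φ) (i₀ : I) {K : Type} (s : Finset K) (c : K → I) :
    ∃ l, i₀ ≤ l ∧ ∀ q ∈ s, c q ≤ l := by
  classical
  induction s using Finset.induction_on with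
  | empty => exact ⟨i₀, le_rfl, fun q hq => absurd hq (Finset.notMem_empty q)⟩
  | insert a s _ ih =>
    obtain ⟨l, h1, h2⟩ := ih
    obtain ⟨m, h3, h4⟩ := h.directed l (c a)
    refine ⟨m, h1.trans h3, ?_⟩
    intro q hq
    rcases Finset.mem_insert.1 hq with rfl | hq
    · exact h4
    · exact (h2 q hq).trans h3

variable {k : Type} [Ring k]

/-- the maps of the group rings -/
noncomputable def mf (k : Type) [Ring k] {A B : Type} [Group A] [Group B] (f : A →* B) :
    MonoidAlgebra k A →+* MonoidAlgebra k B := MonoidAlgebra.mapDomainRingHom k f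

theorem mf_single {A B : Type} [Group A] [Group B] (f : A →* B) (a : A) (c : k) :
    mf k f (MonoidAlgebra.single a c) = MonoidAlgebra.single (f a) c :=
  MonoidAlgebra.mapDomain_single

theorem mf_comp {A B D : Type} [Group A] [Group B] [Group D] (f : A →* B) (g : B →* D)
    (x : MonoidAlgebra k A) : mf k g (mf k f x) = mf k (g.comp f) x := by
  induction x using MonoidAlgebra.induction_linear with
  | zero => rw [map_zero, map_zero, map_zero]
  | add a b ha hb => rw [map_add, map_add, map_add, ha, hb]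
  | single a b => rw [mf_single, mf_single, mf_single]; rfl

theorem DC.mf_comp (h : DC H f φ) {i j : I} (hij : i ≤ j) (x : MonoidAlgebra k (H i)) :
    mf k (φ j) (mf k (f i j hij) x) = mf k (φ i) x := by
  rw [Pool.Agent.H1.KK.mf_comp]
  congr 2
  ext x
  exact h.comp i j hij x

theorem DC.mf_trans (h : DC H f φ) {i j l : I} (hij : i ≤ j) (hjl : j ≤ l)
    (x : MonoidAlgebra k (H i)) :
    mf k (f j l hjl) (mf k (f i j hij) x) = mf k (f i l (hij.trans hjl)) x := by
  rw [Pool.Agent.H1.KK.mf_comp]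
  congr 2
  ext x
  exact h.trans i j l hij hjl x

/-- elements of the group ring come from finite stages -/
theorem DC.lift (h : DC H f φ) (x : MonoidAlgebra k G) :
    ∃ (i : I) (y : MonoidAlgebra k (H i)), mf k (φ i) y = x := by
  induction x using MonoidAlgebra.induction_linear with
  | zero =>
    obtain ⟨i⟩ := h.nonempty
    exact ⟨i, 0, map_zero _⟩
  | add a b ha hb =>
    obtain ⟨i, y, hy⟩ := ha
    obtain ⟨j, z, hz⟩ := hb
    obtain ⟨l, hil, hjl⟩ := h.directed i j
    refine ⟨l, mf k (f i l hil) y + mf k (f j l hjl) z, ?_⟩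
    rw [map_add, h.mf_comp, h.mf_comp, hy, hz]
  | single g c =>
    obtain ⟨i, x, hx⟩ := h.surj g
    exact ⟨i, MonoidAlgebra.single x c, by rw [mf_single, hx]⟩

/-- elements with image zero vanish at a finite stage -/
theorem DC.kill (h : DC H f φ) {i : I} (x : MonoidAlgebra k (H i)) (hx : mf k (φ i) x = 0) :
    ∃ (j : I) (hj : i ≤ j), mf k (f i j hj) x = 0 := by
  classical
  have h1 : ∀ q : H i × H i, ∃ j : I, ∃ hj : i ≤ j, φ i q.1 = φ i q.2 →
      f i j hj q.1 = f i j hj q.2 := by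
    intro q
    by_cases hq : φ i q.1 = φ i q.2
    · obtain ⟨j, hj, h2⟩ := h.eq hq
      exact ⟨j, hj, fun _ => h2⟩
    · exact ⟨i, le_rfl, fun h => absurd h hq⟩
  choose c hc hcc using h1
  obtain ⟨l, hl, hl'⟩ := h.bound i (x.coeff.support ×ˢ x.coeff.support) c
  refine ⟨l, hl, ?_⟩
  have hinj : ∀ a ∈ x.coeff.support, ∀ b ∈ x.coeff.support, φ i a = φ i b →
      f i l hl a = f i l hl b := by
    intro a ha b hb hab
    have hm := hl' (a, b) (Finset.mk_mem_product ha hb)
    have h3 := hcc (a, b) hab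
    have h4 := h.trans i (c (a, b)) l (hc (a, b)) hm
    rw [← h4 a, ← h4 b, h3]
  -- the map of the colimit is injective on the image of the support
  have hz : mf k (φ l) (mf k (f i l hl) x) = 0 := by rw [h.mf_comp, hx]
  obtain ⟨y, hy⟩ : ∃ y, y = mf k (f i l hl) x := ⟨_, rfl⟩
  have hysupp : (y.coeff.support : Set (H l)) ⊆ (f i l hl) '' (x.coeff.support : Set (H i)) := by
    rw [hy]
    intro b hb
    have h5 : (Finsupp.mapDomain (f i l hl) x.coeff).support ⊆ _ := Finsupp.mapDomain_support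
    have h6 := h5 hb
    rw [Finset.mem_image] at h6
    obtain ⟨a, ha, rfl⟩ := h6
    exact ⟨a, ha, rfl⟩
  have hinj2 : Set.InjOn (φ l) ((f i l hl) '' (x.coeff.support : Set (H i))) := by
    rintro _ ⟨a, ha, rfl⟩ _ ⟨b, hb, rfl⟩ hab
    rw [h.comp, h.comp] at hab
    exact hinj a ha b hb hab
  rw [← hy] at hz ⊢
  have h7 : Set.InjOn (Finsupp.mapDomain (φ l) : (H l →₀ k) → (G →₀ k)) _ :=
    Finsupp.mapDomain_injOn ((f i l hl) '' (x.coeff.support : Set (H i))) hinj2
  apply MonoidAlgebra.coeff_injective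
  refine h7 hysupp ?_ ?_
  · change (((0 : MonoidAlgebra k (H l)).coeff.support : Finset (H l)) : Set (H l)) ⊆ _
    simp
  · have h8 : (mf k (φ l) y).coeff = (0 : MonoidAlgebra k G).coeff := by rw [hz]
    have h9 : (mf k (φ l) y).coeff = Finsupp.mapDomain (φ l) y.coeff := rfl
    rw [← h9, h8]
    simp

variable {κ μ : Type} [Fintype κ] [DecidableEq κ] [Fintype μ] [DecidableEq μ]

/-- matrices come from finite stages -/
theorem DC.lift_mat (h : DC H f φ) (M : Matrix κ μ (MonoidAlgebra k G)) :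
    ∃ (i : I) (N : Matrix κ μ (MonoidAlgebra k (H i))), N.map (mf k (φ i)) = M := by
  classical
  have h1 : ∀ q : κ × μ, ∃ (i : I) (y : MonoidAlgebra k (H i)), mf k (φ i) y = M q.1 q.2 :=
    fun q => h.lift _
  choose c y hy using h1
  obtain ⟨i₀⟩ := h.nonempty
  obtain ⟨l, _, hl⟩ := h.bound i₀ Finset.univ c
  refine ⟨l, Matrix.of fun a b => mf k (f _ l (hl (a, b) (Finset.mem_univ _))) (y (a, b)), ?_⟩
  ext1 a b
  rw [Matrix.map_apply, Matrix.of_apply, h.mf_comp, hy]

/-- equations of matrices hold at a finite stage -/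
theorem DC.kill_mat (h : DC H f φ) {i : I} (M : Matrix κ μ (MonoidAlgebra k (H i)))
    (hM : M.map (mf k (φ i)) = 0) : ∃ (j : I) (hj : i ≤ j), M.map (mf k (f i j hj)) = 0 := by
  classical
  have h1 : ∀ q : κ × μ, ∃ (j : I) (hj : i ≤ j), mf k (f i j hj) (M q.1 q.2) = 0 :=
    fun q => h.kill _ (congrFun (congrFun hM q.1) q.2)
  choose c hc hcc using h1
  obtain ⟨l, hl, hl'⟩ := h.bound i Finset.univ c
  refine ⟨l, hl, ?_⟩
  ext1 a b
  rw [Matrix.map_apply, ← h.mf_trans (hc (a, b)) (hl' (a, b) (Finset.mem_univ _)), hcc (a, b),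
    map_zero]
  rfl

theorem DC.eq_mat (h : DC H f φ) {i : I} (M N : Matrix κ μ (MonoidAlgebra k (H i)))
    (hM : M.map (mf k (φ i)) = N.map (mf k (φ i))) :
    ∃ (j : I) (hj : i ≤ j), M.map (mf k (f i j hj)) = N.map (mf k (f i j hj)) := by
  obtain ⟨j, hj, h1⟩ := h.kill_mat (M - N) (by
    rw [Matrix.map_sub _ (map_sub _), hM, sub_self])
  refine ⟨j, hj, ?_⟩
  rw [Matrix.map_sub _ (map_sub _), sub_eq_zero] at h1
  exact h1

theorem DC.map_map (h : DC H f φ) {i j : I} (hij : i ≤ j) (M : Matrix κ μ (MonoidAlgebra k (H i))) :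
    (M.map (mf k (f i j hij))).map (mf k (φ j)) = M.map (mf k (φ i)) := by
  ext1 a b
  exact h.mf_comp hij _

theorem DC.map_trans (h : DC H f φ) {i j l : I} (hij : i ≤ j) (hjl : j ≤ l)
    (M : Matrix κ μ (MonoidAlgebra k (H i))) :
    (M.map (mf k (f i j hij))).map (mf k (f j l hjl)) = M.map (mf k (f i l (hij.trans hjl))) := by
  ext1 a b
  exact h.mf_trans hij hjl _

/-- invertible matrices come from finite stages -/
theorem DC.lift_unit (h : DC H f φ) (X : (Matrix κ κ (MonoidAlgebra k G))ˣ) :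
    ∃ (i : I) (Y : (Matrix κ κ (MonoidAlgebra k (H i)))ˣ),
      Units.map (mpm (mf k (φ i))) Y = X := by
  obtain ⟨i, A, hA⟩ := h.lift_mat X.val
  obtain ⟨j, B, hB⟩ := h.lift_mat (X⁻¹).val
  obtain ⟨l, hil, hjl⟩ := h.directed i j
  have e1 : (A.map (mf k (f i l hil))).map (mf k (φ l)) = X.val := by rw [h.map_map, hA]
  have e2 : (B.map (mf k (f j l hjl))).map (mf k (φ l)) = (X⁻¹).val := by rw [h.map_map, hB]
  obtain ⟨A', hA'⟩ : ∃ A', A' = A.map (mf k (f i l hil)) := ⟨_, rfl⟩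
  obtain ⟨B', hB'⟩ : ∃ B', B' = B.map (mf k (f j l hjl)) := ⟨_, rfl⟩
  rw [← hA'] at e1
  rw [← hB'] at e2
  obtain ⟨m, hlm, h1⟩ := h.eq_mat (A' * B') 1 (by
    rw [Matrix.map_mul, e1, e2, Units.mul_inv, Matrix.map_one _ (map_zero _) (map_one _)])
  obtain ⟨n, hln, h2⟩ := h.eq_mat (B' * A') 1 (by
    rw [Matrix.map_mul, e1, e2, Units.inv_mul, Matrix.map_one _ (map_zero _) (map_one _)])
  obtain ⟨r, hmr, hnr⟩ := h.directed m n
  have h3 : (A' * B').map (mf k (f l r (hlm.trans hmr))) = 1 := by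
    rw [← h.map_trans hlm hmr, h1, Matrix.map_one _ (map_zero _) (map_one _),
      Matrix.map_one _ (map_zero _) (map_one _)]
  have h4 : (B' * A').map (mf k (f l r (hln.trans hnr))) = 1 := by
    rw [← h.map_trans hln hnr, h2, Matrix.map_one _ (map_zero _) (map_one _),
      Matrix.map_one _ (map_zero _) (map_one _)]
  refine ⟨r, ⟨A'.map (mf k (f l r (hlm.trans hmr))), B'.map (mf k (f l r (hlm.trans hmr))), ?_, ?_⟩,
    ?_⟩
  · rw [← Matrix.map_mul, h3]
  · rw [← Matrix.map_mul, h4]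
  · apply Units.ext
    change (A'.map (mf k (f l r (hlm.trans hmr)))).map (mf k (φ r)) = X.val
    rw [h.map_map, e1]

/-- idempotent matrices come from finite stages -/
theorem DC.lift_idem (h : DC H f φ) {p : Matrix κ κ (MonoidAlgebra k G)} (hp : p * p = p) :
    ∃ (i : I) (q : Matrix κ κ (MonoidAlgebra k (H i))), q * q = q ∧ q.map (mf k (φ i)) = p := by
  obtain ⟨i, A, hA⟩ := h.lift_mat p
  obtain ⟨j, hj, h1⟩ := h.eq_mat (A * A) A (by rw [Matrix.map_mul, hA, hp])
  refine ⟨j, A.map (mf k (f i j hj)), ?_, ?_⟩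
  · rw [← Matrix.map_mul, h1]
  · rw [h.map_map, hA]

end dc

end Pool.Agent.H1.KK
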