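import Pool.Agent.H1.KK.Colim

set_option autoImplicit false
set_option linter.unusedSectionVars false
set_option linter.unusedSimpArgs false

/-!
# The classes of groups are closed under directed colimits
-/

namespace Pool.Agent.H1.KK

open Matrix TH57.Thr Pool.Agent.K4H37.MT Pool.Agent.H1.MV Pool.Agent.H1.MK

section dc

variable {I : Type} [Preorder I] {H : I → Type} [∀ i, Group (H i)]
  {f : ∀ i j, i ≤ j → H i →* H j} {G : Type} [Group G] {φ : ∀ i, H i →* G}

/-- preimages of a subgroup of the colimit, more generally of an injective homomorphism -/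
theorem DC.comap (h : DC H f φ) (L : Subgroup G) :
    DC (I := I) (fun i => (L.comap (φ i) : Subgroup (H i)))
      (fun i j hij =>
        { toFun := fun x => ⟨f i j hij x.1, by
            rw [Subgroup.mem_comap, h.comp i j hij]
            exact x.2⟩
          map_one' := Subtype.ext (map_one _)
          map_mul' := fun x y => Subtype.ext (map_mul _ _ _) })
      (G := L)
      (fun i =>
        { toFun := fun x => ⟨φ i x.1, x.2⟩
          map_one' := Subtype.ext (map_one _)
          map_mul' := fun x y => Subtype.ext (map_mul _ _ _) }) where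
  nonempty := h.nonempty
  directed := h.directed
  trans i j l hij hjl x := Subtype.ext (h.trans i j l hij hjl x.1)
  comp i j hij x := Subtype.ext (h.comp i j hij x.1)
  surj g := by
    obtain ⟨i, x, hx⟩ := h.surj g.1
    refine ⟨i, ⟨x, ?_⟩, Subtype.ext hx⟩
    rw [Subgroup.mem_comap, hx]
    exact g.2
  inj i x hx := by
    obtain ⟨j, hj, h1⟩ := h.inj i x.1 (congrArg Subtype.val hx)
    exact ⟨j, hj, Subtype.ext h1⟩

theorem DC.prod (h : DC H f φ) (Z : Type) [Group Z] :
    DC (I := I) (fun i => H i × Z)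
      (fun i j hij => (f i j hij).prodMap (MonoidHom.id Z))
      (G := G × Z)
      (fun i => (φ i).prodMap (MonoidHom.id Z)) where
  nonempty := h.nonempty
  directed := h.directed
  trans i j l hij hjl x := Prod.ext (h.trans i j l hij hjl x.1) rfl
  comp i j hij x := Prod.ext (h.comp i j hij x.1) rfl
  surj g := by
    obtain ⟨i, x, hx⟩ := h.surj g.1
    exact ⟨i, (x, g.2), Prod.ext hx rfl⟩
  inj i x hx := by
    obtain ⟨j, hj, h1⟩ := h.inj i x.1 (congrArg Prod.fst hx)
    have h2 : x.2 = 1 := congrArg Prod.snd hx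
    exact ⟨j, hj, Prod.ext h1 h2⟩

theorem DC.a1 {k : Type} [Ring k] (h : DC H f φ) (hA : ∀ i, A1 k (H i)) : A1 k G := by
  intro κ _ _ X
  obtain ⟨i, Y, rfl⟩ := h.lift_unit X
  exact s1_map (φ i) (hA i κ Y)

theorem DC.allSI {k : Type} [Ring k] (h : DC H f φ) (hA : ∀ i, AllSI (io k (H i))) :
    AllSI (io k G) := by
  apply AllSI.of_mo
  intro n p hp
  obtain ⟨i, q, hq, rfl⟩ := h.lift_idem hp
  have := mo_finite q
  have := mo_projective hq
  have h2 := (hA i (Mo q)).map (mf k (φ i)) hq
  have h3 : (mf k (φ i)).comp (io k (H i)) = io k G := by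
    apply RingHom.ext
    intro c
    rw [RingHom.comp_apply, io_apply, mf_single, map_one, io_apply]
  rwa [h3] at h2

theorem DC.af {k : Type} [Ring k] (h : DC H f φ) (hA : ∀ i, AF k (H i)) : AF k G := by
  intro x
  obtain ⟨n, p, hp, rfl⟩ := exists_km x
  obtain ⟨i, q, hq, rfl⟩ := h.lift_idem hp
  have h1 := if_map (φ i) (hA i (km q hq))
  rw [kzm_km] at h1
  exact h1

theorem DC.wh (h : DC H f φ) (hA : ∀ i, WhT (H i)) : WhT G := by
  intro n X
  obtain ⟨i, Y, rfl⟩ := h.lift_unit X
  have hφ : ∀ u ∈ TU (H i), Units.map (mf ℤ (φ i)).toMonoidHom u ∈ TU G := by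
    rintro u ⟨g, ε, hu⟩
    refine ⟨φ i g, ε, ?_⟩
    change mf ℤ (φ i) u.val = _
    rw [hu]
    exact mf_single _ _ _
  exact TT_map (TU (H i)) (TU G) (mf ℤ (φ i)) hφ _ (hA i n Y)

/-- the class of groups for Whitehead groups -/
theorem SW.colim (h : DC H f φ) (hA : ∀ i, SW (H i)) : SW G := by
  intro L n
  exact ((h.comap L).prod (Zp n)).wh fun i => hA i _ n

theorem KR.colim {C : ∀ (k : Type) [Ring k], Prop} (h : DC H f φ) (hA : ∀ i, KR C (H i)) :
    KR C G := fun k _ hk L => (h.comap L).allSI fun i => hA i k hk _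

theorem FK.colim {C : ∀ (k : Type) [Ring k], Prop} (h : DC H f φ) (hA : ∀ i, FK C (H i)) :
    FK C G := fun k _ hk L => ⟨(h.comap L).allSI fun i => (hA i k hk _).1,
      (h.comap L).a1 fun i => (hA i k hk _).2⟩

theorem GF.colim {C : ∀ (k : Type) [Ring k], Prop} (h : DC H f φ) (hA : ∀ i, GF C (H i)) :
    GF C G := fun k _ hk L => (h.comap L).af fun i => hA i k hk _

end dc

end Pool.Agent.H1.KK
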