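import Pool.Agent.H1.KK.SplitK
import Pool.Agent.H1.MK.Core

set_option autoImplicit false
set_option linter.unusedSectionVars false
set_option linter.unusedSimpArgs false

/-!
# The class of a matrix located on the edges of a tree, up to idempotents over the coefficients
-/

namespace Pool.Agent.H1.KK

open Matrix TH57.Thr Pool.Agent.K4H37.MT Pool.Agent.H1.MV

section core

variable {k : Type} [Ring k] {G V : Type} [Group G] [MulAction G V]
  [DecidableEq V] {T : SimpleGraph V} {ι : Type} [Fintype ι] [DecidableEq ι]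
  {N : KI (MonoidAlgebra k G)}

theorem nil_of_split
    (hact : ∀ (g : G) (v w : V), T.Adj v w → T.Adj (g • v) (g • w)) 
    (hNil : ∀ (J : Type) [Fintype J] [DecidableEq J] (σ : J → V × V)
      (x y : Matrix J J (MonoidAlgebra k G)), Ty σ σ (fun q p => nb T p q) x →
      y * (1 + x) = 1 → N.Tr (1 + x))
    (ε : ι → V × V) (hadj : ∀ j, T.Adj (ε j).1 (ε j).2)
    (F1 F2 e H1 H2 x z : Matrix ι ι (MonoidAlgebra k G))
    (he : e * e = e) (eH1 : e * H1 = H1) (eH2 : e * H2 = 0)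
    (hx : x = H1 * F1 * (1 - e) + H2 * F1 * (1 - e) + (H1 * F2 * e + H2 * F2 * e))
    (hzx : (1 + z) * (1 + x) = 1)
    (t11 : Ty ε ε (fun f' f => f'.1 = f.1 ∧ f'.2 ≠ f.2) (H1 * F1 * (1 - e)))
    (t21 : Ty ε ε (fun f' f => f'.2 = f.1 ∧ f'.1 ≠ f.2) (H2 * F1 * (1 - e)))
    (t12 : Ty ε ε (fun f' f => f'.1 = f.2 ∧ f'.2 ≠ f.1) (H1 * F2 * e))
    (t22 : Ty ε ε (fun f' f => f'.2 = f.2 ∧ f'.1 ≠ f.1) (H2 * F2 * e)) : N.Tr (1 + x) := by
  classical
  let L : Matrix ι (ι ⊕ ι) (MonoidAlgebra k G) := fromCols e (1 - e)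
  let R : Matrix (ι ⊕ ι) ι (MonoidAlgebra k G) := fromRows e (1 - e)
  have hLR : L * R = 1 := by
    change fromCols e (1 - e) * fromRows e (1 - e) = 1
    rw [fromCols_mul_fromRows, he, one_sub_idem he]
    abel
  have ee : e * (1 - e) = 0 := by rw [Matrix.mul_sub, Matrix.mul_one, he, sub_self]
  have ee' : (1 - e) * e = 0 := by rw [Matrix.sub_mul, Matrix.one_mul, he, sub_self]
  have eH1' : (1 - e) * H1 = 0 := by rw [Matrix.sub_mul, Matrix.one_mul, eH1, sub_self]
  have eH2' : (1 - e) * H2 = H2 := by rw [Matrix.sub_mul, Matrix.one_mul, eH2, sub_zero]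
  have x1 : x * e = H1 * F2 * e + H2 * F2 * e := by
    rw [hx, Matrix.add_mul, Matrix.add_mul, Matrix.mul_assoc _ (1 - e), Matrix.mul_assoc _ (1 - e),
      ee', Matrix.mul_zero, Matrix.mul_zero, Matrix.add_mul, Matrix.mul_assoc _ e e,
      Matrix.mul_assoc _ e e, he]
    simp
  have x2 : x * (1 - e) = H1 * F1 * (1 - e) + H2 * F1 * (1 - e) := by
    rw [hx, Matrix.add_mul, Matrix.add_mul, Matrix.mul_assoc _ (1 - e),
      Matrix.mul_assoc _ (1 - e) (1 - e),
      one_sub_idem he, Matrix.add_mul, Matrix.mul_assoc _ e (1 - e),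
      Matrix.mul_assoc _ e (1 - e), ee]
    simp
  have hRxL : R * (x * L) = fromBlocks (H1 * F2 * e) (H1 * F1 * (1 - e)) (H2 * F2 * e)
      (H2 * F1 * (1 - e)) := by
    change fromRows e (1 - e) * (x * fromCols e (1 - e)) = _
    rw [mul_fromCols, fromRows_mul_fromCols, x1, x2, Matrix.mul_add, Matrix.mul_add,
      Matrix.mul_add, Matrix.mul_add]
    simp only [← Matrix.mul_assoc]
    rw [eH1, eH2, eH1', eH2']
    simp
  let σ : ι ⊕ ι → V × V := Sum.elim ε (fun j => (ε j).swap)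
  have hty : Ty σ σ (fun q p => nb T p q) (R * (x * L)) := by
    rw [hRxL]
    rintro (j' | j') (j | j) g hg
    · obtain ⟨h1, h2⟩ := t12 j' j g hg
      exact ⟨hadj j, hact g⁻¹ _ _ (hadj j'), h1, h2⟩
    · obtain ⟨h1, h2⟩ := t11 j' j g hg
      exact ⟨(hadj j).symm, hact g⁻¹ _ _ (hadj j'), h1, h2⟩
    · obtain ⟨h1, h2⟩ := t22 j' j g hg
      exact ⟨hadj j, (hact g⁻¹ _ _ (hadj j')).symm, h1, h2⟩
    · obtain ⟨h1, h2⟩ := t21 j' j g hg
      exact ⟨(hadj j).symm, (hact g⁻¹ _ _ (hadj j')).symm, h1, h2⟩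
  have hzx' : z + x + z * x = 0 := by
    have : (1 + z) * (1 + x) = 1 + (z + x + z * x) := by
      simp only [Matrix.mul_add, Matrix.add_mul, Matrix.mul_one, Matrix.one_mul]
      abel
    rw [this] at hzx
    exact add_eq_left.1 hzx
  have hinv : (1 + R * (z * L)) * (1 + R * (x * L)) = 1 := by
    have h1 : (R * (z * L)) * (R * (x * L)) = R * ((z * x) * L) := by
      calc _ = R * z * (L * R) * x * L := by simp only [Matrix.mul_assoc]
        _ = _ := by rw [hLR, Matrix.mul_one]; simp only [Matrix.mul_assoc]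
    calc _ = 1 + (R * (z * L) + R * (x * L) + (R * (z * L)) * (R * (x * L))) := by
          simp only [Matrix.mul_add, Matrix.add_mul, Matrix.mul_one, Matrix.one_mul]
          abel
      _ = 1 + R * ((z + x + z * x) * L) := by
          rw [h1]
          simp only [Matrix.mul_add, Matrix.add_mul, Matrix.mul_assoc]
      _ = 1 := by rw [hzx', Matrix.zero_mul, Matrix.mul_zero, add_zero]
  have h1 := hNil _ _ _ _ hty hinv
  have h2 := KI.Tr.uv (x * L) R h1
  rwa [Matrix.mul_assoc, hLR, Matrix.mul_one] at h2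

theorem ty_db {K : Type} [Fintype K] [DecidableEq K] {Ω Ω' : Type} [MulAction G Ω]
    [MulAction G Ω'] {a : K → Ω} {b : K → Ω'} {ρ : Ω → Ω' → Prop} {l : K → Bool}
    (h : ∀ κ, l κ = true → ρ (a κ) (b κ)) : Ty a b ρ (Db (MonoidAlgebra k G) l) := by
  intro i j g hg
  unfold Db at hg
  by_cases hij : i = j
  · subst hij
    rw [Matrix.diagonal_apply_eq] at hg
    rcases hl : l i with _ | _
    · rw [hl] at hg
      simp at hg
    · rw [hl, if_pos rfl, MonoidAlgebra.one_def, MonoidAlgebra.coeff_single] at hg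
      by_cases h2 : g = 1
      · subst h2
        rw [inv_one, one_smul]
        exact h i hl
      · exact absurd (Finsupp.single_eq_of_ne h2) hg
  · rw [Matrix.diagonal_apply_ne _ hij] at hg
    simp at hg

theorem db_not {R : Type} [Ring R] {K : Type} [DecidableEq K] (l : K → Bool) :
    1 - Db R l = Db R (fun κ => !(l κ)) := by
  unfold Db
  rw [← Matrix.diagonal_one, Matrix.diagonal_sub]
  congr 1
  funext κ
  cases h : l κ <;> simp_all

theorem db_idem {R : Type} [Ring R] {K : Type} [Fintype K] [DecidableEq K] (l : K → Bool) :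
    Db R l * Db R l = Db R l := by
  unfold Db
  rw [Matrix.diagonal_mul_diagonal]
  congr 1
  funext κ
  rcases l κ with _ | _ <;> simp

theorem ty_blocks {J K J' K' Ω Ω' : Type} [MulAction G Ω] [MulAction G Ω'] {a : J → Ω}
    {b : K → Ω'} {a' : J' → Ω} {b' : K' → Ω'} {ρ : Ω → Ω' → Prop}
    {M : Matrix J K (MonoidAlgebra k G)}
    {M' : Matrix J' K' (MonoidAlgebra k G)} (h : Ty a b ρ M) (h' : Ty a' b' ρ M') :
    Ty (Sum.elim a a') (Sum.elim b b') ρ (fromBlocks M 0 0 M') := by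
  rintro (j | j) (l | l) g hg
  · exact h j l g hg
  · rw [fromBlocks_apply₁₂, Matrix.zero_apply] at hg
    simp at hg
  · rw [fromBlocks_apply₂₁, Matrix.zero_apply] at hg
    simp at hg
  · exact h' j l g hg

/-- the vertex part -/
theorem vert_of_split [Nonempty V] (hg : Good V N) (ν : ι → V) (ε : ι → V × V)
    (hgood : ∀ (g : G) j j', g • ε j = ε j' → ε j = ε j')
    (F0u : (Matrix ι ι (MonoidAlgebra k G))ˣ) (F1 F2 e H1 H2 : Matrix ι ι (MonoidAlgebra k G))
    (hF0 : F0u.val = F1 * e + F2 * (1 - e)) (hF0' : (F0u⁻¹).val = H1 + H2)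
    (tF1 : Ty ν ε (fun x f => x = f.1) F1) (tF2 : Ty ν ε (fun x f => x = f.2) F2)
    (he : e * e = e) (te : Ty ε ε Eq e)
    (tH1 : Ty ε ν (fun (f : V × V) (x : V) => f.1 = x) H1)
    (tH2 : Ty ε ν (fun (f : V × V) (x : V) => f.2 = x) H2)
    (eH1 : e * H1 = H1) (eH2 : e * H2 = 0)
    (hS : ∀ j, SI (io k (MulAction.stabilizer G (ε j))) (Mo (desc ε e (ε j)))) :
    N.car ι F0u := by
  classical
  obtain ⟨v₀⟩ := ‹Nonempty V›
  obtain ⟨K, iK1, iK2, εK, l, p, X, hεK, hp, hpε, tX, tX', hE⟩ := glueI te he hgood hS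
  have eH1' : (1 - e) * H1 = 0 := by rw [Matrix.sub_mul, Matrix.one_mul, eH1, sub_self]
  have eH2' : (1 - e) * H2 = H2 := by rw [Matrix.sub_mul, Matrix.one_mul, eH2, sub_zero]
  obtain ⟨E, hEd⟩ : ∃ E : Matrix (ι ⊕ K) (ι ⊕ K) (MonoidAlgebra k G),
    E = fromBlocks e 0 0 (Db (MonoidAlgebra k G) l) := ⟨_, rfl⟩
  obtain ⟨P, hP⟩ : ∃ P : Matrix (ι ⊕ K) (ι ⊕ K) (MonoidAlgebra k G), P = p.map (io k G) :=
    ⟨_, rfl⟩
  have q1 : E * X.val = X.val * P := by
    rw [hEd, hP]
    exact hE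
  have q2 : P * (X⁻¹).val = (X⁻¹).val * E := by
    calc P * (X⁻¹).val = (X⁻¹).val * (X.val * P) * (X⁻¹).val := by
          rw [← Matrix.mul_assoc (X⁻¹).val, Units.inv_mul, Matrix.one_mul]
      _ = (X⁻¹).val * E * (X.val * (X⁻¹).val) := by
          rw [← q1]
          simp only [Matrix.mul_assoc]
      _ = _ := by rw [Units.mul_inv, Matrix.mul_one]
  let νK : K → V := fun κ => if l κ then (εK κ).1 else (εK κ).2
  let ν' : ι ⊕ K → V := Sum.elim ν νK
  let ε' : ι ⊕ K → V × V := Sum.elim ε εK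
  obtain ⟨F1', hF1'⟩ : ∃ F : Matrix (ι ⊕ K) (ι ⊕ K) (MonoidAlgebra k G),
    F = fromBlocks F1 0 0 (Db (MonoidAlgebra k G) l) := ⟨_, rfl⟩
  obtain ⟨F2', hF2'⟩ : ∃ F : Matrix (ι ⊕ K) (ι ⊕ K) (MonoidAlgebra k G),
    F = fromBlocks F2 0 0 (1 - Db (MonoidAlgebra k G) l) := ⟨_, rfl⟩
  have h1E : 1 - E = fromBlocks (1 - e) 0 0 (1 - Db (MonoidAlgebra k G) l) := by
    rw [sub_eq_iff_eq_add, hEd, fromBlocks_add]
    simp
  let A : (Matrix (ι ⊕ K) (ι ⊕ K) (MonoidAlgebra k G))ˣ := Units.map (stm K) F0u * X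
  have hAv : A.val = F1' * X.val * P + F2' * X.val * (1 - P) := by
    change fromBlocks F0u.val 0 0 1 * X.val = _
    have h1 : (fromBlocks F0u.val 0 0 1 : Matrix (ι ⊕ K) (ι ⊕ K) (MonoidAlgebra k G)) =
        F1' * E + F2' * (1 - E) := by
      rw [h1E, hEd, hF1', hF2', fromBlocks_multiply, fromBlocks_multiply, fromBlocks_add, hF0]
      simp only [Matrix.mul_zero, Matrix.zero_mul, add_zero, zero_add]
      rw [db_idem, one_sub_idem (db_idem l)]
      congr 1
      abel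
    rw [h1, Matrix.add_mul, Matrix.mul_assoc F1', q1, Matrix.mul_assoc F2', Matrix.sub_mul, q1,
      Matrix.one_mul, Matrix.mul_sub, Matrix.mul_sub, Matrix.mul_one]
    simp only [Matrix.mul_assoc]
  have hAi : (A⁻¹).val = (X⁻¹).val * fromBlocks (H1 + H2) 0 0 1 := by
    have h1 : A⁻¹ = X⁻¹ * (Units.map (stm K) F0u)⁻¹ := _root_.mul_inv_rev _ _
    rw [h1, ← map_inv]
    change (X⁻¹).val * fromBlocks (F0u⁻¹).val 0 0 1 = _
    rw [hF0']
  have hPA : P * (A⁻¹).val = (X⁻¹).val * fromBlocks H1 0 0 (Db (MonoidAlgebra k G) l) := by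
    rw [hAi, ← Matrix.mul_assoc, q2, Matrix.mul_assoc, hEd, fromBlocks_multiply, Matrix.mul_add,
      eH1, eH2]
    simp
  have hPA' : (1 - P) * (A⁻¹).val =
      (X⁻¹).val * fromBlocks H2 0 0 (1 - Db (MonoidAlgebra k G) l) := by
    have h2 : (1 - P) * (X⁻¹).val = (X⁻¹).val * (1 - E) := by
      rw [Matrix.sub_mul, Matrix.one_mul, q2, Matrix.mul_sub, Matrix.mul_one]
    rw [hAi, ← Matrix.mul_assoc, h2, Matrix.mul_assoc, h1E, fromBlocks_multiply, Matrix.mul_add,
      eH1', eH2']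
    simp
  have hDb1 : ∀ κ, l κ = true → νK κ = (εK κ).1 := by
    intro κ h
    simp [νK, h]
  have hDb2 : ∀ κ, (!(l κ)) = true → νK κ = (εK κ).2 := by
    intro κ h
    have h2 : l κ = false := by simpa using h
    simp [νK, h2]
  have tF1' : Ty ν' ε' (fun x f => x = f.1) F1' := by
    rw [hF1']
    exact ty_blocks tF1 (ty_db hDb1)
  have tF2' : Ty ν' ε' (fun x f => x = f.2) F2' := by
    rw [hF2', db_not]
    exact ty_blocks tF2 (ty_db hDb2)
  have tH1' : Ty ε' ν' (fun f x => f.1 = x) (fromBlocks H1 0 0 (Db (MonoidAlgebra k G) l)) :=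
    ty_blocks tH1 (ty_db fun κ h => (hDb1 κ h).symm)
  have tH2' : Ty ε' ν' (fun f x => f.2 = x) (fromBlocks H2 0 0 (1 - Db (MonoidAlgebra k G) l)) := by
    rw [db_not]
    exact ty_blocks tH2 (ty_db fun κ h => (hDb2 κ h).symm)
  have hA : N.car _ A := by
    refine hg.split v₀ ν' (fun j => (ε' j).1) (fun j => (ε' j).2) p hp
      (fun i j h => congrArg Prod.fst (hpε i j h)) (fun i j h => congrArg Prod.snd (hpε i j h))
      A (F1' * X.val) (F2' * X.val) ?_ ?_ ?_ ?_ ?_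
    · rw [← hP]
      exact hAv
    · have h1 : Ty ν' ε' (fun x f => x = f.1) (F1' * X.val) :=
        tF1'.mul tX inv_fst' (fun x y z h h' => by rw [h, h'])
      exact fun i j g hg => h1 i j g hg
    · have h1 : Ty ν' ε' (fun x f => x = f.2) (F2' * X.val) :=
        tF2'.mul tX inv_snd' (fun x y z h h' => by rw [h, h'])
      exact fun i j g hg => h1 i j g hg
    · rw [← hP, hPA]
      have h1 : Ty ε' ν' (fun f x => f.1 = x)
          ((X⁻¹).val * fromBlocks H1 0 0 (Db (MonoidAlgebra k G) l)) :=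
        tX'.mul tH1' GInv.eq (fun x y z h h' => by rw [h, h'])
      exact fun i j g hg => h1 i j g hg
    · rw [← hP, hPA']
      have h1 : Ty ε' ν' (fun f x => f.2 = x)
          ((X⁻¹).val * fromBlocks H2 0 0 (1 - Db (MonoidAlgebra k G) l)) :=
        tX'.mul tH2' GInv.eq (fun x y z h h' => by rw [h, h'])
      exact fun i j g hg => h1 i j g hg
  have hX : N.car _ X := hg.same (fun i => (ε' i).1) X
    (fun i j g hg => congrArg Prod.fst (tX i j g hg))
    (fun i j g hg => congrArg Prod.fst (tX' i j g hg))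
  apply N.unst (μ := K)
  have h1 : Units.map (stm K) F0u = A * X⁻¹ := by
    simp only [A]
    group
  rw [h1]
  exact N.mul _ _ hA (N.inv _ hX)

/-- A linear matrix over a tree whose edge groups have only stably induced projective modules. -/
theorem coreK (hg : Good V N) (hT : T.IsTree)
    (hact : ∀ (g : G) (v w : V), T.Adj v w → T.Adj (g • v) (g • w))
    (hNil : ∀ (J : Type) [Fintype J] [DecidableEq J] (σ : J → V × V)
      (x y : Matrix J J (MonoidAlgebra k G)), Ty σ σ (fun q p => nb T p q) x →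
      y * (1 + x) = 1 → N.Tr (1 + x))
    (ν : ι → V) (ε : ι → V × V) (hadj : ∀ j, T.Adj (ε j).1 (ε j).2)
    (hgood : ∀ (g : G) j j', g • ε j = ε j' → ε j = ε j')
    (hno : ∀ (g : G) j j', g • ε j ≠ (ε j').swap)
    (F : (Matrix ι ι (MonoidAlgebra k G))ˣ) (F1 F2 : Matrix ι ι (MonoidAlgebra k G))
    (hF : F.val = F1 + F2)
    (tF1 : Ty ν ε (fun x f => x = f.1) F1) (tF2 : Ty ν ε (fun x f => x = f.2) F2)
    (hS : ∀ j, AllSI (io k (MulAction.stabilizer G (ε j)))) : N.car ι F := by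
  classical
  have D : Dat T ν ε F1 F2 (F⁻¹).val :=
    { tree := hT
      act := hact
      adj := hadj
      noinv := hno
      ty1 := tF1
      ty2 := tF2
      left := by rw [← hF, Units.inv_mul]
      right := by rw [← hF, Units.mul_inv] }
  obtain ⟨e, H1, H2, he, te, tH1, tH2, eH1, eH2, hFH, hHF, hprod, t11, t21, t12, t22⟩ := D.split
  obtain ⟨x, hx⟩ : ∃ x, x = H1 * F1 * (1 - e) + H2 * F1 * (1 - e) +
    (H1 * F2 * e + H2 * F2 * e) := ⟨_, rfl⟩
  let F0u : (Matrix ι ι (MonoidAlgebra k G))ˣ := ⟨F1 * e + F2 * (1 - e), H1 + H2, hFH, hHF⟩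
  have hzx : (1 + ((F⁻¹).val * (F1 * e + F2 * (1 - e)) - 1)) * (1 + x) = 1 := by
    rw [add_sub_cancel, Matrix.mul_assoc, hx, ← hprod, ← hF, Units.inv_mul]
  obtain ⟨w, hw, hwT⟩ := nil_of_split (N := N) hact hNil ε hadj F1 F2 e H1 H2 x _ he eH1 eH2 hx
    hzx t11 t21 t12 t22
  have hV : Nonempty V := hT.connected.nonempty
  have hVert : N.car ι F0u := by
    refine vert_of_split hg ν ε hgood F0u F1 F2 e H1 H2 rfl rfl tF1 tF2 he te tH1 tH2 eH1 eH2 ?_
    intro j
    have hi := desc_idem te he hgood (ε j)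
    have := mo_finite (desc ε e (ε j))
    have := mo_projective hi
    exact hS j _
  have hfin : F = F0u * w := by
    apply Units.ext
    rw [Units.val_mul, hw, hF, hprod, hx]
  rw [hfin]
  exact N.mul _ _ hVert hwT

end core

end Pool.Agent.H1.KK
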