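import Pool.Agent.H1.KK.St

set_option autoImplicit false
set_option linter.unusedSectionVars false
set_option linter.unusedSimpArgs false
set_option linter.style.haveILetI false

/-!
# Fibered classes of groups
-/

namespace Pool.Agent.H1.KK

open Matrix Pool.Agent.H1.MV Pool.Agent.H1.MK

/-- closure properties of a class of groups -/
structure TCls (W : ∀ (G : Type) [Group G], Prop) : Prop where
  inj : ∀ (G H : Type) [Group G] [Group H] (f : G →* H), Function.Injective f → W H → W G
  zp : ∀ n : ℕ, W (Zp n)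
  zn : ∀ (G : Type) [Group G] (n : ℕ), W G → W (G × Zp n)
  colim : ∀ (I : Type) [Preorder I] (H : I → Type) [∀ i, Group (H i)]
    (f : ∀ i j, i ≤ j → H i →* H j) (G : Type) [Group G] (φ : ∀ i, H i →* G), DC H f φ →
    (∀ i, W (H i)) → W G
  tree : ∀ (G V : Type) [Group G] [MulAction G V] (T : SimpleGraph V), T.IsTree →
    (∀ (g : G) (v w : V), T.Adj v w → T.Adj (g • v) (g • w)) →
    (∀ (g : G) (v w : V), T.Adj v w → ¬ (g • v = w ∧ g • w = v)) →
    (∀ v : V, W (MulAction.stabilizer G v)) →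
    (∀ p : ℕ → V, (∀ i, T.Adj (p i) (p (i + 1))) → (∀ i, p (i + 2) ≠ p i) →
      ∀ d : ℕ, 0 < d → ∃ m, ∀ h : G, (∀ i ≤ m, h • p (i + d) = p i) →
        W (Subgroup.closure ((Fx G m p : Set G) ∪ {h}))) → W G

theorem Base.tcls {P N : ∀ (G : Type) [Group G], Prop} (hP : Base P N) : TCls (St P) where
  inj G H _ _ f hf h := hP.st_inj h f hf
  zp n := hP.st_zp n
  zn G _ n h := hP.st_zn h n
  colim I _ H _ f G _ φ h hA := hP.st_colim h hA
  tree G V _ _ T hT hact hinv hV hm := hP.st_tree hT hact hinv hV (by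
    intro p h1 h2 d hd
    obtain ⟨m, hm⟩ := hm p h1 h2 d hd
    exact ⟨m, Or.inr (Or.inr hm)⟩)

/-- finitely generated free abelian groups -/
def FA (A : Type) [Group A] : Prop := ∃ n, Nonempty (A ≃* Zp n)

theorem FA.congr {A B : Type} [Group A] [Group B] (e : A ≃* B) (h : FA A) : FA B := by
  obtain ⟨n, ⟨f⟩⟩ := h
  exact ⟨n, ⟨e.symm.trans f⟩⟩

theorem FA.of_inj {A B : Type} [Group A] [Group B] (f : A →* B) (hf : Function.Injective f)
    (h : FA B) : FA A := by
  obtain ⟨n, ⟨e⟩⟩ := h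
  let g : A →* Zp n := e.toMonoidHom.comp f
  have hg : Function.Injective g := e.injective.comp hf
  obtain ⟨m, ⟨e'⟩⟩ := zp_sub n g.range
  exact ⟨m, ⟨(MonoidHom.ofInjective hg).trans e'⟩⟩

/-- torsion-free quotients -/
theorem FA.of_surj {A B : Type} [Group A] [Group B] (f : A →* B) (hf : Function.Surjective f)
    (hB : ∀ (x : B) (n : ℕ), 0 < n → x ^ n = 1 → x = 1) (h : FA A) : FA B := by
  obtain ⟨n, ⟨e⟩⟩ := h
  have hcomm : ∀ x y : B, x * y = y * x := by
    intro x y
    obtain ⟨a, rfl⟩ := hf x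
    obtain ⟨b, rfl⟩ := hf y
    rw [← map_mul, ← map_mul]
    congr 1
    apply e.injective
    rw [map_mul, map_mul, mul_comm]
  letI : CommGroup B := { (inferInstance : Group B) with mul_comm := hcomm }
  let g : (Fin n → ℤ) →+ Additive B := MonoidHom.toAdditiveRight (f.comp e.symm.toMonoidHom)
  have hg : Function.Surjective g := by
    intro b
    obtain ⟨a, ha⟩ := hf (Additive.toMul b)
    refine ⟨Multiplicative.toAdd (e a), ?_⟩
    change f (e.symm (e a)) = _
    rw [e.symm_apply_apply]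
    exact ha
  have h1 : Module.Finite ℤ (Additive B) :=
    Module.Finite.of_surjective g.toIntLinearMap hg
  have h2 : IsAddTorsionFree (Additive B) := by
    refine ⟨fun n hn a b hab => ?_⟩
    have h3 : (Additive.toMul a) ^ n = (Additive.toMul b) ^ n := hab
    have h4 : (Additive.toMul a * (Additive.toMul b)⁻¹) ^ n = 1 := by
      rw [mul_pow, inv_pow, h3, mul_inv_cancel]
    have h5 := hB _ n (Nat.pos_of_ne_zero hn) h4
    exact Additive.toMul.injective (mul_inv_eq_one.1 h5)
  have h3 : Module.Free ℤ (Additive B) := Module.free_of_finite_type_torsion_free'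
  let b := Module.finBasis ℤ (Additive B)
  let e2 : Additive B ≃+ (Fin (Module.finrank ℤ (Additive B)) → ℤ) := b.equivFun.toAddEquiv
  exact ⟨_, ⟨AddEquiv.toMultiplicativeRight e2⟩⟩

/-- the fibered class -/
def Fb (W : ∀ (G : Type) [Group G], Prop) (B : Type) [Group B] : Prop :=
  ∀ (G : Type) [Group G] (f : G →* B), (∀ A : Subgroup B, FA A → W (A.comap f)) → W G

section fb

variable {W : ∀ (G : Type) [Group G], Prop} (hW : TCls W) {B : Type} [Group B]

include hW

/-- preimages of subgroups from the class -/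
theorem TCls.pre (S : Subgroup B) (hS : Fb W S) {G : Type} [Group G] (f : G →* B)
    (hf : ∀ A : Subgroup B, FA A → W (A.comap f)) : W (S.comap f) := by
  let F : S.comap f →* S :=
    { toFun := fun x => ⟨f x.1, x.2⟩
      map_one' := Subtype.ext (map_one f)
      map_mul' := fun x y => Subtype.ext (map_mul f _ _) }
  refine hS (S.comap f) F ?_
  intro A hA
  have e1 : A ≃* A.map S.subtype := A.equivMapOfInjective _ S.subtype_injective
  have h1 := hf (A.map S.subtype) (hA.congr e1)
  let j : A.comap F →* (A.map S.subtype).comap f :=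
    { toFun := fun x => ⟨x.1.1, ⟨F x.1, x.2, rfl⟩⟩
      map_one' := rfl
      map_mul' := fun x y => rfl }
  refine hW.inj _ _ j ?_ h1
  intro x y hxy
  have h2 : (j x).1 = (j y).1 := congrArg Subtype.val hxy
  exact Subtype.ext (Subtype.ext h2)

theorem TCls.fb_fa (h : FA B) : Fb W B := by
  intro G _ f hf
  have h1 := hf ⊤ (h.congr Subgroup.topEquiv.symm)
  let j : G →* (⊤ : Subgroup B).comap f :=
    { toFun := fun x => ⟨x, trivial⟩
      map_one' := rfl
      map_mul' := fun _ _ => rfl }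
  exact hW.inj _ _ j (fun x y hxy => congrArg Subtype.val hxy) h1

theorem TCls.fb_zp (n : ℕ) : Fb W (Zp n) := hW.fb_fa ⟨n, ⟨MulEquiv.refl _⟩⟩

theorem TCls.of_fa {A : Type} [Group A] (h : FA A) : W A := by
  obtain ⟨n, ⟨e⟩⟩ := h
  exact hW.inj _ _ e.toMonoidHom e.injective (hW.zp n)

theorem TCls.self (h : Fb W B) : W B := by
  refine h B (MonoidHom.id B) ?_
  intro A hA
  exact hW.of_fa hA

theorem TCls.prodW {A : Type} [Group A] (hA : W A) (hB : Fb W B) : W (A × B) := by
  refine hB (A × B) (MonoidHom.snd A B) ?_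
  intro D hD
  obtain ⟨n, ⟨e⟩⟩ := hD
  let j : D.comap (MonoidHom.snd A B) →* A × Zp n :=
    { toFun := fun x => (x.1.1, e ⟨x.1.2, x.2⟩)
      map_one' := Prod.ext rfl (map_one e)
      map_mul' := fun x y => Prod.ext rfl (map_mul e ⟨x.1.2, x.2⟩ ⟨y.1.2, y.2⟩) }
  refine hW.inj _ _ j ?_ (hW.zn A n hA)
  intro x y hxy
  have h0 : ((x.1.1, e ⟨x.1.2, x.2⟩) : A × Zp n) = (y.1.1, e ⟨y.1.2, y.2⟩) := hxy
  have h1 := (Prod.mk.inj h0).1
  have h2 := e.injective (Prod.mk.inj h0).2
  exact Subtype.ext (Prod.ext h1 (congrArg Subtype.val h2))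

theorem TCls.fb_inj {B' : Type} [Group B'] (g : B' →* B) (hg : Function.Injective g)
    (h : Fb W B) : Fb W B' := by
  intro G _ f hf
  refine h G (g.comp f) ?_
  intro A hA
  have h1 : FA (A.comap g) := by
    let j : A.comap g →* A :=
      { toFun := fun x => ⟨g x.1, x.2⟩
        map_one' := Subtype.ext (map_one g)
        map_mul' := fun x y => Subtype.ext (map_mul g _ _) }
    refine FA.of_inj j ?_ hA
    intro x y hxy
    have h2 : (j x).1 = (j y).1 := congrArg Subtype.val hxy
    exact Subtype.ext (hg h2)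
  exact hf _ h1

/-- **Extensions** -/
theorem TCls.fb_ext {L : Type} [Group L] (π : B →* L) (hL : Fb W L)
    (h : ∀ A : Subgroup L, FA A → Fb W (A.comap π)) : Fb W B := by
  intro G _ f hf
  refine hL G (π.comp f) ?_
  intro A hA
  exact hW.pre _ (h A hA) f hf

theorem TCls.fb_prod {B' : Type} [Group B'] (h : Fb W B) (h' : Fb W B') : Fb W (B × B') := by
  refine hW.fb_ext (MonoidHom.fst B B') h ?_
  intro A hA
  obtain ⟨n, ⟨e⟩⟩ := hA
  -- the product of a free abelian group with `B'`
  have h1 : Fb W (Zp n × B') := by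
    refine hW.fb_ext (MonoidHom.snd (Zp n) B') h' ?_
    intro A' hA'
    obtain ⟨m, ⟨e'⟩⟩ := hA'
    let j : A'.comap (MonoidHom.snd (Zp n) B') →* Zp (n + m) :=
      (zpAdd n m).toMonoidHom.comp
      { toFun := fun x => (x.1.1, e' ⟨x.1.2, x.2⟩)
        map_one' := Prod.ext rfl (map_one e')
        map_mul' := fun x y => Prod.ext rfl (map_mul e' ⟨x.1.2, x.2⟩ ⟨y.1.2, y.2⟩) }
    refine hW.fb_inj j ?_ (hW.fb_zp _)
    intro x y hxy
    have h0 : ((x.1.1, e' ⟨x.1.2, x.2⟩) : Zp n × Zp m) = (y.1.1, e' ⟨y.1.2, y.2⟩) :=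
      (zpAdd n m).injective hxy
    have h1 := (Prod.mk.inj h0).1
    have h2 := e'.injective (Prod.mk.inj h0).2
    exact Subtype.ext (Prod.ext h1 (congrArg Subtype.val h2))
  let j : A.comap (MonoidHom.fst B B') →* Zp n × B' :=
    { toFun := fun x => (e ⟨x.1.1, x.2⟩, x.1.2)
      map_one' := Prod.ext (map_one e) rfl
      map_mul' := fun x y => Prod.ext (map_mul e ⟨x.1.1, x.2⟩ ⟨y.1.1, y.2⟩) rfl }
  refine hW.fb_inj j ?_ h1
  intro x y hxy
  have h0 : ((e ⟨x.1.1, x.2⟩, x.1.2) : Zp n × B') = (e ⟨y.1.1, y.2⟩, y.1.2) := hxy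
  have h1 := e.injective (Prod.mk.inj h0).1
  have h2 := (Prod.mk.inj h0).2
  exact Subtype.ext (Prod.ext (congrArg Subtype.val h1) h2)

/-- **Directed colimits** of torsion-free groups -/
theorem TCls.fb_colim {I : Type} [Preorder I] {H : I → Type} [∀ i, Group (H i)]
    {f : ∀ i j, i ≤ j → H i →* H j} {φ : ∀ i, H i →* B} (h : DC H f φ)
    (htf : ∀ (i : I) (x : H i) (n : ℕ), 0 < n → x ^ n = 1 → x = 1)
    (hH : ∀ i, Fb W (H i)) : Fb W B := by
  have htfB : ∀ (x : B) (n : ℕ), 0 < n → x ^ n = 1 → x = 1 := by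
    intro x n hn hx
    obtain ⟨i, y, rfl⟩ := h.surj x
    obtain ⟨j, hj, h1⟩ := h.inj i (y ^ n) (by rw [map_pow, hx])
    rw [map_pow] at h1
    rw [← h.comp i j hj, htf j _ n hn h1, map_one]
  intro K _ F hF
  -- the pullbacks
  let P : ∀ i, Subgroup (K × H i) := fun i =>
    { carrier := {q | F q.1 = φ i q.2}
      one_mem' := by
        change F 1 = φ i 1
        rw [map_one, map_one]
      mul_mem' := by
        intro a b ha hb
        change F (a.1 * b.1) = φ i (a.2 * b.2)
        rw [map_mul, map_mul, ha, hb]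
      inv_mem' := by
        intro a ha
        change F (a.1)⁻¹ = φ i (a.2)⁻¹
        rw [map_inv, map_inv, ha] }
  have hD : DC (I := I) (fun i => P i)
      (fun i j hij =>
        { toFun := fun x => ⟨(x.1.1, f i j hij x.1.2), by
            change F x.1.1 = φ j (f i j hij x.1.2)
            rw [h.comp i j hij]
            exact x.2⟩
          map_one' := Subtype.ext (Prod.ext rfl (map_one _))
          map_mul' := fun x y => Subtype.ext (Prod.ext rfl (map_mul _ _ _)) })
      (G := K)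
      (fun i => (MonoidHom.fst K (H i)).comp (P i).subtype) :=
    { nonempty := h.nonempty
      directed := h.directed
      trans := fun i j l hij hjl x => Subtype.ext (Prod.ext rfl (h.trans i j l hij hjl x.1.2))
      comp := fun i j hij x => rfl
      surj := fun g => by
        obtain ⟨i, x, hx⟩ := h.surj (F g)
        exact ⟨i, ⟨(g, x), hx.symm⟩, rfl⟩
      inj := fun i x hx => by
        have h1 : x.1.1 = 1 := hx
        have h2 : φ i x.1.2 = 1 := by
          have h3 : F x.1.1 = φ i x.1.2 := x.2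
          rw [← h3, h1, map_one]
        obtain ⟨j, hj, h4⟩ := h.inj i x.1.2 h2
        exact ⟨j, hj, Subtype.ext (Prod.ext h1 h4)⟩ }
  refine hW.colim _ _ _ _ _ hD ?_
  intro i
  refine hH i (P i) ((MonoidHom.snd K (H i)).comp (P i).subtype) ?_
  intro A hA
  have hfa : FA (A.map (φ i)) := by
    refine FA.of_surj ((φ i).subgroupMap A) ((φ i).subgroupMap_surjective A) ?_ hA
    intro x n hn hx
    apply Subtype.ext
    exact htfB x.1 n hn (congrArg Subtype.val hx)
  have h1 := hF _ hfa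
  obtain ⟨n, ⟨e⟩⟩ := hA
  let j : A.comap ((MonoidHom.snd K (H i)).comp (P i).subtype) →*
      ((A.map (φ i)).comap F) × Zp n :=
    { toFun := fun x => (⟨x.1.1.1, by
        rw [Subgroup.mem_comap]
        have h3 : F x.1.1.1 = φ i x.1.1.2 := x.1.2
        rw [h3]
        exact ⟨x.1.1.2, x.2, rfl⟩⟩, e ⟨x.1.1.2, x.2⟩)
      map_one' := Prod.ext rfl (map_one e)
      map_mul' := fun x y => Prod.ext rfl (map_mul e ⟨x.1.1.2, x.2⟩ ⟨y.1.1.2, y.2⟩) }
  refine hW.inj _ _ j ?_ (hW.zn _ n h1)
  intro x y hxy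
  have e1 : (j x).1 = (j y).1 := congrArg Prod.fst hxy
  have e2 : (j x).2 = (j y).2 := congrArg Prod.snd hxy
  have e3 : x.1.1.1 = y.1.1.1 := congrArg Subtype.val e1
  have e4 := e.injective e2
  have e5 : x.1.1.2 = y.1.1.2 := congrArg Subtype.val e4
  exact Subtype.ext (Subtype.ext (Prod.ext e3 e5))

/-- **Tree actions** -/
theorem TCls.fb_tree {V : Type} [MulAction B V] {T : SimpleGraph V} (hT : T.IsTree)
    (hact : ∀ (g : B) (v w : V), T.Adj v w → T.Adj (g • v) (g • w))
    (hinv : ∀ (g : B) (v w : V), T.Adj v w → ¬ (g • v = w ∧ g • w = v))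
    (hV : ∀ v : V, Fb W (MulAction.stabilizer B v))
    (hm : ∀ p : ℕ → V, (∀ i, T.Adj (p i) (p (i + 1))) → (∀ i, p (i + 2) ≠ p i) →
      ∀ d : ℕ, 0 < d → ∃ m, ∀ h : B, (∀ i ≤ m, h • p (i + d) = p i) →
        Fb W (Subgroup.closure ((Fx B m p : Set B) ∪ {h}))) : Fb W B := by
  intro G _ f hf
  letI : MulAction G V := MulAction.compHom V f
  have hsm : ∀ (g : G) (v : V), g • v = f g • v := fun _ _ => rfl
  refine hW.tree G V T hT (fun g v w h => hact (f g) v w h) (fun g v w h => hinv (f g) v w h)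
    ?_ ?_
  · intro v
    have h1 : MulAction.stabilizer G v = (MulAction.stabilizer B v).comap f := by
      ext g
      rfl
    rw [h1]
    exact hW.pre _ (hV v) f hf
  · intro p h1 h2 d hd
    obtain ⟨m, hm⟩ := hm p h1 h2 d hd
    refine ⟨m, ?_⟩
    intro h hper
    have h3 := hW.pre _ (hm (f h) (fun i hi => hper i hi)) f hf
    have hle : Subgroup.closure ((Fx G m p : Set G) ∪ {h}) ≤
        (Subgroup.closure ((Fx B m p : Set B) ∪ {f h})).comap f := by
      rw [Subgroup.closure_le]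
      rintro g (hg | hg)
      · exact Subgroup.subset_closure (Or.inl hg)
      · have hg' : g = h := hg
        rw [hg']
        exact Subgroup.subset_closure (Or.inr rfl)
    exact hW.inj _ _ (Subgroup.inclusion hle) (Subgroup.inclusion_injective hle) h3

end fb

end Pool.Agent.H1.KK
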