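import Pool.Agent.H1.KK.Masch

set_option autoImplicit false
set_option linter.unusedSectionVars false
set_option linter.unusedSimpArgs false

/-!
# The class of groups whose projective class groups are generated by finite subgroups
-/

namespace Pool.Agent.H1.KK

open Matrix TH57.Thr Pool.Agent.K4H37.MT Pool.Agent.H1.MV Pool.Agent.H1.MK

section edge

variable {k : Type} [Ring k] {E : Type} [Group E]

theorem allSI_mg_fin {F : Type} [Group F] [Finite F] (h : Reg k)
    (hu : IsUnit ((Nat.card F : ℕ) : k)) : AllSI (mg (Cc k) F) := by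
  have h1 := reg_fin (F := F) h hu
  have := h1.noeth
  have h2 := (allSI_lau h1.nice).comp (AllSI.equiv (sw k F).symm)
  have h3 : ((sw k F).symm : Lau (MonoidAlgebra k F) →+* MonoidAlgebra (Lau k) F).comp
      (Cc (MonoidAlgebra k F)) = mg (Cc k) F := RingHom.ext fun x => (mg_Cc x).symm
  rwa [h3] at h2

/-- the edge groups -/
theorem allSI_mg (h : Reg k) (hA : AF (Lau k) E)
    (hu : ∀ F : Subgroup E, Finite F → IsUnit ((Nat.card F : ℕ) : k)) : AllSI (mg (Cc k) E) := by
  rw [allSI_iff, Subgroup.eq_top_iff']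
  intro x
  have h1 : IF (Lau k) E ≤ IK (mg (Cc k) E) := by
    apply iSup_le
    rintro ⟨F, hF⟩
    intro y hy
    rw [ik_eq] at hy ⊢
    obtain ⟨z, rfl⟩ := hy
    have h2 := allSI_mg_fin (F := F) h (hu F hF)
    rw [allSI_iff, ik_eq] at h2
    have hz : z ∈ (kzm (mg (Cc k) F)).range := by rw [h2]; exact Subgroup.mem_top _
    obtain ⟨w, rfl⟩ := hz
    refine ⟨kzm (inc k F) w, ?_⟩
    rw [kzm_comp, kzm_comp]
    congr 2
    exact RingHom.ext fun x => mg_inc (Cc k) F x
  exact h1 (hA x)

end edge

section cls

variable {C : ∀ (k : Type) [Ring k], Prop} {G : Type} [Group G]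

/-- the class of groups -/
def GF (C : ∀ (k : Type) [Ring k], Prop) (G : Type) [Group G] : Prop :=
  ∀ (k : Type) [Ring k], C k → ∀ H : Subgroup G, AF k H

theorem GF.inj (h : GF C G) {K : Type} [Group K] (f : K →* G) (hf : Function.Injective f)
    (k : Type) [Ring k] (hk : C k) : AF k K :=
  AF.congr (MonoidHom.ofInjective hf).symm (h k hk f.range)

theorem GF.of_inj (h : GF C G) {K : Type} [Group K] (f : K →* G) (hf : Function.Injective f) :
    GF C K := by
  intro k _ hk H
  exact h.inj (f.comp H.subtype) (hf.comp H.subtype_injective) k hk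

theorem gf_finite (C : ∀ (k : Type) [Ring k], Prop) (G : Type) [Group G] [Finite G] : GF C G :=
  fun k _ _ H => af_finite k H

theorem gf_of_kr (h : KR C G) : GF C G := fun k _ hk H => af_of_allSI (h k hk H)

/-- directed unions -/
theorem GF.union (h : ∀ F : Finset G, ∃ H : Subgroup G, (∀ x ∈ F, x ∈ H) ∧ GF C H) :
    GF C G := by
  classical
  intro k _ hk L x
  obtain ⟨n, p, hp, rfl⟩ := exists_km x
  obtain ⟨F, hF⟩ : ∃ F : Finset L, ∀ i j g, (p i j).coeff g ≠ 0 → g ∈ F := by
    refine ⟨Finset.univ.biUnion fun q : Fin n × Fin n => (p q.1 q.2).coeff.support, ?_⟩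
    intro i j g hg
    exact Finset.mem_biUnion.2 ⟨(i, j), Finset.mem_univ _, Finsupp.mem_support_iff.2 hg⟩
  obtain ⟨H, hH, hW⟩ := h (F.image fun q : L => (q : G))
  let K : Subgroup L := H.subgroupOf L
  let g : K →* H :=
    { toFun := fun x => ⟨((x : L) : G), x.2⟩
      map_one' := rfl
      map_mul' := fun _ _ => rfl }
  have hg : Function.Injective g := by
    intro x y hxy
    apply Subtype.ext
    apply Subtype.ext
    exact congrArg (fun z : H => (z : G)) hxy
  have haf : AF k K := hW.inj g hg k hk
  -- the idempotent comes from the subgroup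
  let p' : Matrix (Fin n) (Fin n) (MonoidAlgebra k K) := p.map (toSub K)
  have hp' : p'.map (inc k K) = p := by
    ext1 i j
    change inc k K (toSub K (p i j)) = p i j
    apply inc_toSub
    intro x hx
    exact hH _ (Finset.mem_image.2 ⟨x, hF i j x hx, rfl⟩)
  have hidem : p' * p' = p' := by
    have hinj : Function.Injective (fun M : Matrix (Fin n) (Fin n) (MonoidAlgebra k K) =>
        M.map (inc k K)) := by
      intro M N hMN
      ext1 i j
      exact inc_inj K (congrFun (congrFun hMN i) j)
    apply hinj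
    beta_reduce
    rw [Matrix.map_mul, hp', hp]
  have h1 := af_sub haf (km p' hidem)
  rw [kzm_km, km_congr hp'] at h1
  exact h1

theorem fx_succ_le {V : Type} [MulAction G V] (m : ℕ) (p : ℕ → V) : Fx G (m + 1) p ≤ Fx G m p :=
  fun _ h i hi => h i (le_trans hi (Nat.le_succ m))

/-- **The closure theorem** -/
theorem GF.tree (hC : RCls C) {V : Type} [MulAction G V] {T : SimpleGraph V} (hT : T.IsTree)
    (hact : ∀ (g : G) (v w : V), T.Adj v w → T.Adj (g • v) (g • w))
    (hinv : ∀ (g : G) (v w : V), T.Adj v w → ¬ (g • v = w ∧ g • w = v))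
    (hu : ∀ v w : V, T.Adj v w → ∀ F : Subgroup G, Finite F → (∀ g ∈ F, g • v = v ∧ g • w = w) →
      ∀ (k : Type) [Ring k], C k → IsUnit ((Nat.card F : ℕ) : k))
    (hV : ∀ v : V, GF C (MulAction.stabilizer G v))
    (hm : ∀ p : ℕ → V, (∀ i, T.Adj (p i) (p (i + 1))) → (∀ i, p (i + 2) ≠ p i) →
      ∀ d : ℕ, 0 < d → ∃ m, Finite (Fx G m p) ∨
        (∀ (k : Type) [Ring k], C k → Nice (MonoidAlgebra k (Fx G m p))) ∨
        ∀ h : G, (∀ i ≤ m, h • p (i + d) = p i) →
          GF C (Subgroup.closure ((Fx G m p : Set G) ∪ {h}))) : GF C G := by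
  intro k _ hk K x
  have hL := hC.lau k hk
  have hcard : ∀ {A : Type} [Group A] (f : A →* G) (hf : Function.Injective f) (F : Subgroup A),
      Finite F → ∀ v w : V, T.Adj v w → (∀ a ∈ F, f a • v = v ∧ f a • w = w) →
      ∀ (k : Type) [Ring k], C k → IsUnit ((Nat.card F : ℕ) : k) := by
    intro A _ f hf F hF v w hvw hfix k _ hk
    have e := F.equivMapOfInjective f hf
    have hF' : Finite (F.map f) := Finite.of_equiv F e.toEquiv
    have h1 := hu v w hvw (F.map f) hF' (by
      rintro _ ⟨a, ha, rfl⟩
      exact hfix a ha) k hk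
    rwa [← Nat.card_congr e.toEquiv] at h1
  refine top_tree (G := K) (V := V) (T := T) (U := IF k K) hT (fun g v w h => hact g v w h)
    (fun g v w h => hinv g v w h) ?_ ?_ ?_ x
  · intro v
    let f : MulAction.stabilizer K v →* MulAction.stabilizer G v :=
      { toFun := fun x => ⟨((x : K) : G), x.2⟩
        map_one' := rfl
        map_mul' := fun _ _ => rfl }
    refine af_sub ((hV v).inj f ?_ k hk)
    intro x y hxy
    apply Subtype.ext
    apply Subtype.ext
    exact congrArg (fun z : MulAction.stabilizer G v => (z : G)) hxy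
  · intro v w hvw
    let f : MulAction.stabilizer K ((v, w) : V × V) →* MulAction.stabilizer G v :=
      { toFun := fun x => ⟨((x : K) : G), congrArg Prod.fst (MulAction.mem_stabilizer_iff.1 x.2)⟩
        map_one' := rfl
        map_mul' := fun _ _ => rfl }
    refine allSI_mg (hC.reg k hk) ((hV v).inj f ?_ _ hL) ?_
    · intro x y hxy
      apply Subtype.ext
      apply Subtype.ext
      exact congrArg (fun z : MulAction.stabilizer G v => (z : G)) hxy
    · intro F hF
      refine hcard (K.subtype.comp (MulAction.stabilizer K ((v, w) : V × V)).subtype)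
        (K.subtype_injective.comp (Subgroup.subtype_injective _)) F hF v w hvw ?_ k hk
      intro a _
      have h1 := MulAction.mem_stabilizer_iff.1 a.2
      exact ⟨congrArg Prod.fst h1, congrArg Prod.snd h1⟩
  · intro p h1 h2 d hd
    obtain ⟨m, hm⟩ := hm p h1 h2 d hd
    have hfin : ∀ m, ∃ f : Fx K m p →* Fx G m p, Function.Injective f := by
      intro m
      let f : Fx K m p →* Fx G m p :=
        { toFun := fun x => ⟨((x : K) : G), x.2⟩
          map_one' := rfl
          map_mul' := fun _ _ => rfl }
      refine ⟨f, ?_⟩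
      intro x y hxy
      apply Subtype.ext
      apply Subtype.ext
      exact congrArg (fun z : Fx G m p => (z : G)) hxy
    rcases hm with hm | hm | hm
    · refine ⟨m + 1, Or.inl ?_⟩
      have hF0 : Finite (Fx G (m + 1) p) :=
        Finite.of_injective (Subgroup.inclusion (fx_succ_le m p))
          (Subgroup.inclusion_injective _)
      obtain ⟨f, hf⟩ := hfin (m + 1)
      have hF : Finite (Fx K (m + 1) p) := Finite.of_injective f hf
      refine (reg_fin (hC.reg _ hL) ?_).nice
      have hcd := hcard (K.subtype) K.subtype_injective (Fx K (m + 1) p) hF (p 0) (p 1) (h1 0)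
        (fun a ha => ⟨ha 0 (Nat.zero_le _), ha 1 (Nat.succ_le_succ (Nat.zero_le _))⟩) (Lau k) hL
      exact hcd
    · refine ⟨m, Or.inl ?_⟩
      obtain ⟨f, hf⟩ := hfin m
      exact nice_congr (MonoidHom.ofInjective hf).symm (Nice.sub f.range (hm _ hL))
    · refine ⟨m, Or.inr ?_⟩
      intro h hper
      have h3 := hm (h : G) (fun i hi => hper i hi)
      have hle : (Subgroup.closure ((Fx K m p : Set K) ∪ {h})).map K.subtype ≤
          Subgroup.closure ((Fx G m p : Set G) ∪ {(h : G)}) := by
        rw [MonoidHom.map_closure, Subgroup.closure_le]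
        rintro _ ⟨g, hg | hg, rfl⟩
        · exact Subgroup.subset_closure (Or.inl hg)
        · have hg' : g = h := hg
          rw [hg']
          exact Subgroup.subset_closure (Or.inr rfl)
      let f : Subgroup.closure ((Fx K m p : Set K) ∪ {h}) →*
          Subgroup.closure ((Fx G m p : Set G) ∪ {(h : G)}) :=
        { toFun := fun x => ⟨((x : K) : G), hle ⟨(x : K), x.2, rfl⟩⟩
          map_one' := rfl
          map_mul' := fun _ _ => rfl }
      refine af_sub (h3.inj f ?_ k hk)
      intro x y hxy
      apply Subtype.ext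
      apply Subtype.ext
      exact congrArg (fun z : Subgroup.closure ((Fx G m p : Set G) ∪ {(h : G)}) => (z : G)) hxy

end cls

end Pool.Agent.H1.KK
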