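import Pool.Agent.H1.KK.KR

set_option autoImplicit false
set_option linter.unusedSectionVars false
set_option linter.unusedSimpArgs false

/-!
# Subgroups of `K₁` which are generated by a system of matrices
-/

namespace Pool.Agent.H1.KK

open Matrix TH57.Thr Pool.Agent.K4H37.MT Pool.Agent.H1.MV Pool.Agent.H1.MK

section gen

/-- a system of generators -/
structure GSys (R : Type) [Ring R] where
  /-- the generators -/
  g : ∀ (κ : Type) [Fintype κ] [DecidableEq κ], (Matrix κ κ R)ˣ → Prop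
  st : ∀ {κ : Type} [Fintype κ] [DecidableEq κ] (μ : Type) [Fintype μ] [DecidableEq μ]
    (x : (Matrix κ κ R)ˣ), g κ x → g (κ ⊕ μ) (Units.map (stm μ) x)
  re : ∀ {κ μ : Type} [Fintype κ] [DecidableEq κ] [Fintype μ] [DecidableEq μ] (e : μ ≃ κ)
    (x : (Matrix κ κ R)ˣ), g κ x → g μ (Units.map (TH57.Thr.re e) x)

variable {R : Type} [Ring R] (S : GSys R) {κ μ ν : Type} [Fintype κ] [DecidableEq κ] [Fintype μ]
  [DecidableEq μ] [Fintype ν] [DecidableEq ν]

/-- the generated subgroup of the general linear group -/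
def GE (κ : Type) [Fintype κ] [DecidableEq κ] : Subgroup (Matrix κ κ R)ˣ :=
  commutator _ ⊔ Subgroup.closure {x | S.g κ x}

theorem ge_le {R' : Type} [Ring R'] (S' : GSys R') (f : (Matrix κ κ R)ˣ →* (Matrix μ μ R')ˣ)
    (hf : ∀ x, S.g κ x → f x ∈ GE S' μ) (x : (Matrix κ κ R)ˣ) (hx : x ∈ GE S κ) :
    f x ∈ GE S' μ := by
  have h1 : GE S κ ≤ (GE S' μ).comap f := by
    apply sup_le
    · rw [← Subgroup.map_le_iff_le_comap, commutator_def, Subgroup.map_commutator]
      exact le_trans (Subgroup.commutator_mono le_top le_top) le_sup_left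
    · rw [Subgroup.closure_le]
      intro y hy
      exact hf y hy
  exact h1 hx

theorem mem_ge {x : (Matrix κ κ R)ˣ} (h : S.g κ x) : x ∈ GE S κ :=
  (le_sup_right : _ ≤ GE S κ) (Subgroup.subset_closure h)

theorem ge_st (x : (Matrix κ κ R)ˣ) (hx : x ∈ GE S κ) : Units.map (stm μ) x ∈ GE S (κ ⊕ μ) :=
  ge_le S S (Units.map (stm μ)) (fun x h => mem_ge S (S.st μ x h)) x hx

theorem ge_re (e : μ ≃ κ) (x : (Matrix κ κ R)ˣ) (hx : x ∈ GE S κ) :
    Units.map (TH57.Thr.re e) x ∈ GE S μ :=
  ge_le S S (Units.map (TH57.Thr.re e)) (fun x h => mem_ge S (S.re e x h)) x hx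

theorem ge_more (x : (Matrix κ κ R)ˣ) (μ : Type) [Fintype μ] [DecidableEq μ]
    (h : Units.map (stm μ) x ∈ GE S (κ ⊕ μ)) (ν : Type) [Fintype ν] [DecidableEq ν] :
    Units.map (stm (μ ⊕ ν)) x ∈ GE S (κ ⊕ (μ ⊕ ν)) ∧
    Units.map (stm (ν ⊕ μ)) x ∈ GE S (κ ⊕ (ν ⊕ μ)) := by
  have h1 := ge_st S (μ := ν) _ h
  constructor
  · have h2 := ge_re S (Equiv.sumAssoc κ μ ν).symm _ h1
    convert h2 using 1
    apply Units.ext
    ext (i | i | i) (j | j | j) <;> simp [stm, TH57.Thr.re, Matrix.one_apply]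
  · let e : (κ ⊕ (ν ⊕ μ)) ≃ ((κ ⊕ μ) ⊕ ν) :=
      { toFun := Sum.elim (fun i => Sum.inl (Sum.inl i))
          (Sum.elim Sum.inr (fun l => Sum.inl (Sum.inr l)))
        invFun := Sum.elim (Sum.elim Sum.inl (fun l => Sum.inr (Sum.inr l)))
          (fun k => Sum.inr (Sum.inl k))
        left_inv := by rintro (i | i | i) <;> rfl
        right_inv := by rintro ((i | i) | i) <;> rfl }
    have h2 := ge_re S e _ h1
    convert h2 using 1
    apply Units.ext
    ext (i | i | i) (j | j | j) <;> simp [stm, TH57.Thr.re, e, Matrix.one_apply]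

/-- the subgroup of `K₁` which is generated -/
def genK (S : GSys R) : KI R where
  car κ _ _ x := ∃ (μ : Type) (_ : Fintype μ) (_ : DecidableEq μ),
    Units.map (stm μ) x ∈ GE S (κ ⊕ μ)
  of_TT x hx := by
    obtain ⟨μ, i1, i2, h⟩ := hx
    refine ⟨μ, i1, i2, ?_⟩
    refine (sup_le le_sup_left ?_ : HH ⊥ _ ≤ GE S _) h
    rw [Subgroup.closure_le]
    rintro _ ⟨i, u, hu, rfl⟩
    rw [Subgroup.mem_bot] at hu
    rw [hu, map_one]
    exact one_mem _
  mul x y hx hy := by
    obtain ⟨μ, i1, i2, h1⟩ := hx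
    obtain ⟨ν, i3, i4, h2⟩ := hy
    refine ⟨μ ⊕ ν, inferInstance, inferInstance, ?_⟩
    rw [map_mul]
    exact mul_mem (ge_more S x μ h1 ν).1 (ge_more S y ν h2 μ).2
  inv x hx := by
    obtain ⟨μ, i1, i2, h1⟩ := hx
    refine ⟨μ, inferInstance, inferInstance, ?_⟩
    rw [map_inv]
    exact inv_mem h1
  st {κ} _ _ μ _ _ x hx := by
    obtain ⟨ν, i1, i2, h1⟩ := hx
    refine ⟨ν, inferInstance, inferInstance, ?_⟩
    have h2 := ge_re S (Equiv.sumAssoc κ μ ν) _ (ge_more S x ν h1 μ).2
    convert h2 using 1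
    apply Units.ext
    ext ((i | i) | i) ((j | j) | j) <;> simp [stm, TH57.Thr.re, Matrix.one_apply]
  unst {κ μ} _ _ _ _ x hx := by
    obtain ⟨ν, i1, i2, h1⟩ := hx
    refine ⟨μ ⊕ ν, inferInstance, inferInstance, ?_⟩
    have h2 := ge_re S (Equiv.sumAssoc κ μ ν).symm _ h1
    convert h2 using 1
    apply Units.ext
    ext (i | i | i) (j | j | j) <;> simp [stm, TH57.Thr.re, Matrix.one_apply]
  re {κ μ} _ _ _ _ e x hx := by
    obtain ⟨ν, i1, i2, h1⟩ := hx
    refine ⟨ν, inferInstance, inferInstance, ?_⟩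
    have h2 := ge_re S (Equiv.sumCongr e (Equiv.refl ν)) _ h1
    convert h2 using 1
    apply Units.ext
    ext (i | i) (j | j) <;> simp [stm, TH57.Thr.re, Matrix.one_apply]

theorem genK_gen {x : (Matrix κ κ R)ˣ} (h : S.g κ x) : (genK S).car κ x :=
  ⟨Empty, inferInstance, inferInstance, ge_st S x (mem_ge S h)⟩

/-- ring homomorphisms -/
theorem genK_map {R' : Type} [Ring R'] (S' : GSys R') (φ : R →+* R')
    (hφ : ∀ (κ : Type) [Fintype κ] [DecidableEq κ] (x : (Matrix κ κ R)ˣ), S.g κ x →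
      S'.g κ (Units.map (mpm φ) x)) {x : (Matrix κ κ R)ˣ} (h : (genK S).car κ x) :
    (genK S').car κ (Units.map (mpm φ) x) := by
  obtain ⟨ν, i1, i2, h1⟩ := h
  refine ⟨ν, inferInstance, inferInstance, ?_⟩
  have h2 := ge_le S S' (Units.map (mpm φ)) (fun x h => mem_ge S' (hφ _ x h)) _ h1
  convert h2 using 1
  apply Units.ext
  ext (i | i) (j | j)
  · simp [stm, mpm]
  · simp [stm, mpm]
  · simp [stm, mpm]
  · by_cases h : i = j <;> simp [stm, mpm, Matrix.one_apply, h]

/-- matrices of `Fin` size and more stabilisation -/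
theorem genK_fin {x : (Matrix κ κ R)ˣ} :
    (genK S).car κ x ↔ ∃ m : ℕ, Units.map (stm (Fin m)) x ∈ GE S (κ ⊕ Fin m) := by
  constructor
  · rintro ⟨μ, i1, i2, h⟩
    refine ⟨Fintype.card μ, ?_⟩
    have h2 := ge_re S (Equiv.sumCongr (Equiv.refl κ) (Fintype.equivFin μ).symm) _ h
    convert h2 using 1
    apply Units.ext
    ext (i | i) (j | j) <;> simp [stm, TH57.Thr.re, Matrix.one_apply]
  · rintro ⟨m, h⟩
    exact ⟨Fin m, inferInstance, inferInstance, h⟩

end gen

section k1

variable {k : Type} [Ring k] {G : Type} [Group G] {κ μ : Type} [Fintype κ] [DecidableEq κ]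
  [Fintype μ] [DecidableEq μ]

/-- the generators from the coefficients -/
def S1 (k : Type) [Ring k] (G : Type) [Group G] : GSys (MonoidAlgebra k G) where
  g κ _ _ x := (∃ a : (Matrix κ κ k)ˣ, x.val = a.val.map (io k G)) ∨
    ∃ (p : Matrix κ κ k) (g : G), p * p = p ∧ x.val = 1 - p.map (io k G) + p.map (io k G) *
      (Matrix.diagonal fun _ => MonoidAlgebra.single g 1 : Matrix κ κ (MonoidAlgebra k G))
  st {κ} _ _ μ _ _ x hx := by
    rcases hx with ⟨a, ha⟩ | ⟨p, g, hp, hx⟩
    · left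
      refine ⟨Units.map (stm μ) a, ?_⟩
      change fromBlocks x.val 0 0 1 = (fromBlocks a.val 0 0 1).map (io k G)
      rw [blocks_map, ha, Matrix.map_one _ (map_zero _) (map_one _)]
    · right
      refine ⟨fromBlocks p 0 0 0, g, blocks_idem hp (Matrix.zero_mul _), ?_⟩
      have h1 := congrArg Units.val (pg_blocks (G := G) hp (Matrix.zero_mul (0 : Matrix μ μ k)) g)
      change 1 - (fromBlocks p 0 0 0).map (io k G) + (fromBlocks p 0 0 0).map (io k G) * _ =
        fromBlocks (pg hp g).val 0 0 (pg _ g).val at h1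
      rw [h1, pg_val, pg_val, ← hx, Matrix.map_zero _ (map_zero _)]
      change fromBlocks x.val 0 0 1 = _
      simp
  re {κ μ} _ _ _ _ e x hx := by
    rcases hx with ⟨a, ha⟩ | ⟨p, g, hp, hx⟩
    · left
      refine ⟨Units.map (TH57.Thr.re e) a, ?_⟩
      change x.val.submatrix e e = (a.val.submatrix e e).map (io k G)
      rw [ha]
      rfl
    · right
      refine ⟨p.submatrix e e, g, ?_, ?_⟩
      · rw [Matrix.submatrix_mul_equiv, hp]
      · change x.val.submatrix e e = _
        have h1 : (p.submatrix e e).map (io k G) = (p.map (io k G)).submatrix e e := rfl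
        have h2 : (Matrix.diagonal fun _ => MonoidAlgebra.single g 1 :
            Matrix μ μ (MonoidAlgebra k G)) = (Matrix.diagonal fun _ => MonoidAlgebra.single g 1 :
            Matrix κ κ (MonoidAlgebra k G)).submatrix e e := by
          ext1 i j
          rw [Matrix.submatrix_apply]
          by_cases hij : i = j
          · subst hij
            rw [Matrix.diagonal_apply_eq, Matrix.diagonal_apply_eq]
          · rw [Matrix.diagonal_apply_ne _ hij,
              Matrix.diagonal_apply_ne _ (fun h => hij (e.injective h))]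
        rw [h1, h2, Matrix.submatrix_mul_equiv, hx]
        ext1 i j
        rw [Matrix.submatrix_apply, Matrix.add_apply, Matrix.sub_apply, Matrix.add_apply,
          Matrix.sub_apply, Matrix.submatrix_apply, Matrix.submatrix_apply]
        congr 2
        by_cases hij : i = j
        · subst hij
          rw [Matrix.one_apply_eq, Matrix.one_apply_eq]
        · rw [Matrix.one_apply_ne hij, Matrix.one_apply_ne (fun h => hij (e.injective h))]

/-- all classes come from the coefficients -/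
def A1 (k : Type) [Ring k] (G : Type) [Group G] : Prop :=
  ∀ (κ : Type) [Fintype κ] [DecidableEq κ] (x : (Matrix κ κ (MonoidAlgebra k G))ˣ),
    (genK (S1 k G)).car κ x

/-- functoriality -/
theorem s1_map {H : Type} [Group H] (f : H →* G) {x : (Matrix κ κ (MonoidAlgebra k H))ˣ}
    (h : (genK (S1 k H)).car κ x) :
    (genK (S1 k G)).car κ (Units.map (mpm (MonoidAlgebra.mapDomainRingHom k f)) x) := by
  have e0 : ∀ c : k, MonoidAlgebra.mapDomainRingHom k f (io k H c) = io k G c := by
    intro c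
    change MonoidAlgebra.mapDomain f (MonoidAlgebra.single 1 c) = MonoidAlgebra.single 1 c
    rw [MonoidAlgebra.mapDomain_single, map_one]
  refine genK_map (S1 k H) (S1 k G) (MonoidAlgebra.mapDomainRingHom k f) ?_ h
  intro κ _ _ x hx
  rcases hx with ⟨a, ha⟩ | ⟨p, g, hp, hx⟩
  · left
    refine ⟨a, ?_⟩
    change x.val.map (MonoidAlgebra.mapDomainRingHom k f) = _
    rw [ha, Matrix.map_map]
    ext1 i j
    exact e0 _
  · right
    refine ⟨p, f g, hp, ?_⟩
    change x.val.map (MonoidAlgebra.mapDomainRingHom k f) = _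
    have e1 : (p.map (io k H)).map (MonoidAlgebra.mapDomainRingHom k f) = p.map (io k G) := by
      ext1 i j
      exact e0 _
    have e2 : (Matrix.diagonal fun _ => MonoidAlgebra.single g 1 :
        Matrix κ κ (MonoidAlgebra k H)).map (MonoidAlgebra.mapDomainRingHom k f) =
        Matrix.diagonal fun _ => MonoidAlgebra.single (f g) 1 := by
      rw [Matrix.diagonal_map (map_zero _)]
      congr 1
      funext i
      exact MonoidAlgebra.mapDomain_single
    rw [hx, Matrix.map_add _ (map_add _), sub_map, Matrix.map_mul, e1, e2]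

theorem A1.congr {H : Type} [Group H] (e : H ≃* G) (h : A1 k H) : A1 k G := by
  intro κ _ _ x
  have h1 := s1_map (k := k) e.toMonoidHom
    (h κ (Units.map (mpm (MonoidAlgebra.mapDomainRingHom k e.symm.toMonoidHom)) x))
  convert h1 using 1
  apply Units.ext
  ext1 i j
  change x.val i j = MonoidAlgebra.mapDomain e (MonoidAlgebra.mapDomain e.symm (x.val i j))
  generalize x.val i j = y
  induction y using MonoidAlgebra.induction_linear with
  | zero => rw [MonoidAlgebra.mapDomain_zero, MonoidAlgebra.mapDomain_zero]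
  | add f g hf hg => rw [MonoidAlgebra.mapDomain_add, MonoidAlgebra.mapDomain_add, ← hf, ← hg]
  | single a b =>
    rw [MonoidAlgebra.mapDomain_single, MonoidAlgebra.mapDomain_single, e.apply_symm_apply]

theorem a1_sub {H : Subgroup G} (h : A1 k H) (a : (Matrix κ κ (MonoidAlgebra k H))ˣ) :
    (genK (S1 k G)).car κ (Units.map (mpm (inc k H)) a) :=
  s1_map H.subtype (h κ a)

variable {V : Type} [MulAction G V] {T : SimpleGraph V}

theorem s1_good (hV : ∀ v : V, A1 k (MulAction.stabilizer G v)) : Good V (genK (S1 k G)) where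
  vert v _ _ _ a := a1_sub (hV v) a
  idem _ _ _ p hp g := ⟨pg hp g, rfl, genK_gen _ (Or.inr ⟨p, g, hp, rfl⟩)⟩

/-- **`K₁` of the group ring of a group acting on a tree.** -/
theorem a1_tree (hT : T.IsTree)
    (hact : ∀ (g : G) (v w : V), T.Adj v w → T.Adj (g • v) (g • w))
    (hinv : ∀ (g : G) (v w : V), T.Adj v w → ¬ (g • v = w ∧ g • w = v))
    (hV : ∀ v : V, A1 k (MulAction.stabilizer G v))
    (hE : ∀ v w : V, T.Adj v w → AllSI (io k (MulAction.stabilizer G ((v, w) : V × V))))
    (hm : ∀ p : ℕ → V, (∀ i, T.Adj (p i) (p (i + 1))) → (∀ i, p (i + 2) ≠ p i) →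
      ∀ d : ℕ, 0 < d → ∃ n, Nice (MonoidAlgebra k (Fx G n p)) ∨
        ∀ h : G, (∀ i ≤ n, h • p (i + d) = p i) →
          A1 k (Subgroup.closure ((Fx G n p : Set G) ∪ {h}))) : A1 k G := by
  classical
  intro κ _ _ X
  refine all_K (s1_good hV) hT hact hinv ?_ hE X
  intro J _ _ σ x y hx hyx
  refine tr_of_tree (T := T) (𝒩 := fun H => Nice (MonoidAlgebra k H)) hT hact nice_cls
    (fun _ h => h) ?_ hx hyx
  intro p h1 h2 d hd
  obtain ⟨m, hm⟩ := hm p h1 h2 d hd
  refine ⟨m, hm.imp_right ?_⟩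
  intro hm h hper
  exact hk_of_sub fun κ _ _ a => a1_sub (hm h hper) a

end k1

end Pool.Agent.H1.KK
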