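import Pool.Agent.H1.KK.SI

set_option autoImplicit false
set_option linter.unusedSectionVars false
set_option linter.unusedSimpArgs false

/-!
# Gluing located idempotent matrices with stably induced restrictions
-/

namespace Pool.Agent.H1.KK

open Matrix Pool.Agent.H1.MV

section io

/-- the coefficients -/
noncomputable def io (k : Type) [Ring k] (G : Type) [Group G] : k →+* MonoidAlgebra k G :=
  MonoidAlgebra.singleOneRingHom

variable {k : Type} [Ring k] {G : Type} [Group G]

theorem io_apply (c : k) : io k G c = MonoidAlgebra.single 1 c := rfl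

theorem inc_io (H : Subgroup G) (c : k) : inc k H (io k H c) = io k G c :=
  MonoidAlgebra.mapDomain_single

theorem map_inc_io {m n : Type} (H : Subgroup G) (p : Matrix m n k) :
    (p.map (io k H)).map (inc k H) = p.map (io k G) := by
  ext1 i j
  exact inc_io H _

theorem io_coeff_ne {c : k} {g : G} (h : (io k G c).coeff g ≠ 0) : g = 1 ∧ c ≠ 0 := by
  rw [io_apply, MonoidAlgebra.coeff_single] at h
  by_cases hg : g = 1
  · subst hg
    rw [Finsupp.single_eq_same] at h
    exact ⟨rfl, h⟩
  · exact absurd (Finsupp.single_eq_of_ne hg) h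

/-- constant matrices -/
theorem ty_io {Ω : Type} [MulAction G Ω] {m n : Type} {a : m → Ω} {b : n → Ω} {p : Matrix m n k}
    (h : ∀ i j, p i j ≠ 0 → a i = b j) : Ty a b Eq (p.map (io k G)) := by
  intro i j g hg
  obtain ⟨h1, h2⟩ := io_coeff_ne hg
  subst h1
  rw [inv_one, one_smul]
  exact h i j h2

end io

section glue

variable {k : Type} [Ring k] {G : Type} [Group G] {Ω : Type} [MulAction G Ω]
  {J : Type} [Fintype J] [DecidableEq J] {ε : J → Ω} {e : Matrix J J (MonoidAlgebra k G)}

/-- **Gluing**: an idempotent located matrix with stably induced restrictions is stably conjugate to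
a constant one. -/
theorem glueI [DecidableEq Ω] (h : Ty ε ε Eq e) (he : e * e = e)
    (hgood : ∀ (g : G) j j', g • ε j = ε j' → ε j = ε j')
    (hS : ∀ j, SI (io k (MulAction.stabilizer G (ε j))) (Mo (desc ε e (ε j)))) :
    ∃ (K : Type) (_ : Fintype K) (_ : DecidableEq K) (εK : K → Ω) (l : K → Bool)
      (p : Matrix (J ⊕ K) (J ⊕ K) k) (X : (Matrix (J ⊕ K) (J ⊕ K) (MonoidAlgebra k G))ˣ),
      (∀ κ, ∃ j, ε j = εK κ) ∧ p * p = p ∧
      (∀ i j, p i j ≠ 0 → Sum.elim ε εK i = Sum.elim ε εK j) ∧
      Ty (Sum.elim ε εK) (Sum.elim ε εK) Eq X.val ∧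
      Ty (Sum.elim ε εK) (Sum.elim ε εK) Eq (X⁻¹).val ∧
      (fromBlocks e 0 0 (Matrix.diagonal fun κ => if l κ then 1 else 0) :
        Matrix (J ⊕ K) (J ⊕ K) (MonoidAlgebra k G)) * X.val
        = X.val * p.map (io k G) := by
  classical
  let Θ : Type := Set.range ε
  have hf : Finite Θ := Set.finite_range ε
  have : Fintype Θ := Fintype.ofFinite Θ
  have h1 : ∀ θ : Θ, ∃ (s : ℕ) (ν : Type) (_ : Fintype ν) (_ : DecidableEq ν) (p : Matrix ν ν k)
      (T T' : Matrix ({j // ε j = θ.1} ⊕ (Fin s ⊕ ν)) ({j // ε j = θ.1} ⊕ (Fin s ⊕ ν))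
        (MonoidAlgebra k (MulAction.stabilizer G θ.1))),
      p * p = p ∧ T * T' = 1 ∧ T' * T = 1 ∧
      (fromBlocks (desc ε e θ.1) 0 0 (fromBlocks 1 0 0 0) :
        Matrix ({j // ε j = θ.1} ⊕ (Fin s ⊕ ν)) ({j // ε j = θ.1} ⊕ (Fin s ⊕ ν)) _) * T
        = T * (fromBlocks 0 0 0 (fromBlocks 0 0 0 (p.map (io k _))) :
          Matrix ({j // ε j = θ.1} ⊕ (Fin s ⊕ ν)) ({j // ε j = θ.1} ⊕ (Fin s ⊕ ν)) _) := by
    rintro ⟨θ, j, rfl⟩
    exact idem_ind (desc_idem h he hgood (ε j)) (hS j)
  choose s ν iν1 iν2 q T T' hq hTT' hT'T hE using h1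
  let JK : Θ → Type := fun θ => {j // ε j = θ.1} ⊕ (Fin (s θ) ⊕ ν θ)
  let K : Type := Σ θ : Θ, (Fin (s θ) ⊕ ν θ)
  let E : (Σ θ : Θ, JK θ) ≃ J ⊕ K :=
    { toFun := fun p => Sum.elim (fun j => Sum.inl j.1) (fun κ => Sum.inr ⟨p.1, κ⟩) p.2
      invFun := Sum.elim (fun j => ⟨⟨ε j, j, rfl⟩, Sum.inl ⟨j, rfl⟩⟩)
        (fun κ => ⟨κ.1, Sum.inr κ.2⟩)
      left_inv := by
        rintro ⟨⟨θ, hθ⟩, p⟩
        rcases p with ⟨j, hj⟩ | κ
        · have hj' : ε j = θ := hj
          subst hj'
          rfl
        · rfl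
      right_inv := by
        rintro (j | κ) <;> rfl }
  let ic : ∀ θ : Θ, MonoidAlgebra k (MulAction.stabilizer G θ.1) →+* MonoidAlgebra k G :=
    fun θ => inc k (MulAction.stabilizer G θ.1)
  let BT : Matrix (Σ θ : Θ, JK θ) (Σ θ : Θ, JK θ) (MonoidAlgebra k G) :=
    blockDiagonal' fun θ => (T θ).map (ic θ)
  let BT' : Matrix (Σ θ : Θ, JK θ) (Σ θ : Θ, JK θ) (MonoidAlgebra k G) :=
    blockDiagonal' fun θ => (T' θ).map (ic θ)
  have g1 : BT * BT' = 1 := by
    rw [← blockDiagonal'_mul, ← blockDiagonal'_one]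
    congr 1
    funext θ
    rw [← Matrix.map_mul, hTT' θ]
    exact Matrix.map_one _ (map_zero _) (map_one _)
  have g2 : BT' * BT = 1 := by
    rw [← blockDiagonal'_mul, ← blockDiagonal'_one]
    congr 1
    funext θ
    rw [← Matrix.map_mul, hT'T θ]
    exact Matrix.map_one _ (map_zero _) (map_one _)
  let l : K → Bool := fun κ => κ.2.isLeft
  let BE : Matrix (Σ θ : Θ, JK θ) (Σ θ : Θ, JK θ) (MonoidAlgebra k G) :=
    blockDiagonal' fun θ => (fromBlocks (desc ε e θ.1) 0 0 (fromBlocks 1 0 0 0) :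
      Matrix (JK θ) (JK θ) (MonoidAlgebra k (MulAction.stabilizer G θ.1))).map (ic θ)
  let pt : ∀ θ : Θ, Matrix (JK θ) (JK θ) k := fun θ => fromBlocks 0 0 0 (fromBlocks 0 0 0 (q θ))
  have hpt : ∀ θ, pt θ * pt θ = pt θ := fun θ =>
    blocks_idem (Matrix.zero_mul _) (blocks_idem (Matrix.zero_mul _) (hq θ))
  let Bp : Matrix (Σ θ : Θ, JK θ) (Σ θ : Θ, JK θ) k := blockDiagonal' pt
  have hBp : Bp * Bp = Bp := by
    change blockDiagonal' pt * blockDiagonal' pt = blockDiagonal' pt
    rw [← blockDiagonal'_mul]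
    congr 1
    funext θ
    exact hpt θ
  have iK : ∀ (θ : Θ) (x y : Fin (s θ) ⊕ ν θ), (⟨θ, x⟩ : K) = ⟨θ, y⟩ → x = y :=
    fun _ _ _ h => eq_of_heq (Sigma.mk.inj h).2
  have g4 : Bp.map (io k G) = blockDiagonal' fun θ => (fromBlocks 0 0 0 (fromBlocks 0 0 0
      ((q θ).map (io k _))) : Matrix (JK θ) (JK θ)
        (MonoidAlgebra k (MulAction.stabilizer G θ.1))).map (ic θ) := by
    change (blockDiagonal' pt).map (io k G) = _
    rw [blockDiagonal'_map _ _ (map_zero _)]
    congr 1
    funext θ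
    have h3 : (pt θ).map (io k (MulAction.stabilizer G θ.1)) =
        fromBlocks 0 0 0 (fromBlocks 0 0 0 ((q θ).map (io k _))) := by
      change (fromBlocks 0 0 0 (fromBlocks 0 0 0 (q θ))).map _ = _
      rw [blocks_map, blocks_map, Matrix.map_zero _ (map_zero _), Matrix.map_zero _ (map_zero _)]
    rw [← h3]
    exact (map_inc_io _ _).symm
  have g3 : BE * BT = BT * Bp.map (io k G) := by
    rw [g4, ← blockDiagonal'_mul, ← blockDiagonal'_mul]
    congr 1
    funext θ
    rw [← Matrix.map_mul, ← Matrix.map_mul]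
    exact congrArg (fun M => Matrix.map M (ic θ)) (hE θ)
  let ep : Matrix (J ⊕ K) (J ⊕ K) (MonoidAlgebra k G) :=
    fromBlocks e 0 0 (Matrix.diagonal fun κ => if l κ then 1 else 0)
  have g5 : ep = BE.submatrix E.symm E.symm := by
    have : ep.submatrix E E = BE := by
      ext1 ⟨θ, i⟩ ⟨θ', i'⟩
      rw [Matrix.submatrix_apply]
      by_cases hθ : θ = θ'
      · subst hθ
        change _ = blockDiagonal' _ _ _
        rw [blockDiagonal'_apply_eq, Matrix.map_apply]
        rcases i with i | i <;> rcases i' with i' | i'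
        · rw [fromBlocks_apply₁₁]
          change e i.1 i'.1 = ic θ (desc ε e θ.1 i i')
          exact (desc_inc h θ.1 i i').symm
        · rw [fromBlocks_apply₁₂, Matrix.zero_apply, map_zero]; rfl
        · rw [fromBlocks_apply₂₁, Matrix.zero_apply, map_zero]; rfl
        · rw [fromBlocks_apply₂₂]
          change (Matrix.diagonal fun κ : K => if l κ then (1 : MonoidAlgebra k G) else 0)
            ⟨θ, i⟩ ⟨θ, i'⟩ = _
          rcases i with i | i <;> rcases i' with i' | i'
          · by_cases hi : i = i'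
            · subst hi
              rw [Matrix.diagonal_apply_eq, fromBlocks_apply₁₁, Matrix.one_apply_eq, map_one]
              rfl
            · rw [Matrix.diagonal_apply_ne, fromBlocks_apply₁₁, Matrix.one_apply_ne hi, map_zero]
              intro h
              exact hi (Sum.inl_injective (iK _ _ _ h))
          · rw [Matrix.diagonal_apply_ne, fromBlocks_apply₁₂, Matrix.zero_apply, map_zero]
            intro h
            exact absurd (iK _ _ _ h) (by simp)
          · rw [Matrix.diagonal_apply_ne, fromBlocks_apply₂₁, Matrix.zero_apply, map_zero]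
            intro h
            exact absurd (iK _ _ _ h) (by simp)
          · rw [fromBlocks_apply₂₂, Matrix.zero_apply, map_zero]
            by_cases hi : i = i'
            · subst hi
              rw [Matrix.diagonal_apply_eq]
              rfl
            · rw [Matrix.diagonal_apply_ne]
              intro h
              exact hi (Sum.inr_injective (iK _ _ _ h))
      · change _ = blockDiagonal' _ _ _
        rw [blockDiagonal'_apply_ne _ _ _ hθ]
        rcases i with i | i <;> rcases i' with i' | i'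
        · change e i.1 i'.1 = 0
          by_contra hne
          have h4 : ∃ g, (e i.1 i'.1).coeff g ≠ 0 := by
            by_contra hcon
            push Not at hcon
            apply hne
            apply MonoidAlgebra.coeff_injective
            ext g
            exact hcon g
          obtain ⟨g, hg⟩ := h4
          have h5 := hgood _ _ _ (h i.1 i'.1 g hg)
          rw [i.2, i'.2] at h5
          exact hθ (Subtype.ext h5)
        · rfl
        · rfl
        · change (Matrix.diagonal fun κ : K => if l κ then (1 : MonoidAlgebra k G) else 0)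
            ⟨θ, i⟩ ⟨θ', i'⟩ = _
          rw [Matrix.diagonal_apply_ne]
          intro h
          exact hθ (congrArg Sigma.fst h)
    rw [← this]
    ext i j
    simp
  have hε : ∀ p : Σ θ : Θ, JK θ, Sum.elim ε (fun κ : K => κ.1.1) (E p) = p.1.1 := by
    rintro ⟨θ, j | κ⟩
    · exact j.2
    · rfl
  have hty : ∀ (Z : ∀ θ : Θ, Matrix (JK θ) (JK θ) (MonoidAlgebra k (MulAction.stabilizer G θ.1))),
      Ty (Sum.elim ε (fun κ : K => κ.1.1)) (Sum.elim ε (fun κ : K => κ.1.1)) Eq
        ((blockDiagonal' fun θ => (Z θ).map (ic θ)).submatrix E.symm E.symm) := by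
    intro Z i j g hg
    rw [Matrix.submatrix_apply] at hg
    obtain ⟨p, rfl⟩ := E.surjective i
    obtain ⟨p', rfl⟩ := E.surjective j
    rw [E.symm_apply_apply, E.symm_apply_apply] at hg
    rw [hε, hε]
    obtain ⟨θ, p⟩ := p
    obtain ⟨θ', p'⟩ := p'
    by_cases hθ : θ = θ'
    · subst hθ
      rw [blockDiagonal'_apply_eq, Matrix.map_apply] at hg
      have := inc_coeff _ _ _ hg
      exact inv_smul_eq_iff.2 (MulAction.mem_stabilizer_iff.1 this).symm
    · rw [blockDiagonal'_apply_ne _ _ _ hθ] at hg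
      simp at hg
  let X : (Matrix (J ⊕ K) (J ⊕ K) (MonoidAlgebra k G))ˣ :=
    { val := BT.submatrix E.symm E.symm
      inv := BT'.submatrix E.symm E.symm
      val_inv := by
        rw [Matrix.submatrix_mul_equiv, g1, Matrix.submatrix_one_equiv]
      inv_val := by
        rw [Matrix.submatrix_mul_equiv, g2, Matrix.submatrix_one_equiv] }
  refine ⟨K, inferInstance, inferInstance, fun κ => κ.1.1, l, Bp.submatrix E.symm E.symm, X,
    fun κ => κ.1.2, ?_, ?_, hty T, hty T', ?_⟩
  · rw [Matrix.submatrix_mul_equiv, hBp]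
  · intro i j hij
    rw [Matrix.submatrix_apply] at hij
    obtain ⟨p, rfl⟩ := E.surjective i
    obtain ⟨p', rfl⟩ := E.surjective j
    rw [E.symm_apply_apply, E.symm_apply_apply] at hij
    rw [hε, hε]
    obtain ⟨θ, p⟩ := p
    obtain ⟨θ', p'⟩ := p'
    by_cases hθ : θ = θ'
    · subst hθ
      rfl
    · exact absurd (blockDiagonal'_apply_ne _ _ _ hθ) hij
  · have key : ep * X.val = X.val * (Bp.map (io k G)).submatrix E.symm E.symm := by
      change ep * BT.submatrix E.symm E.symm = BT.submatrix E.symm E.symm * _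
      rw [g5, Matrix.submatrix_mul_equiv, g3, Matrix.submatrix_mul_equiv]
    exact key

end glue

end Pool.Agent.H1.KK
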