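import Pool.Agent.H1.KK.Fib

set_option autoImplicit false
set_option linter.unusedSectionVars false
set_option linter.unusedSimpArgs false
set_option linter.style.haveILetI false

/-!
# The instances: Whitehead groups, projective class groups, `K₁`
-/

namespace Pool.Agent.H1.KK

open Matrix TH57.Thr Pool.Agent.K4H37.MT Pool.Agent.H1.MV Pool.Agent.H1.MK

section wh

variable {G V : Type} [Group G] [MulAction G V] {T : SimpleGraph V}

theorem wh_sub {S : Subgroup G} (h : WhT S) {κ : Type} [Fintype κ] [DecidableEq κ]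
    (a : (Matrix κ κ (MonoidAlgebra ℤ S))ˣ) :
    (ofU (TU G)).car κ (Units.map (mpm (inc ℤ S)) a) := by
  refine TT_map (TU S) (TU G) (inc ℤ S) ?_ a (h.all κ a)
  rintro u ⟨g, ε, hu⟩
  refine ⟨g, ε, ?_⟩
  change inc ℤ S u.val = _
  rw [hu]
  exact mf_single S.subtype g _

/-- **Whitehead groups of groups acting on trees** -/
theorem wh_tree (hT : T.IsTree)
    (hact : ∀ (g : G) (v w : V), T.Adj v w → T.Adj (g • v) (g • w))
    (hinv : ∀ (g : G) (v w : V), T.Adj v w → ¬ (g • v = w ∧ g • w = v))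
    (hV : ∀ v : V, WhT (MulAction.stabilizer G v))
    (hE : ∀ v w : V, T.Adj v w → AllStablyFree (MonoidAlgebra ℤ
      (MulAction.stabilizer G ((v, w) : V × V))))
    (hm : ∀ p : ℕ → V, (∀ i, T.Adj (p i) (p (i + 1))) → (∀ i, p (i + 2) ≠ p i) →
      ∀ d : ℕ, 0 < d → ∃ m, Nice (MonoidAlgebra ℤ (Fx G m p)) ∨
        ∀ h : G, (∀ i ≤ m, h • p (i + d) = p i) →
          WhT (Subgroup.closure ((Fx G m p : Set G) ∪ {h}))) : WhT G := by
  classical
  intro N X
  have key : MK.VC (TU G) V X := by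
    refine MK.vc_nil (T := T) (tg_le_tu _) hT hact hinv ?_ hE X
    intro J _ _ σ x y hx hyx
    refine tr_of_tree (N := ofU (TU G)) (T := T)
      (𝒩 := fun H => Nice (MonoidAlgebra ℤ H)) hT hact nice_cls
      (fun _ h => h) ?_ hx hyx
    intro p h1 h2 d hd
    obtain ⟨m, hm⟩ := hm p h1 h2 d hd
    refine ⟨m, hm.imp_right ?_⟩
    intro hm h hper
    exact hk_of_sub fun κ _ _ a => wh_sub (hm h hper) a
  obtain ⟨μ, _, _, ω, y, hr, h1, h2, h3⟩ := key
  have hy : TT (TU G) y :=
    tt_block (V := V) (fun v => hV v) _ μ rfl ω y hr h1 h2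
  have h4 := TT_mul _ _ _ h3 (TT_blockSum (TT_one _) hy)
  rw [blockSum_mul, mul_one, inv_mul_cancel, blockSum_one] at h4
  exact TT_unst _ _ h4

theorem base_wh : Base (fun G _ => WhT G) (fun Q _ => Nice (MonoidAlgebra ℤ Q)) where
  congr G H _ _ e h := WhT.congr e h
  ncongr G H _ _ e h := nice_congr e h
  nsub G _ H h := Nice.sub H h
  zp n := wh_zp n
  nzp n := nice_zp n
  colim I _ H _ f G _ φ h hA := h.wh hA
  tree G V _ _ T hT hact hinv hV hE hm :=
    wh_tree hT hact hinv hV (fun v w h => stablyFree_of_wh (hE v w h).2) hm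

end wh

section k0

variable {C : ∀ (k : Type) [Ring k], Prop} (hC : RCls C)

include hC

theorem base_k0 : Base (fun G _ => ∀ (k : Type) [Ring k], C k → AllSI (io k G))
    (fun Q _ => ∀ (k : Type) [Ring k], C k → Nice (MonoidAlgebra k Q)) where
  congr G H _ _ e h k _ hk := AllSI.congr e (h k hk)
  ncongr G H _ _ e h k _ hk := nice_congr e (h k hk)
  nsub G _ H h k _ hk := Nice.sub H (h k hk)
  zp n k _ hk := allSI_zp (hC.reg k hk) n
  nzp n k _ hk := ((hC.reg k hk).zp n).nice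
  colim I _ H _ f G _ φ h hA k _ hk := h.allSI fun i => hA i k hk
  tree G V _ _ T hT hact hinv hV hE hm k _ hk := by
    have := (hC.reg k hk).noeth
    refine allSI_tree (hC.reg k hk).nice hT hact hinv (fun v => hV v k hk)
      (fun v w h => (hE v w h).1 _ (hC.lau k hk)) ?_
    intro p h1 h2 d hd
    obtain ⟨m, hm⟩ := hm p h1 h2 d hd
    exact ⟨m, hm.imp (fun h => h _ (hC.lau k hk)) fun h g hg => h g hg k hk⟩

theorem base_k1 : Base (fun G _ => ∀ (k : Type) [Ring k], C k → AllSI (io k G) ∧ A1 k G)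
    (fun Q _ => ∀ (k : Type) [Ring k], C k → Nice (MonoidAlgebra k Q)) where
  congr G H _ _ e h k _ hk := ⟨AllSI.congr e (h k hk).1, A1.congr e (h k hk).2⟩
  ncongr G H _ _ e h k _ hk := nice_congr e (h k hk)
  nsub G _ H h k _ hk := Nice.sub H (h k hk)
  zp n k _ hk := ⟨allSI_zp (hC.reg k hk) n, a1_zp (hC.reg k hk) n⟩
  nzp n k _ hk := ((hC.reg k hk).zp n).nice
  colim I _ H _ f G _ φ h hA k _ hk := ⟨h.allSI fun i => (hA i k hk).1,
    h.a1 fun i => (hA i k hk).2⟩
  tree G V _ _ T hT hact hinv hV hE hm k _ hk := by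
    have := (hC.reg k hk).noeth
    constructor
    · refine allSI_tree (hC.reg k hk).nice hT hact hinv (fun v => (hV v k hk).1)
        (fun v w h => ((hE v w h).1 _ (hC.lau k hk)).1) ?_
      intro p h1 h2 d hd
      obtain ⟨m, hm⟩ := hm p h1 h2 d hd
      exact ⟨m, hm.imp (fun h => h _ (hC.lau k hk)) fun h g hg => (h g hg k hk).1⟩
    · refine a1_tree hT hact hinv (fun v => (hV v k hk).2)
        (fun v w h => ((hE v w h).1 _ hk).1) ?_
      intro p h1 h2 d hd
      obtain ⟨m, hm⟩ := hm p h1 h2 d hd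
      exact ⟨m, hm.imp (fun h => h _ hk) fun h g hg => (h g hg k hk).2⟩

end k0

section kf

variable {C : ∀ (k : Type) [Ring k], Prop} (hC : RCls C)
  (hQ : ∀ (k : Type) [Ring k], C k → ∀ n : ℕ, 0 < n → IsUnit (n : k))

include hC hQ

theorem base_kf : Base (fun G _ => ∀ (k : Type) [Ring k], C k → AF k G)
    (fun Q _ => ∀ (k : Type) [Ring k], C k → Nice (MonoidAlgebra k Q)) where
  congr G H _ _ e h k _ hk := AF.congr e (h k hk)
  ncongr G H _ _ e h k _ hk := nice_congr e (h k hk)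
  nsub G _ H h k _ hk := Nice.sub H (h k hk)
  zp n k _ hk := af_of_allSI (allSI_zp (hC.reg k hk) n)
  nzp n k _ hk := ((hC.reg k hk).zp n).nice
  colim I _ H _ f G _ φ h hA k _ hk := h.af fun i => hA i k hk
  tree G V _ _ T hT hact hinv hV hE hm k _ hk := by
    intro x
    refine top_tree (U := IF k G) hT hact hinv (fun v x => af_sub (hV v k hk) x)
      (fun v w h => allSI_mg (hC.reg k hk) ((hE v w h).1 _ (hC.lau k hk)) ?_) ?_ x
    · intro F hF
      have := hF
      exact hQ k hk _ Nat.card_pos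
    · intro p h1 h2 d hd
      obtain ⟨m, hm⟩ := hm p h1 h2 d hd
      exact ⟨m, hm.imp (fun h => h _ (hC.lau k hk)) fun h g hg x => af_sub (h g hg k hk) x⟩

end kf

end Pool.Agent.H1.KK
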