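import Pool.Agent.H1.KK.NB

set_option autoImplicit false
set_option linter.unusedSectionVars false
set_option linter.unusedSimpArgs false

/-!
# The class of groups for the projective class group
-/

namespace Pool.Agent.H1.KK

open Matrix TH57.Thr Pool.Agent.K4H37.MT Pool.Agent.H1.MV Pool.Agent.H1.MK

section tree

variable {k : Type} [Ring k] {G V : Type} [Group G] [MulAction G V] {T : SimpleGraph V}

theorem allSI_of_NB (h : ∀ (n : ℕ) (X : (Matrix (Fin n) (Fin n) (MonoidAlgebra (Lau k) G))ˣ),
    (NB k G).car (Fin n) X) : AllSI (io k G) := by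
  apply AllSI.of_mo
  intro n p hp
  obtain ⟨x, hx⟩ := swm_pencil hp
  have h1 : bd (MonoidAlgebra k G) (Fin n) (swm x) ∈ IK (io k G) := h n x
  rw [hx, bd_Pu] at h1
  have h2 : SI (io k G) (Mo (1 - p)) := (km_mem (one_sub_idem hp)).1 h1
  have h3 := h2.compl (one_sub_idem hp)
  rwa [sub_sub_cancel] at h3

/-- matrices over the group ring of a subgroup -/
theorem hk_of_sub {N : KI (MonoidAlgebra k G)} {S : Subgroup G}
    (h : ∀ (κ : Type) [Fintype κ] [DecidableEq κ] (a : (Matrix κ κ (MonoidAlgebra k S))ˣ),
      N.car κ (Units.map (mpm (inc k S)) a)) : HK N S := by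
  intro J _ _ z h1 h2
  have hsupp : ∀ (z : Matrix J J (MonoidAlgebra k G)), SpIn S z →
      (z.map (toSub S)).map (inc k S) = z := by
    intro z hz
    ext1 i j
    rw [Matrix.map_apply, Matrix.map_apply]
    apply inc_toSub
    intro g hg
    exact hz i j g hg
  have hinj : Function.Injective (fun M : Matrix J J (MonoidAlgebra k S) =>
      M.map (inc k S)) := by
    intro M N hMN
    ext1 i j
    exact inc_inj S (congrFun (congrFun hMN i) j)
  have hone : ∀ (z w : Matrix J J (MonoidAlgebra k G)), SpIn S z → SpIn S w → z * w = 1 →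
      z.map (toSub S) * w.map (toSub S) = 1 := by
    intro z w hz hw hzw
    apply hinj
    beta_reduce
    rw [Matrix.map_mul, hsupp z hz, hsupp w hw, hzw]
    exact (Matrix.map_one _ (map_zero _) (map_one _)).symm
  have h3 := h J ⟨z.val.map (toSub S), (z⁻¹).val.map (toSub S), hone _ _ h1 h2 (Units.mul_inv z),
    hone _ _ h2 h1 (Units.inv_mul z)⟩
  convert h3 using 1
  apply Units.ext
  exact (hsupp _ h1).symm

/-- **Projective modules over the group ring of a group acting on a tree.** -/
theorem allSI_tree [IsNoetherianRing k] (hk : Nice k) (hT : T.IsTree)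
    (hact : ∀ (g : G) (v w : V), T.Adj v w → T.Adj (g • v) (g • w))
    (hinv : ∀ (g : G) (v w : V), T.Adj v w → ¬ (g • v = w ∧ g • w = v))
    (hV : ∀ v : V, AllSI (io k (MulAction.stabilizer G v)))
    (hE : ∀ v w : V, T.Adj v w → AllSI (io (Lau k) (MulAction.stabilizer G ((v, w) : V × V))))
    (hm : ∀ p : ℕ → V, (∀ i, T.Adj (p i) (p (i + 1))) → (∀ i, p (i + 2) ≠ p i) →
      ∀ d : ℕ, 0 < d → ∃ n, Nice (MonoidAlgebra (Lau k) (Fx G n p)) ∨
        ∀ h : G, (∀ i ≤ n, h • p (i + d) = p i) →
          AllSI (io k (Subgroup.closure ((Fx G n p : Set G) ∪ {h})))) : AllSI (io k G) := by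
  classical
  apply allSI_of_NB
  intro n X
  refine all_K (nb_good hk hV) hT hact hinv ?_ hE X
  intro J _ _ σ x y hx hyx
  refine tr_of_tree (T := T) (𝒩 := fun H => Nice (MonoidAlgebra (Lau k) H)) hT hact nice_cls
    (fun _ h => h) ?_ hx hyx
  intro p h1 h2 d hd
  obtain ⟨m, hm⟩ := hm p h1 h2 d hd
  refine ⟨m, hm.imp_right ?_⟩
  intro hm h hper
  exact hk_of_sub fun κ _ _ a => nb_sub _ (hm h hper) a

end tree

section cls

/-- noetherian regular rings -/
structure Reg (k : Type) [Ring k] : Prop where
  noeth : IsNoetherianRing k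
  nice : Nice k

theorem Reg.lau {k : Type} [Ring k] (h : Reg k) : Reg (Lau k) := by
  have := h.noeth
  exact ⟨noeth_lau, nice_lau h.nice⟩

theorem Reg.ringEquiv {k k' : Type} [Ring k] [Ring k'] (e : k ≃+* k') (h : Reg k) : Reg k' where
  noeth := by
    have := h.noeth
    exact isNoetherianRing_of_ringEquiv k e
  nice := Nice.ringEquiv e h.nice

/-- a class of regular rings which is closed under Laurent polynomials -/
structure RCls (C : ∀ (k : Type) [Ring k], Prop) : Prop where
  reg : ∀ (k : Type) [Ring k], C k → Reg k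
  lau : ∀ (k : Type) [Ring k], C k → C (Lau k)

/-- the class of groups -/
def KR (C : ∀ (k : Type) [Ring k], Prop) (G : Type) [Group G] : Prop :=
  ∀ (k : Type) [Ring k], C k → ∀ H : Subgroup G, AllSI (io k H)

variable {C : ∀ (k : Type) [Ring k], Prop} {G : Type} [Group G]

theorem KR.inj (h : KR C G) {K : Type} [Group K] (f : K →* G) (hf : Function.Injective f)
    (k : Type) [Ring k] (hk : C k) : AllSI (io k K) :=
  AllSI.congr (MonoidHom.ofInjective hf).symm (h k hk f.range)

theorem KR.of_inj (h : KR C G) {K : Type} [Group K] (f : K →* G) (hf : Function.Injective f) :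
    KR C K := by
  intro k _ hk H
  exact h.inj (f.comp H.subtype) (hf.comp H.subtype_injective) k hk

/-- directed unions -/
theorem KR.union (h : ∀ F : Finset G, ∃ H : Subgroup G, (∀ x ∈ F, x ∈ H) ∧ KR C H) :
    KR C G := by
  classical
  intro k _ hk L
  apply AllSI.of_mo
  intro n p hp
  obtain ⟨F, hF⟩ : ∃ F : Finset L, ∀ i j g, (p i j).coeff g ≠ 0 → g ∈ F := by
    refine ⟨Finset.univ.biUnion fun q : Fin n × Fin n => (p q.1 q.2).coeff.support, ?_⟩
    intro i j g hg
    exact Finset.mem_biUnion.2 ⟨(i, j), Finset.mem_univ _, Finsupp.mem_support_iff.2 hg⟩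
  obtain ⟨H, hH, hW⟩ := h (F.image fun q : L => (q : G))
  let K : Subgroup L := H.subgroupOf L
  let g : K →* H :=
    { toFun := fun x => ⟨((x : L) : G), x.2⟩
      map_one' := rfl
      map_mul' := fun _ _ => rfl }
  have hg : Function.Injective g := by
    intro x y hxy
    apply Subtype.ext
    apply Subtype.ext
    exact congrArg (fun z : H => (z : G)) hxy
  have hsi : AllSI (io k K) := hW.inj g hg k hk
  -- the idempotent comes from the subgroup
  let p' : Matrix (Fin n) (Fin n) (MonoidAlgebra k K) := p.map (toSub K)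
  have hp' : p'.map (inc k K) = p := by
    ext1 i j
    change inc k K (toSub K (p i j)) = p i j
    apply inc_toSub
    intro x hx
    exact hH _ (Finset.mem_image.2 ⟨x, hF i j x hx, rfl⟩)
  have hidem : p' * p' = p' := by
    have hinj : Function.Injective (fun M : Matrix (Fin n) (Fin n) (MonoidAlgebra k K) =>
        M.map (inc k K)) := by
      intro M N hMN
      ext1 i j
      exact inc_inj K (congrFun (congrFun hMN i) j)
    apply hinj
    beta_reduce
    rw [Matrix.map_mul, hp', hp]
  have h1 : SI (io k K) (Mo p') := by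
    have := mo_finite p'
    have := mo_projective hidem
    exact hsi _
  have h2 := h1.map (inc k K) hidem
  have h3 : (inc k K).comp (io k K) = io k L := RingHom.ext fun c => inc_io K c
  rwa [hp', h3] at h2

/-- **The hereditary closure theorem** -/
theorem KR.tree (hC : RCls C) {V : Type} [MulAction G V] {T : SimpleGraph V} (hT : T.IsTree)
    (hact : ∀ (g : G) (v w : V), T.Adj v w → T.Adj (g • v) (g • w))
    (hinv : ∀ (g : G) (v w : V), T.Adj v w → ¬ (g • v = w ∧ g • w = v))
    (hV : ∀ v : V, KR C (MulAction.stabilizer G v))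
    (hm : ∀ p : ℕ → V, (∀ i, T.Adj (p i) (p (i + 1))) → (∀ i, p (i + 2) ≠ p i) →
      ∀ d : ℕ, 0 < d → ∃ m, Fx G m p = ⊥ ∨
        (∀ (k : Type) [Ring k], C k → Nice (MonoidAlgebra k (Fx G m p))) ∨
        ∀ h : G, (∀ i ≤ m, h • p (i + d) = p i) →
          KR C (Subgroup.closure ((Fx G m p : Set G) ∪ {h}))) : KR C G := by
  intro k _ hk K
  have hL := hC.lau k hk
  have := (hC.reg k hk).noeth
  refine allSI_tree (G := K) (V := V) (T := T) (hC.reg k hk).nice hT (fun g v w h => hact g v w h)
    (fun g v w h => hinv g v w h) ?_ ?_ ?_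
  · intro v
    let f : MulAction.stabilizer K v →* MulAction.stabilizer G v :=
      { toFun := fun x => ⟨((x : K) : G), x.2⟩
        map_one' := rfl
        map_mul' := fun _ _ => rfl }
    refine (hV v).inj f ?_ k hk
    intro x y hxy
    apply Subtype.ext
    apply Subtype.ext
    exact congrArg (fun z : MulAction.stabilizer G v => (z : G)) hxy
  · intro v w _
    let f : MulAction.stabilizer K ((v, w) : V × V) →* MulAction.stabilizer G v :=
      { toFun := fun x => ⟨((x : K) : G), congrArg Prod.fst (MulAction.mem_stabilizer_iff.1 x.2)⟩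
        map_one' := rfl
        map_mul' := fun _ _ => rfl }
    refine (hV v).inj f ?_ _ hL
    intro x y hxy
    apply Subtype.ext
    apply Subtype.ext
    exact congrArg (fun z : MulAction.stabilizer G v => (z : G)) hxy
  · intro p h1 h2 d hd
    obtain ⟨m, hm⟩ := hm p h1 h2 d hd
    refine ⟨m, ?_⟩
    let f : Fx K m p →* Fx G m p :=
      { toFun := fun x => ⟨((x : K) : G), x.2⟩
        map_one' := rfl
        map_mul' := fun _ _ => rfl }
    have hf : Function.Injective f := by
      intro x y hxy
      apply Subtype.ext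
      apply Subtype.ext
      exact congrArg (fun z : Fx G m p => (z : G)) hxy
    rcases hm with hm | hm | hm
    · left
      apply nice_bot' (hC.reg _ hL).nice
      rw [Subgroup.eq_bot_iff_forall]
      intro x hx
      have h3 : ((x : K) : G) ∈ Fx G m p := hx
      rw [hm, Subgroup.mem_bot] at h3
      exact Subtype.ext h3
    · left
      exact nice_congr (MonoidHom.ofInjective hf).symm (Nice.sub f.range (hm _ hL))
    · right
      intro h hper
      have h3 := hm (h : G) (fun i hi => hper i hi)
      have hle : (Subgroup.closure ((Fx K m p : Set K) ∪ {h})).map K.subtype ≤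
          Subgroup.closure ((Fx G m p : Set G) ∪ {(h : G)}) := by
        rw [MonoidHom.map_closure, Subgroup.closure_le]
        rintro _ ⟨g, hg | hg, rfl⟩
        · exact Subgroup.subset_closure (Or.inl hg)
        · have hg' : g = h := hg
          rw [hg']
          exact Subgroup.subset_closure (Or.inr rfl)
      let f : Subgroup.closure ((Fx K m p : Set K) ∪ {h}) →*
          Subgroup.closure ((Fx G m p : Set G) ∪ {(h : G)}) :=
        { toFun := fun x => ⟨((x : K) : G), hle ⟨(x : K), x.2, rfl⟩⟩
          map_one' := rfl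
          map_mul' := fun _ _ => rfl }
      refine h3.inj f ?_ k hk
      intro x y hxy
      apply Subtype.ext
      apply Subtype.ext
      exact congrArg (fun z : Subgroup.closure ((Fx G m p : Set G) ∪ {(h : G)}) => (z : G)) hxy

theorem Reg.zp {k : Type} [Ring k] (h : Reg k) (n : ℕ) : Reg (MonoidAlgebra k (Zp n)) := by
  induction n with
  | zero => exact Reg.ringEquiv (MonoidAlgebra.uniqueRingEquiv (R := k) (M := Zp 0)).symm h
  | succ n ih =>
    let e1 : Lau (MonoidAlgebra k (Zp n)) ≃+* MonoidAlgebra k (Multiplicative ℤ × Zp n) :=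
      (MonoidAlgebra.curryRingEquiv (R := k) (M := Multiplicative ℤ) (N := Zp n)).symm
    exact Reg.ringEquiv (MonoidAlgebra.mapDomainRingEquiv k (zpSucc n).symm)
      (Reg.ringEquiv e1 ih.lau)

theorem allSI_zp {k : Type} [Ring k] (h : Reg k) (n : ℕ) : AllSI (io k (Zp n)) := by
  induction n with
  | zero =>
    have h1 := AllSI.equiv (MonoidAlgebra.uniqueRingEquiv (R := k) (M := Zp 0)).symm
    have h2 : (((MonoidAlgebra.uniqueRingEquiv (R := k) (M := Zp 0)).symm :
        k ≃+* MonoidAlgebra k (Zp 0)) : k →+* MonoidAlgebra k (Zp 0)) = io k (Zp 0) := by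
      apply RingHom.ext
      intro c
      change (MonoidAlgebra.uniqueRingEquiv (R := k) (M := Zp 0)).symm c = _
      rw [RingEquiv.symm_apply_eq]
      simp [io]
    rwa [h2] at h1
  | succ n ih =>
    have h0 := h.zp n
    have := h0.noeth
    have h1 : AllSI (Cc (MonoidAlgebra k (Zp n))) := allSI_lau h0.nice
    have h2 := ih.comp h1
    let e1 : Lau (MonoidAlgebra k (Zp n)) ≃+* MonoidAlgebra k (Multiplicative ℤ × Zp n) :=
      (MonoidAlgebra.curryRingEquiv (R := k) (M := Multiplicative ℤ) (N := Zp n)).symm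
    have h3 := h2.comp (AllSI.equiv e1)
    have h4 : (e1 : Lau (MonoidAlgebra k (Zp n)) →+* MonoidAlgebra k (Multiplicative ℤ × Zp n)).comp
        ((Cc (MonoidAlgebra k (Zp n))).comp (io k (Zp n))) = io k (Multiplicative ℤ × Zp n) := by
      apply RingHom.ext
      intro c
      exact MonoidAlgebra.curryRingEquiv_symm_single (1 : Multiplicative ℤ) (1 : Zp n) c
    rw [h4] at h3
    exact AllSI.congr (zpSucc n).symm h3

theorem kr_zp (hC : RCls C) (m : ℕ) : KR C (Zp m) := by
  intro k _ hk H
  obtain ⟨n, ⟨e⟩⟩ := zp_sub m H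
  exact AllSI.congr e.symm (allSI_zp (hC.reg k hk) n)

theorem rcls_reg : RCls (fun k _ => Reg k) := ⟨fun _ _ h => h, fun _ _ h => h.lau⟩

theorem rcls_regC : RCls (fun k _ => RegC k) :=
  ⟨fun _ _ h => ⟨h.noeth, h.nice⟩, fun _ _ h => h.lau⟩

end cls

end Pool.Agent.H1.KK
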