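import Pool.Agent.H1.KK.RelC
import Pool.Agent.H1.KK.KR

set_option autoImplicit false
set_option linter.unusedSectionVars false
set_option linter.unusedSimpArgs false

/-!
# The subgroup of the projective class group generated by the finite subgroups
-/

namespace Pool.Agent.H1.KK

open Matrix TH57.Thr Pool.Agent.K4H37.MT Pool.Agent.H1.MV Pool.Agent.H1.MK

section kzm

variable {S S' S'' : Type} [Ring S] [Ring S'] [Ring S''] {m n : Type} [Fintype m] [DecidableEq m]
  [Fintype n] [DecidableEq n]

theorem exists_km (x : KZ S) : ∃ (n : ℕ) (p : Matrix (Fin n) (Fin n) S) (hp : p * p = p),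
    x = km p hp := by
  obtain ⟨P⟩ := x
  obtain ⟨n, p, hp, ⟨e⟩⟩ := exists_mo (S := S) P.M
  refine ⟨n, p, hp, ?_⟩
  exact Quotient.sound (SE.of_equiv e)

theorem km_congr {p q : Matrix m m S} (h : p = q) (hp : p * p = p) :
    km p hp = km q (by rw [← h]; exact hp) := by
  subst h
  rfl

/-- a representative -/
noncomputable def rpm (x : KZ S) : Matrix (Fin (exists_km x).choose) (Fin (exists_km x).choose) S :=
  (exists_km x).choose_spec.choose

theorem rpm_idem (x : KZ S) : rpm x * rpm x = rpm x := (exists_km x).choose_spec.choose_spec.choose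

theorem km_rpm (x : KZ S) : km (rpm x) (rpm_idem x) = x :=
  (exists_km x).choose_spec.choose_spec.choose_spec.symm

theorem km_map_eq (φ : S →+* S') {p : Matrix m m S} (hp : p * p = p) {q : Matrix n n S}
    (hq : q * q = q) (h : km p hp = km q hq) :
    km (p.map φ) (map_idem φ hp) = km (q.map φ) (map_idem φ hq) := by
  rw [km_eq] at h ⊢
  exact se_map φ hp hq h

theorem km_map_mul (φ : S →+* S') {p : Matrix m m S} (hp : p * p = p) {q : Matrix n n S}
    (hq : q * q = q) :
    km (p.map φ) (map_idem φ hp) * km (q.map φ) (map_idem φ hq) =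
    km ((fromBlocks p 0 0 q).map φ) (map_idem φ (blocks_idem hp hq)) := by
  rw [km_mul, km_eq, blocks_map]
  exact SE.refl _

/-- the induced homomorphism of projective class groups -/
noncomputable def kzm (φ : S →+* S') : KZ S →* KZ S' where
  toFun x := km ((rpm x).map φ) (map_idem φ (rpm_idem x))
  map_one' := by
    have h1 : km (rpm (1 : KZ S)) (rpm_idem 1) = km (1 : Matrix Unit Unit S) (Matrix.one_mul _) := by
      rw [km_rpm, km_one]
    rw [km_map_eq φ _ _ h1, ← km_one (m := Unit), km_eq, Matrix.map_one _ (map_zero _) (map_one _)]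
    exact SE.refl _
  map_mul' x y := by
    rw [km_map_mul φ (rpm_idem x) (rpm_idem y)]
    apply km_map_eq
    rw [← km_mul (rpm_idem x) (rpm_idem y), km_rpm, km_rpm, km_rpm]

theorem kzm_km (φ : S →+* S') {p : Matrix m m S} (hp : p * p = p) :
    kzm φ (km p hp) = km (p.map φ) (map_idem φ hp) :=
  km_map_eq φ _ _ (km_rpm _)

theorem kzm_comp (φ : S →+* S') (ψ : S' →+* S'') (x : KZ S) :
    kzm ψ (kzm φ x) = kzm (ψ.comp φ) x := by
  obtain ⟨n, p, hp, rfl⟩ := exists_km x
  rw [kzm_km, kzm_km, kzm_km]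
  rfl

theorem ik_eq (φ : S →+* S') : IK φ = (kzm φ).range := by
  ext x
  constructor
  · rintro ⟨ν, i1, i2, p, hp, rfl⟩
    exact ⟨km p hp, kzm_km φ hp⟩
  · rintro ⟨y, rfl⟩
    obtain ⟨n, p, hp, rfl⟩ := exists_km y
    exact ⟨Fin n, inferInstance, inferInstance, p, hp, kzm_km φ hp⟩

theorem allSI_iff (φ : S →+* S') : AllSI φ ↔ IK φ = ⊤ := by
  constructor
  · intro h
    rw [Subgroup.eq_top_iff']
    intro x
    obtain ⟨n, p, hp, rfl⟩ := exists_km x
    have := mo_finite p
    have := mo_projective hp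
    exact (km_mem hp).2 (h (Mo p))
  · intro h
    apply AllSI.of_mo
    intro n p hp
    rw [← km_mem hp, h]
    exact Subgroup.mem_top _

end kzm

section fin

variable {k : Type} [Ring k] {G : Type} [Group G]

/-- the classes which are generated by finite subgroups -/
noncomputable def IF (k : Type) [Ring k] (G : Type) [Group G] : Subgroup (KZ (MonoidAlgebra k G)) :=
  ⨆ F : {F : Subgroup G // Finite F}, IK (inc k F.1)

theorem ik_le_if {F : Subgroup G} (hF : Finite F) : IK (inc k F) ≤ IF k G :=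
  le_iSup (fun F : {F : Subgroup G // Finite F} => IK (inc k F.1)) ⟨F, hF⟩

theorem inc_nat {H K : Type} [Group H] [Group K] (f : H →* K) (F : Subgroup H)
    (x : MonoidAlgebra k F) :
    MonoidAlgebra.mapDomainRingHom k f (inc k F x) =
      inc k (F.map f) (MonoidAlgebra.mapDomainRingHom k (f.subgroupMap F) x) := by
  induction x using MonoidAlgebra.induction_linear with
  | zero => rw [map_zero, map_zero, map_zero, map_zero]
  | add a b ha hb => rw [map_add, map_add, map_add, map_add, ha, hb]
  | single a b =>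
    change MonoidAlgebra.mapDomain f (MonoidAlgebra.mapDomain _ (MonoidAlgebra.single a b)) =
      MonoidAlgebra.mapDomain _ (MonoidAlgebra.mapDomain _ (MonoidAlgebra.single a b))
    rw [MonoidAlgebra.mapDomain_single, MonoidAlgebra.mapDomain_single,
      MonoidAlgebra.mapDomain_single, MonoidAlgebra.mapDomain_single]
    rfl

/-- functoriality for homomorphisms of groups -/
theorem if_map {H K : Type} [Group H] [Group K] (f : H →* K) {x : KZ (MonoidAlgebra k H)}
    (hx : x ∈ IF k H) : kzm (MonoidAlgebra.mapDomainRingHom k f) x ∈ IF k K := by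
  have h1 : IF k H ≤ (IF k K).comap (kzm (MonoidAlgebra.mapDomainRingHom k f)) := by
    apply iSup_le
    rintro ⟨F, hF⟩
    intro y hy
    rw [ik_eq] at hy
    obtain ⟨z, rfl⟩ := hy
    rw [Subgroup.mem_comap, kzm_comp]
    have hF' : Finite (F.map f) := by
      have := hF
      exact Finite.of_surjective (f.subgroupMap F) (f.subgroupMap_surjective F)
    apply ik_le_if hF'
    rw [ik_eq]
    refine ⟨kzm (MonoidAlgebra.mapDomainRingHom k (f.subgroupMap F)) z, ?_⟩
    rw [kzm_comp]
    congr 2
    exact RingHom.ext fun x => (inc_nat f F x).symm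
  exact h1 hx

/-- functoriality for the coefficients -/
theorem if_mg {k₀ : Type} [Ring k₀] (φ : k₀ →+* k) {x : KZ (MonoidAlgebra k₀ G)}
    (hx : x ∈ IF k₀ G) : kzm (mg φ G) x ∈ IF k G := by
  have h1 : IF k₀ G ≤ (IF k G).comap (kzm (mg φ G)) := by
    apply iSup_le
    rintro ⟨F, hF⟩
    intro y hy
    rw [ik_eq] at hy
    obtain ⟨z, rfl⟩ := hy
    rw [Subgroup.mem_comap, kzm_comp]
    apply ik_le_if hF
    rw [ik_eq]
    refine ⟨kzm (mg φ F) z, ?_⟩
    rw [kzm_comp]
    congr 2
    exact RingHom.ext fun x => (mg_inc φ F x).symm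
  exact h1 hx

theorem inc_eq (H : Subgroup G) : inc k H = MonoidAlgebra.mapDomainRingHom k H.subtype := rfl

/-- all classes are generated by finite subgroups -/
def AF (k : Type) [Ring k] (G : Type) [Group G] : Prop := ∀ x : KZ (MonoidAlgebra k G), x ∈ IF k G

theorem af_sub {H : Subgroup G} (h : AF k H) (x : KZ (MonoidAlgebra k H)) :
    kzm (inc k H) x ∈ IF k G := if_map H.subtype (h x)

theorem AF.congr {H : Type} [Group H] (e : H ≃* G) (h : AF k H) : AF k G := by
  intro x
  have h1 := if_map (k := k) e.toMonoidHom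
    (h (kzm (MonoidAlgebra.mapDomainRingHom k e.symm.toMonoidHom) x))
  rw [kzm_comp] at h1
  have h2 : (MonoidAlgebra.mapDomainRingHom k e.toMonoidHom).comp
      (MonoidAlgebra.mapDomainRingHom k e.symm.toMonoidHom) = RingHom.id _ := by
    apply RingHom.ext
    intro y
    change MonoidAlgebra.mapDomain e (MonoidAlgebra.mapDomain e.symm y) = y
    induction y using MonoidAlgebra.induction_linear with
    | zero => rw [MonoidAlgebra.mapDomain_zero, MonoidAlgebra.mapDomain_zero]
    | add f g hf hg => rw [MonoidAlgebra.mapDomain_add, MonoidAlgebra.mapDomain_add, hf, hg]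
    | single a b =>
      rw [MonoidAlgebra.mapDomain_single, MonoidAlgebra.mapDomain_single, e.apply_symm_apply]
  rw [h2] at h1
  obtain ⟨n, p, hp, rfl⟩ := exists_km x
  rw [kzm_km] at h1
  exact h1

theorem af_finite (k : Type) [Ring k] (G : Type) [Group G] [Finite G] : AF k G := by
  intro x
  have hF : Finite (⊤ : Subgroup G) := inferInstance
  apply ik_le_if hF
  rw [ik_eq]
  refine ⟨kzm (MonoidAlgebra.mapDomainRingHom k Subgroup.topEquiv.symm.toMonoidHom) x, ?_⟩
  rw [kzm_comp]
  have h2 : (inc k (⊤ : Subgroup G)).comp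
      (MonoidAlgebra.mapDomainRingHom k Subgroup.topEquiv.symm.toMonoidHom) = RingHom.id _ := by
    apply RingHom.ext
    intro y
    change MonoidAlgebra.mapDomain _ (MonoidAlgebra.mapDomain _ y) = y
    induction y using MonoidAlgebra.induction_linear with
    | zero => rw [MonoidAlgebra.mapDomain_zero, MonoidAlgebra.mapDomain_zero]
    | add f g hf hg => rw [MonoidAlgebra.mapDomain_add, MonoidAlgebra.mapDomain_add, hf, hg]
    | single a b =>
      rw [MonoidAlgebra.mapDomain_single, MonoidAlgebra.mapDomain_single]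
      rfl
  rw [h2]
  obtain ⟨n, p, hp, rfl⟩ := exists_km x
  rw [kzm_km]
  rfl

theorem af_of_allSI (h : AllSI (io k G)) : AF k G := by
  intro x
  have hF : Finite (⊥ : Subgroup G) := inferInstance
  apply ik_le_if hF
  rw [ik_eq]
  rw [allSI_iff, ik_eq] at h
  have hx : x ∈ (kzm (io k G)).range := by rw [h]; exact Subgroup.mem_top _
  obtain ⟨y, rfl⟩ := hx
  refine ⟨kzm (io k (⊥ : Subgroup G)) y, ?_⟩
  rw [kzm_comp]
  congr 2
  exact RingHom.ext fun c => inc_io _ c

end fin

section nu

variable {k : Type} [Ring k] {G : Type} [Group G] {κ : Type} [Fintype κ] [DecidableEq κ]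

/-- the system of the matrices with boundary in a subgroup -/
noncomputable def NU (U : Subgroup (KZ (MonoidAlgebra k G))) :
    KI (MonoidAlgebra (Lau k) G) where
  car κ _ _ x := bd (MonoidAlgebra k G) κ (swm x) ∈ U
  of_TT x hx := by
    have h1 : TT ⊥ (swm x) := TT_map ⊥ ⊥ (sw k G).toRingHom (by
      intro u hu
      rw [Subgroup.mem_bot] at hu
      rw [hu, map_one]
      exact one_mem _) x hx
    rw [bd_TT_bot h1]
    exact one_mem _
  mul x y hx hy := by
    rw [swm_mul, map_mul]
    exact mul_mem hx hy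
  inv x hx := by
    rw [swm_inv, map_inv]
    exact inv_mem hx
  st μ _ _ x hx := by
    rw [swm_stm, bd_stm]
    exact hx
  unst x hx := by
    rw [swm_stm, bd_stm] at hx
    exact hx
  re e x hx := by
    rw [swm_re, bd_re]
    exact hx

variable {U : Subgroup (KZ (MonoidAlgebra k G))}

theorem nu_sub (H : Subgroup G) (h : ∀ x, kzm (inc k H) x ∈ U)
    (a : (Matrix κ κ (MonoidAlgebra (Lau k) H))ˣ) :
    (NU U).car κ (Units.map (mpm (inc (Lau k) H)) a) := by
  obtain ⟨n, p, hp, hB⟩ := bd_map2 (inc k H) (swm a) _ (swm_inc H a)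
  change bd (MonoidAlgebra k G) κ (swm _) ∈ U
  rw [bd_eq hB, ← kzm_km (inc k H) hp]
  exact h _

theorem mg_Cc (x : MonoidAlgebra k G) : mg (Cc k) G x = cG k G x := by
  induction x using MonoidAlgebra.induction_linear with
  | zero => rw [map_zero, map_zero]
  | add f g hf hg => rw [map_add, map_add, hf, hg]
  | single a b =>
    rw [mg_single]
    change _ = (sw k G).symm (Cc (MonoidAlgebra k G) (MonoidAlgebra.single a b))
    rw [RingEquiv.eq_symm_apply]
    change sw k G (MonoidAlgebra.single a (MonoidAlgebra.single 1 b)) =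
      MonoidAlgebra.single 1 (MonoidAlgebra.single a b)
    rw [sw_single]

theorem nu_const (a : (Matrix κ κ (MonoidAlgebra k G))ˣ) :
    (NU U).car κ (Units.map (mpm (mg (Cc k) G)) a) := by
  change bd (MonoidAlgebra k G) κ (swm _) ∈ U
  have h1 : swm (Units.map (mpm (mg (Cc k) G)) a) = Units.map (mpm (Cc (MonoidAlgebra k G))) a := by
    apply Units.ext
    ext1 i j
    rw [swm_apply]
    change sw k G (mg (Cc k) G (a.val i j)) = _
    rw [mg_Cc]
    change sw k G ((sw k G).symm (Cc (MonoidAlgebra k G) (a.val i j))) = _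
    rw [RingEquiv.apply_symm_apply]
    rfl
  rw [h1, bd_Cc]
  exact one_mem _

theorem top_of_NU (h : ∀ (n : ℕ) (X : (Matrix (Fin n) (Fin n) (MonoidAlgebra (Lau k) G))ˣ),
    (NU U).car (Fin n) X) (x : KZ (MonoidAlgebra k G)) : x ∈ U := by
  obtain ⟨n, p, hp, rfl⟩ := exists_km x
  obtain ⟨y, hy⟩ := swm_pencil hp
  have h1 : bd (MonoidAlgebra k G) (Fin n) (swm y) ∈ U := h n y
  rw [hy, bd_Pu] at h1
  have h2 : km (1 - p) (one_sub_idem hp) ∈ U := h1
  have h3 := km_compl hp
  have h4 : km p hp = (km (1 - p) (one_sub_idem hp))⁻¹ := by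
    rw [eq_inv_iff_mul_eq_one, mul_comm]
    exact h3
  rw [h4]
  exact inv_mem h2

variable {V : Type} [MulAction G V] {T : SimpleGraph V}

theorem cc_retract : (MK.aug k (Multiplicative ℤ)).comp (Cc k) = RingHom.id k :=
  RingHom.ext fun c => aug_single 1 c

/-- **The projective class group of the group ring of a group acting on a tree, with arbitrary
generators** -/
theorem top_tree (hT : T.IsTree)
    (hact : ∀ (g : G) (v w : V), T.Adj v w → T.Adj (g • v) (g • w))
    (hinv : ∀ (g : G) (v w : V), T.Adj v w → ¬ (g • v = w ∧ g • w = v))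
    (hV : ∀ (v : V) x, kzm (inc k (MulAction.stabilizer G v)) x ∈ U)
    (hE : ∀ v w : V, T.Adj v w → AllSI (mg (Cc k) (MulAction.stabilizer G ((v, w) : V × V))))
    (hm : ∀ p : ℕ → V, (∀ i, T.Adj (p i) (p (i + 1))) → (∀ i, p (i + 2) ≠ p i) →
      ∀ d : ℕ, 0 < d → ∃ n, Nice (MonoidAlgebra (Lau k) (Fx G n p)) ∨
        ∀ h : G, (∀ i ≤ n, h • p (i + d) = p i) →
          ∀ x, kzm (inc k (Subgroup.closure ((Fx G n p : Set G) ∪ {h}))) x ∈ U)
    (x : KZ (MonoidAlgebra k G)) : x ∈ U := by
  classical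
  refine top_of_NU ?_ x
  intro n X
  have hg : GoodR (Cc k) V (NU U) :=
    ⟨fun v κ _ _ a => nu_sub _ (hV v) a, fun κ _ _ a => nu_const a⟩
  refine all_R cc_retract hg hT hact hinv ?_ hE X
  intro J _ _ σ x y hx hyx
  refine tr_of_tree (T := T) (𝒩 := fun H => Nice (MonoidAlgebra (Lau k) H)) hT hact nice_cls
    (fun _ h => h) ?_ hx hyx
  intro p h1 h2 d hd
  obtain ⟨m, hm⟩ := hm p h1 h2 d hd
  refine ⟨m, hm.imp_right ?_⟩
  intro hm h hper
  exact hk_of_sub fun κ _ _ a => nu_sub _ (hm h hper) a

end nu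

end Pool.Agent.H1.KK
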