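import Pool.Agent.H1.MV.Letters
import Pool.Agent.H1.MV.VC

set_option autoImplicit false
set_option linter.unusedSectionVars false
set_option linter.unusedSimpArgs false

/-!
# Subgroups of `K₁`
-/

namespace Pool.Agent.H1.KK

open Matrix TH57.Thr Pool.Agent.K4H37.MT Pool.Agent.H1.MV
open scoped commutatorElement

/-- a system of subgroups of the general linear groups which comes from a subgroup of `K₁(R)` -/
structure KI (R : Type) [Ring R] where
  /-- the matrices -/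
  car : ∀ (κ : Type) [Fintype κ] [DecidableEq κ], (Matrix κ κ R)ˣ → Prop
  of_TT : ∀ {κ : Type} [Fintype κ] [DecidableEq κ] (x : (Matrix κ κ R)ˣ), TT ⊥ x → car κ x
  mul : ∀ {κ : Type} [Fintype κ] [DecidableEq κ] (x y : (Matrix κ κ R)ˣ), car κ x → car κ y →
    car κ (x * y)
  inv : ∀ {κ : Type} [Fintype κ] [DecidableEq κ] (x : (Matrix κ κ R)ˣ), car κ x → car κ x⁻¹
  st : ∀ {κ : Type} [Fintype κ] [DecidableEq κ] (μ : Type) [Fintype μ] [DecidableEq μ]
    (x : (Matrix κ κ R)ˣ), car κ x → car (κ ⊕ μ) (Units.map (stm μ) x)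
  unst : ∀ {κ μ : Type} [Fintype κ] [DecidableEq κ] [Fintype μ] [DecidableEq μ]
    (x : (Matrix κ κ R)ˣ), car (κ ⊕ μ) (Units.map (stm μ) x) → car κ x
  re : ∀ {κ μ : Type} [Fintype κ] [DecidableEq κ] [Fintype μ] [DecidableEq μ] (e : μ ≃ κ)
    (x : (Matrix κ κ R)ˣ), car κ x → car μ (Units.map (TH57.Thr.re e) x)

namespace KI

variable {R : Type} [Ring R] (N : KI R) {κ μ ν : Type} [Fintype κ] [DecidableEq κ] [Fintype μ]
  [DecidableEq μ] [Fintype ν] [DecidableEq ν]

theorem one : N.car κ 1 := N.of_TT _ (TT_one _)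

theorem conj (x g : (Matrix κ κ R)ˣ) (h : N.car κ x) : N.car κ (g * x * g⁻¹) := by
  have h1 : g * x * g⁻¹ = ⁅g, x⁆ * x := by rw [commutatorElement_def]; group
  rw [h1]
  refine N.mul _ _ (N.of_TT _ (TT_of_mem _ _ (commutator_le_HH _ ?_))) h
  rw [commutator_def]
  exact Subgroup.commutator_mem_commutator (Subgroup.mem_top _) (Subgroup.mem_top _)

theorem bsum {x : (Matrix κ κ R)ˣ} {y : (Matrix μ μ R)ˣ} (hx : N.car κ x) (hy : N.car μ y) :
    N.car (κ ⊕ μ) (blockSum x y) := by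
  have h1 : blockSum x y = blockSum x 1 * blockSum 1 y := by
    rw [blockSum_mul, one_mul, mul_one]
  have h2 : N.car (κ ⊕ μ) (blockSum (1 : (Matrix κ κ R)ˣ) y) := by
    rw [← re_comm, blockSum_one]
    exact N.re _ _ (N.st _ _ hy)
  rw [h1, blockSum_one]
  exact N.mul _ _ (N.st _ _ hx) h2

theorem of_bsum {x : (Matrix κ κ R)ˣ} {y : (Matrix μ μ R)ˣ} (h : N.car (κ ⊕ μ) (blockSum x y))
    (hy : N.car μ y) : N.car κ x := by
  have h1 : Units.map (stm μ) x = blockSum x y * blockSum 1 y⁻¹ := by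
    rw [blockSum_mul, mul_inv_cancel, mul_one, blockSum_one]
  apply N.unst (μ := μ)
  rw [h1]
  exact N.mul _ _ h (N.bsum N.one (N.inv _ hy))

theorem cl {x : (Matrix κ κ R)ˣ} {y : (Matrix μ μ R)ˣ} (h : Cl ⊥ x y) (hy : N.car μ y) :
    N.car κ x := N.of_bsum (N.of_TT _ h) (N.inv _ hy)

theorem empty [IsEmpty κ] (x : (Matrix κ κ R)ˣ) : N.car κ x := by
  have : x = 1 := by
    apply Units.ext
    ext1 i
    exact IsEmpty.elim ‹_› i
  rw [this]
  exact N.one

/-- invertible matrices in the system -/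
def Tr (W : Matrix κ κ R) : Prop := ∃ w : (Matrix κ κ R)ˣ, w.val = W ∧ N.car κ w

theorem Tr.of_triv {W : Matrix κ κ R} (h : Triv ⊥ W) : N.Tr W := by
  obtain ⟨w, hw, hT⟩ := h
  exact ⟨w, hw, N.of_TT _ hT⟩

variable {N}

theorem Tr.one : N.Tr (1 : Matrix κ κ R) := ⟨1, rfl, N.one⟩

theorem Tr.mul {W W' : Matrix κ κ R} (h : N.Tr W) (h' : N.Tr W') : N.Tr (W * W') := by
  obtain ⟨w, rfl, hT⟩ := h
  obtain ⟨w', rfl, hT'⟩ := h'
  exact ⟨w * w', rfl, N.mul _ _ hT hT'⟩

theorem Tr.inv {w : (Matrix κ κ R)ˣ} (h : N.Tr w.val) : N.Tr (w⁻¹).val := by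
  obtain ⟨w', hw, hT'⟩ := h
  have : w' = w := Units.ext hw
  subst this
  exact ⟨_, rfl, N.inv _ hT'⟩

theorem Tr.conj {x : Matrix κ κ R} (g : (Matrix κ κ R)ˣ)
    (h : N.Tr (1 + g⁻¹.val * x * g.val)) : N.Tr (1 + x) := by
  obtain ⟨w, hw, hT⟩ := h
  refine ⟨g * w * g⁻¹, ?_, N.conj _ _ hT⟩
  rw [Units.val_mul, Units.val_mul, hw, mul_add, add_mul, mul_one, Units.mul_inv]
  congr 1
  rw [← mul_assoc, ← mul_assoc, Units.mul_inv, one_mul, mul_assoc, Units.mul_inv, mul_one]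

theorem Tr.diag {W : Matrix μ μ R} (h : N.Tr W) :
    N.Tr (fromBlocks (1 : Matrix κ κ R) 0 0 W) := by
  obtain ⟨w, rfl, hT⟩ := h
  exact ⟨blockSum 1 w, rfl, N.bsum N.one hT⟩

theorem Tr.unst {W : Matrix κ κ R} (h : N.Tr (fromBlocks W 0 0 (1 : Matrix μ μ R))) :
    N.Tr W := by
  obtain ⟨x, hx, hxT⟩ := h
  obtain ⟨a, ha⟩ := corner_unit x W 0 (1 : (Matrix μ μ R)ˣ) hx
  refine ⟨a, ha, ?_⟩
  apply N.unst (μ := μ)
  convert hxT using 1
  apply Units.ext
  rw [hx]
  change fromBlocks a.val 0 0 1 = _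
  rw [ha]

theorem Tr.uv (A : Matrix κ μ R) (B : Matrix μ κ R) (h : N.Tr (1 + B * A)) :
    N.Tr (1 + A * B) := by
  apply Tr.unst (μ := μ)
  have h1 : N.Tr (fromBlocks (1 : Matrix κ κ R) (-A) 0 (1 + B * A)) := by
    have h2 := (Tr.diag (κ := κ) h).mul (Tr.of_triv N (Triv.upper (-A)
      (Triv.one (ν := κ)) (Triv.one (ν := μ))))
    rw [Matrix.fromBlocks_multiply] at h2
    simpa using h2
  have h2 : N.Tr (fromBlocks (1 : Matrix κ κ R) 0 B (1 : Matrix μ μ R)) :=
    Tr.of_triv N (Triv.lower _ Triv.one Triv.one)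
  have h3 : N.Tr (fromBlocks (1 : Matrix κ κ R) A 0 (1 : Matrix μ μ R)) :=
    Tr.of_triv N (Triv.upper _ Triv.one Triv.one)
  have h4 : N.Tr (fromBlocks (1 : Matrix κ κ R) 0 (-B) (1 : Matrix μ μ R)) :=
    Tr.of_triv N (Triv.lower _ Triv.one Triv.one)
  have h5 := Tr.mul (Tr.mul h3 (Tr.mul h2 h1)) h4
  convert h5 using 1
  rw [Matrix.fromBlocks_multiply, Matrix.fromBlocks_multiply, Matrix.fromBlocks_multiply]
  congr 1
  · simp only [Matrix.mul_one, Matrix.mul_zero, Matrix.zero_mul, Matrix.one_mul, add_zero,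
      zero_add, Matrix.mul_neg, Matrix.neg_mul, Matrix.mul_add, Matrix.add_mul, neg_neg]
    abel
  · simp only [Matrix.mul_one, Matrix.mul_zero, Matrix.zero_mul, Matrix.one_mul, add_zero,
      zero_add, Matrix.mul_neg, Matrix.neg_mul, Matrix.mul_add, Matrix.add_mul, neg_neg]
    abel
  · simp only [Matrix.mul_one, Matrix.mul_zero, Matrix.zero_mul, Matrix.one_mul, add_zero,
      zero_add, Matrix.mul_neg, Matrix.neg_mul, Matrix.mul_add, Matrix.add_mul, neg_neg]
    abel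
  · simp only [Matrix.mul_one, Matrix.mul_zero, Matrix.zero_mul, Matrix.one_mul, add_zero,
      zero_add, Matrix.mul_neg, Matrix.neg_mul, Matrix.mul_add, Matrix.add_mul, neg_neg]
    abel

end KI

/-- the system generated by units -/
def ofU {R : Type} [Ring R] (U : Subgroup Rˣ) : KI R where
  car κ _ _ x := TT U x
  of_TT x hx := by
    obtain ⟨μ, i1, i2, h⟩ := hx
    refine ⟨μ, i1, i2, ?_⟩
    refine (sup_le (commutator_le_HH U) ?_ : HH ⊥ _ ≤ HH U _) h
    rw [Subgroup.closure_le]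
    rintro _ ⟨i, u, hu, rfl⟩
    rw [Subgroup.mem_bot] at hu
    rw [hu, map_one]
    exact one_mem _
  mul x y hx hy := TT_mul U x y hx hy
  inv x hx := TT_inv U x hx
  st _ _ _ x hx := TT_st U x hx
  unst x hx := TT_unst U x hx
  re e x hx := TT_re U e x hx

theorem ofU_tr {R : Type} [Ring R] {U : Subgroup Rˣ} {κ : Type} [Fintype κ] [DecidableEq κ]
    {W : Matrix κ κ R} : (ofU U).Tr W ↔ Triv U W := Iff.rfl

/-- the preimage under a ring homomorphism -/
def comap {R S : Type} [Ring R] [Ring S] (φ : R →+* S) (N : KI S) : KI R where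
  car κ _ _ x := N.car κ (Units.map (mpm φ) x)
  of_TT x hx := N.of_TT _ (TT_map ⊥ ⊥ φ (by
    intro u hu
    rw [Subgroup.mem_bot] at hu
    rw [hu, map_one]
    exact one_mem _) x hx)
  mul x y hx hy := by
    rw [map_mul]
    exact N.mul _ _ hx hy
  inv x hx := by
    rw [map_inv]
    exact N.inv _ hx
  st μ _ _ x hx := by
    have h := N.st μ _ hx
    convert h using 1
    apply Units.ext
    ext (i | i) (j | j)
    · rfl
    · exact map_zero φ
    · exact map_zero φ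
    · change φ ((1 : Matrix μ μ R) i j) = (1 : Matrix μ μ S) i j
      by_cases h : i = j
      · rw [h, Matrix.one_apply_eq, Matrix.one_apply_eq, map_one]
      · rw [Matrix.one_apply_ne h, Matrix.one_apply_ne h, map_zero]
  unst {κ μ} _ _ _ _ x hx := by
    apply N.unst (μ := μ)
    convert hx using 1
    apply Units.ext
    ext (i | i) (j | j)
    · rfl
    · exact (map_zero φ).symm
    · exact (map_zero φ).symm
    · change (1 : Matrix μ μ S) i j = φ ((1 : Matrix μ μ R) i j)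
      by_cases h : i = j
      · rw [h, Matrix.one_apply_eq, Matrix.one_apply_eq, map_one]
      · rw [Matrix.one_apply_ne h, Matrix.one_apply_ne h, map_zero]
  re e x hx := N.re e _ hx

end Pool.Agent.H1.KK
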