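import Pool.Agent.H1.KK.GlueI
import Pool.Agent.H1.MK.Hil

set_option autoImplicit false
set_option linter.unusedSectionVars false
set_option linter.unusedSimpArgs false

/-!
# Projective modules over Laurent polynomial rings are stably induced
-/

namespace Pool.Agent.H1.KK

open Matrix Pool.Agent.H1.MV

section sfi

variable {k R : Type} [Ring k] [Ring R]

/-- The module `M` has a resolution of length at most `n` by finitely generated free modules, the
last kernel being stably induced. -/
def SFI (φ : k →+* R) : ∀ (_ : ℕ) (M : Type) [AddCommGroup M] [Module R M], Prop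
  | 0, M, _, _ => SI φ M
  | n + 1, M, _, _ => ∃ (ι : Type) (_ : Fintype ι) (f : (ι → R) →ₗ[R] M),
      Function.Surjective f ∧ SFI φ n (LinearMap.ker f)

variable {φ : k →+* R}

theorem SFI.iso {n : ℕ} {M N : Type} [AddCommGroup M] [Module R M] [AddCommGroup N]
    [Module R N] (e : M ≃ₗ[R] N) (h : SFI φ n M) : SFI φ n N := by
  cases n with
  | zero => exact SI.iso e h
  | succ n =>
    obtain ⟨ι, _, f, hf, hk⟩ := h
    refine ⟨ι, inferInstance, e.toLinearMap ∘ₗ f, e.surjective.comp hf, ?_⟩
    have h1 : LinearMap.ker (e.toLinearMap ∘ₗ f) = LinearMap.ker f := by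
      ext v
      rw [LinearMap.mem_ker, LinearMap.mem_ker]
      change e (f v) = 0 ↔ f v = 0
      rw [LinearEquiv.map_eq_zero_iff]
    rw [h1]
    exact hk

theorem SFI.prod_free {n : ℕ} {M C : Type} [AddCommGroup M] [Module R M] [Fintype C]
    [DecidableEq C] (h : SFI φ n M) : SFI φ n (M × (C → R)) := by
  cases n with
  | zero => exact SI.prod h SI.of_free
  | succ n =>
    obtain ⟨ι, _, f, hf, hk⟩ := h
    let F : (ι ⊕ C → R) →ₗ[R] (M × (C → R)) := (f ∘ₗ pl R).prod (prr R)
    have hF : ∀ v, F v = (f (v ∘ Sum.inl), v ∘ Sum.inr) := fun v => rfl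
    refine ⟨ι ⊕ C, inferInstance, F, ?_, ?_⟩
    · rintro ⟨m, v⟩
      obtain ⟨u, hu⟩ := hf m
      refine ⟨Sum.elim u v, ?_⟩
      rw [hF, Sum.elim_comp_inl, Sum.elim_comp_inr, hu]
    · let E : LinearMap.ker f ≃ₗ[R] LinearMap.ker F :=
        { toFun := fun z => ⟨Sum.elim (z : ι → R) 0, by
            rw [LinearMap.mem_ker, hF, Sum.elim_comp_inl, Sum.elim_comp_inr,
              LinearMap.mem_ker.1 z.2]; rfl⟩
          map_add' := by
            intro a b
            apply Subtype.ext
            funext i
            rcases i with i | i <;> simp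
          map_smul' := by
            intro a b
            apply Subtype.ext
            funext i
            rcases i with i | i <;> simp
          invFun := fun z => ⟨(z : ι ⊕ C → R) ∘ Sum.inl, by
            have h1 := LinearMap.mem_ker.1 z.2
            rw [hF] at h1
            exact congrArg Prod.fst h1⟩
          left_inv := fun z => rfl
          right_inv := by
            intro z
            apply Subtype.ext
            have h1 := LinearMap.mem_ker.1 z.2
            rw [hF] at h1
            have h2 : (z : ι ⊕ C → R) ∘ Sum.inr = 0 := congrArg Prod.snd h1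
            funext i
            rcases i with i | i
            · rfl
            · exact (congrFun h2 i).symm }
      exact SFI.iso E hk

/-- **Cancellation** -/
theorem SFI.diff (d : ℕ) : ∀ {A B P : Type} [AddCommGroup A] [Module R A] [AddCommGroup B]
    [Module R B] [AddCommGroup P] [Module R P] (_ : Module.Projective R P)
    (_ : SFI φ d A) (_ : SFI φ d B) (_ : B ≃ₗ[R] (A × P)), SI φ P := by
  classical
  induction d with
  | zero =>
    intro A B P _ _ _ _ _ _ hP hA hB e
    exact SI.of_prod hA (SI.iso e hB)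
  | succ d ih =>
    intro A B P _ _ _ _ _ _ hP hA hB e
    obtain ⟨ι, _, f, hf, hk⟩ := hA
    obtain ⟨κ, _, g, hg, hl⟩ := hB
    -- a cover of `A × P`
    let F : ((ι → R) × P) →ₗ[R] (A × P) := LinearMap.prodMap f LinearMap.id
    have hF : Function.Surjective F := by
      rintro ⟨a, p⟩
      obtain ⟨v, hv⟩ := hf a
      exact ⟨(v, p), Prod.ext hv rfl⟩
    let G : (κ → R) →ₗ[R] (A × P) := e.toLinearMap ∘ₗ g
    have hG : Function.Surjective G := e.surjective.comp hg
    obtain ⟨E⟩ := schanuel F G hF hG
    -- the kernels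
    have eF : LinearMap.ker f ≃ₗ[R] LinearMap.ker F :=
      { toFun := fun z => ⟨((z : ι → R), 0), Prod.ext (LinearMap.mem_ker.1 z.2) rfl⟩
        map_add' := fun a b => Subtype.ext (Prod.ext rfl (add_zero _).symm)
        map_smul' := fun r a => Subtype.ext (Prod.ext rfl (smul_zero _).symm)
        invFun := fun z => ⟨(z : (ι → R) × P).1, congrArg Prod.fst (LinearMap.mem_ker.1 z.2)⟩
        left_inv := fun _ => rfl
        right_inv := fun z => Subtype.ext (Prod.ext rfl
          (congrArg Prod.snd (LinearMap.mem_ker.1 z.2)).symm) }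
    have eG : LinearMap.ker G = LinearMap.ker g := by
      ext v
      rw [LinearMap.mem_ker, LinearMap.mem_ker]
      change e (g v) = 0 ↔ g v = 0
      rw [LinearEquiv.map_eq_zero_iff]
    -- ker f × R^κ ≅ ker g × R^ι × P
    have h1 : SFI φ d (LinearMap.ker f × (κ → R)) := hk.prod_free
    have h2 : SFI φ d (LinearMap.ker g × (ι → R)) := hl.prod_free
    refine ih hP h2 h1 ?_
    rw [eG] at E
    let E1 : (LinearMap.ker f × (κ → R)) ≃ₗ[R] (LinearMap.ker F × (κ → R)) :=
      LinearEquiv.prodCongr eF (LinearEquiv.refl R _)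
    exact (E1.trans E).trans (LinearEquiv.prodAssoc R (LinearMap.ker g) (ι → R) P).symm

end sfi

section lau

variable {S : Type} [Ring S]

theorem sfi_of_HR {d : ℕ} : ∀ {C D : Type} [Fintype C] {M : Matrix C D S} (_ : HR S d C D M),
    SFI (Cc S) (d + 1) (LinearMap.range (M.map (Cc S)).vecMulLinear) := by
  classical
  induction d with
  | zero =>
    intro C D _ M h
    obtain ⟨E, hE, h⟩ := h
    refine ⟨C, inferInstance, (M.map (Cc S)).vecMulLinear.rangeRestrict,
      LinearMap.surjective_rangeRestrict _, ?_⟩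
    have hE' : E.map (Cc S) * E.map (Cc S) = E.map (Cc S) := by rw [← Matrix.map_mul, hE]
    have h1 : LinearMap.ker (M.map (Cc S)).vecMulLinear.rangeRestrict = Mo (E.map (Cc S)) := by
      ext v
      rw [LinearMap.ker_rangeRestrict, LinearMap.mem_ker, mem_mo_iff hE']
      change v ᵥ* M.map (Cc S) = 0 ↔ _
      rw [row_C_zero_iff]
      constructor
      · intro h1
        apply cv_ext'
        intro n
        rw [cv_mul_C, (h _).1 (h1 n)]
      · intro h1 n
        rw [h, ← cv_mul_C, h1]
    rw [h1]
    exact ⟨C, inferInstance, inferInstance, E, hE, SE.refl _⟩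
  | succ d ih =>
    intro C D _ M h
    obtain ⟨B, _, N, hN, hN'⟩ := h
    refine ⟨C, inferInstance, (M.map (Cc S)).vecMulLinear.rangeRestrict,
      LinearMap.surjective_rangeRestrict _, ?_⟩
    have h1 : LinearMap.ker (M.map (Cc S)).vecMulLinear.rangeRestrict =
        LinearMap.range (N.map (Cc S)).vecMulLinear := by
      ext v
      rw [LinearMap.ker_rangeRestrict, LinearMap.mem_ker, LinearMap.mem_range]
      change v ᵥ* M.map (Cc S) = 0 ↔ ∃ u, u ᵥ* N.map (Cc S) = v
      rw [row_C_zero_iff]
      have h2 : (∃ u, u ᵥ* N.map (Cc S) = v) ↔ ∃ u, v = u ᵥ* N.map (Cc S) :=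
        ⟨fun ⟨u, hu⟩ => ⟨u, hu.symm⟩, fun ⟨u, hu⟩ => ⟨u, hu.symm⟩⟩
      rw [h2, row_C_range]
      exact forall_congr' fun n => hN _
    rw [h1]
    exact ih hN'

/-- **Projective modules over Laurent polynomial rings are stably induced** -/
theorem allSI_lau [IsNoetherianRing S] (hN : Nice S) : AllSI (Cc S) := by
  classical
  apply AllSI.of_mo
  intro n p hp
  obtain ⟨a, a', K, P, P', f, g, c1, c2, c3⟩ := syz_seq (Fin n) (Fin n) p
  obtain ⟨d₁, h₁⟩ := hN _ _ P
  obtain ⟨d₂, h₂⟩ := hN _ _ P'
  have H₁ := sfi_of_HR (h₁.mono (le_max_left d₁ d₂))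
  have H₂ := sfi_of_HR (h₂.mono (le_max_right d₁ d₂))
  have hproj : Module.Projective (Lau S) (LinearMap.range p.vecMulLinear) := mo_projective hp
  obtain ⟨s, hs⟩ := Module.projective_lifting_property (h := hproj) g LinearMap.id c2
  have hs' : ∀ v, g (s v) = v := fun v => LinearMap.congr_fun hs v
  refine SFI.diff _ hproj H₁ H₂ ?_
  -- the splitting
  let F := LinearMap.coprod f s
  have hF : ∀ x y, F (x, y) = f x + s y := fun x y => LinearMap.coprod_apply _ _ _
  have hgf : ∀ x, g (f x) = 0 := fun x => (c3 _).2 ⟨x, rfl⟩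
  refine (LinearEquiv.ofBijective F ⟨?_, ?_⟩).symm
  · rw [← LinearMap.ker_eq_bot, LinearMap.ker_eq_bot']
    rintro ⟨x, y⟩ h
    rw [hF] at h
    have h1 : y = 0 := by
      have h2 := congrArg g h
      rw [map_add, hgf, hs', zero_add, map_zero] at h2
      exact h2
    rw [h1, map_zero, add_zero] at h
    rw [h1]
    exact Prod.ext (c1 (h.trans (map_zero f).symm)) rfl
  · intro w
    obtain ⟨w', hw'⟩ := (c3 (w - s (g w))).1 (by rw [map_sub, hs', sub_self])
    refine ⟨(w', g w), ?_⟩
    rw [hF, hw']
    exact sub_add_cancel _ _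

end lau

end Pool.Agent.H1.KK
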