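import Pool.Agent.H1.KK.KFin

set_option autoImplicit false
set_option linter.unusedSectionVars false
set_option linter.unusedSimpArgs false

/-!
# Group rings of finite groups over regular rings
-/

namespace Pool.Agent.H1.KK

open Matrix TH57.Thr Pool.Agent.K4H37.MT Pool.Agent.H1.MV Pool.Agent.H1.MK

section noeth

variable {k : Type} [Ring k] {F : Type} [Group F]

theorem noeth_fin [Finite F] [IsNoetherianRing k] : IsNoetherianRing (MonoidAlgebra k F) := by
  have h1 : Module.Finite k (MonoidAlgebra k F) := inferInstance
  have h2 : IsNoetherian k (MonoidAlgebra k F) := isNoetherian_of_isNoetherianRing_of_finite k _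
  exact isNoetherian_of_tower k h2

end noeth

section rs

variable {k : Type} [Ring k] {F : Type} [Group F]

/-- restriction of scalars -/
def Rs (_k : Type) [Ring _k] (_F : Type) [Group _F] (M : Type) : Type := M

variable {M N : Type} [AddCommGroup M] [AddCommGroup N] [Module (MonoidAlgebra k F) M]
  [Module (MonoidAlgebra k F) N]

/-- the identity map -/
def tr (k : Type) [Ring k] (F : Type) [Group F] {M : Type} (m : M) : Rs k F M := m

/-- the identity map -/
def fr {k : Type} [Ring k] {F : Type} [Group F] {M : Type} (m : Rs k F M) : M := m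

noncomputable instance : AddCommGroup (Rs k F M) := inferInstanceAs (AddCommGroup M)

noncomputable instance : Module k (Rs k F M) := Module.compHom M (io k F)

theorem fr_smul (c : k) (m : Rs k F M) : fr (c • m) = io k F c • fr m := rfl

theorem fr_add (m m' : Rs k F M) : fr (m + m') = fr m + fr m' := rfl

theorem fr_tr (m : M) : fr (tr k F m) = m := rfl

theorem fr_sum {ι : Type} (s : Finset ι) (f : ι → Rs k F M) :
    fr (∑ i ∈ s, f i) = ∑ i ∈ s, fr (f i) := by
  classical
  induction s using Finset.induction_on with
  | empty => rfl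
  | insert a s ha ih => rw [Finset.sum_insert ha, Finset.sum_insert ha, fr_add, ih]

/-- restriction of scalars for linear maps -/
noncomputable def rsm (f : M →ₗ[MonoidAlgebra k F] N) : Rs k F M →ₗ[k] Rs k F N where
  toFun m := tr k F (f (fr m))
  map_add' x y := map_add f (fr x) (fr y)
  map_smul' c x := map_smul f (io k F c) (fr x)

/-- finite generation -/
theorem finite_of_rs (h : Module.Finite k (Rs k F M)) : Module.Finite (MonoidAlgebra k F) M := by
  obtain ⟨n, f, hf⟩ := Module.Finite.exists_fin' k (Rs k F M)
  let g : (Fin n → MonoidAlgebra k F) →ₗ[MonoidAlgebra k F] M :=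
    Fintype.linearCombination (MonoidAlgebra k F) (fun i => fr (f (Pi.single i 1)))
  have hg : ∀ v, g v = ∑ i, v i • fr (f (Pi.single i 1)) := fun v =>
    Fintype.linearCombination_apply _ _ _
  apply Module.Finite.of_surjective g
  intro m
  obtain ⟨v, hv⟩ := hf (tr k F m)
  refine ⟨fun i => io k F (v i), ?_⟩
  rw [hg]
  have h1 : f v = ∑ i, v i • f (Pi.single i 1) := by
    conv_lhs => rw [pi_eq_sum_univ' v]
    rw [map_sum]
    apply Finset.sum_congr rfl
    intro i _
    rw [← map_smul]
  rw [h1] at hv
  rw [← fr_tr (k := k) (F := F) m, ← hv, fr_sum]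
  rfl

/-- the elements of the group -/
noncomputable def el (k : Type) [Ring k] {F : Type} [Group F] (g : F) : MonoidAlgebra k F :=
  MonoidAlgebra.single g 1

theorem el_mul (g h : F) : el k g * el k h = el k (g * h) := by
  unfold el
  rw [MonoidAlgebra.single_mul_single, one_mul]

theorem el_one : el k (1 : F) = 1 := rfl

theorem el_io (g : F) (c : k) : el k g * io k F c = MonoidAlgebra.single g c := by
  unfold el
  rw [io_apply, MonoidAlgebra.single_mul_single, mul_one, one_mul]

theorem io_el (g : F) (c : k) : io k F c * el k g = MonoidAlgebra.single g c := by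
  unfold el
  rw [io_apply, MonoidAlgebra.single_mul_single, mul_one, one_mul]

/-- **Averaging** -/
theorem proj_of_rs [Fintype F] (u : k) (hu : (Fintype.card F : k) * u = 1)
    (huc : ∀ c : k, c * u = u * c) (hf : Module.Finite k (Rs k F M))
    (h : Module.Projective k (Rs k F M)) : Module.Projective (MonoidAlgebra k F) M := by
  have h0 := finite_of_rs hf
  obtain ⟨n, π, hπ⟩ := Module.Finite.exists_fin' (MonoidAlgebra k F) M
  have hπ' : Function.Surjective (rsm π) := hπ
  obtain ⟨s₀, hs⟩ := Module.projective_lifting_property (rsm π) LinearMap.id hπ'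
  obtain ⟨s, hs0⟩ : ∃ s : M → (Fin n → MonoidAlgebra k F), ∀ m, s m = fr (s₀ (tr k F m)) :=
    ⟨_, fun _ => rfl⟩
  have hs' : ∀ m : M, π (s m) = m := by
    intro m
    rw [hs0]
    exact LinearMap.congr_fun hs (tr k F m)
  have hsl : ∀ (c : k) (m : M), s (io k F c • m) = io k F c • s m := by
    intro c m
    rw [hs0, hs0]
    exact map_smul s₀ c (tr k F m)
  have hsa : ∀ (m m' : M), s (m + m') = s m + s m' := by
    intro m m'
    rw [hs0, hs0, hs0]
    exact map_add s₀ (tr k F m) (tr k F m')
  obtain ⟨a, ha⟩ : ∃ a : M → (Fin n → MonoidAlgebra k F), ∀ m,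
    a m = ∑ g : F, io k F u • el k g • s (el k g⁻¹ • m) := ⟨_, fun _ => rfl⟩
  have hadd : ∀ m m', a (m + m') = a m + a m' := by
    intro m m'
    rw [ha, ha, ha, ← Finset.sum_add_distrib]
    apply Finset.sum_congr rfl
    intro g _
    rw [smul_add, hsa, smul_add, smul_add]
  have hzero : a 0 = 0 := by
    have := hadd 0 0
    rw [add_zero] at this
    exact left_eq_add.1 this
  have hsmul : ∀ (r : MonoidAlgebra k F) m, a (r • m) = r • a m := by
    intro r m
    induction r using MonoidAlgebra.induction_linear with
    | zero => rw [zero_smul, zero_smul, hzero]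
    | add f g hf hg => rw [add_smul, add_smul, hadd, hf, hg]
    | single h c =>
      rw [ha, ha, Finset.smul_sum]
      refine Fintype.sum_equiv (Equiv.mulLeft h⁻¹) _ _ ?_
      intro g
      rw [Equiv.coe_mulLeft]
      have e1 : el k g⁻¹ • (MonoidAlgebra.single h c : MonoidAlgebra k F) • m =
          (io k F c • (el k (h⁻¹ * g)⁻¹ • m) : M) := by
        rw [smul_smul, smul_smul]
        congr 1
        rw [io_el, ← el_io, ← mul_assoc, el_mul, _root_.mul_inv_rev, inv_inv, el_io]
      rw [e1, hsl, smul_smul, smul_smul, smul_smul, smul_smul]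
      congr 1
      have e2 : (MonoidAlgebra.single h c : MonoidAlgebra k F) * io k F u =
          io k F u * MonoidAlgebra.single h c := by
        rw [io_apply, MonoidAlgebra.single_mul_single, MonoidAlgebra.single_mul_single, mul_one,
          one_mul, huc]
      rw [e2, mul_assoc, mul_assoc]
      congr 1
      rw [el_io, el, MonoidAlgebra.single_mul_single, mul_one]
      congr 1
      change g = h * (h⁻¹ * g)
      group
  let A : M →ₗ[MonoidAlgebra k F] (Fin n → MonoidAlgebra k F) :=
    { toFun := a
      map_add' := hadd
      map_smul' := hsmul }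
  refine Module.Projective.of_split A π ?_
  apply LinearMap.ext
  intro m
  change π (a m) = m
  rw [ha, map_sum]
  have h1 : ∀ g : F, π (io k F u • el k g • s (el k g⁻¹ • m)) = io k F u • m := by
    intro g
    rw [map_smul, map_smul, hs', smul_smul (el k g), el_mul, mul_inv_cancel, el_one, one_smul]
  rw [Finset.sum_congr rfl fun g _ => h1 g, Finset.sum_const, Finset.card_univ,
    ← Nat.cast_smul_eq_nsmul (MonoidAlgebra k F), smul_smul]
  have h2 : ((Fintype.card F : ℕ) : MonoidAlgebra k F) = io k F (Fintype.card F : k) :=
    (map_natCast (io k F) _).symm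
  rw [h2, ← map_mul, hu, map_one, one_smul]

/-- the free modules -/
noncomputable def freeRs (k : Type) [Ring k] (F : Type) [Group F] [Fintype F] (m : ℕ) :
    (Fin m × F → k) ≃ₗ[k] Rs k F (Fin m → MonoidAlgebra k F) :=
  LinearEquiv.symm
    { toFun := fun x p => (fr x p.1).coeff p.2
      map_add' := fun x y => rfl
      map_smul' := by
        intro c x
        funext p
        change (io k F c * fr x p.1).coeff p.2 = _
        rw [io_apply, MonoidAlgebra.coeff_single_one_mul]
        rfl
      invFun := fun v => tr k F fun i =>
        MonoidAlgebra.ofCoeff (Finsupp.equivFunOnFinite.symm fun g => v (i, g))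
      left_inv := by
        intro x
        funext i
        apply MonoidAlgebra.coeff_injective
        ext g
        rfl
      right_inv := by
        intro v
        funext p
        rfl }

/-- finite resolutions -/
theorem fpd_of_rs [Fintype F] (u : k) (hu : (Fintype.card F : k) * u = 1)
    (huc : ∀ c : k, c * u = u * c) (n : ℕ) : ∀ (M : Type) [AddCommGroup M]
    [Module (MonoidAlgebra k F) M] (_ : FPD k n (Rs k F M)), FPD (MonoidAlgebra k F) n M := by
  induction n with
  | zero =>
    intro M _ _ h
    exact ⟨finite_of_rs h.1, proj_of_rs u hu huc h.1 h.2⟩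
  | succ n ih =>
    intro M _ _ h
    have h0 := finite_of_rs h.finite
    obtain ⟨m, g, hg⟩ := Module.Finite.exists_fin' (MonoidAlgebra k F) M
    refine ⟨Fin m, inferInstance, g, hg, ?_⟩
    apply ih
    let e := freeRs k F m
    have h1 : FPD k n (LinearMap.ker (rsm g ∘ₗ e.toLinearMap)) :=
      h.schanuel _ ((show Function.Surjective (rsm g) from hg).comp e.surjective)
    let E : LinearMap.ker (rsm g ∘ₗ e.toLinearMap) ≃ₗ[k] Rs k F (LinearMap.ker g) :=
      { toFun := fun x => tr k F (⟨fr (e (x : Fin m × F → k)), x.2⟩ : LinearMap.ker g)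
        map_add' := by
          intro x y
          apply Subtype.ext
          exact map_add e _ _
        map_smul' := by
          intro c x
          apply Subtype.ext
          exact map_smul e c _
        invFun := fun x => ⟨e.symm (tr k F ((fr x : LinearMap.ker g) : Fin m → MonoidAlgebra k F)), by
          rw [LinearMap.mem_ker]
          change rsm g (e (e.symm _)) = 0
          rw [LinearEquiv.apply_symm_apply]
          exact (fr x : LinearMap.ker g).2⟩
        left_inv := by
          intro x
          apply Subtype.ext
          exact e.symm_apply_apply _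
        right_inv := by
          intro x
          apply Subtype.ext
          exact e.apply_symm_apply _ }
    exact h1.iso E

/-- **Group rings of finite groups** -/
theorem reg_fin [Finite F] (h : Reg k) (hu : IsUnit ((Nat.card F : ℕ) : k)) :
    Reg (MonoidAlgebra k F) := by
  have := Fintype.ofFinite F
  have i1 := h.noeth
  rw [Nat.card_eq_fintype_card] at hu
  obtain ⟨w, hw⟩ := hu
  have hu1 : (Fintype.card F : k) * (w⁻¹).val = 1 := by rw [← hw, Units.mul_inv]
  have huc : ∀ c : k, c * (w⁻¹).val = (w⁻¹).val * c := by
    intro c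
    have h1 : Commute c w.val := by
      rw [hw]
      exact Nat.commute_cast c _
    exact h1.units_inv_right
  refine ⟨noeth_fin, nice_of_fpd ?_⟩
  intro M _ _ _
  have h2 : Module.Finite k (Rs k F M) := by
    obtain ⟨m, g, hg⟩ := Module.Finite.exists_fin' (MonoidAlgebra k F) M
    exact Module.Finite.of_surjective (rsm g ∘ₗ (freeRs k F m).toLinearMap)
      ((show Function.Surjective (rsm g) from hg).comp (freeRs k F m).surjective)
  obtain ⟨n, hn⟩ := fpd_of_nice h.nice (Rs k F M)
  exact ⟨n, fpd_of_rs _ hu1 huc n M hn⟩

end rs

end Pool.Agent.H1.KK
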