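import Pool.Agent.H1.KK.Ki
import Pool.Agent.H1.MV.NilN
import Pool.Agent.H1.MV.Mem

set_option autoImplicit false
set_option linter.unusedSectionVars false
set_option linter.unusedSimpArgs false

/-!
# Nilpotent located matrices: factorisation
-/

namespace Pool.Agent.H1.KK

open Matrix TH57.Thr Pool.Agent.K4H37.MT Pool.Agent.H1.MV

section ht

variable {k : Type} [Ring k] {G : Type} [Group G]

/-- all invertible matrices over the group ring of a subgroup are in the system -/
def HK (N : KI (MonoidAlgebra k G)) (S : Subgroup G) : Prop :=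
  ∀ (J : Type) [Fintype J] [DecidableEq J] (z : (Matrix J J (MonoidAlgebra k G))ˣ),
    SpIn S z.val → SpIn S (z⁻¹).val → N.car J z

variable {N : KI (MonoidAlgebra k G)}

theorem HK.anti {S S' : Subgroup G} (h : S ≤ S') (h' : HK N S') : HK N S :=
  fun J _ _ z h1 h2 => h' J z (fun i j g hg => h (h1 i j g hg)) (fun i j g hg => h (h2 i j g hg))

theorem HK.tr {J : Type} [Fintype J] [DecidableEq J] {S : Subgroup G}
    (h : HK N S) {M : Matrix J J (MonoidAlgebra k G)} (hM : SpIn S M) {n : ℕ}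
    (hn : M ^ n = 0) : N.Tr (1 + M) :=
  ⟨nunit M n hn, rfl, h J _ (SpIn.one.add hM)
    (SpIn.sum _ _ (fun i _ => hM.neg.pow i))⟩

variable {Y : Type} [MulAction G Y] {J : Type} [Fintype J] [DecidableEq J] {σ : J → Y}

theorem tr_type {p₀ q₀ : Y} {M : Matrix J J (MonoidAlgebra k G)}
    (hM : Ty σ σ (fun q p => ∃ g : G, q = g • q₀ ∧ p = g • p₀) M) {n : ℕ} (hn : M ^ n = 0)
    (hloop : ∀ h : G, h • q₀ = p₀ →
      HK N (Subgroup.closure ((MulAction.stabilizer G p₀ : Set G) ∪ {h}))) :
    N.Tr (1 + M) := by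
  classical
  by_cases hex : ∃ h : G, h • q₀ = p₀
  · obtain ⟨h, hh⟩ := hex
    have hc : ∀ j, ∃ c : G, (∃ g : G, σ j = g • p₀) → c • p₀ = σ j := by
      intro j
      by_cases h1 : ∃ g : G, σ j = g • p₀
      · obtain ⟨g, hg⟩ := h1
        exact ⟨g, fun _ => hg.symm⟩
      · exact ⟨1, fun h2 => absurd h2 h1⟩
    choose c hc using hc
    apply KI.Tr.conj (dg k c)
    have hinv : GInv G (fun (q p : Y) => ∃ g : G, q = g • q₀ ∧ p = g • p₀) := by
      rintro u q p ⟨g, h1, h2⟩
      exact ⟨u * g, by rw [h1, mul_smul], by rw [h2, mul_smul]⟩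
    have h1 : Ty (fun j => (c j)⁻¹ • σ j) (fun j => (c j)⁻¹ • σ j)
        (fun q p => ∃ g : G, q = g • q₀ ∧ p = g • p₀) ((dg k c)⁻¹.val * M * (dg k c).val) := by
      have h2 := (hM.dg_left (fun j => (c j)⁻¹)).dg_right hinv c
      rw [dg_inv]
      exact h2
    have h2 : ∀ m : ℕ, ((dg k c)⁻¹.val * M * (dg k c).val) ^ m
        = (dg k c)⁻¹.val * M ^ m * (dg k c).val := by
      intro m
      induction m with
      | zero => simp
      | succ m ih =>
        rw [pow_succ, ih, pow_succ]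
        calc _ = (dg k c)⁻¹.val * M ^ m * ((dg k c).val * (dg k c)⁻¹.val) * M * (dg k c).val := by
              simp only [mul_assoc]
          _ = _ := by rw [Units.mul_inv, mul_one]; simp only [mul_assoc]
    refine (hloop h hh).tr (n := n) ?_ (by rw [h2, hn, mul_zero, zero_mul])
    intro i j g hg
    obtain ⟨v, hv1, hv2⟩ := h1 i j g hg
    beta_reduce at hv1 hv2
    have hj : (c j)⁻¹ • σ j = p₀ := by
      have : ∃ g : G, σ j = g • p₀ := ⟨c j * v, by rw [mul_smul, ← hv2, smul_inv_smul]⟩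
      rw [← hc j this, inv_smul_smul]
    have hi : (c i)⁻¹ • σ i = p₀ := by
      have : ∃ g : G, σ i = g • p₀ := by
        refine ⟨c i * g * v * h⁻¹, ?_⟩
        rw [mul_smul, mul_smul, mul_smul, ← hh, inv_smul_smul, ← hv1, smul_inv_smul,
          smul_inv_smul]
      rw [← hc i this, inv_smul_smul]
    rw [hj] at hv2
    rw [hi] at hv1
    have e1 : v ∈ MulAction.stabilizer G p₀ := hv2.symm
    have e2 : g * v * h⁻¹ ∈ MulAction.stabilizer G p₀ := by
      change (g * v * h⁻¹) • p₀ = p₀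
      rw [mul_smul, mul_smul]
      nth_rewrite 1 [← hh]
      rw [inv_smul_smul, ← hv1, smul_inv_smul]
    have e3 : g = g * v * h⁻¹ * h * v⁻¹ := by group
    rw [e3]
    refine mul_mem (mul_mem ?_ ?_) (inv_mem ?_)
    · exact Subgroup.subset_closure (Or.inl e2)
    · exact Subgroup.subset_closure (Or.inr rfl)
    · exact Subgroup.subset_closure (Or.inl e1)
  · apply KI.Tr.of_triv
    apply triv_unip M (fun j => if ∃ g : G, σ j = g • q₀ then 1 else 0)
    intro i j hij
    have h1 : ∃ g, (M i j).coeff g ≠ 0 := by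
      by_contra hcon
      push Not at hcon
      apply hij
      apply MonoidAlgebra.coeff_injective
      ext g
      rw [hcon g]; simp
    obtain ⟨g, hg⟩ := h1
    obtain ⟨u, hu1, hu2⟩ := hM i j g hg
    have h2 : ∃ g : G, σ i = g • q₀ := ⟨g * u, by rw [mul_smul, ← hu1, smul_inv_smul]⟩
    have h3 : ¬ ∃ g : G, σ j = g • q₀ := by
      rintro ⟨v, hv⟩
      apply hex
      refine ⟨u⁻¹ * v, ?_⟩
      rw [mul_smul, ← hv, hu2, inv_smul_smul]
    rw [if_pos h2, if_neg h3]
    exact Nat.one_pos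

end ht

section span

variable {k : Type} [Ring k] {G : Type} [Group G] {Y : Type} [MulAction G Y]
  {J : Type} [Fintype J] [DecidableEq J] {σ : J → Y} {r : Y → Y → Prop}
  {x : Matrix J J (MonoidAlgebra k G)}

/-- the part of a matrix over one orbit of pairs -/
noncomputable def ro (σ : J → Y) (α : Om G Y) (M : Matrix J J (MonoidAlgebra k G)) :
    Matrix J J (MonoidAlgebra k G) := MV.res σ σ (fun q p => om G q p = α) M

/-- the orbits of pairs which start in `P` -/
def Sta (P : Y → Prop) (α : Om G Y) : Prop := ∃ q p : Y, om G q p = α ∧ P p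

/-- the additive group generated by the parts of the powers -/
noncomputable def SS (σ : J → Y) (x : Matrix J J (MonoidAlgebra k G)) (P : Y → Prop) (μ : ℕ) :
    AddSubgroup (Matrix J J (MonoidAlgebra k G)) :=
  AddSubgroup.closure {M | ∃ (l : ℕ) (α : Om G Y), μ ≤ l ∧ Sta P α ∧ M = ro σ α (x ^ l)}

theorem SS.mono {P : Y → Prop} {μ ν : ℕ} (h : μ ≤ ν) : SS σ x P ν ≤ SS σ x P μ := by
  apply AddSubgroup.closure_mono
  rintro M ⟨l, α, h1, h2, h3⟩
  exact ⟨l, α, h.trans h1, h2, h3⟩

theorem SS.gen {P : Y → Prop} {l : ℕ} {α : Om G Y} (h : Sta P α) :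
    ro σ α (x ^ l) ∈ SS σ x P l :=
  AddSubgroup.subset_closure ⟨l, α, le_rfl, h, rfl⟩

theorem SS.zero_of {P : Y → Prop} {n ν : ℕ} (hn : x ^ n = 0) (hν : n ≤ ν)
    {M : Matrix J J (MonoidAlgebra k G)} (h : M ∈ SS σ x P ν) : M = 0 := by
  have h1 : SS σ x P ν ≤ ⊥ := by
    unfold SS
    rw [AddSubgroup.closure_le]
    rintro M ⟨l, α, h1, h2, rfl⟩
    rw [pow_eq_zero_of_le (hν.trans h1) hn]
    exact res_none (ρ' := fun _ _ => False) Ty.zero (fun _ _ _ h => h)
  exact (AddSubgroup.mem_bot).1 (h1 h)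

/-- decomposition of a part into the orbits -/
theorem res_mem {P : Y → Prop} {l : ℕ} (ρ : Y → Y → Prop) (hρ : GInv G ρ)
    (hP : ∀ q p, ρ q p → P p) : MV.res σ σ ρ (x ^ l) ∈ SS σ x P l := by
  classical
  let A : Finset (Om G Y) := ((Finset.univ : Finset (J × ↥(suppF (x ^ l)) × J)).image
    fun a => om G (a.2.1.1⁻¹ • σ a.1) (σ a.2.2)).filter fun α => ∃ q p, om G q p = α ∧ ρ q p
  have hinv : ∀ q p q' p', om G q p = om G q' p' → ρ q p → ρ q' p' := by
    intro q p q' p' h1 h2
    obtain ⟨g, h3, h4⟩ := om_eq h1.symm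
    rw [h3, h4]
    exact hρ g _ _ h2
  have hsum : MV.res σ σ ρ (x ^ l) = ∑ α ∈ A, ro σ α (x ^ l) := by
    ext1 i j
    apply MonoidAlgebra.coeff_injective
    ext g
    rw [Matrix.sum_apply, MonoidAlgebra.coeff_sum, Finsupp.finsetSum_apply, res_coeff]
    by_cases hg : ((x ^ l) i j).coeff g = 0
    · rw [hg, ite_self]
      symm
      apply Finset.sum_eq_zero
      intro α _
      unfold ro
      rw [res_coeff, hg, ite_self]
    · by_cases hr : ρ (g⁻¹ • σ i) (σ j)
      · rw [if_pos hr]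
        have hmem : om G (g⁻¹ • σ i) (σ j) ∈ A := by
          refine Finset.mem_filter.2 ⟨Finset.mem_image.2 ⟨(i, ⟨g, mem_suppF hg⟩, j),
            Finset.mem_univ _, rfl⟩, _, _, rfl, hr⟩
        rw [Finset.sum_eq_single _ ?_ (fun h => absurd hmem h)]
        · unfold ro
          rw [res_coeff, if_pos rfl]
        · intro α _ hα
          unfold ro
          rw [res_coeff, if_neg (fun h => hα h.symm)]
      · rw [if_neg hr]
        symm
        apply Finset.sum_eq_zero
        intro α hα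
        unfold ro
        rw [res_coeff, if_neg]
        intro h
        obtain ⟨q, p, h1, h2⟩ := (Finset.mem_filter.1 hα).2
        exact hr (hinv _ _ _ _ (h1.trans h.symm) h2)
  rw [hsum]
  apply AddSubgroup.sum_mem
  intro α hα
  obtain ⟨q, p, h1, h2⟩ := (Finset.mem_filter.1 hα).2
  exact SS.gen ⟨q, p, h1, hP q p h2⟩

/-- products of parts -/
theorem ro_mul (hr : ∀ (g : G) p q, r p q → r (g • p) (g • q)) (hD : Det r)
    (hx : Ty σ σ (fun q p => r p q) x) {Q : Y → Prop} (hQ : ∀ (g : G) p, Q p → Q (g • p))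
    {l m : ℕ} {α β : Om G Y} (hβ : Sta Q β) :
    ro σ α (x ^ l) * ro σ β (x ^ m) ∈ SS σ x Q (l + m) := by
  have hl : Ty σ σ (fun q p => Path r l p q) (x ^ l) := hx.pow hr l
  have hm : Ty σ σ (fun q p => Path r m p q) (x ^ m) := hx.pow hr m
  let ρ : Y → Y → Prop := fun q p => ∃ s, (om G q s = α ∧ Path r l s q) ∧
    (om G s p = β ∧ Path r m p s)
  have hρ : GInv G ρ := by
    rintro g q p ⟨s, ⟨h1, h2⟩, h3, h4⟩
    exact ⟨g • s, ⟨by rw [om_smul]; exact h1, h2.smul hr g⟩, by rw [om_smul]; exact h3,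
      h4.smul hr g⟩
  have hg1 : GInv G (fun q s : Y => om G q s = α ∧ Path r l s q) := by
    rintro g q s ⟨h1, h2⟩
    exact ⟨by rw [om_smul]; exact h1, h2.smul hr g⟩
  have hg2 : GInv G (fun q s : Y => ¬ om G q s = α ∧ Path r l s q) := by
    rintro g q s ⟨h1, h2⟩
    exact ⟨by rw [om_smul]; exact h1, h2.smul hr g⟩
  -- the point in the middle is determined
  have hmid : ∀ {q p s s' : Y}, Path r l s q → Path r m p s → Path r l s' q → Path r m p s' →
      s = s' := by
    rintro q p s s' ⟨f, f0, fl, fs⟩ ⟨f', f0', fl', fs'⟩ ⟨u, u0, ul, us⟩ ⟨u', u0', ul', us'⟩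
    have h1 := hD (m + l) (fun i => if i ≤ m then f' i else f (i - m))
      (fun i => if i ≤ m then u' i else u (i - m)) (by
        intro i hi
        beta_reduce
        rcases Nat.lt_trichotomy i m with h | h | h
        · rw [if_pos (by omega), if_pos (by omega)]
          exact fs' i h
        · subst h
          rw [if_pos le_rfl, if_neg (by omega), fl', ← f0, show i + 1 - i = 0 + 1 by omega]
          exact fs 0 (by omega)
        · rw [if_neg (by omega), if_neg (by omega), show i + 1 - m = (i - m) + 1 by omega]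
          exact fs (i - m) (by omega)) (by
        intro i hi
        beta_reduce
        rcases Nat.lt_trichotomy i m with h | h | h
        · rw [if_pos (by omega), if_pos (by omega)]
          exact us' i h
        · subst h
          rw [if_pos le_rfl, if_neg (by omega), ul', ← u0, show i + 1 - i = 0 + 1 by omega]
          exact us 0 (by omega)
        · rw [if_neg (by omega), if_neg (by omega), show i + 1 - m = (i - m) + 1 by omega]
          exact us (i - m) (by omega)) (by
        beta_reduce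
        rw [if_pos (Nat.zero_le _), if_pos (Nat.zero_le _), f0', u0']) (by
        beta_reduce
        rcases Nat.eq_zero_or_pos l with h | h
        · subst h
          rw [if_pos (by omega), if_pos (by omega), add_zero, fl', ul', ← f0, ← u0, fl, ul]
        · rw [if_neg (by omega), if_neg (by omega), show m + l - m = l by omega, fl, ul])
      m (by omega)
    beta_reduce at h1
    rw [if_pos le_rfl, if_pos le_rfl, fl', ul'] at h1
    exact h1
  have tN : Ty σ σ (fun q s => om G q s = α ∧ Path r l s q) (ro σ α (x ^ l)) := Ty.res_of hl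
  have tN' : Ty σ σ (fun q s => ¬ om G q s = α ∧ Path r l s q)
      (MV.res σ σ (fun q p => ¬ om G q p = α) (x ^ l)) := Ty.res_of hl
  have tA : Ty σ σ (fun q p => om G q p = β ∧ Path r m p q) (ro σ β (x ^ m)) := Ty.res_of hm
  have tB : Ty σ σ (fun q p => ¬ om G q p = β ∧ Path r m p q)
      (MV.res σ σ (fun q p => ¬ om G q p = β) (x ^ m)) := Ty.res_of hm
  have e1 : x ^ l * x ^ m = ro σ α (x ^ l) * ro σ β (x ^ m) +
      (ro σ α (x ^ l) * MV.res σ σ (fun q p => ¬ om G q p = β) (x ^ m) +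
      MV.res σ σ (fun q p => ¬ om G q p = α) (x ^ l) * x ^ m) := by
    unfold ro
    rw [← add_assoc, ← mul_add, res_add_not, ← add_mul, res_add_not]
  have d1 : Ty σ σ ρ (ro σ α (x ^ l) * ro σ β (x ^ m)) :=
    tN.mul tA hg1 (fun q s p h1 h2 => ⟨s, h1, h2⟩)
  have d2 : Ty σ σ (fun q p => ¬ ρ q p)
      (ro σ α (x ^ l) * MV.res σ σ (fun q p => ¬ om G q p = β) (x ^ m)) := by
    refine tN.mul tB hg1 ?_
    rintro q s p ⟨h1, h2⟩ ⟨h3, h4⟩ ⟨s', ⟨h5, h6⟩, h7, h8⟩
    have h9 : s = s' := hmid h2 h4 h6 h8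
    rw [h9] at h3
    exact h3 h7
  have d3 : Ty σ σ (fun q p => ¬ ρ q p)
      (MV.res σ σ (fun q p => ¬ om G q p = α) (x ^ l) * x ^ m) := by
    refine tN'.mul hm hg2 ?_
    rintro q s p ⟨h1, h2⟩ h4 ⟨s', ⟨h5, h6⟩, h7, h8⟩
    have h9 : s = s' := hmid h2 h4 h6 h8
    rw [h9] at h1
    exact h1 h5
  have e2 : ro σ α (x ^ l) * ro σ β (x ^ m) = MV.res σ σ ρ (x ^ (l + m)) := by
    rw [pow_add, e1, res_add', res_eq d1, res_none (d2.add d3) (fun q p h h' => h' h), add_zero]
  rw [e2]
  apply res_mem ρ hρ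
  rintro q p ⟨s, _, h3, _⟩
  obtain ⟨q', p', h4, h5⟩ := hβ
  obtain ⟨g, _, h6⟩ := om_eq (h3.trans h4.symm)
  rw [h6]
  exact hQ g _ h5

theorem SS.mul (hr : ∀ (g : G) p q, r p q → r (g • p) (g • q)) (hD : Det r)
    (hx : Ty σ σ (fun q p => r p q) x) {P Q : Y → Prop} (hQ : ∀ (g : G) p, Q p → Q (g • p))
    {μ ν : ℕ} {M M' : Matrix J J (MonoidAlgebra k G)} (h : M ∈ SS σ x P μ)
    (h' : M' ∈ SS σ x Q ν) : M * M' ∈ SS σ x Q (μ + ν) := by
  induction h using AddSubgroup.closure_induction with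
  | mem M hM =>
    obtain ⟨l, α, hl, hα, rfl⟩ := hM
    induction h' using AddSubgroup.closure_induction with
    | mem M' hM' =>
      obtain ⟨m, β, hm, hβ, rfl⟩ := hM'
      exact SS.mono (by omega) (ro_mul hr hD hx hQ hβ)
    | zero => rw [Matrix.mul_zero]; exact zero_mem _
    | add A B _ _ hA hB => rw [Matrix.mul_add]; exact add_mem hA hB
    | neg A _ hA => rw [Matrix.mul_neg]; exact neg_mem hA
  | zero => rw [Matrix.zero_mul]; exact zero_mem _
  | add A B _ _ hA hB => rw [Matrix.add_mul]; exact add_mem hA hB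
  | neg A _ hA => rw [Matrix.neg_mul]; exact neg_mem hA

theorem SS.pow (hr : ∀ (g : G) p q, r p q → r (g • p) (g • q)) (hD : Det r)
    (hx : Ty σ σ (fun q p => r p q) x) {P : Y → Prop} (hP : ∀ (g : G) p, P p → P (g • p))
    {μ : ℕ} {M : Matrix J J (MonoidAlgebra k G)} (h : M ∈ SS σ x P μ) (i : ℕ) :
    M ^ (i + 1) ∈ SS σ x P ((i + 1) * μ) := by
  induction i with
  | zero => rw [zero_add, pow_one, one_mul]; exact h
  | succ i ih =>
    rw [pow_succ, Nat.succ_mul]
    exact SS.mul hr hD hx hP ih h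

theorem SS.nil (hr : ∀ (g : G) p q, r p q → r (g • p) (g • q)) (hD : Det r)
    (hx : Ty σ σ (fun q p => r p q) x) {P : Y → Prop} (hP : ∀ (g : G) p, P p → P (g • p))
    {n μ : ℕ} (hn : x ^ n = 0) (hμ : 0 < μ) {M : Matrix J J (MonoidAlgebra k G)}
    (h : M ∈ SS σ x P μ) : M ^ (n + 1) = 0 := by
  refine SS.zero_of (P := P) hn ?_ (SS.pow hr hD hx hP h n)
  exact (Nat.le_succ n).trans (Nat.le_mul_of_pos_right _ hμ)

/-- the geometric series -/
theorem SS.series (hr : ∀ (g : G) p q, r p q → r (g • p) (g • q)) (hD : Det r)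
    (hx : Ty σ σ (fun q p => r p q) x) {P Q : Y → Prop} (hP : ∀ (g : G) p, P p → P (g • p))
    (hQ : ∀ (g : G) p, Q p → Q (g • p)) {μ ν : ℕ} {a M : Matrix J J (MonoidAlgebra k G)}
    (ha : a ∈ SS σ x P μ) (hM : M ∈ SS σ x Q ν) (m : ℕ) :
    ∃ M' ∈ SS σ x Q (μ + ν), (∑ i ∈ Finset.range (m + 1), (-a) ^ i) * M = M + M' := by
  rw [Finset.sum_range_succ', pow_zero, add_mul, one_mul]
  refine ⟨(∑ i ∈ Finset.range m, (-a) ^ (i + 1)) * M, ?_, by rw [add_comm]⟩
  rw [Finset.sum_mul]
  apply AddSubgroup.sum_mem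
  intro i _
  have h1 : (-a) ^ (i + 1) ∈ SS σ x P ((i + 1) * μ) := SS.pow hr hD hx hP (neg_mem ha) i
  refine SS.mono ?_ (SS.mul hr hD hx hQ h1 hM)
  have h2 : μ ≤ (i + 1) * μ := Nat.le_mul_of_pos_left μ (Nat.succ_pos i)
  exact Nat.add_le_add_right h2 ν

end span

section mix

variable {k : Type} [Ring k] {G : Type} [Group G] {Y : Type} [MulAction G Y]
  {J : Type} [Fintype J] [DecidableEq J] {σ : J → Y} {r : Y → Y → Prop}
  {x : Matrix J J (MonoidAlgebra k G)} {N : KI (MonoidAlgebra k G)}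

/-- a single letter -/
theorem tr_ro (hr : ∀ (g : G) p q, r p q → r (g • p) (g • q)) (hD : Det r)
    (hx : Ty σ σ (fun q p => r p q) x) {P : Y → Prop} (hP : ∀ (g : G) p, P p → P (g • p))
    {n : ℕ} (hn : x ^ n = 0)
    (hloop : ∀ j, P (σ j) → ∀ (q : Y) (h : G) (d : ℕ), 0 < d → d < n → Path r d (σ j) q →
      h • q = σ j → HK N (Subgroup.closure ((MulAction.stabilizer G (σ j) : Set G) ∪ {h})))
    {l : ℕ} (hl : 0 < l) {α : Om G Y} (hα : Sta P α) {A : Matrix J J (MonoidAlgebra k G)}
    (hA : A = ro σ α (x ^ l) ∨ A = -ro σ α (x ^ l)) : N.Tr (1 + A) := by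
  by_cases h0 : ro σ α (x ^ l) = 0
  · have : A = 0 := by
      rcases hA with h | h
      · rw [h, h0]
      · rw [h, h0, neg_zero]
    rw [this, add_zero]
    exact KI.Tr.one
  · have h1 : ∃ i j g, ((ro σ α (x ^ l)) i j).coeff g ≠ 0 := by
      by_contra hcon
      push Not at hcon
      apply h0
      ext1 i j
      apply MonoidAlgebra.coeff_injective
      ext g
      rw [hcon i j g]; simp
    obtain ⟨i, j, g, hg⟩ := h1
    have h2 : Ty σ σ (fun q p => om G q p = α ∧ Path r l p q) (ro σ α (x ^ l)) :=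
      Ty.res_of (hx.pow hr l)
    obtain ⟨h3, h4⟩ := h2 i j g hg
    have hln : l < n := by
      by_contra hcon
      apply h0
      rw [pow_eq_zero_of_le (by omega : n ≤ l) hn]
      exact res_none (ρ' := fun _ _ => False) Ty.zero (fun _ _ _ h => h)
    have hPj : P (σ j) := by
      obtain ⟨q, p, h5, h6⟩ := hα
      obtain ⟨u, _, h7⟩ := om_eq (h3.trans h5.symm)
      rw [h7]
      exact hP u _ h6
    have hty : Ty σ σ (fun q p => ∃ u : G, q = u • (g⁻¹ • σ i) ∧ p = u • σ j) A := by
      have h5 : Ty σ σ (fun q p => ∃ u : G, q = u • (g⁻¹ • σ i) ∧ p = u • σ j)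
          (ro σ α (x ^ l)) := by
        refine h2.mono ?_
        rintro q p ⟨h5, _⟩
        rw [← h3] at h5
        exact om_eq h5
      rcases hA with h | h
      · rw [h]; exact h5
      · rw [h]; exact h5.neg
    have hmem : A ∈ SS σ x P l := by
      rcases hA with h | h
      · rw [h]; exact SS.gen hα
      · rw [h]; exact neg_mem (SS.gen hα)
    exact tr_type hty (SS.nil hr hD hx hP hn hl hmem)
      (fun h hh => hloop j hPj _ h l hl hln h4 hh)

theorem SS.dec {P : Y → Prop} {μ : ℕ} {M : Matrix J J (MonoidAlgebra k G)}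
    (h : M ∈ SS σ x P μ) : ∃ L : List (Matrix J J (MonoidAlgebra k G)),
      (∀ A ∈ L, ∃ α : Om G Y, Sta P α ∧ (A = ro σ α (x ^ μ) ∨ A = -ro σ α (x ^ μ))) ∧
      ∃ M' ∈ SS σ x P (μ + 1), M = L.sum + M' := by
  induction h using AddSubgroup.closure_induction with
  | mem M hM =>
    obtain ⟨l, α, hl, hα, rfl⟩ := hM
    rcases Nat.eq_or_lt_of_le hl with h | h
    · subst h
      refine ⟨[ro σ α (x ^ μ)], ?_, 0, zero_mem _, by simp⟩
      intro A hA
      rw [List.mem_singleton] at hA
      exact ⟨α, hα, Or.inl hA⟩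
    · exact ⟨[], by simp, _, SS.mono h (SS.gen hα), by simp⟩
  | zero => exact ⟨[], by simp, 0, zero_mem _, by simp⟩
  | add A B _ _ hA hB =>
    obtain ⟨L, h1, M, h2, h3⟩ := hA
    obtain ⟨L', h1', M', h2', h3'⟩ := hB
    refine ⟨L ++ L', ?_, M + M', add_mem h2 h2', ?_⟩
    · intro C hC
      rcases List.mem_append.1 hC with h | h
      · exact h1 C h
      · exact h1' C h
    · rw [h3, h3', List.sum_append]
      abel
  | neg A _ hA =>
    obtain ⟨L, h1, M, h2, h3⟩ := hA
    refine ⟨L.map Neg.neg, ?_, -M, neg_mem h2, ?_⟩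
    · intro C hC
      obtain ⟨D, hD, rfl⟩ := List.mem_map.1 hC
      obtain ⟨α, hα, h4⟩ := h1 D hD
      refine ⟨α, hα, ?_⟩
      rcases h4 with h4 | h4
      · right; rw [h4]
      · left; rw [h4, neg_neg]
    · rw [h3, neg_add]
      congr 1
      clear h1 h3
      induction L with
      | nil => simp
      | cons a L ih => rw [List.map_cons, List.sum_cons, List.sum_cons, neg_add, ih]

/-- **Factorisation** -/
theorem SS.tr (hr : ∀ (g : G) p q, r p q → r (g • p) (g • q)) (hD : Det r)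
    (hx : Ty σ σ (fun q p => r p q) x) {P : Y → Prop} (hP : ∀ (g : G) p, P p → P (g • p))
    {n : ℕ} (hn : x ^ n = 0)
    (hloop : ∀ j, P (σ j) → ∀ (q : Y) (h : G) (d : ℕ), 0 < d → d < n → Path r d (σ j) q →
      h • q = σ j → HK N (Subgroup.closure ((MulAction.stabilizer G (σ j) : Set G) ∪ {h})))
    (d : ℕ) : ∀ (μ : ℕ) (_ : 0 < μ) (_ : n ≤ μ + d) (M : Matrix J J (MonoidAlgebra k G))
      (_ : M ∈ SS σ x P μ), N.Tr (1 + M) := by
  induction d with
  | zero =>
    intro μ _ hμ M hM
    rw [SS.zero_of (P := P) hn (by omega) hM, add_zero]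
    exact KI.Tr.one
  | succ d ih =>
    intro μ hμ hμd
    have key : ∀ L : List (Matrix J J (MonoidAlgebra k G)),
        (∀ A ∈ L, ∃ α : Om G Y, Sta P α ∧ (A = ro σ α (x ^ μ) ∨ A = -ro σ α (x ^ μ))) →
        ∀ M' ∈ SS σ x P (μ + 1), N.Tr (1 + (L.sum + M')) := by
      intro L
      induction L with
      | nil =>
        intro _ M' hM'
        rw [List.sum_nil, zero_add]
        exact ih (μ + 1) (by omega) (by omega) M' hM'
      | cons a L ihL =>
        intro hL M' hM'
        obtain ⟨α, hα, ha⟩ := hL a List.mem_cons_self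
        have hL' := fun A hA => hL A (List.mem_cons_of_mem _ hA)
        have ha1 : a ∈ SS σ x P μ := by
          rcases ha with h | h
          · rw [h]; exact SS.gen hα
          · rw [h]; exact neg_mem (SS.gen hα)
        have hsum : L.sum ∈ SS σ x P μ := by
          apply AddSubgroup.list_sum_mem
          intro A hA
          obtain ⟨β, hβ, h⟩ := hL' A hA
          rcases h with h | h
          · rw [h]; exact SS.gen hβ
          · rw [h]; exact neg_mem (SS.gen hβ)
        have hB : L.sum + M' ∈ SS σ x P μ := add_mem hsum (SS.mono (Nat.le_succ μ) hM')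
        obtain ⟨M'', hM'', e1⟩ := SS.series hr hD hx hP hP ha1 hB n
        have h1 : N.Tr (1 + a) := tr_ro hr hD hx hP hn hloop hμ hα ha
        have h2 : N.Tr (1 + (L.sum + (M' + M''))) :=
          ihL hL' _ (add_mem hM' (SS.mono (by omega) hM''))
        have h3 := h1.mul h2
        have ha0 : a ^ (n + 1) = 0 := SS.nil hr hD hx hP hn hμ ha1
        have e2 : (1 + a) * (∑ i ∈ Finset.range (n + 1), (-a) ^ i) = 1 := by
          have h4 := mul_neg_geom_sum (-a) (n + 1)
          rw [sub_neg_eq_add] at h4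
          rw [h4, neg_pow, ha0, mul_zero, sub_zero]
        convert h3 using 1
        rw [← add_assoc L.sum, ← e1, mul_add, mul_one, ← mul_assoc, e2, one_mul, List.sum_cons]
        abel
    intro M hM
    obtain ⟨L, hL, M', hM', rfl⟩ := SS.dec hM
    exact key L hL M' hM'

variable {𝒩 : Subgroup G → Prop}

/-- **Nilpotent located matrices**: the stabilisers of the locations are in the class or the
translations are in the system. -/
theorem nil_mix (hC : Cls 𝒩) (hN : ∀ H, 𝒩 H → Nice (MonoidAlgebra k H))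
    (hr : ∀ (g : G) p q, r p q → r (g • p) (g • q)) (hD : Det r)
    (hx : Ty σ σ (fun q p => r p q) x) {n : ℕ} (hn : x ^ n = 0)
    (hloop : ∀ j, ¬ 𝒩 (MulAction.stabilizer G (σ j)) → ∀ (q : Y) (h : G) (d : ℕ), 0 < d →
      d < n → Path r d (σ j) q → h • q = σ j →
      HK N (Subgroup.closure ((MulAction.stabilizer G (σ j) : Set G) ∪ {h}))) :
    N.Tr (1 + x) := by
  classical
  -- invariance
  have hinv : ∀ (g : G) (p : Y), 𝒩 (MulAction.stabilizer G p) →
      𝒩 (MulAction.stabilizer G (g • p)) := by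
    intro g p h
    apply hC.conj _ g⁻¹
    refine hC.anti _ _ ?_ h
    rintro u ⟨v, hv, rfl⟩
    change (g⁻¹ * v * g⁻¹⁻¹) • p = p
    have hv' : v • g • p = g • p := hv
    rw [inv_inv, mul_smul, mul_smul, hv', inv_smul_smul]
  let B : Y → Prop := fun p => ¬ 𝒩 (MulAction.stabilizer G p)
  have hB : ∀ (g : G) p, B p → B (g • p) := by
    intro g p h h1
    apply h
    have := hinv g⁻¹ _ h1
    rwa [inv_smul_smul] at this
  let Gd : Y → Prop := fun p => 𝒩 (MulAction.stabilizer G p)
  have hGd : ∀ (g : G) p, Gd p → Gd (g • p) := hinv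
  obtain ⟨a, ha⟩ : ∃ a, a = MV.res σ σ (fun _ p => Gd p) x := ⟨_, rfl⟩
  obtain ⟨b, hb⟩ : ∃ b, b = MV.res σ σ (fun _ p => ¬ Gd p) x := ⟨_, rfl⟩
  have hab : a + b = x := by rw [ha, hb]; exact res_add_not (ρ := fun _ p => Gd p) x
  have ha1 : a ∈ SS σ x Gd 1 := by
    rw [ha]
    have := res_mem (σ := σ) (x := x) (P := Gd) (l := 1) (fun _ p => Gd p)
      (fun g _ p h => hGd g p h) (fun _ p h => h)
    rwa [pow_one] at this
  have hb1 : b ∈ SS σ x B 1 := by
    rw [hb]
    have := res_mem (σ := σ) (x := x) (P := B) (l := 1) (fun _ p => ¬ Gd p)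
      (fun g _ p h => hB g p h) (fun _ p h => h)
    rwa [pow_one] at this
  have ha0 : a ^ (n + 1) = 0 := SS.nil hr hD hx hGd hn Nat.one_pos ha1
  -- the good part
  have h1 : N.Tr (1 + a) := by
    let E : Matrix {j // Gd (σ j)} J (MonoidAlgebra k G) :=
      Matrix.of fun c j => if c.1 = j then 1 else 0
    let F : Matrix J {j // Gd (σ j)} (MonoidAlgebra k G) := x.submatrix id Subtype.val
    have e1 : a = F * E := by
      ext1 i j
      rw [Matrix.mul_apply]
      by_cases hj : Gd (σ j)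
      · rw [Finset.sum_eq_single (⟨j, hj⟩ : {j // Gd (σ j)})]
        · change a i j = x i j * (if j = j then 1 else 0)
          rw [if_pos rfl, mul_one, ha]
          apply MonoidAlgebra.coeff_injective
          ext g
          rw [res_coeff, if_pos hj]
        · intro c _ hc
          change _ * (if c.1 = j then 1 else 0) = 0
          rw [if_neg (fun h => hc (Subtype.ext h)), mul_zero]
        · intro h
          exact absurd (Finset.mem_univ _) h
      · rw [Finset.sum_eq_zero]
        · rw [ha]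
          apply MonoidAlgebra.coeff_injective
          ext g
          rw [res_coeff, if_neg hj]
          simp
        · intro c _
          change _ * (if c.1 = j then 1 else 0) = 0
          rw [if_neg, mul_zero]
          intro h
          exact hj (h ▸ c.2)
    rw [e1]
    apply KI.Tr.uv
    have e2 : E * F = x.submatrix Subtype.val Subtype.val := by
      ext1 c d
      rw [Matrix.mul_apply, Finset.sum_eq_single c.1]
      · change (if c.1 = c.1 then 1 else 0) * x c.1 d.1 = x c.1 d.1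
        rw [if_pos rfl, one_mul]
      · intro j _ hj
        change (if c.1 = j then 1 else 0) * _ = 0
        rw [if_neg (fun h => hj h.symm), zero_mul]
      · intro h
        exact absurd (Finset.mem_univ _) h
    have e3 : ∀ m : ℕ, (E * F) ^ (m + 1) = E * a ^ m * F := by
      intro m
      induction m with
      | zero => rw [zero_add, pow_one, pow_zero, Matrix.mul_one]
      | succ m ih =>
        rw [pow_succ, ih, pow_succ, e1]
        simp only [Matrix.mul_assoc]
    apply KI.Tr.of_triv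
    refine nil_nice (σ := fun c : {j // Gd (σ j)} => σ c.1) (r := r) ⊥ hr hD
      (fun c => hN _ (hC.rep c.2)) (n := n + 1 + 1) ?_ ?_
    · rw [e2]
      exact fun c d g hg => hx c.1 d.1 g hg
    · rw [e3, ha0, Matrix.mul_zero, Matrix.zero_mul]
  -- the rest
  obtain ⟨M', hM', e4⟩ := SS.series hr hD hx hGd hB ha1 hb1 n
  have h2 : N.Tr (1 + (b + M')) :=
    SS.tr hr hD hx hB hn hloop n 1 Nat.one_pos (by omega) _
      (add_mem hb1 (SS.mono (by omega) hM'))
  have h3 := h1.mul h2
  have e5 : (1 + a) * (∑ i ∈ Finset.range (n + 1), (-a) ^ i) = 1 := by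
    have h4 := mul_neg_geom_sum (-a) (n + 1)
    rw [sub_neg_eq_add] at h4
    rw [h4, neg_pow, ha0, mul_zero, sub_zero]
  convert h3 using 1
  rw [← e4, mul_add, mul_one, ← mul_assoc, e5, one_mul, ← hab, add_assoc]

end mix

end Pool.Agent.H1.KK
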