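import Pool.Agent.H1.KK.BdK

set_option autoImplicit false
set_option linter.unusedSectionVars false
set_option linter.unusedSimpArgs false

/-!
# The system of the matrices with stably induced boundary
-/

namespace Pool.Agent.H1.KK

open Matrix TH57.Thr Pool.Agent.K4H37.MT Pool.Agent.H1.MV Pool.Agent.H1.MK

section bdl

variable {S : Type} [Ring S] {ι μ : Type} [Fintype ι] [DecidableEq ι] [Fintype μ] [DecidableEq μ]

theorem bd_bsum (u : (Matrix ι ι (Lau S))ˣ) (w : (Matrix μ μ (Lau S))ˣ) :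
    bd S _ (blockSum u w) = bd S ι u * bd S μ w := bd_eq (Bd.bsum (bd_spec u) (bd_spec w))

theorem bd_re (e : μ ≃ ι) (u : (Matrix ι ι (Lau S))ˣ) :
    bd S μ (Units.map (TH57.Thr.re e) u) = bd S ι u := bd_eq (Bd.re e (bd_spec u))

theorem bd_stm (u : (Matrix ι ι (Lau S))ˣ) : bd S (ι ⊕ μ) (Units.map (stm μ) u) = bd S ι u := by
  rw [← blockSum_one, bd_bsum, map_one, mul_one]

/-- constant matrices have trivial boundary -/
theorem bd_Cc (u : (Matrix ι ι S)ˣ) : bd S ι (Units.map (mpm (Cc S)) u) = 1 := by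
  apply bd_eq
  apply Bd.of_one (k := 0)
  have hle : ∀ u : (Matrix ι ι S)ˣ, Dl (Units.map (mpm (Cc S)) u) ≤ Lc S ι 0 := by
    intro u
    rintro _ ⟨v, hv, rfl⟩ j n hn
    have hn' : n < 0 := hn
    change cf (∑ i, v i * Cc S (u.val i j)) n = 0
    rw [cf_sum]
    apply Finset.sum_eq_zero
    intro i _
    rw [cf_mul_C, hv i n hn, zero_mul]
  have h1 : Dl (Units.map (mpm (Cc S)) u) = Lc S ι 0 := by
    apply le_antisymm (hle u)
    intro v hv
    unfold Dl
    rw [mem_map_rm]
    have h2 := hle u⁻¹ (Submodule.mem_map_of_mem hv)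
    rw [← map_inv]
    exact h2
  rw [h1]
  exact Lc_rc le_rfl

theorem bd_TT_bot {u : (Matrix ι ι (Lau S))ˣ} (h : TT ⊥ u) : bd S ι u = 1 := by
  have h1 : TT (VU S) u := by
    obtain ⟨μ, i1, i2, h⟩ := h
    refine ⟨μ, i1, i2, ?_⟩
    refine (sup_le (commutator_le_HH (VU S)) ?_ : HH ⊥ _ ≤ HH (VU S) _) h
    rw [Subgroup.closure_le]
    rintro _ ⟨i, u, hu, rfl⟩
    rw [Subgroup.mem_bot] at hu
    rw [hu, map_one]
    exact one_mem _
  exact bd_eq (bd_of_TT (TT_blockSum h1 (TT_one (κ := Empty) (VU S))) Bd.one)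

end bdl

section nb

variable {k : Type} [Ring k] {G V : Type} [Group G] [MulAction G V]

theorem swm_mul {κ : Type} [Fintype κ] [DecidableEq κ]
    (x y : (Matrix κ κ (MonoidAlgebra (Lau k) G))ˣ) : swm (x * y) = swm x * swm y := by
  unfold swm
  rw [map_mul]

theorem swm_stm {κ μ : Type} [Fintype κ] [DecidableEq κ] [Fintype μ] [DecidableEq μ]
    (x : (Matrix κ κ (MonoidAlgebra (Lau k) G))ˣ) :
    swm (Units.map (stm μ) x) = Units.map (stm μ) (swm x) := by
  rw [← blockSum_one, ← blockSum_one, swm_sum]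
  congr 1
  unfold swm
  rw [map_one]

/-- the system of the matrices with stably induced boundary -/
noncomputable def NB (k : Type) [Ring k] (G : Type) [Group G] :
    KI (MonoidAlgebra (Lau k) G) where
  car κ _ _ x := bd (MonoidAlgebra k G) κ (swm x) ∈ IK (io k G)
  of_TT x hx := by
    have h1 : TT ⊥ (swm x) := TT_map ⊥ ⊥ (sw k G).toRingHom (by
      intro u hu
      rw [Subgroup.mem_bot] at hu
      rw [hu, map_one]
      exact one_mem _) x hx
    rw [bd_TT_bot h1]
    exact one_mem _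
  mul x y hx hy := by
    rw [swm_mul, map_mul]
    exact mul_mem hx hy
  inv x hx := by
    rw [swm_inv, map_inv]
    exact inv_mem hx
  st μ _ _ x hx := by
    rw [swm_stm, bd_stm]
    exact hx
  unst x hx := by
    rw [swm_stm, bd_stm] at hx
    exact hx
  re e x hx := by
    rw [swm_re, bd_re]
    exact hx

variable {κ : Type} [Fintype κ] [DecidableEq κ]

theorem nb_sub (H : Subgroup G) (h : AllSI (io k H))
    (a : (Matrix κ κ (MonoidAlgebra (Lau k) H))ˣ) :
    (NB k G).car κ (Units.map (mpm (inc (Lau k) H)) a) := by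
  obtain ⟨n, p, hp, hB⟩ := bd_map2 (inc k H) (swm a) _ (swm_inc H a)
  change bd (MonoidAlgebra k G) κ (swm _) ∈ IK (io k G)
  rw [bd_eq hB, km_mem]
  have i1 := mo_finite p
  have i2 := mo_projective hp
  have h1 := (h (Mo p)).map (inc k H) hp
  have h2 : (inc k H).comp (io k H) = io k G := RingHom.ext fun c => inc_io H c
  rwa [h2] at h1

/-- the inclusion of the constants -/
noncomputable def cG (k : Type) [Ring k] (G : Type) [Group G] :
    MonoidAlgebra k G →+* MonoidAlgebra (Lau k) G :=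
  (sw k G).symm.toRingHom.comp (Cc (MonoidAlgebra k G))

theorem cG_io (c : k) : cG k G (io k G c) = io (Lau k) G (Cc k c) := by
  change (sw k G).symm (Cc (MonoidAlgebra k G) (io k G c)) = _
  rw [RingEquiv.symm_apply_eq]
  change MonoidAlgebra.single 1 (MonoidAlgebra.single 1 c) =
    sw k G (MonoidAlgebra.single 1 (MonoidAlgebra.single 1 c))
  rw [sw_single]

theorem cG_single (g : G) : cG k G (MonoidAlgebra.single g 1) = MonoidAlgebra.single g 1 := by
  change (sw k G).symm (Cc (MonoidAlgebra k G) (MonoidAlgebra.single g 1)) = _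
  rw [RingEquiv.symm_apply_eq]
  change MonoidAlgebra.single 1 (MonoidAlgebra.single g 1) =
    sw k G (MonoidAlgebra.single g (MonoidAlgebra.single 1 1))
  rw [sw_single]

theorem nb_const (a : (Matrix κ κ (MonoidAlgebra k G))ˣ) :
    (NB k G).car κ (Units.map (mpm (cG k G)) a) := by
  change bd (MonoidAlgebra k G) κ (swm _) ∈ IK (io k G)
  have h1 : swm (Units.map (mpm (cG k G)) a) = Units.map (mpm (Cc (MonoidAlgebra k G))) a := by
    apply Units.ext
    ext1 i j
    rw [swm_apply]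
    change sw k G ((sw k G).symm (Cc (MonoidAlgebra k G) (a.val i j))) = _
    rw [RingEquiv.apply_symm_apply]
    rfl
  rw [h1, bd_Cc]
  exact one_mem _

/-- the unit `1 - p + g p` -/
noncomputable def pg {R : Type} [Ring R] {p : Matrix κ κ R} (hp : p * p = p) (g : G) :
    (Matrix κ κ (MonoidAlgebra R G))ˣ where
  val := 1 - p.map (io R G) + p.map (io R G) *
    (Matrix.diagonal fun _ => MonoidAlgebra.single g 1 : Matrix κ κ (MonoidAlgebra R G))
  inv := 1 - p.map (io R G) + p.map (io R G) *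
    (Matrix.diagonal fun _ => MonoidAlgebra.single g⁻¹ 1 : Matrix κ κ (MonoidAlgebra R G))
  val_inv := by
    obtain ⟨P, hP⟩ : ∃ P : Matrix κ κ (MonoidAlgebra R G), P = p.map (io R G) := ⟨_, rfl⟩
    obtain ⟨D, hD⟩ : ∃ D : Matrix κ κ (MonoidAlgebra R G),
      D = (Matrix.diagonal fun _ => MonoidAlgebra.single g 1) := ⟨_, rfl⟩
    obtain ⟨D', hD'⟩ : ∃ D : Matrix κ κ (MonoidAlgebra R G),
      D = (Matrix.diagonal fun _ => MonoidAlgebra.single g⁻¹ 1) := ⟨_, rfl⟩
    have h1 : P * P = P := by rw [hP]; exact map_idem _ hp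
    have h2 : P * D = D * P := by
      rw [hP, hD]
      exact comm_dg (c := fun _ => g) fun _ _ _ => rfl
    have h3 : D * D' = 1 := by
      rw [hD, hD']
      exact dg_mul_inv fun _ => g
    rw [← hP, ← hD, ← hD']
    have h4 : P * D * (P * D') = P := by
      calc _ = P * (D * P) * D' := by simp only [Matrix.mul_assoc]
        _ = P * P * (D * D') := by rw [← h2]; simp only [Matrix.mul_assoc]
        _ = P := by rw [h1, h3, Matrix.mul_one]
    have h5 : P * D * P = P * D := by
      rw [Matrix.mul_assoc, ← h2, ← Matrix.mul_assoc, h1]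
    have h6 : P * (P * D') = P * D' := by rw [← Matrix.mul_assoc, h1]
    calc (1 - P + P * D) * (1 - P + P * D') =
        1 - P + P * D' - P + P * P - P * (P * D') + P * D - P * D * P + P * D * (P * D') := by
          noncomm_ring
      _ = 1 := by
          rw [h4, h5, h6, h1]
          abel
  inv_val := by
    obtain ⟨P, hP⟩ : ∃ P : Matrix κ κ (MonoidAlgebra R G), P = p.map (io R G) := ⟨_, rfl⟩
    obtain ⟨D, hD⟩ : ∃ D : Matrix κ κ (MonoidAlgebra R G),
      D = (Matrix.diagonal fun _ => MonoidAlgebra.single g 1) := ⟨_, rfl⟩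
    obtain ⟨D', hD'⟩ : ∃ D : Matrix κ κ (MonoidAlgebra R G),
      D = (Matrix.diagonal fun _ => MonoidAlgebra.single g⁻¹ 1) := ⟨_, rfl⟩
    have h1 : P * P = P := by rw [hP]; exact map_idem _ hp
    have h2 : P * D' = D' * P := by
      rw [hP, hD']
      exact comm_dg (c := fun _ => g⁻¹) fun _ _ _ => rfl
    have h3 : D' * D = 1 := by
      rw [hD, hD']
      exact dg_inv_mul fun _ => g
    rw [← hP, ← hD, ← hD']
    have h4 : P * D' * (P * D) = P := by
      calc _ = P * (D' * P) * D := by simp only [Matrix.mul_assoc]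
        _ = P * P * (D' * D) := by rw [← h2]; simp only [Matrix.mul_assoc]
        _ = P := by rw [h1, h3, Matrix.mul_one]
    have h5 : P * D' * P = P * D' := by
      rw [Matrix.mul_assoc, ← h2, ← Matrix.mul_assoc, h1]
    have h6 : P * (P * D) = P * D := by rw [← Matrix.mul_assoc, h1]
    calc (1 - P + P * D') * (1 - P + P * D) =
        1 - P + P * D - P + P * P - P * (P * D) + P * D' - P * D' * P + P * D' * (P * D) := by
          noncomm_ring
      _ = 1 := by
          rw [h4, h5, h6, h1]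
          abel

theorem pg_val {R : Type} [Ring R] {p : Matrix κ κ R} (hp : p * p = p) (g : G) :
    (pg (G := G) hp g).val = 1 - p.map (io R G) + p.map (io R G) *
    (Matrix.diagonal fun _ => MonoidAlgebra.single g 1 : Matrix κ κ (MonoidAlgebra R G)) := rfl

/-- block sums -/
theorem pg_blocks {R : Type} [Ring R] {μ : Type} [Fintype μ] [DecidableEq μ] {p : Matrix κ κ R}
    (hp : p * p = p) {q : Matrix μ μ R} (hq : q * q = q) (g : G) :
    pg (G := G) (blocks_idem hp hq) g = blockSum (pg hp g) (pg hq g) := by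
  apply Units.ext
  change 1 - (fromBlocks p 0 0 q).map (io R G) + (fromBlocks p 0 0 q).map (io R G) * _ =
    fromBlocks (pg hp g).val 0 0 (pg hq g).val
  rw [pg_val, pg_val, blocks_map]
  have h1 : (Matrix.diagonal fun _ => MonoidAlgebra.single g 1 :
      Matrix (κ ⊕ μ) (κ ⊕ μ) (MonoidAlgebra R G)) =
      fromBlocks (Matrix.diagonal fun _ => MonoidAlgebra.single g 1) 0 0
        (Matrix.diagonal fun _ => MonoidAlgebra.single g 1) := by
    rw [fromBlocks_diagonal]
    congr 1
    funext i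
    rcases i with i | i <;> rfl
  rw [h1, fromBlocks_multiply]
  have h2 : (1 : Matrix (κ ⊕ μ) (κ ⊕ μ) (MonoidAlgebra R G)) -
      fromBlocks (p.map (io R G)) 0 0 (q.map (io R G)) =
      fromBlocks (1 - p.map (io R G)) 0 0 (1 - q.map (io R G)) := by
    rw [sub_eq_iff_eq_add, fromBlocks_add]
    simp
  rw [h2, fromBlocks_add]
  simp

/-- idempotent matrices which come from smaller coefficients -/
theorem pg_map_car {q : Matrix κ κ k} (hq : q * q = q) (g : G) :
    (NB k G).car κ (pg (G := G) (map_idem (Cc k) hq) g) := by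
  have h1 := nb_const (pg (G := G) hq g)
  convert h1 using 1
  apply Units.ext
  change 1 - (q.map (Cc k)).map (io (Lau k) G) + (q.map (Cc k)).map (io (Lau k) G) *
    (Matrix.diagonal fun _ => MonoidAlgebra.single g 1) =
    (1 - q.map (io k G) + q.map (io k G) *
    (Matrix.diagonal fun _ => MonoidAlgebra.single g 1)).map (cG k G)
  have e1 : (q.map (Cc k)).map (io (Lau k) G) = (q.map (io k G)).map (cG k G) := by
    ext1 i j
    exact (cG_io _).symm
  have e2 : (Matrix.diagonal fun _ => MonoidAlgebra.single g 1 :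
      Matrix κ κ (MonoidAlgebra (Lau k) G)) =
      (Matrix.diagonal fun _ => MonoidAlgebra.single g 1 :
        Matrix κ κ (MonoidAlgebra k G)).map (cG k G) := by
    rw [Matrix.diagonal_map (map_zero _)]
    congr 1
    funext i
    exact (cG_single g).symm
  rw [Matrix.map_add _ (map_add _), sub_map, Matrix.map_mul, e1, e2]

theorem pg_conj {R : Type} [Ring R] {p q : Matrix κ κ R} (hp : p * p = p) (hq : q * q = q)
    (T : (Matrix κ κ R)ˣ) (h : p * T.val = T.val * q) (g : G) :
    pg (G := G) hp g = Units.map (mpm (io R G)) T * pg hq g * (Units.map (mpm (io R G)) T)⁻¹ := by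
  rw [eq_mul_inv_iff_mul_eq]
  apply Units.ext
  rw [Units.val_mul, Units.val_mul, pg_val, pg_val]
  obtain ⟨X, hX⟩ : ∃ X : Matrix κ κ (MonoidAlgebra R G), X = T.val.map (io R G) := ⟨_, rfl⟩
  have hX' : (Units.map (mpm (io R G)) T).val = X := hX.symm
  obtain ⟨D, hD⟩ : ∃ D : Matrix κ κ (MonoidAlgebra R G),
    D = (Matrix.diagonal fun _ => MonoidAlgebra.single g 1) := ⟨_, rfl⟩
  have h1 : X * D = D * X := by
    rw [hX, hD]
    exact comm_dg (c := fun _ => g) fun _ _ _ => rfl
  have h2 : p.map (io R G) * X = X * q.map (io R G) := by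
    rw [hX, ← Matrix.map_mul, h, Matrix.map_mul]
  rw [hX', ← hD, Matrix.add_mul, Matrix.sub_mul, Matrix.one_mul, Matrix.mul_assoc _ D, ← h1,
    ← Matrix.mul_assoc, h2, Matrix.mul_add, Matrix.mul_sub, Matrix.mul_one, Matrix.mul_assoc,
    ← Matrix.mul_assoc X]

theorem nb_idem [IsNoetherianRing k] (hk : Nice k) {p : Matrix κ κ (Lau k)} (hp : p * p = p)
    (g : G) : (NB k G).car κ (pg (G := G) hp g) := by
  have i1 := mo_finite p
  have i2 := mo_projective hp
  obtain ⟨s, ν, i3, i4, q, T, T', hq, h1, h2, h3⟩ := idem_ind hp (allSI_lau hk (Mo p))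
  let Tu : (Matrix (κ ⊕ (Fin s ⊕ ν)) (κ ⊕ (Fin s ⊕ ν)) (Lau k))ˣ := ⟨T, T', h1, h2⟩
  have z1 : (0 : Matrix κ κ k) * 0 = 0 := Matrix.zero_mul _
  have z2 : (0 : Matrix (Fin s) (Fin s) k) * 0 = 0 := Matrix.zero_mul _
  have z3 : (1 : Matrix (Fin s) (Fin s) k) * 1 = 1 := Matrix.one_mul _
  have z4 : (0 : Matrix ν ν k) * 0 = 0 := Matrix.zero_mul _
  have hq2 := blocks_idem z1 (blocks_idem z2 hq)
  have e1 : (fromBlocks 0 0 0 (fromBlocks 0 0 0 q) :
      Matrix (κ ⊕ (Fin s ⊕ ν)) (κ ⊕ (Fin s ⊕ ν)) k).map (Cc k) =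
      fromBlocks 0 0 0 (fromBlocks 0 0 0 (q.map (Cc k))) := by
    rw [blocks_map, blocks_map, Matrix.map_zero _ (map_zero _), Matrix.map_zero _ (map_zero _)]
  have hY := pg_map_car (G := G) hq2 g
  have hr := blocks_idem z3 z4
  have e2 : (fromBlocks 1 0 0 0 : Matrix (Fin s ⊕ ν) (Fin s ⊕ ν) k).map (Cc k) =
      fromBlocks 1 0 0 0 := by
    rw [blocks_map, Matrix.map_zero _ (map_zero _), Matrix.map_one _ (map_zero _) (map_one _)]
  have hZ := pg_map_car (G := G) hr g
  have hE : (fromBlocks p 0 0 ((fromBlocks 1 0 0 0 : Matrix (Fin s ⊕ ν) (Fin s ⊕ ν) k).map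
      (Cc k))) * Tu.val = Tu.val * (fromBlocks 0 0 0 (fromBlocks 0 0 0 q) :
      Matrix (κ ⊕ (Fin s ⊕ ν)) (κ ⊕ (Fin s ⊕ ν)) k).map (Cc k) := by
    rw [e1, e2]
    exact h3
  have h4 := pg_conj (G := G) (blocks_idem hp (map_idem (Cc k) hr)) (map_idem (Cc k) hq2) Tu hE g
  have h5 := (NB k G).conj _ (Units.map (mpm (io (Lau k) G)) Tu) hY
  rw [← h4, pg_blocks hp (map_idem (Cc k) hr)] at h5
  exact (NB k G).of_bsum h5 hZ

theorem nb_good [IsNoetherianRing k] (hk : Nice k)
    (hV : ∀ v : V, AllSI (io k (MulAction.stabilizer G v))) : Good V (NB k G) where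
  vert v κ _ _ a := nb_sub _ (hV v) a
  idem κ _ _ p hp g := ⟨_, rfl, nb_idem hk hp g⟩

end nb

end Pool.Agent.H1.KK
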