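import Pool.Agent.H1.KK.RelG

set_option autoImplicit false
set_option linter.unusedSectionVars false
set_option linter.unusedSimpArgs false

/-!
# The relative core theorem
-/

namespace Pool.Agent.H1.KK

open Matrix TH57.Thr Pool.Agent.K4H37.MT Pool.Agent.H1.MV

section good

variable {k₀ k : Type} [Ring k₀] [Ring k] {φ : k₀ →+* k} {ρ : k →+* k₀} {G V : Type} [Group G]
  [MulAction G V]

/-- the system contains the classes from the vertex groups and from the smaller ring -/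
structure GoodR (φ : k₀ →+* k) (V : Type) [MulAction G V] (N : KI (MonoidAlgebra k G)) : Prop where
  vert : ∀ (v : V) (κ : Type) [Fintype κ] [DecidableEq κ]
      (a : (Matrix κ κ (MonoidAlgebra k (MulAction.stabilizer G v)))ˣ),
      N.car κ (Units.map (mpm (inc k (MulAction.stabilizer G v))) a)
  base : ∀ (κ : Type) [Fintype κ] [DecidableEq κ] (a : (Matrix κ κ (MonoidAlgebra k₀ G))ˣ),
      N.car κ (Units.map (mpm (mg φ G)) a)

variable {N : KI (MonoidAlgebra k G)} {κ : Type} [Fintype κ] [DecidableEq κ]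

theorem GoodR.dg (hg : GoodR φ V N) (c : κ → G) : N.car κ (MV.dg k c) := by
  have h1 := hg.base κ (MV.dg k₀ c)
  convert h1 using 1
  apply Units.ext
  change Matrix.diagonal _ = (Matrix.diagonal _).map _
  rw [Matrix.diagonal_map (map_zero _)]
  congr 1
  funext j
  change MonoidAlgebra.single (c j) 1 = mg φ G (MonoidAlgebra.single (c j) 1)
  rw [mg_single, map_one]

theorem GoodR.unit (hg : GoodR φ V N) (i : κ) (u : (MonoidAlgebra k G)ˣ)
    (hu : u ∈ MK.TG k G) : N.car κ (Units.map (dgm i) u) := by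
  obtain ⟨g, ε, hu⟩ := hu
  have h1 := hg.dg (κ := κ) (Function.update 1 i g)
  let a₀ : (Matrix κ κ k₀)ˣ := Units.map (dgm i) (Units.map (Int.castRingHom k₀).toMonoidHom ε)
  let a : (Matrix κ κ (MonoidAlgebra k₀ G))ˣ := Units.map (mpm (io k₀ G)) a₀
  have h2 := hg.base κ a
  have h3 := N.mul _ _ h1 h2
  convert h3 using 1
  apply Units.ext
  change Matrix.diagonal (Function.update 1 i u.val) =
    Matrix.diagonal _ * ((Matrix.diagonal (Function.update 1 i (((ε : ℤ) : k₀)))).map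
      (io k₀ G)).map (mg φ G)
  rw [Matrix.diagonal_map (map_zero _), Matrix.diagonal_map (map_zero _),
    Matrix.diagonal_mul_diagonal]
  congr 1
  funext j
  by_cases h : j = i
  · subst h
    simp only [Function.update_self]
    rw [hu, io_apply, mg_single, map_intCast, MonoidAlgebra.single_mul_single, mul_one, one_mul]
  · simp only [Function.update_of_ne h, Pi.one_apply, map_one, mul_one]
    rfl

theorem GoodR.of_TT (hg : GoodR φ V N) {x : (Matrix κ κ (MonoidAlgebra k G))ˣ}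
    (h : TT (MK.TG k G) x) : N.car κ x :=
  KI.of_TTU (fun _ _ _ i u hu => hg.unit i u hu) h

theorem GoodR.reps [DecidableEq V] (hg : GoodR φ V N) (ω : κ → V)
    (y : (Matrix κ κ (MonoidAlgebra k G))ˣ) (hr : ∀ i, rep G (ω i) = ω i)
    (h1 : Ty ω ω Eq y.val) (h2 : Ty ω ω Eq (y⁻¹).val) : N.car κ y := by
  refine MK.block_ind (V := V) (PP := fun κ _ _ x => N.car κ x) ?_ ?_ ?_ ?_ _ κ rfl ω y hr h1 h2
  · intro κ _ _ _
    exact N.one
  · intro κ μ _ _ _ _ a d ha hd
    exact N.bsum ha hd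
  · intro κ μ _ _ _ _ e x hx
    exact N.re e x hx
  · intro v κ _ _ a
    exact hg.vert v κ a

/-- matrices located at vertices -/
theorem GoodR.same [DecidableEq V] (hg : GoodR φ V N) (ν : κ → V)
    (x : (Matrix κ κ (MonoidAlgebra k G))ˣ)
    (h1 : Ty ν ν Eq x.val) (h2 : Ty ν ν Eq (x⁻¹).val) : N.car κ x := by
  have hc : ∀ j, ∃ g : G, g • rep G (ν j) = ν j := fun j => rep_exists _
  choose c hc using hc
  have hc' : (fun j => (c j)⁻¹ • ν j) = fun j => rep G (ν j) := by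
    funext j
    rw [inv_smul_eq_iff, hc]
  let x' := (MV.dg k c)⁻¹ * x * MV.dg k c
  have t1 : Ty (fun j => rep G (ν j)) (fun j => rep G (ν j)) Eq x'.val := by
    have h3 := (h1.dg_left (fun j => (c j)⁻¹)).dg_right GInv.eq c
    rw [hc'] at h3
    have : x'.val = (MV.dg k (fun j => (c j)⁻¹)).val * x.val * (MV.dg k c).val := by
      change (MV.dg k c)⁻¹.val * x.val * (MV.dg k c).val = _
      rw [dg_inv]
    rw [this]; exact h3
  have t2 : Ty (fun j => rep G (ν j)) (fun j => rep G (ν j)) Eq (x'⁻¹).val := by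
    have h3 := (h2.dg_left (fun j => (c j)⁻¹)).dg_right GInv.eq c
    rw [hc'] at h3
    have : (x'⁻¹).val = (MV.dg k (fun j => (c j)⁻¹)).val * (x⁻¹).val * (MV.dg k c).val := by
      have : x'⁻¹ = (MV.dg k c)⁻¹ * x⁻¹ * MV.dg k c := by
        simp only [x', _root_.mul_inv_rev, inv_inv, mul_assoc]
      rw [this]
      change (MV.dg k c)⁻¹.val * (x⁻¹).val * (MV.dg k c).val = _
      rw [dg_inv]
    rw [this]; exact h3
  have h3 := hg.reps (fun j => rep G (ν j)) x' (fun i => rep_rep _) t1 t2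
  have h4 := N.conj _ (MV.dg k c) h3
  have h5 : MV.dg k c * x' * (MV.dg k c)⁻¹ = x := by
    simp only [x']
    group
  rwa [h5] at h4

/-- **Split matrices** -/
theorem GoodR.split [DecidableEq V] (hρ : ρ.comp φ = RingHom.id k₀) (hg : GoodR φ V N)
    (ν a b : κ → V) (p : Matrix κ κ (MonoidAlgebra k₀ G))
    (A : (Matrix κ κ (MonoidAlgebra k G))ˣ) (A1 A2 : Matrix κ κ (MonoidAlgebra k G))
    (hA : A.val = A1 * p.map (mg φ G) + A2 * (1 - p.map (mg φ G)))
    (t1 : Ty ν a Eq A1) (t2 : Ty ν b Eq A2)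
    (t3 : Ty a ν Eq (p.map (mg φ G) * (A⁻¹).val))
    (t4 : Ty b ν Eq ((1 - p.map (mg φ G)) * (A⁻¹).val)) : N.car κ A := by
  obtain ⟨P, hP⟩ : ∃ P : Matrix κ κ (MonoidAlgebra k G), P = p.map (mg φ G) := ⟨_, rfl⟩
  let τ : MonoidAlgebra k G →+* MonoidAlgebra k G := (mg φ G).comp (mg ρ G)
  have hτ : ∀ x : MonoidAlgebra k₀ G, τ (mg φ G x) = mg φ G x := by
    intro x
    change mg φ G (mg ρ G (mg φ G x)) = _
    congr 1
    apply MonoidAlgebra.coeff_injective
    ext g
    rw [mg_coeff, mg_coeff]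
    exact RingHom.congr_fun hρ _
  have hPτ : P.map τ = P := by
    rw [hP]
    ext1 i j
    exact hτ _
  have tyτ : ∀ {a b : κ → V} {M : Matrix κ κ (MonoidAlgebra k G)}, Ty a b Eq M →
      Ty a b Eq (M.map τ) := by
    intro a b M h
    exact ty_mg φ (ty_mg ρ h)
  rw [← hP] at hA t3 t4
  let B : (Matrix κ κ (MonoidAlgebra k₀ G))ˣ := Units.map (mpm (mg ρ G)) A
  let BI : (Matrix κ κ (MonoidAlgebra k G))ˣ := Units.map (mpm (mg φ G)) B
  have hBI : BI.val = A.val.map τ := rfl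
  have hBI' : (BI⁻¹).val = (A⁻¹).val.map τ := by
    have h1 : BI⁻¹ = Units.map (mpm (mg φ G)) (Units.map (mpm (mg ρ G)) A⁻¹) := by
      rw [map_inv, map_inv]
    rw [h1]
    rfl
  let W : (Matrix κ κ (MonoidAlgebra k G))ˣ := A * BI⁻¹
  have hWv : W.val = A1 * (P * (A⁻¹).val).map τ + A2 * ((1 - P) * (A⁻¹).val).map τ := by
    change A.val * (BI⁻¹).val = _
    rw [hBI', hA, Matrix.map_mul, Matrix.map_mul, sub_map, hPτ]
    simp only [Matrix.add_mul, Matrix.mul_assoc]
  have hWi : (W⁻¹).val = A1.map τ * (P * (A⁻¹).val) + A2.map τ * ((1 - P) * (A⁻¹).val) := by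
    have h1 : W⁻¹ = BI * A⁻¹ := by
      simp only [W, _root_.mul_inv_rev, inv_inv]
    rw [h1]
    change BI.val * (A⁻¹).val = _
    rw [hBI]
    conv_lhs => rw [hA, Matrix.map_add _ (map_add _), Matrix.map_mul, Matrix.map_mul, sub_map, hPτ]
    simp only [Matrix.add_mul, Matrix.mul_assoc]
  have tW : Ty ν ν Eq W.val := by
    rw [hWv]
    exact (t1.mul (tyτ t3) GInv.eq (fun x y z h h' => h.trans h')).add
      (t2.mul (tyτ t4) GInv.eq (fun x y z h h' => h.trans h'))
  have tW' : Ty ν ν Eq (W⁻¹).val := by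
    rw [hWi]
    exact ((tyτ t1).mul t3 GInv.eq (fun x y z h h' => h.trans h')).add
      ((tyτ t2).mul t4 GInv.eq (fun x y z h h' => h.trans h'))
  have hfin : A = W * BI := by
    simp only [W]
    group
  rw [hfin]
  exact N.mul _ _ (hg.same ν W tW tW') (hg.base κ B)

end good

section core

variable {k₀ k : Type} [Ring k₀] [Ring k] {φ : k₀ →+* k} {ρ : k →+* k₀} {G V : Type} [Group G]
  [MulAction G V]
  [DecidableEq V] {T : SimpleGraph V} {ι : Type} [Fintype ι] [DecidableEq ι]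
  {N : KI (MonoidAlgebra k G)}

/-- the vertex part -/
theorem vert_of_splitR (hρ : ρ.comp φ = RingHom.id k₀) (hg : GoodR φ V N) (ν : ι → V) (ε : ι → V × V)
    (hgood : ∀ (g : G) j j', g • ε j = ε j' → ε j = ε j')
    (F0u : (Matrix ι ι (MonoidAlgebra k G))ˣ) (F1 F2 e H1 H2 : Matrix ι ι (MonoidAlgebra k G))
    (hF0 : F0u.val = F1 * e + F2 * (1 - e)) (hF0' : (F0u⁻¹).val = H1 + H2)
    (tF1 : Ty ν ε (fun x f => x = f.1) F1) (tF2 : Ty ν ε (fun x f => x = f.2) F2)
    (he : e * e = e) (te : Ty ε ε Eq e)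
    (tH1 : Ty ε ν (fun (f : V × V) (x : V) => f.1 = x) H1)
    (tH2 : Ty ε ν (fun (f : V × V) (x : V) => f.2 = x) H2)
    (eH1 : e * H1 = H1) (eH2 : e * H2 = 0)
    (hS : ∀ j, SI (mg φ (MulAction.stabilizer G (ε j))) (Mo (desc ε e (ε j)))) :
    N.car ι F0u := by
  classical
  obtain ⟨K, iK1, iK2, εK, l, p, X, hεK, hp, tX, tX', hE⟩ := glueR te he hgood hS
  have eH1' : (1 - e) * H1 = 0 := by rw [Matrix.sub_mul, Matrix.one_mul, eH1, sub_self]
  have eH2' : (1 - e) * H2 = H2 := by rw [Matrix.sub_mul, Matrix.one_mul, eH2, sub_zero]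
  obtain ⟨E, hEd⟩ : ∃ E : Matrix (ι ⊕ K) (ι ⊕ K) (MonoidAlgebra k G),
    E = fromBlocks e 0 0 (Db (MonoidAlgebra k G) l) := ⟨_, rfl⟩
  obtain ⟨P, hP⟩ : ∃ P : Matrix (ι ⊕ K) (ι ⊕ K) (MonoidAlgebra k G), P = p.map (mg φ G) :=
    ⟨_, rfl⟩
  have q1 : E * X.val = X.val * P := by
    rw [hEd, hP]
    exact hE
  have q2 : P * (X⁻¹).val = (X⁻¹).val * E := by
    calc P * (X⁻¹).val = (X⁻¹).val * (X.val * P) * (X⁻¹).val := by
          rw [← Matrix.mul_assoc (X⁻¹).val, Units.inv_mul, Matrix.one_mul]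
      _ = (X⁻¹).val * E * (X.val * (X⁻¹).val) := by
          rw [← q1]
          simp only [Matrix.mul_assoc]
      _ = _ := by rw [Units.mul_inv, Matrix.mul_one]
  let νK : K → V := fun κ => if l κ then (εK κ).1 else (εK κ).2
  let ν' : ι ⊕ K → V := Sum.elim ν νK
  let ε' : ι ⊕ K → V × V := Sum.elim ε εK
  obtain ⟨F1', hF1'⟩ : ∃ F : Matrix (ι ⊕ K) (ι ⊕ K) (MonoidAlgebra k G),
    F = fromBlocks F1 0 0 (Db (MonoidAlgebra k G) l) := ⟨_, rfl⟩
  obtain ⟨F2', hF2'⟩ : ∃ F : Matrix (ι ⊕ K) (ι ⊕ K) (MonoidAlgebra k G),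
    F = fromBlocks F2 0 0 (1 - Db (MonoidAlgebra k G) l) := ⟨_, rfl⟩
  have h1E : 1 - E = fromBlocks (1 - e) 0 0 (1 - Db (MonoidAlgebra k G) l) := by
    rw [sub_eq_iff_eq_add, hEd, fromBlocks_add]
    simp
  let A : (Matrix (ι ⊕ K) (ι ⊕ K) (MonoidAlgebra k G))ˣ := Units.map (stm K) F0u * X
  have hAv : A.val = F1' * X.val * P + F2' * X.val * (1 - P) := by
    change fromBlocks F0u.val 0 0 1 * X.val = _
    have h1 : (fromBlocks F0u.val 0 0 1 : Matrix (ι ⊕ K) (ι ⊕ K) (MonoidAlgebra k G)) =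
        F1' * E + F2' * (1 - E) := by
      rw [h1E, hEd, hF1', hF2', fromBlocks_multiply, fromBlocks_multiply, fromBlocks_add, hF0]
      simp only [Matrix.mul_zero, Matrix.zero_mul, add_zero, zero_add]
      rw [db_idem, one_sub_idem (db_idem l)]
      congr 1
      abel
    rw [h1, Matrix.add_mul, Matrix.mul_assoc F1', q1, Matrix.mul_assoc F2', Matrix.sub_mul, q1,
      Matrix.one_mul, Matrix.mul_sub, Matrix.mul_sub, Matrix.mul_one]
    simp only [Matrix.mul_assoc]
  have hAi : (A⁻¹).val = (X⁻¹).val * fromBlocks (H1 + H2) 0 0 1 := by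
    have h1 : A⁻¹ = X⁻¹ * (Units.map (stm K) F0u)⁻¹ := _root_.mul_inv_rev _ _
    rw [h1, ← map_inv]
    change (X⁻¹).val * fromBlocks (F0u⁻¹).val 0 0 1 = _
    rw [hF0']
  have hPA : P * (A⁻¹).val = (X⁻¹).val * fromBlocks H1 0 0 (Db (MonoidAlgebra k G) l) := by
    rw [hAi, ← Matrix.mul_assoc, q2, Matrix.mul_assoc, hEd, fromBlocks_multiply, Matrix.mul_add,
      eH1, eH2]
    simp
  have hPA' : (1 - P) * (A⁻¹).val =
      (X⁻¹).val * fromBlocks H2 0 0 (1 - Db (MonoidAlgebra k G) l) := by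
    have h2 : (1 - P) * (X⁻¹).val = (X⁻¹).val * (1 - E) := by
      rw [Matrix.sub_mul, Matrix.one_mul, q2, Matrix.mul_sub, Matrix.mul_one]
    rw [hAi, ← Matrix.mul_assoc, h2, Matrix.mul_assoc, h1E, fromBlocks_multiply, Matrix.mul_add,
      eH1', eH2']
    simp
  have hDb1 : ∀ κ, l κ = true → νK κ = (εK κ).1 := by
    intro κ h
    simp [νK, h]
  have hDb2 : ∀ κ, (!(l κ)) = true → νK κ = (εK κ).2 := by
    intro κ h
    have h2 : l κ = false := by simpa using h
    simp [νK, h2]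
  have tF1' : Ty ν' ε' (fun x f => x = f.1) F1' := by
    rw [hF1']
    exact ty_blocks tF1 (ty_db hDb1)
  have tF2' : Ty ν' ε' (fun x f => x = f.2) F2' := by
    rw [hF2', db_not]
    exact ty_blocks tF2 (ty_db hDb2)
  have tH1' : Ty ε' ν' (fun f x => f.1 = x) (fromBlocks H1 0 0 (Db (MonoidAlgebra k G) l)) :=
    ty_blocks tH1 (ty_db fun κ h => (hDb1 κ h).symm)
  have tH2' : Ty ε' ν' (fun f x => f.2 = x) (fromBlocks H2 0 0 (1 - Db (MonoidAlgebra k G) l)) := by
    rw [db_not]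
    exact ty_blocks tH2 (ty_db fun κ h => (hDb2 κ h).symm)
  have hA : N.car _ A := by
    refine hg.split hρ ν' (fun j => (ε' j).1) (fun j => (ε' j).2) p
      A (F1' * X.val) (F2' * X.val) ?_ ?_ ?_ ?_ ?_
    · rw [← hP]
      exact hAv
    · have h1 : Ty ν' ε' (fun x f => x = f.1) (F1' * X.val) :=
        tF1'.mul tX inv_fst' (fun x y z h h' => by rw [h, h'])
      exact fun i j g hg => h1 i j g hg
    · have h1 : Ty ν' ε' (fun x f => x = f.2) (F2' * X.val) :=
        tF2'.mul tX inv_snd' (fun x y z h h' => by rw [h, h'])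
      exact fun i j g hg => h1 i j g hg
    · rw [← hP, hPA]
      have h1 : Ty ε' ν' (fun f x => f.1 = x)
          ((X⁻¹).val * fromBlocks H1 0 0 (Db (MonoidAlgebra k G) l)) :=
        tX'.mul tH1' GInv.eq (fun x y z h h' => by rw [h, h'])
      exact fun i j g hg => h1 i j g hg
    · rw [← hP, hPA']
      have h1 : Ty ε' ν' (fun f x => f.2 = x)
          ((X⁻¹).val * fromBlocks H2 0 0 (1 - Db (MonoidAlgebra k G) l)) :=
        tX'.mul tH2' GInv.eq (fun x y z h h' => by rw [h, h'])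
      exact fun i j g hg => h1 i j g hg
  have hX : N.car _ X := hg.same (fun i => (ε' i).1) X
    (fun i j g hg => congrArg Prod.fst (tX i j g hg))
    (fun i j g hg => congrArg Prod.fst (tX' i j g hg))
  apply N.unst (μ := K)
  have h1 : Units.map (stm K) F0u = A * X⁻¹ := by
    simp only [A]
    group
  rw [h1]
  exact N.mul _ _ hA (N.inv _ hX)

/-- A linear matrix over a tree whose edge groups have only stably induced projective modules. -/
theorem coreR (hρ : ρ.comp φ = RingHom.id k₀) (hg : GoodR φ V N) (hT : T.IsTree)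
    (hact : ∀ (g : G) (v w : V), T.Adj v w → T.Adj (g • v) (g • w))
    (hNil : ∀ (J : Type) [Fintype J] [DecidableEq J] (σ : J → V × V)
      (x y : Matrix J J (MonoidAlgebra k G)), Ty σ σ (fun q p => nb T p q) x →
      y * (1 + x) = 1 → N.Tr (1 + x))
    (ν : ι → V) (ε : ι → V × V) (hadj : ∀ j, T.Adj (ε j).1 (ε j).2)
    (hgood : ∀ (g : G) j j', g • ε j = ε j' → ε j = ε j')
    (hno : ∀ (g : G) j j', g • ε j ≠ (ε j').swap)
    (F : (Matrix ι ι (MonoidAlgebra k G))ˣ) (F1 F2 : Matrix ι ι (MonoidAlgebra k G))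
    (hF : F.val = F1 + F2)
    (tF1 : Ty ν ε (fun x f => x = f.1) F1) (tF2 : Ty ν ε (fun x f => x = f.2) F2)
    (hS : ∀ j, AllSI (mg φ (MulAction.stabilizer G (ε j)))) : N.car ι F := by
  classical
  have D : Dat T ν ε F1 F2 (F⁻¹).val :=
    { tree := hT
      act := hact
      adj := hadj
      noinv := hno
      ty1 := tF1
      ty2 := tF2
      left := by rw [← hF, Units.inv_mul]
      right := by rw [← hF, Units.mul_inv] }
  obtain ⟨e, H1, H2, he, te, tH1, tH2, eH1, eH2, hFH, hHF, hprod, t11, t21, t12, t22⟩ := D.split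
  obtain ⟨x, hx⟩ : ∃ x, x = H1 * F1 * (1 - e) + H2 * F1 * (1 - e) +
    (H1 * F2 * e + H2 * F2 * e) := ⟨_, rfl⟩
  let F0u : (Matrix ι ι (MonoidAlgebra k G))ˣ := ⟨F1 * e + F2 * (1 - e), H1 + H2, hFH, hHF⟩
  have hzx : (1 + ((F⁻¹).val * (F1 * e + F2 * (1 - e)) - 1)) * (1 + x) = 1 := by
    rw [add_sub_cancel, Matrix.mul_assoc, hx, ← hprod, ← hF, Units.inv_mul]
  obtain ⟨w, hw, hwT⟩ := nil_of_split (N := N) hact hNil ε hadj F1 F2 e H1 H2 x _ he eH1 eH2 hx
    hzx t11 t21 t12 t22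
  have hVert : N.car ι F0u := by
    refine vert_of_splitR hρ hg ν ε hgood F0u F1 F2 e H1 H2 rfl rfl tF1 tF2 he te tH1 tH2 eH1 eH2 ?_
    intro j
    have hi := desc_idem te he hgood (ε j)
    have := mo_finite (desc ε e (ε j))
    have := mo_projective hi
    exact hS j _
  have hfin : F = F0u * w := by
    apply Units.ext
    rw [Units.val_mul, hw, hF, hprod, hx]
  rw [hfin]
  exact N.mul _ _ hVert hwT

/-- every class is in the system -/
theorem all_R {κ : Type} [Fintype κ] [DecidableEq κ] (hρ : ρ.comp φ = RingHom.id k₀)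
    (hg : GoodR φ V N) (hT : T.IsTree)
    (hact : ∀ (g : G) (v w : V), T.Adj v w → T.Adj (g • v) (g • w))
    (hinv : ∀ (g : G) (v w : V), T.Adj v w → ¬ (g • v = w ∧ g • w = v)) 
    (hNil : ∀ (J : Type) [Fintype J] [DecidableEq J] (σ : J → V × V)
      (x y : Matrix J J (MonoidAlgebra k G)), Ty σ σ (fun q p => nb T p q) x →
      y * (1 + x) = 1 → N.Tr (1 + x))
    (hS : ∀ v w : V, T.Adj v w → AllSI (mg φ (MulAction.stabilizer G ((v, w) : V × V))))
    (X : (Matrix κ κ (MonoidAlgebra k G))ˣ) : N.car κ X := by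
  classical
  by_cases hsub : Subsingleton V
  · obtain ⟨v₀⟩ := hT.connected.nonempty
    apply hg.same (fun _ => v₀) X
    · intro i j g _
      exact Subsingleton.elim _ _
    · intro i j g _
      exact Subsingleton.elim _ _
  have hedge : ∃ v w, T.Adj v w := by
    by_contra hcon
    push Not at hcon
    apply hsub
    refine ⟨fun v w => ?_⟩
    by_contra hne
    obtain ⟨c, hc, _⟩ := toward_exists hT (w := v) (b := w) hne
    exact hcon _ _ hc
  obtain ⟨v₁, w₁, hvw⟩ := hedge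
  obtain ⟨_, f₀, hf₀, _⟩ := isE_exists hact hinv hvw
  set u₀ := f₀.1 with hu₀
  -- the coefficients
  let A : Type := {g : G // g ∈ suppF X.val}
  let C : A → Matrix κ κ k := fun a => Matrix.of fun i j => (X.val i j).coeff a.1
  let d : A → G := fun a => a.1
  have hX : X.val = Matrix.of fun i j => ∑ a, MonoidAlgebra.single (d a) (C a i j) := by
    ext1 i j
    rw [← sum_suppF X.val i j, Matrix.of_apply]
    exact (Finset.sum_coe_sort (suppF X.val)
      (fun g => MonoidAlgebra.single g ((X.val i j).coeff g))).symm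
  -- the paths
  have hw : ∀ i, ∃ p : T.Walk u₀ (d i • u₀), True := fun i =>
    ⟨(hT.connected u₀ (d i • u₀)).some, trivial⟩
  choose p _ using hw
  let r : A → ℕ := fun i => (p i).length
  let w : A → ℕ → V := fun i k => (p i).getVert k
  have hadjw : ∀ i k, k < r i → T.Adj (w i k) (w i (k + 1)) := fun i k hk =>
    (p i).adj_getVert_succ hk
  have hedge : ∀ i k, ∃ (h : G) (f : V × V), k < r i → (IsE G T f ∧
      (h • f = (w i k, w i (k + 1)) ∨ h • f = (w i (k + 1), w i k))) := by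
    intro i k
    by_cases hk : k < r i
    · obtain ⟨h, f, h1, h2⟩ := isE_exists hact hinv (hadjw i k hk)
      exact ⟨h, f, fun _ => ⟨h1, h2⟩⟩
    · exact ⟨1, f₀, fun h => absurd h hk⟩
  choose h f hf using hedge
  obtain ⟨M, hM, hMT⟩ := Red.same (a := X) (M := MK.Sub C d r h) (by
    have h9 := MK.sub_red (le_refl (MK.TG k G)) C d r h
    rw [← hX] at h9
    exact h9)
  -- the locations
  let ν : κ ⊕ (Σ p : κ × A, Fin (r p.2)) → V := Sum.elim (fun _ => u₀)
    (fun p => w p.1.2 (p.2.1 + 1))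
  let ε : κ ⊕ (Σ p : κ × A, Fin (r p.2)) → V × V := Sum.elim (fun _ => f₀)
    (fun p => f p.1.2 p.2.1)
  have hE : ∀ j, IsE G T (ε j) := by
    rintro (j | p)
    · exact hf₀
    · exact (hf p.1.2 p.2.1 p.2.2).1
  have hty : Ty ν ε (fun x f => x = f.1 ∨ x = f.2) M.val := by
    rw [hM]
    rintro (i | p₁) (j | q) g hg
    · unfold MK.Sub at hg
      rw [fromBlocks_apply₁₁, Matrix.of_apply, MonoidAlgebra.coeff_sum,
        Finsupp.finsetSum_apply] at hg
      left
      change g⁻¹ • u₀ = u₀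
      obtain ⟨a, _, ha⟩ := Finset.exists_ne_zero_of_sum_ne_zero hg
      obtain ⟨h1, h2⟩ := MK.coeff_ite_ne ha
      rw [h2, inv_smul_eq_iff]
      exact (p a).eq_of_length_eq_zero h1
    · unfold MK.Sub at hg
      rw [fromBlocks_apply₁₂, Matrix.of_apply] at hg
      obtain ⟨h2, h3⟩ := MK.coeff_ite_ne hg
      have h0 : 0 < r q.1.2 := by
        have := q.2.2
        omega
      have hw0 : w q.1.2 0 = u₀ := (p q.1.2).getVert_zero
      change g⁻¹ • u₀ = (f q.1.2 q.2.1).1 ∨ g⁻¹ • u₀ = (f q.1.2 q.2.1).2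
      rw [h2, h3, inv_smul_eq_iff, inv_smul_eq_iff, ← hw0]
      rcases (hf q.1.2 0 h0).2 with h4 | h4
      · left; exact (congrArg Prod.fst h4).symm
      · right; exact (congrArg Prod.snd h4).symm
    · unfold MK.Sub at hg
      rw [fromBlocks_apply₂₁, Matrix.of_apply] at hg
      obtain ⟨⟨h1, h2⟩, h3⟩ := MK.coeff_ite_ne hg
      left
      change g⁻¹ • w p₁.1.2 (p₁.2.1 + 1) = u₀
      rw [h3, inv_smul_eq_iff, h1]
      exact (p p₁.1.2).getVert_length
    · unfold MK.Sub at hg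
      rw [fromBlocks_apply₂₂, Matrix.of_apply] at hg
      change g⁻¹ • w p₁.1.2 (p₁.2.1 + 1) = (f q.1.2 q.2.1).1 ∨
        g⁻¹ • w p₁.1.2 (p₁.2.1 + 1) = (f q.1.2 q.2.1).2
      rcases MK.coeff_add_ne hg with hg | hg
      · obtain ⟨h1, h2⟩ := MK.coeff_ite_ne hg
        rw [← h1, h2, inv_smul_eq_iff, inv_smul_eq_iff]
        rcases (hf p₁.1.2 p₁.2.1 p₁.2.2).2 with h4 | h4
        · right; exact (congrArg Prod.snd h4).symm
        · left; exact (congrArg Prod.fst h4).symm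
      · obtain ⟨⟨h1, h1'⟩, h2⟩ := MK.coeff_ite_ne hg
        have hlt : p₁.2.1 + 1 < r p₁.1.2 := by
          have h3 := q.2.2
          have h4 : r p₁.1.2 = r q.1.2 := by rw [h1]
          omega
        rw [h1', ← h1, h2, inv_smul_eq_iff, inv_smul_eq_iff]
        rcases (hf p₁.1.2 (p₁.2.1 + 1) hlt).2 with h4 | h4
        · left; exact (congrArg Prod.fst h4).symm
        · right; exact (congrArg Prod.snd h4).symm
  have hVM : N.car _ M := by
    refine coreR hρ hg hT hact hNil ν ε (fun j => (hE j).1)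
      (fun g j j' hg => isE_good (hE j) (hE j') hg)
      (fun g j j' => isE_no (hE j) (hE j') g) M _ _
      (MK.two_parts ν ε (fun j => (hE j).1) M.val hty) Ty.res Ty.res ?_
    intro j
    exact hS (ε j).1 (ε j).2 (hE j).1
  have h1 := hg.of_TT hMT
  apply N.unst (μ := (Σ p : κ × A, Fin (r p.2)))
  have h2 : Units.map (stm (Σ p : κ × A, Fin (r p.2))) X =
      (M * (Units.map (stm (Σ p : κ × A, Fin (r p.2))) X)⁻¹)⁻¹ * M := by
    group
  rw [h2]
  exact N.mul _ _ (N.inv _ h1) hVM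

end core

end Pool.Agent.H1.KK
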