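import Pool.Agent.H1.KK.CoreK
import Pool.Agent.H1.MK.Lin

set_option autoImplicit false
set_option linter.unusedSectionVars false
set_option linter.unusedSimpArgs false

/-!
# Gluing located idempotent matrices, relative to a smaller ring of coefficients
-/

namespace Pool.Agent.H1.KK

open Matrix TH57.Thr Pool.Agent.K4H37.MT Pool.Agent.H1.MV

section mg

variable {k₀ k : Type} [Ring k₀] [Ring k] (φ : k₀ →+* k) {G : Type} [Group G]

/-- the extension of the coefficients -/
noncomputable def mg (G : Type) [Group G] : MonoidAlgebra k₀ G →+* MonoidAlgebra k G :=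
  MonoidAlgebra.mapRingHom G φ

theorem mg_coeff (x : MonoidAlgebra k₀ G) (g : G) : (mg φ G x).coeff g = φ (x.coeff g) :=
  MonoidAlgebra.coeff_mapRingHom φ x g

theorem mg_single (g : G) (c : k₀) :
    mg φ G (MonoidAlgebra.single g c) = MonoidAlgebra.single g (φ c) :=
  MonoidAlgebra.mapRingHom_single φ g c

theorem mg_inc (H : Subgroup G) (x : MonoidAlgebra k₀ H) :
    mg φ G (inc k₀ H x) = inc k H (mg φ H x) := by
  induction x using MonoidAlgebra.induction_linear with
  | zero => rw [map_zero, map_zero, map_zero, map_zero]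
  | add f g hf hg => rw [map_add, map_add, map_add, map_add, hf, hg]
  | single a b =>
    rw [mg_single]
    change mg φ G (MonoidAlgebra.mapDomain _ (MonoidAlgebra.single a b)) =
      MonoidAlgebra.mapDomain _ (MonoidAlgebra.single a (φ b))
    rw [MonoidAlgebra.mapDomain_single, MonoidAlgebra.mapDomain_single, mg_single]

theorem ty_mg {Ω Ω' : Type} [MulAction G Ω] [MulAction G Ω'] {m n : Type} {a : m → Ω}
    {b : n → Ω'} {r : Ω → Ω' → Prop} {M : Matrix m n (MonoidAlgebra k₀ G)} (h : Ty a b r M) :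
    Ty a b r (M.map (mg φ G)) := by
  intro i j g hg
  apply h i j g
  intro h0
  apply hg
  rw [Matrix.map_apply, mg_coeff, h0, map_zero]

end mg

section glue

variable {k₀ k : Type} [Ring k₀] [Ring k] {φ : k₀ →+* k} {G : Type} [Group G] {Ω : Type}
  [MulAction G Ω]
  {J : Type} [Fintype J] [DecidableEq J] {ε : J → Ω} {e : Matrix J J (MonoidAlgebra k G)}

/-- **Gluing**: an idempotent located matrix with stably induced restrictions is stably conjugate to
a located matrix over the smaller ring. -/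
theorem glueR [DecidableEq Ω] (h : Ty ε ε Eq e) (he : e * e = e)
    (hgood : ∀ (g : G) j j', g • ε j = ε j' → ε j = ε j')
    (hS : ∀ j, SI (mg φ (MulAction.stabilizer G (ε j))) (Mo (desc ε e (ε j)))) :
    ∃ (K : Type) (_ : Fintype K) (_ : DecidableEq K) (εK : K → Ω) (l : K → Bool)
      (p : Matrix (J ⊕ K) (J ⊕ K) (MonoidAlgebra k₀ G))
      (X : (Matrix (J ⊕ K) (J ⊕ K) (MonoidAlgebra k G))ˣ),
      (∀ κ, ∃ j, ε j = εK κ) ∧ p * p = p ∧
      Ty (Sum.elim ε εK) (Sum.elim ε εK) Eq X.val ∧
      Ty (Sum.elim ε εK) (Sum.elim ε εK) Eq (X⁻¹).val ∧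
      (fromBlocks e 0 0 (Matrix.diagonal fun κ => if l κ then 1 else 0) :
        Matrix (J ⊕ K) (J ⊕ K) (MonoidAlgebra k G)) * X.val
        = X.val * p.map (mg φ G) := by
  classical
  let Θ : Type := Set.range ε
  have hf : Finite Θ := Set.finite_range ε
  have : Fintype Θ := Fintype.ofFinite Θ
  have h1 : ∀ θ : Θ, ∃ (s : ℕ) (ν : Type) (_ : Fintype ν) (_ : DecidableEq ν)
      (p : Matrix ν ν (MonoidAlgebra k₀ (MulAction.stabilizer G θ.1)))
      (T T' : Matrix ({j // ε j = θ.1} ⊕ (Fin s ⊕ ν)) ({j // ε j = θ.1} ⊕ (Fin s ⊕ ν))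
        (MonoidAlgebra k (MulAction.stabilizer G θ.1))),
      p * p = p ∧ T * T' = 1 ∧ T' * T = 1 ∧
      (fromBlocks (desc ε e θ.1) 0 0 (fromBlocks 1 0 0 0) :
        Matrix ({j // ε j = θ.1} ⊕ (Fin s ⊕ ν)) ({j // ε j = θ.1} ⊕ (Fin s ⊕ ν)) _) * T
        = T * (fromBlocks 0 0 0 (fromBlocks 0 0 0 (p.map (mg φ _))) :
          Matrix ({j // ε j = θ.1} ⊕ (Fin s ⊕ ν)) ({j // ε j = θ.1} ⊕ (Fin s ⊕ ν)) _) := by
    rintro ⟨θ, j, rfl⟩
    exact idem_ind (desc_idem h he hgood (ε j)) (hS j)
  choose s ν iν1 iν2 q T T' hq hTT' hT'T hE using h1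
  let JK : Θ → Type := fun θ => {j // ε j = θ.1} ⊕ (Fin (s θ) ⊕ ν θ)
  let K : Type := Σ θ : Θ, (Fin (s θ) ⊕ ν θ)
  let E : (Σ θ : Θ, JK θ) ≃ J ⊕ K :=
    { toFun := fun p => Sum.elim (fun j => Sum.inl j.1) (fun κ => Sum.inr ⟨p.1, κ⟩) p.2
      invFun := Sum.elim (fun j => ⟨⟨ε j, j, rfl⟩, Sum.inl ⟨j, rfl⟩⟩)
        (fun κ => ⟨κ.1, Sum.inr κ.2⟩)
      left_inv := by
        rintro ⟨⟨θ, hθ⟩, p⟩
        rcases p with ⟨j, hj⟩ | κ
        · have hj' : ε j = θ := hj
          subst hj'
          rfl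
        · rfl
      right_inv := by
        rintro (j | κ) <;> rfl }
  let ic : ∀ θ : Θ, MonoidAlgebra k (MulAction.stabilizer G θ.1) →+* MonoidAlgebra k G :=
    fun θ => inc k (MulAction.stabilizer G θ.1)
  let ic₀ : ∀ θ : Θ, MonoidAlgebra k₀ (MulAction.stabilizer G θ.1) →+* MonoidAlgebra k₀ G :=
    fun θ => inc k₀ (MulAction.stabilizer G θ.1)
  let BT : Matrix (Σ θ : Θ, JK θ) (Σ θ : Θ, JK θ) (MonoidAlgebra k G) :=
    blockDiagonal' fun θ => (T θ).map (ic θ)
  let BT' : Matrix (Σ θ : Θ, JK θ) (Σ θ : Θ, JK θ) (MonoidAlgebra k G) :=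
    blockDiagonal' fun θ => (T' θ).map (ic θ)
  have g1 : BT * BT' = 1 := by
    rw [← blockDiagonal'_mul, ← blockDiagonal'_one]
    congr 1
    funext θ
    rw [← Matrix.map_mul, hTT' θ]
    exact Matrix.map_one _ (map_zero _) (map_one _)
  have g2 : BT' * BT = 1 := by
    rw [← blockDiagonal'_mul, ← blockDiagonal'_one]
    congr 1
    funext θ
    rw [← Matrix.map_mul, hT'T θ]
    exact Matrix.map_one _ (map_zero _) (map_one _)
  let l : K → Bool := fun κ => κ.2.isLeft
  let BE : Matrix (Σ θ : Θ, JK θ) (Σ θ : Θ, JK θ) (MonoidAlgebra k G) :=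
    blockDiagonal' fun θ => (fromBlocks (desc ε e θ.1) 0 0 (fromBlocks 1 0 0 0) :
      Matrix (JK θ) (JK θ) (MonoidAlgebra k (MulAction.stabilizer G θ.1))).map (ic θ)
  let pt : ∀ θ : Θ, Matrix (JK θ) (JK θ) (MonoidAlgebra k₀ (MulAction.stabilizer G θ.1)) :=
    fun θ => fromBlocks 0 0 0 (fromBlocks 0 0 0 (q θ))
  have hpt : ∀ θ, pt θ * pt θ = pt θ := fun θ =>
    blocks_idem (Matrix.zero_mul _) (blocks_idem (Matrix.zero_mul _) (hq θ))
  let Bp : Matrix (Σ θ : Θ, JK θ) (Σ θ : Θ, JK θ) (MonoidAlgebra k₀ G) :=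
    blockDiagonal' fun θ => (pt θ).map (ic₀ θ)
  have hBp : Bp * Bp = Bp := by
    change (blockDiagonal' fun θ => (pt θ).map (ic₀ θ)) *
      (blockDiagonal' fun θ => (pt θ).map (ic₀ θ)) = _
    rw [← blockDiagonal'_mul]
    congr 1
    funext θ
    rw [← Matrix.map_mul, hpt θ]
  have iK : ∀ (θ : Θ) (x y : Fin (s θ) ⊕ ν θ), (⟨θ, x⟩ : K) = ⟨θ, y⟩ → x = y :=
    fun _ _ _ h => eq_of_heq (Sigma.mk.inj h).2
  have g4 : Bp.map (mg φ G) = blockDiagonal' fun θ => (fromBlocks 0 0 0 (fromBlocks 0 0 0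
      ((q θ).map (mg φ _))) : Matrix (JK θ) (JK θ)
        (MonoidAlgebra k (MulAction.stabilizer G θ.1))).map (ic θ) := by
    change (blockDiagonal' fun θ => (pt θ).map (ic₀ θ)).map (mg φ G) = _
    rw [blockDiagonal'_map _ _ (map_zero _)]
    congr 1
    funext θ
    have h3 : (pt θ).map (mg φ (MulAction.stabilizer G θ.1)) =
        fromBlocks 0 0 0 (fromBlocks 0 0 0 ((q θ).map (mg φ _))) := by
      change (fromBlocks 0 0 0 (fromBlocks 0 0 0 (q θ))).map _ = _
      rw [blocks_map, blocks_map, Matrix.map_zero _ (map_zero _), Matrix.map_zero _ (map_zero _)]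
    rw [← h3]
    ext1 i j
    exact mg_inc φ _ _
  have g3 : BE * BT = BT * Bp.map (mg φ G) := by
    rw [g4, ← blockDiagonal'_mul, ← blockDiagonal'_mul]
    congr 1
    funext θ
    rw [← Matrix.map_mul, ← Matrix.map_mul]
    exact congrArg (fun M => Matrix.map M (ic θ)) (hE θ)
  let ep : Matrix (J ⊕ K) (J ⊕ K) (MonoidAlgebra k G) :=
    fromBlocks e 0 0 (Matrix.diagonal fun κ => if l κ then 1 else 0)
  have g5 : ep = BE.submatrix E.symm E.symm := by
    have : ep.submatrix E E = BE := by
      ext1 ⟨θ, i⟩ ⟨θ', i'⟩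
      rw [Matrix.submatrix_apply]
      by_cases hθ : θ = θ'
      · subst hθ
        change _ = blockDiagonal' _ _ _
        rw [blockDiagonal'_apply_eq, Matrix.map_apply]
        rcases i with i | i <;> rcases i' with i' | i'
        · rw [fromBlocks_apply₁₁]
          change e i.1 i'.1 = ic θ (desc ε e θ.1 i i')
          exact (desc_inc h θ.1 i i').symm
        · rw [fromBlocks_apply₁₂, Matrix.zero_apply, map_zero]; rfl
        · rw [fromBlocks_apply₂₁, Matrix.zero_apply, map_zero]; rfl
        · rw [fromBlocks_apply₂₂]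
          change (Matrix.diagonal fun κ : K => if l κ then (1 : MonoidAlgebra k G) else 0)
            ⟨θ, i⟩ ⟨θ, i'⟩ = _
          rcases i with i | i <;> rcases i' with i' | i'
          · by_cases hi : i = i'
            · subst hi
              rw [Matrix.diagonal_apply_eq, fromBlocks_apply₁₁, Matrix.one_apply_eq, map_one]
              rfl
            · rw [Matrix.diagonal_apply_ne, fromBlocks_apply₁₁, Matrix.one_apply_ne hi, map_zero]
              intro h
              exact hi (Sum.inl_injective (iK _ _ _ h))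
          · rw [Matrix.diagonal_apply_ne, fromBlocks_apply₁₂, Matrix.zero_apply, map_zero]
            intro h
            exact absurd (iK _ _ _ h) (by simp)
          · rw [Matrix.diagonal_apply_ne, fromBlocks_apply₂₁, Matrix.zero_apply, map_zero]
            intro h
            exact absurd (iK _ _ _ h) (by simp)
          · rw [fromBlocks_apply₂₂, Matrix.zero_apply, map_zero]
            by_cases hi : i = i'
            · subst hi
              rw [Matrix.diagonal_apply_eq]
              rfl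
            · rw [Matrix.diagonal_apply_ne]
              intro h
              exact hi (Sum.inr_injective (iK _ _ _ h))
      · change _ = blockDiagonal' _ _ _
        rw [blockDiagonal'_apply_ne _ _ _ hθ]
        rcases i with i | i <;> rcases i' with i' | i'
        · change e i.1 i'.1 = 0
          by_contra hne
          have h4 : ∃ g, (e i.1 i'.1).coeff g ≠ 0 := by
            by_contra hcon
            push Not at hcon
            apply hne
            apply MonoidAlgebra.coeff_injective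
            ext g
            exact hcon g
          obtain ⟨g, hg⟩ := h4
          have h5 := hgood _ _ _ (h i.1 i'.1 g hg)
          rw [i.2, i'.2] at h5
          exact hθ (Subtype.ext h5)
        · rfl
        · rfl
        · change (Matrix.diagonal fun κ : K => if l κ then (1 : MonoidAlgebra k G) else 0)
            ⟨θ, i⟩ ⟨θ', i'⟩ = _
          rw [Matrix.diagonal_apply_ne]
          intro h
          exact hθ (congrArg Sigma.fst h)
    rw [← this]
    ext i j
    simp
  have hε : ∀ p : Σ θ : Θ, JK θ, Sum.elim ε (fun κ : K => κ.1.1) (E p) = p.1.1 := by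
    rintro ⟨θ, j | κ⟩
    · exact j.2
    · rfl
  have hty : ∀ (Z : ∀ θ : Θ, Matrix (JK θ) (JK θ) (MonoidAlgebra k (MulAction.stabilizer G θ.1))),
      Ty (Sum.elim ε (fun κ : K => κ.1.1)) (Sum.elim ε (fun κ : K => κ.1.1)) Eq
        ((blockDiagonal' fun θ => (Z θ).map (ic θ)).submatrix E.symm E.symm) := by
    intro Z i j g hg
    rw [Matrix.submatrix_apply] at hg
    obtain ⟨p, rfl⟩ := E.surjective i
    obtain ⟨p', rfl⟩ := E.surjective j
    rw [E.symm_apply_apply, E.symm_apply_apply] at hg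
    rw [hε, hε]
    obtain ⟨θ, p⟩ := p
    obtain ⟨θ', p'⟩ := p'
    by_cases hθ : θ = θ'
    · subst hθ
      rw [blockDiagonal'_apply_eq, Matrix.map_apply] at hg
      have := inc_coeff _ _ _ hg
      exact inv_smul_eq_iff.2 (MulAction.mem_stabilizer_iff.1 this).symm
    · rw [blockDiagonal'_apply_ne _ _ _ hθ] at hg
      simp at hg
  let X : (Matrix (J ⊕ K) (J ⊕ K) (MonoidAlgebra k G))ˣ :=
    { val := BT.submatrix E.symm E.symm
      inv := BT'.submatrix E.symm E.symm
      val_inv := by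
        rw [Matrix.submatrix_mul_equiv, g1, Matrix.submatrix_one_equiv]
      inv_val := by
        rw [Matrix.submatrix_mul_equiv, g2, Matrix.submatrix_one_equiv] }
  refine ⟨K, inferInstance, inferInstance, fun κ => κ.1.1, l, Bp.submatrix E.symm E.symm, X,
    fun κ => κ.1.2, ?_, hty T, hty T', ?_⟩
  · rw [Matrix.submatrix_mul_equiv, hBp]
  · have key : ep * X.val = X.val * (Bp.map (mg φ G)).submatrix E.symm E.symm := by
      change ep * BT.submatrix E.symm E.symm = BT.submatrix E.symm E.symm * _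
      rw [g5, Matrix.submatrix_mul_equiv, g3, Matrix.submatrix_mul_equiv]
    exact key

end glue

end Pool.Agent.H1.KK
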