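import Pool.Agent.H1.MV.SFR

set_option autoImplicit false
set_option linter.unusedSectionVars false
set_option linter.unusedSimpArgs false

/-!
# Modules which are stably induced
-/

namespace Pool.Agent.H1.KK

open Matrix Pool.Agent.H1.MV

section si

variable {k R : Type} [Ring k] [Ring R]

/-- the module is stably induced from an idempotent matrix over `k` -/
def SI (φ : k →+* R) (P : Type) [AddCommGroup P] [Module R P] : Prop :=
  ∃ (ν : Type) (_ : Fintype ν) (_ : DecidableEq ν) (p : Matrix ν ν k), p * p = p ∧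
    SE (S := R) P (Mo (p.map φ))

/-- all finitely generated projective modules are stably induced -/
def AllSI (φ : k →+* R) : Prop :=
  ∀ (P : Type) [AddCommGroup P] [Module R P] [Module.Finite R P] [Module.Projective R P], SI φ P

variable {φ : k →+* R}

theorem SI.se {M N : Type} [AddCommGroup M] [Module R M] [AddCommGroup N] [Module R N]
    (h : SE (S := R) M N) (h' : SI φ N) : SI φ M := by
  obtain ⟨ν, i1, i2, p, hp, h'⟩ := h'
  exact ⟨ν, i1, i2, p, hp, h.trans h'⟩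

theorem SI.iso {M N : Type} [AddCommGroup M] [Module R M] [AddCommGroup N] [Module R N]
    (e : M ≃ₗ[R] N) (h : SI φ M) : SI φ N := h.se (SE.of_equiv e.symm)

/-- the module of the identity matrix -/
def moOne (R : Type) [Ring R] (m : Type) [Fintype m] [DecidableEq m] :
    Mo (1 : Matrix m m R) ≃ₗ[R] (m → R) where
  toFun v := v
  map_add' _ _ := rfl
  map_smul' _ _ := rfl
  invFun v := ⟨v, ⟨v, Matrix.vecMul_one v⟩⟩
  left_inv _ := rfl
  right_inv _ := rfl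

theorem SI.of_free {C : Type} [Fintype C] : SI φ (C → R) := by
  classical
  refine ⟨C, inferInstance, inferInstance, 1, Matrix.one_mul _, SE.of_equiv ?_⟩
  rw [Matrix.map_one _ (map_zero _) (map_one _)]
  exact (moOne R C).symm

variable {m n : Type} [Fintype m] [DecidableEq m] [Fintype n] [DecidableEq n]

theorem blocks_map (φ : k →+* R) (p : Matrix m m k) (q : Matrix n n k) :
    (fromBlocks p 0 0 q).map φ = fromBlocks (p.map φ) 0 0 (q.map φ) := by
  rw [Matrix.fromBlocks_map]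
  congr 1
  · exact Matrix.map_zero _ (map_zero _)
  · exact Matrix.map_zero _ (map_zero _)

theorem blocks_idem {p : Matrix m m k} {q : Matrix n n k} (hp : p * p = p) (hq : q * q = q) :
    fromBlocks p 0 0 q * fromBlocks p 0 0 q = fromBlocks p 0 0 q := by
  rw [fromBlocks_multiply]
  simp [hp, hq]

theorem SI.prod {M N : Type} [AddCommGroup M] [Module R M] [AddCommGroup N] [Module R N]
    (h : SI φ M) (h' : SI φ N) : SI φ (M × N) := by
  obtain ⟨ν, i1, i2, p, hp, h⟩ := h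
  obtain ⟨ν', i1', i2', p', hp', h'⟩ := h'
  refine ⟨ν ⊕ ν', inferInstance, inferInstance, fromBlocks p 0 0 p', blocks_idem hp hp',
    (SE.prod h h').trans (SE.of_equiv ?_)⟩
  rw [blocks_map]
  exact (moBlocks _ _).symm

theorem map_idem (φ : k →+* R) {p : Matrix m m k} (hp : p * p = p) :
    p.map φ * p.map φ = p.map φ := by
  rw [← Matrix.map_mul, hp]

theorem sub_map (φ : k →+* R) (p : Matrix m m k) : (1 - p).map φ = 1 - p.map φ := by
  rw [Matrix.map_sub _ (map_sub φ), Matrix.map_one _ (map_zero _) (map_one _)]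

theorem SI.of_prod {M N : Type} [AddCommGroup M] [Module R M] [AddCommGroup N] [Module R N]
    (h : SI φ M) (h' : SI φ (M × N)) : SI φ N := by
  obtain ⟨ν, i1, i2, p, hp, h⟩ := h
  -- `N ~ N × R^ν ≅ N × (Mo p × Mo (1-p)) ≅ (Mo p × N) × Mo (1-p) ~ (M × N) × Mo (1-p)`
  have h0 : SI φ (Mo ((1 - p).map φ)) :=
    ⟨ν, i1, i2, 1 - p, one_sub_idem hp, SE.refl _⟩
  have h1 : SI φ ((M × N) × Mo ((1 - p).map φ)) := h'.prod h0
  have h2 : SE (S := R) ((Mo (p.map φ) × N) × Mo ((1 - p).map φ)) ((M × N) × Mo ((1 - p).map φ)) :=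
    SE.prod (SE.prod h.symm (SE.refl _)) (SE.refl _)
  have h3 : SE (S := R) N (N × (Fin (Fintype.card ν) → R)) :=
    ⟨Fintype.card ν, 0, ⟨((LinearEquiv.prodUnique (R := R) (M := N × (Fin (Fintype.card ν) → R))
      (M₂ := Fin 0 → R))).symm⟩⟩
  have e1 : (N × (Fin (Fintype.card ν) → R)) ≃ₗ[R] (N × (Mo (p.map φ) × Mo (1 - p.map φ))) :=
    LinearEquiv.prodCongr (LinearEquiv.refl R N)
      ((LinearEquiv.funCongrLeft R R (Fintype.equivFin ν)).trans (dec (p.map φ) (map_idem φ hp)))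
  have e2 : (N × (Mo (p.map φ) × Mo (1 - p.map φ))) ≃ₗ[R] ((Mo (p.map φ) × N) × Mo (1 - p.map φ)) :=
    (LinearEquiv.prodAssoc R N _ _).symm.trans
      (LinearEquiv.prodCongr (LinearEquiv.prodComm R _ _) (LinearEquiv.refl R _))
  have h4 : SE (S := R) N ((Mo (p.map φ) × N) × Mo ((1 - p).map φ)) := by
    rw [sub_map]
    exact h3.trans (SE.of_equiv (e1.trans e2))
  exact h1.se (h4.trans h2)

theorem SI.compl {e : Matrix m m R} (he : e * e = e) (h : SI φ (Mo e)) : SI φ (Mo (1 - e)) :=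
  h.of_prod ((SI.of_free (C := m)).iso (dec e he))

theorem AllSI.of_mo (h : ∀ (n : ℕ) (p : Matrix (Fin n) (Fin n) R), p * p = p → SI φ (Mo p)) :
    AllSI φ := by
  intro P _ _ _ _
  obtain ⟨n, p, hp, ⟨e⟩⟩ := exists_mo (S := R) P
  exact (h n p hp).iso e.symm

/-- an isomorphism of the images and of the kernels of idempotent matrices -/
theorem mo_iso {E : Matrix m m R} {F : Matrix n n R} (hE : E * E = E) (hF : F * F = F)
    (α : Mo E ≃ₗ[R] Mo F) (β : Mo (1 - E) ≃ₗ[R] Mo (1 - F)) :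
    ∃ (T : Matrix m n R) (T' : Matrix n m R), T * T' = 1 ∧ T' * T = 1 ∧ E * T = T * F := by
  let Ψ : (m → R) ≃ₗ[R] (n → R) := ((dec E hE).trans (LinearEquiv.prodCongr α β)).trans
    (dec F hF).symm
  have hΨ : ∀ v, Ψ v = (α (pr E v) : n → R) + (β (pr (1 - E) v) : n → R) := fun v => rfl
  refine ⟨LinearMap.toMatrixRight' Ψ.toLinearMap, LinearMap.toMatrixRight' Ψ.symm.toLinearMap,
    ?_, ?_, ?_⟩
  · rw [← LinearMap.toMatrixRight'_comp]
    have : Ψ.symm.toLinearMap ∘ₗ Ψ.toLinearMap = LinearMap.id :=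
      LinearMap.ext fun v => Ψ.symm_apply_apply v
    rw [this, LinearMap.toMatrixRight'_id]
  · rw [← LinearMap.toMatrixRight'_comp]
    have : Ψ.toLinearMap ∘ₗ Ψ.symm.toLinearMap = LinearMap.id :=
      LinearMap.ext fun v => Ψ.apply_symm_apply v
    rw [this, LinearMap.toMatrixRight'_id]
  · apply Matrix.toLinearMapRight'.injective
    rw [Matrix.toLinearMapRight'_mul, Matrix.toLinearMapRight'_mul]
    have h1 : Matrix.toLinearMapRight' (LinearMap.toMatrixRight' Ψ.toLinearMap) = Ψ.toLinearMap :=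
      LinearEquiv.symm_apply_apply _ _
    rw [h1]
    apply LinearMap.ext
    intro v
    rw [LinearMap.comp_apply, LinearMap.comp_apply, Matrix.toLinearMapRight'_apply,
      Matrix.toLinearMapRight'_apply]
    change Ψ (v ᵥ* E) = (Ψ v) ᵥ* F
    rw [hΨ, hΨ]
    have b1 : pr E (v ᵥ* E) = pr E v := by
      apply Subtype.ext
      rw [pr_coe, pr_coe, Matrix.vecMul_vecMul, hE]
    have b2 : pr (1 - E) (v ᵥ* E) = 0 := by
      apply Subtype.ext
      rw [pr_coe, Matrix.vecMul_vecMul, Matrix.mul_sub, Matrix.mul_one, hE, sub_self,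
        Matrix.vecMul_zero]
      rfl
    rw [b1, b2, map_zero, Matrix.add_vecMul, mo_fix hF, mo_kill hF]
    rfl

/-- the module of the zero matrix -/
theorem mo_zero_subsingleton : Subsingleton (Mo (0 : Matrix m m R)) := by
  constructor
  rintro ⟨_, ⟨v, rfl⟩⟩ ⟨_, ⟨w, rfl⟩⟩
  apply Subtype.ext
  change v ᵥ* 0 = w ᵥ* 0
  rw [Matrix.vecMul_zero, Matrix.vecMul_zero]

/-- a trivial factor -/
def prodSub (P Q : Type) [AddCommGroup P] [Module R P] [AddCommGroup Q] [Module R Q]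
    [Subsingleton Q] : (Q × P) ≃ₗ[R] P where
  toFun x := x.2
  map_add' _ _ := rfl
  map_smul' _ _ := rfl
  invFun x := (0, x)
  left_inv _ := Prod.ext (Subsingleton.elim _ _) rfl
  right_inv _ := rfl

/-- a trivial factor -/
def prodSub' (P Q : Type) [AddCommGroup P] [Module R P] [AddCommGroup Q] [Module R Q]
    [Subsingleton Q] : (P × Q) ≃ₗ[R] P where
  toFun x := x.1
  map_add' _ _ := rfl
  map_smul' _ _ := rfl
  invFun x := (x, 0)
  left_inv _ := Prod.ext rfl (Subsingleton.elim _ _)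
  right_inv _ := rfl

/-- three blocks -/
def blk3 {l : Type} [Fintype l] [DecidableEq l] (A : Matrix m m R) (B : Matrix n n R)
    (C : Matrix l l R) : Mo (fromBlocks A 0 0 (fromBlocks B 0 0 C)) ≃ₗ[R] (Mo A × (Mo B × Mo C)) :=
  (moBlocks A (fromBlocks B 0 0 C)).trans
    (LinearEquiv.prodCongr (LinearEquiv.refl R (Mo A)) (moBlocks B C))

/-- **The matrix form of stable induction.** -/
theorem idem_ind {e : Matrix m m R} (he : e * e = e) (h : SI φ (Mo e)) :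
    ∃ (s : ℕ) (ν : Type) (_ : Fintype ν) (_ : DecidableEq ν) (p : Matrix ν ν k)
      (T T' : Matrix (m ⊕ (Fin s ⊕ ν)) (m ⊕ (Fin s ⊕ ν)) R),
      p * p = p ∧ T * T' = 1 ∧ T' * T = 1 ∧
      (fromBlocks e 0 0 (fromBlocks 1 0 0 0) :
        Matrix (m ⊕ (Fin s ⊕ ν)) (m ⊕ (Fin s ⊕ ν)) R) * T
        = T * (fromBlocks 0 0 0 (fromBlocks 0 0 0 (p.map φ)) :
          Matrix (m ⊕ (Fin s ⊕ ν)) (m ⊕ (Fin s ⊕ ν)) R) := by
  obtain ⟨ν₀, i1, i2, p₀, hp₀, a, b, ⟨f⟩⟩ := h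
  obtain ⟨ν, _, _, p, hp, ⟨f'⟩⟩ : ∃ (ν : Type) (_ : Fintype ν) (_ : DecidableEq ν)
      (p : Matrix ν ν k), p * p = p ∧ Nonempty ((Mo e × (Fin a → R)) ≃ₗ[R] Mo (p.map φ)) := by
    refine ⟨ν₀ ⊕ Fin b, inferInstance, inferInstance, fromBlocks p₀ 0 0 1,
      blocks_idem hp₀ (Matrix.one_mul _), ⟨?_⟩⟩
    rw [blocks_map, Matrix.map_one _ (map_zero _) (map_one _)]
    have u1 : (Mo (p₀.map φ) × (Fin b → R)) ≃ₗ[R]
        Mo (fromBlocks (p₀.map φ) 0 0 (1 : Matrix (Fin b) (Fin b) R)) :=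
      (LinearEquiv.prodCongr (LinearEquiv.refl R _) (moOne R (Fin b)).symm).trans
        (moBlocks _ _).symm
    exact f.trans u1
  obtain ⟨pR, hpRe⟩ : ∃ pR : Matrix ν ν R, pR = p.map φ := ⟨_, rfl⟩
  have hpR : pR * pR = pR := by rw [hpRe]; exact map_idem φ hp
  rw [← hpRe] at f'
  have s0 : Subsingleton (Mo (0 : Matrix ν ν R)) := mo_zero_subsingleton
  have s1 : Subsingleton (Mo (0 : Matrix (Fin a) (Fin a) R)) := mo_zero_subsingleton
  have s2 : Subsingleton (Mo (0 : Matrix m m R)) := mo_zero_subsingleton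
  -- the images
  have a1 : (Mo e × (Mo (1 : Matrix (Fin a) (Fin a) R) × Mo (0 : Matrix ν ν R))) ≃ₗ[R]
      (Mo e × (Fin a → R)) :=
    LinearEquiv.prodCongr (LinearEquiv.refl R (Mo e))
      ((prodSub' (R := R) (Mo (1 : Matrix (Fin a) (Fin a) R)) (Mo (0 : Matrix ν ν R))).trans
        (moOne R (Fin a)))
  have a2 : (Mo (0 : Matrix m m R) × (Mo (0 : Matrix (Fin a) (Fin a) R) × Mo pR)) ≃ₗ[R] Mo pR :=
    (prodSub (R := R) (Mo (0 : Matrix (Fin a) (Fin a) R) × Mo pR) (Mo (0 : Matrix m m R))).trans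
      (prodSub (R := R) (Mo pR) (Mo (0 : Matrix (Fin a) (Fin a) R)))
  have α : Mo (fromBlocks e 0 0 (fromBlocks 1 0 0 0) :
        Matrix (m ⊕ (Fin a ⊕ ν)) (m ⊕ (Fin a ⊕ ν)) R) ≃ₗ[R]
      Mo (fromBlocks 0 0 0 (fromBlocks 0 0 0 pR) :
        Matrix (m ⊕ (Fin a ⊕ ν)) (m ⊕ (Fin a ⊕ ν)) R) :=
    ((((blk3 e (1 : Matrix (Fin a) (Fin a) R) (0 : Matrix ν ν R)).trans a1).trans f').trans
      a2.symm).trans (blk3 (0 : Matrix m m R) (0 : Matrix (Fin a) (Fin a) R) pR).symm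
  have c1 : (1 : Matrix (m ⊕ (Fin a ⊕ ν)) (m ⊕ (Fin a ⊕ ν)) R) -
      fromBlocks e 0 0 (fromBlocks 1 0 0 0) =
      fromBlocks (1 - e) 0 0 (fromBlocks 0 0 0 1) := by
    rw [sub_eq_iff_eq_add, fromBlocks_add, fromBlocks_add]
    simp
  have c2 : (1 : Matrix (m ⊕ (Fin a ⊕ ν)) (m ⊕ (Fin a ⊕ ν)) R) -
      fromBlocks 0 0 0 (fromBlocks 0 0 0 pR) =
      fromBlocks 1 0 0 (fromBlocks 1 0 0 (1 - pR)) := by
    rw [sub_eq_iff_eq_add, fromBlocks_add, fromBlocks_add]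
    simp
  have g0 : (Mo (1 - e) × (Mo e × (Fin a → R))) ≃ₗ[R] ((m → R) × (Fin a → R)) :=
    (LinearEquiv.prodAssoc R (Mo (1 - e)) (Mo e) (Fin a → R)).symm.trans
      (LinearEquiv.prodCongr ((LinearEquiv.prodComm R (Mo (1 - e)) (Mo e)).trans (dec e he).symm)
        (LinearEquiv.refl R (Fin a → R)))
  have g1 : (Mo (1 - e) × (ν → R)) ≃ₗ[R] ((m → R) × ((Fin a → R) × Mo (1 - pR))) :=
    (((LinearEquiv.prodCongr (LinearEquiv.refl R (Mo (1 - e))) (dec pR hpR)).trans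
      (LinearEquiv.prodAssoc R (Mo (1 - e)) (Mo pR) (Mo (1 - pR))).symm).trans
      (LinearEquiv.prodCongr
        ((LinearEquiv.prodCongr (LinearEquiv.refl R (Mo (1 - e))) f'.symm).trans g0)
        (LinearEquiv.refl R (Mo (1 - pR))))).trans
      (LinearEquiv.prodAssoc R (m → R) (Fin a → R) (Mo (1 - pR)))
  have b1 : (Mo (1 - e) × (Mo (0 : Matrix (Fin a) (Fin a) R) × Mo (1 : Matrix ν ν R))) ≃ₗ[R]
      (Mo (1 - e) × (ν → R)) :=
    LinearEquiv.prodCongr (LinearEquiv.refl R (Mo (1 - e)))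
      ((prodSub (R := R) (Mo (1 : Matrix ν ν R)) (Mo (0 : Matrix (Fin a) (Fin a) R))).trans
        (moOne R ν))
  have b2 : (Mo (1 : Matrix m m R) × (Mo (1 : Matrix (Fin a) (Fin a) R) × Mo (1 - pR))) ≃ₗ[R]
      ((m → R) × ((Fin a → R) × Mo (1 - pR))) :=
    LinearEquiv.prodCongr (moOne R m) (LinearEquiv.prodCongr (moOne R (Fin a))
      (LinearEquiv.refl R (Mo (1 - pR))))
  have β : Mo ((1 : Matrix (m ⊕ (Fin a ⊕ ν)) (m ⊕ (Fin a ⊕ ν)) R) -
      fromBlocks e 0 0 (fromBlocks 1 0 0 0)) ≃ₗ[R]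
      Mo ((1 : Matrix (m ⊕ (Fin a ⊕ ν)) (m ⊕ (Fin a ⊕ ν)) R) -
      fromBlocks 0 0 0 (fromBlocks 0 0 0 pR)) := by
    rw [c1, c2]
    exact ((((blk3 (1 - e) (0 : Matrix (Fin a) (Fin a) R) (1 : Matrix ν ν R)).trans b1).trans
      g1).trans b2.symm).trans (blk3 (1 : Matrix m m R) (1 : Matrix (Fin a) (Fin a) R)
        (1 - pR)).symm
  have hE : (fromBlocks e 0 0 (fromBlocks 1 0 0 0) :
        Matrix (m ⊕ (Fin a ⊕ ν)) (m ⊕ (Fin a ⊕ ν)) R) *
        fromBlocks e 0 0 (fromBlocks 1 0 0 0) = fromBlocks e 0 0 (fromBlocks 1 0 0 0) :=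
    blocks_idem he (blocks_idem (Matrix.one_mul _) (Matrix.zero_mul _))
  have hF : (fromBlocks 0 0 0 (fromBlocks 0 0 0 pR) :
        Matrix (m ⊕ (Fin a ⊕ ν)) (m ⊕ (Fin a ⊕ ν)) R) *
        fromBlocks 0 0 0 (fromBlocks 0 0 0 pR) = fromBlocks 0 0 0 (fromBlocks 0 0 0 pR) :=
    blocks_idem (Matrix.zero_mul _) (blocks_idem (Matrix.zero_mul _) hpR)
  obtain ⟨T, T', h1, h2, h3⟩ := mo_iso hE hF α β
  refine ⟨a, ν, inferInstance, inferInstance, p, T, T', hp, h1, h2, ?_⟩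
  rw [← hpRe]
  exact h3

end si

end Pool.Agent.H1.KK
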