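import Pool.Agent.H1.KK.LauI

set_option autoImplicit false
set_option linter.unusedSectionVars false
set_option linter.unusedSimpArgs false

/-!
# Extension of scalars for stable isomorphisms
-/

namespace Pool.Agent.H1.KK

open Matrix Pool.Agent.H1.MV

section se

variable {R R' : Type} [Ring R] [Ring R'] {m n : Type} [Fintype m] [DecidableEq m] [Fintype n]
  [DecidableEq n]

/-- the matrices of an isomorphism -/
theorem mo_uw {E : Matrix m m R} {F : Matrix n n R} (hE : E * E = E) (hF : F * F = F)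
    (f : Mo E ≃ₗ[R] Mo F) : ∃ (U : Matrix m n R) (W : Matrix n m R), U * W = E ∧ W * U = F := by
  let u : (m → R) →ₗ[R] (n → R) := (Mo F).subtype ∘ₗ f.toLinearMap ∘ₗ pr E
  let w : (n → R) →ₗ[R] (m → R) := (Mo E).subtype ∘ₗ f.symm.toLinearMap ∘ₗ pr F
  have hu : ∀ v, u v = (f (pr E v) : n → R) := fun v => rfl
  have hw : ∀ v, w v = (f.symm (pr F v) : m → R) := fun v => rfl
  have pE : ∀ x : Mo E, pr E (x : m → R) = x := fun x => Subtype.ext (mo_fix hE x)
  have pF : ∀ x : Mo F, pr F (x : n → R) = x := fun x => Subtype.ext (mo_fix hF x)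
  refine ⟨LinearMap.toMatrixRight' u, LinearMap.toMatrixRight' w, ?_, ?_⟩
  · apply Matrix.toLinearMapRight'.injective
    rw [Matrix.toLinearMapRight'_mul]
    have h1 : Matrix.toLinearMapRight' (LinearMap.toMatrixRight' u) = u :=
      LinearEquiv.symm_apply_apply _ _
    have h2 : Matrix.toLinearMapRight' (LinearMap.toMatrixRight' w) = w :=
      LinearEquiv.symm_apply_apply _ _
    rw [h1, h2]
    apply LinearMap.ext
    intro v
    rw [LinearMap.comp_apply, Matrix.toLinearMapRight'_apply, hu, hw, pF,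
      LinearEquiv.symm_apply_apply, pr_coe]
  · apply Matrix.toLinearMapRight'.injective
    rw [Matrix.toLinearMapRight'_mul]
    have h1 : Matrix.toLinearMapRight' (LinearMap.toMatrixRight' u) = u :=
      LinearEquiv.symm_apply_apply _ _
    have h2 : Matrix.toLinearMapRight' (LinearMap.toMatrixRight' w) = w :=
      LinearEquiv.symm_apply_apply _ _
    rw [h1, h2]
    apply LinearMap.ext
    intro v
    rw [LinearMap.comp_apply, Matrix.toLinearMapRight'_apply, hw, hu, pE,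
      LinearEquiv.apply_symm_apply, pr_coe]

/-- the isomorphism of matrices -/
def moUw {E : Matrix m m R} {F : Matrix n n R} (U : Matrix m n R) (W : Matrix n m R)
    (h1 : U * W = E) (h2 : W * U = F) (hE : E * E = E) (hF : F * F = F) :
    Mo E ≃ₗ[R] Mo F where
  toFun v := ⟨(v : m → R) ᵥ* U, by
    rw [mem_mo_iff hF, ← h2, Matrix.vecMul_vecMul, ← Matrix.mul_assoc, h1, ← Matrix.vecMul_vecMul,
      mo_fix hE]⟩
  map_add' v w := Subtype.ext (Matrix.add_vecMul _ _ _)
  map_smul' r v := Subtype.ext (Matrix.smul_vecMul _ _ _)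
  invFun v := ⟨(v : n → R) ᵥ* W, by
    rw [mem_mo_iff hE, ← h1, Matrix.vecMul_vecMul, ← Matrix.mul_assoc, h2, ← Matrix.vecMul_vecMul,
      mo_fix hF]⟩
  left_inv v := by
    apply Subtype.ext
    change ((v : m → R) ᵥ* U) ᵥ* W = v
    rw [Matrix.vecMul_vecMul, h1, mo_fix hE]
  right_inv v := by
    apply Subtype.ext
    change ((v : n → R) ᵥ* W) ᵥ* U = v
    rw [Matrix.vecMul_vecMul, h2, mo_fix hF]

/-- stable isomorphism in terms of block sums -/
theorem se_blocks {E : Matrix m m R} {F : Matrix n n R} :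
    SE (S := R) (Mo E) (Mo F) ↔ ∃ a b : ℕ, Nonempty (Mo (fromBlocks E 0 0 (1 : Matrix (Fin a) (Fin a) R))
      ≃ₗ[R] Mo (fromBlocks F 0 0 (1 : Matrix (Fin b) (Fin b) R))) := by
  have h1 : ∀ (a : ℕ) (m : Type) [Fintype m] [DecidableEq m] (E : Matrix m m R),
      Nonempty (Mo (fromBlocks E 0 0 (1 : Matrix (Fin a) (Fin a) R)) ≃ₗ[R]
        (Mo E × (Fin a → R))) := fun a m _ _ E =>
    ⟨(moBlocks E (1 : Matrix (Fin a) (Fin a) R)).trans
      (LinearEquiv.prodCongr (LinearEquiv.refl R (Mo E)) (moOne R (Fin a)))⟩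
  constructor
  · rintro ⟨a, b, ⟨e⟩⟩
    obtain ⟨e1⟩ := h1 a m E
    obtain ⟨e2⟩ := h1 b n F
    exact ⟨a, b, ⟨(e1.trans e).trans e2.symm⟩⟩
  · rintro ⟨a, b, ⟨e⟩⟩
    obtain ⟨e1⟩ := h1 a m E
    obtain ⟨e2⟩ := h1 b n F
    exact ⟨a, b, ⟨(e1.symm.trans e).trans e2⟩⟩

/-- **Extension of scalars** -/
theorem se_map (ψ : R →+* R') {E : Matrix m m R} {F : Matrix n n R} (hE : E * E = E)
    (hF : F * F = F) (h : SE (S := R) (Mo E) (Mo F)) :
    SE (S := R') (Mo (E.map ψ)) (Mo (F.map ψ)) := by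
  rw [se_blocks] at h ⊢
  obtain ⟨a, b, ⟨f⟩⟩ := h
  obtain ⟨U, W, h1, h2⟩ := mo_uw (blocks_idem hE (Matrix.one_mul _))
    (blocks_idem hF (Matrix.one_mul _)) f
  have e1 : ∀ (a : ℕ) (m : Type) [Fintype m] [DecidableEq m] (E : Matrix m m R),
      (fromBlocks E 0 0 (1 : Matrix (Fin a) (Fin a) R)).map ψ = fromBlocks (E.map ψ) 0 0 1 := by
    intro a m _ _ E
    rw [blocks_map, Matrix.map_one _ (map_zero _) (map_one _)]
  refine ⟨a, b, ⟨moUw (U.map ψ) (W.map ψ) ?_ ?_ ?_ ?_⟩⟩
  · rw [← Matrix.map_mul, h1, e1]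
  · rw [← Matrix.map_mul, h2, e1]
  · exact blocks_idem (map_idem ψ hE) (Matrix.one_mul _)
  · exact blocks_idem (map_idem ψ hF) (Matrix.one_mul _)

end se

section comp

variable {k R R' : Type} [Ring k] [Ring R] [Ring R']

theorem SI.map {φ : k →+* R} (ψ : R →+* R') {m : Type} [Fintype m] [DecidableEq m]
    {E : Matrix m m R} (hE : E * E = E) (h : SI φ (Mo E)) : SI (ψ.comp φ) (Mo (E.map ψ)) := by
  obtain ⟨ν, i1, i2, p, hp, h⟩ := h
  refine ⟨ν, i1, i2, p, hp, ?_⟩
  have h1 := se_map ψ hE (map_idem φ hp) h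
  rwa [Matrix.map_map] at h1

theorem AllSI.comp {φ : k →+* R} {ψ : R →+* R'} (h : AllSI φ) (h' : AllSI ψ) :
    AllSI (ψ.comp φ) := by
  intro P _ _ _ _
  obtain ⟨ν, i1, i2, p, hp, h1⟩ := h' P
  have := mo_finite p
  have := mo_projective hp
  exact ((h (Mo p)).map ψ hp).se h1

theorem AllSI.equiv (e : R ≃+* R') : AllSI (e : R →+* R') := by
  apply AllSI.of_mo
  intro n p hp
  refine ⟨Fin n, inferInstance, inferInstance, p.map e.symm, ?_, ?_⟩
  · have h1 : (p.map e.symm) * (p.map e.symm) = (p * p).map e.symm :=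
      (Matrix.map_mul (f := (e.symm : R' →+* R))).symm
    rw [h1, hp]
  · have h4 : (p.map e.symm).map (e : R →+* R') = p := by
      ext1 i j
      exact e.apply_symm_apply _
    rw [h4]
    exact SE.refl _

theorem AllSI.of_comp {φ : k →+* R} {ψ : R →+* R'} (h : AllSI (ψ.comp φ)) : AllSI ψ := by
  intro P _ _ _ _
  obtain ⟨ν, i1, i2, p, hp, h1⟩ := h P
  refine ⟨ν, i1, i2, p.map φ, map_idem φ hp, ?_⟩
  rw [Matrix.map_map]
  exact h1

theorem AllSI.id : AllSI (RingHom.id R) := AllSI.equiv (RingEquiv.refl R)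

end comp

section kg

variable {k : Type} [Ring k] {G H : Type} [Group G] [Group H]

/-- the induced homomorphism of group rings -/
theorem io_map (e : G ≃* H) : ((MonoidAlgebra.mapDomainRingEquiv k e : MonoidAlgebra k G ≃+*
    MonoidAlgebra k H) : MonoidAlgebra k G →+* MonoidAlgebra k H).comp (io k G) = io k H := by
  apply RingHom.ext
  intro c
  change MonoidAlgebra.mapDomainRingEquiv k e (MonoidAlgebra.single 1 c) = MonoidAlgebra.single 1 c
  simp

theorem AllSI.congr (e : G ≃* H) (h : AllSI (io k G)) : AllSI (io k H) := by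
  rw [← io_map e]
  exact h.comp (AllSI.equiv _)

end kg

end Pool.Agent.H1.KK
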