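import Pool.Agent.H1.KK.Vert

set_option autoImplicit false
set_option linter.unusedSectionVars false
set_option linter.unusedSimpArgs false

/-!
# Split matrices
-/

namespace Pool.Agent.H1.KK

open Matrix TH57.Thr Pool.Agent.K4H37.MT Pool.Agent.H1.MV

section split

variable {k : Type} [Ring k] {G V : Type} [Group G] [MulAction G V]
variable {N : KI (MonoidAlgebra k G)} {κ : Type} [Fintype κ] [DecidableEq κ]

theorem comm_dg {p : Matrix κ κ k} {c : κ → G} (hc : ∀ i j, p i j ≠ 0 → c i = c j) :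
    p.map (io k G) * (dg k c).val = (dg k c).val * p.map (io k G) := by
  ext1 i j
  have h1 : (p.map (io k G) * (dg k c).val) i j = io k G (p i j) * MonoidAlgebra.single (c j) 1 :=
    Matrix.mul_diagonal _ _ _ _
  have h2 : ((dg k c).val * p.map (io k G)) i j = MonoidAlgebra.single (c i) 1 * io k G (p i j) :=
    Matrix.diagonal_mul _ _ _ _
  rw [h1, h2]
  by_cases h : p i j = 0
  · rw [h, map_zero, zero_mul, mul_zero]
  · rw [hc i j h, io_comm_single]

theorem dg_mul_inv (c : κ → G) :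
    (dg k c).val * (dg k (fun j => (c j)⁻¹)).val = 1 := by
  rw [← dg_inv]
  exact Units.mul_inv _

theorem dg_inv_mul (c : κ → G) :
    (dg k (fun j => (c j)⁻¹)).val * (dg k c).val = 1 := by
  rw [← dg_inv]
  exact Units.inv_mul _

/-- **Split matrices** -/
theorem Good.split [DecidableEq V] (hg : Good V N) (v₀ : V) (ν a b : κ → V) (p : Matrix κ κ k)
    (hp : p * p = p) (hpa : ∀ i j, p i j ≠ 0 → a i = a j) (hpb : ∀ i j, p i j ≠ 0 → b i = b j)
    (A : (Matrix κ κ (MonoidAlgebra k G))ˣ) (A1 A2 : Matrix κ κ (MonoidAlgebra k G))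
    (hA : A.val = A1 * p.map (io k G) + A2 * (1 - p.map (io k G)))
    (t1 : Ty ν a Eq A1) (t2 : Ty ν b Eq A2)
    (t3 : Ty a ν Eq (p.map (io k G) * (A⁻¹).val))
    (t4 : Ty b ν Eq ((1 - p.map (io k G)) * (A⁻¹).val)) : N.car κ A := by
  classical
  have hδ : ∀ v : V, ∃ g : G, g • rep G v = v := fun v => rep_exists _
  choose δ hδ using hδ
  let c : κ → G := fun i => δ (ν i)
  let d1 : κ → G := fun i => δ (a i)
  let d2 : κ → G := fun i => δ (b i)
  have hc' : (fun j => (c j)⁻¹ • ν j) = fun j => rep G (ν j) := by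
    funext j
    rw [inv_smul_eq_iff]
    exact (hδ _).symm
  have hd1' : (fun j => (d1 j)⁻¹ • a j) = fun j => rep G (a j) := by
    funext j
    rw [inv_smul_eq_iff]
    exact (hδ _).symm
  have hd2' : (fun j => (d2 j)⁻¹ • b j) = fun j => rep G (b j) := by
    funext j
    rw [inv_smul_eq_iff]
    exact (hδ _).symm
  obtain ⟨P, hP⟩ : ∃ P : Matrix κ κ (MonoidAlgebra k G), P = p.map (io k G) := ⟨_, rfl⟩
  have hPP : P * P = P := by rw [hP]; exact map_idem _ hp
  have hPaug : P.map (MK.aug k G) = p := by rw [hP]; exact map_aug_io p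
  obtain ⟨D1, hD1⟩ : ∃ D : Matrix κ κ (MonoidAlgebra k G), D = (MV.dg k d1).val := ⟨_, rfl⟩
  obtain ⟨D2, hD2⟩ : ∃ D : Matrix κ κ (MonoidAlgebra k G), D = (MV.dg k d2).val := ⟨_, rfl⟩
  obtain ⟨D1', hD1'⟩ : ∃ D : Matrix κ κ (MonoidAlgebra k G),
    D = (MV.dg k fun j => (d1 j)⁻¹).val := ⟨_, rfl⟩
  obtain ⟨D2', hD2'⟩ : ∃ D : Matrix κ κ (MonoidAlgebra k G),
    D = (MV.dg k fun j => (d2 j)⁻¹).val := ⟨_, rfl⟩
  have c1 : P * D1 = D1 * P := by
    rw [hP, hD1]
    exact comm_dg fun i j h => congrArg δ (hpa i j h)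
  have c2 : P * D2 = D2 * P := by
    rw [hP, hD2]
    exact comm_dg fun i j h => congrArg δ (hpb i j h)
  have c1' : P * D1' = D1' * P := by
    rw [hP, hD1']
    exact comm_dg fun i j h => congrArg (fun v => (δ v)⁻¹) (hpa i j h)
  have c2' : P * D2' = D2' * P := by
    rw [hP, hD2']
    exact comm_dg fun i j h => congrArg (fun v => (δ v)⁻¹) (hpb i j h)
  have m1 : D1 * D1' = 1 := by rw [hD1, hD1']; exact dg_mul_inv d1
  have m1' : D1' * D1 = 1 := by rw [hD1, hD1']; exact dg_inv_mul d1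
  have m2 : D2 * D2' = 1 := by rw [hD2, hD2']; exact dg_mul_inv d2
  have m2' : D2' * D2 = 1 := by rw [hD2, hD2']; exact dg_inv_mul d2
  rw [← hP] at hA t3 t4
  -- the product formula
  have pq : ∀ (X Y Z W : Matrix κ κ (MonoidAlgebra k G)), P * Z = Z * P → P * W = W * P →
      (X * P + Y * (1 - P)) * (P * Z + (1 - P) * W) = X * Z * P + Y * W * (1 - P) := by
    intro X Y Z W hZ hW
    have h1 : P * (P * Z) = Z * P := by rw [← Matrix.mul_assoc, hPP, hZ]
    have h2 : P * ((1 - P) * W) = 0 := by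
      rw [← Matrix.mul_assoc, Matrix.mul_sub, Matrix.mul_one, hPP, sub_self, Matrix.zero_mul]
    have h3 : (1 - P) * (P * Z) = 0 := by
      rw [← Matrix.mul_assoc, Matrix.sub_mul, Matrix.one_mul, hPP, sub_self, Matrix.zero_mul]
    have h4 : (1 - P) * ((1 - P) * W) = W * (1 - P) := by
      rw [← Matrix.mul_assoc, one_sub_idem hPP, Matrix.sub_mul, Matrix.one_mul, hW,
        Matrix.mul_sub, Matrix.mul_one]
    rw [Matrix.mul_add, Matrix.add_mul, Matrix.add_mul, Matrix.mul_assoc X, h1,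
      Matrix.mul_assoc Y, h3, Matrix.mul_assoc X, h2, Matrix.mul_assoc Y, h4]
    simp only [Matrix.mul_zero, add_zero, zero_add, Matrix.mul_assoc]
  have hone : P + (1 - P) = 1 := by abel
  have one_form : ∀ X : Matrix κ κ (MonoidAlgebra k G), 1 * X * P + 1 * X * (1 - P) = X := by
    intro X
    rw [← Matrix.mul_add, hone, Matrix.mul_one, Matrix.one_mul]
  have qf : ∀ (Z W : Matrix κ κ (MonoidAlgebra k G)), P * Z = Z * P → P * W = W * P →
      P * Z + (1 - P) * W = Z * P + W * (1 - P) := by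
    intro Z W hZ hW
    rw [hZ, Matrix.sub_mul, Matrix.one_mul, hW, Matrix.mul_sub, Matrix.mul_one]
  let Q : (Matrix κ κ (MonoidAlgebra k G))ˣ :=
    { val := P * D1 + (1 - P) * D2
      inv := P * D1' + (1 - P) * D2'
      val_inv := by
        rw [qf D1 D2 c1 c2, pq D1 D2 D1' D2' c1' c2', m1, m2, Matrix.one_mul, Matrix.one_mul, hone]
      inv_val := by
        rw [qf D1' D2' c1' c2', pq D1' D2' D1 D2 c1 c2, m1', m2', Matrix.one_mul,
          Matrix.one_mul, hone] }
  let B : (Matrix κ κ k)ˣ := Units.map (mpm (MK.aug k G)) A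
  let BI : (Matrix κ κ (MonoidAlgebra k G))ˣ := Units.map (mpm (io k G)) B
  have hBI : BI.val = (A.val.map (MK.aug k G)).map (io k G) := rfl
  have hBI' : (BI⁻¹).val = ((A⁻¹).val.map (MK.aug k G)).map (io k G) := by
    have h1 : BI⁻¹ = Units.map (mpm (io k G)) (Units.map (mpm (MK.aug k G)) A⁻¹) := by
      rw [map_inv, map_inv]
    rw [h1]
    rfl
  let W : (Matrix κ κ (MonoidAlgebra k G))ˣ := (MV.dg k c)⁻¹ * A * Q * BI⁻¹
  have hWv : W.val = ((MV.dg k fun j => (c j)⁻¹).val * A1 * D1) * (P * (BI⁻¹).val) +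
      ((MV.dg k fun j => (c j)⁻¹).val * A2 * D2) * ((1 - P) * (BI⁻¹).val) := by
    change (MV.dg k c)⁻¹.val * A.val * (P * D1 + (1 - P) * D2) * (BI⁻¹).val = _
    rw [dg_inv, Matrix.mul_assoc _ A.val, hA, pq A1 A2 D1 D2 c1 c2]
    simp only [Matrix.mul_add, Matrix.add_mul, Matrix.mul_assoc]
  have hWi : (W⁻¹).val = ((A1.map (MK.aug k G)).map (io k G)) *
        (D1' * (P * (A⁻¹).val) * (MV.dg k c).val) +
      ((A2.map (MK.aug k G)).map (io k G)) * (D2' * ((1 - P) * (A⁻¹).val) * (MV.dg k c).val) := by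
    have h1 : W⁻¹ = BI * Q⁻¹ * A⁻¹ * MV.dg k c := by
      simp only [W, _root_.mul_inv_rev, inv_inv, mul_assoc]
    have h2 : BI.val = ((A1.map (MK.aug k G)).map (io k G)) * P +
        ((A2.map (MK.aug k G)).map (io k G)) * (1 - P) := by
      rw [hBI, hA, Matrix.map_add _ (map_add _), Matrix.map_mul, Matrix.map_mul, sub_map, hPaug,
        Matrix.map_add _ (map_add _), Matrix.map_mul, Matrix.map_mul, sub_map, ← hP]
    rw [h1]
    change BI.val * (P * D1' + (1 - P) * D2') * (A⁻¹).val * (MV.dg k c).val = _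
    rw [h2, pq _ _ D1' D2' c1' c2']
    simp only [Matrix.mul_add, Matrix.add_mul, Matrix.mul_assoc]
  have tW : Ty (fun i => rep G (ν i)) (fun i => rep G (ν i)) Eq W.val := by
    rw [hWv]
    have r1 : Ty (fun i => rep G (ν i)) (fun i => rep G (a i)) Eq
        ((MV.dg k fun j => (c j)⁻¹).val * A1 * D1) := by
      have h1 := (t1.dg_left (fun j => (c j)⁻¹)).dg_right GInv.eq d1
      rw [hc', hd1'] at h1
      rw [hD1]
      exact h1
    have r2 : Ty (fun i => rep G (ν i)) (fun i => rep G (b i)) Eq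
        ((MV.dg k fun j => (c j)⁻¹).val * A2 * D2) := by
      have h1 := (t2.dg_left (fun j => (c j)⁻¹)).dg_right GInv.eq d2
      rw [hc', hd2'] at h1
      rw [hD2]
      exact h1
    have r3 : Ty (fun i => rep G (a i)) (fun i => rep G (ν i)) Eq (P * (BI⁻¹).val) := by
      have h1 : P * (BI⁻¹).val = ((P * (A⁻¹).val).map (MK.aug k G)).map (io k G) := by
        rw [Matrix.map_mul, Matrix.map_mul, hPaug, hBI', hP]
      rw [h1]
      exact ty_io fun i j h => aug_ty t3 i j h
    have r4 : Ty (fun i => rep G (b i)) (fun i => rep G (ν i)) Eq ((1 - P) * (BI⁻¹).val) := by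
      have h1 : (1 - P) * (BI⁻¹).val = (((1 - P) * (A⁻¹).val).map (MK.aug k G)).map (io k G) := by
        rw [Matrix.map_mul, Matrix.map_mul, sub_map, hPaug, hBI', sub_map, hP]
      rw [h1]
      exact ty_io fun i j h => aug_ty t4 i j h
    exact (r1.mul r3 GInv.eq (fun x y z h h' => h.trans h')).add
      (r2.mul r4 GInv.eq (fun x y z h h' => h.trans h'))
  have tW' : Ty (fun i => rep G (ν i)) (fun i => rep G (ν i)) Eq (W⁻¹).val := by
    rw [hWi]
    have r1 : Ty (fun i => rep G (ν i)) (fun i => rep G (a i)) Eq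
        ((A1.map (MK.aug k G)).map (io k G)) := ty_io fun i j h => aug_ty t1 i j h
    have r2 : Ty (fun i => rep G (ν i)) (fun i => rep G (b i)) Eq
        ((A2.map (MK.aug k G)).map (io k G)) := ty_io fun i j h => aug_ty t2 i j h
    have r3 : Ty (fun i => rep G (a i)) (fun i => rep G (ν i)) Eq
        (D1' * (P * (A⁻¹).val) * (MV.dg k c).val) := by
      have h1 := (t3.dg_left (fun j => (d1 j)⁻¹)).dg_right GInv.eq c
      rw [hc', hd1'] at h1
      rw [hD1']
      exact h1
    have r4 : Ty (fun i => rep G (b i)) (fun i => rep G (ν i)) Eq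
        (D2' * ((1 - P) * (A⁻¹).val) * (MV.dg k c).val) := by
      have h1 := (t4.dg_left (fun j => (d2 j)⁻¹)).dg_right GInv.eq c
      rw [hc', hd2'] at h1
      rw [hD2']
      exact h1
    exact (r1.mul r3 GInv.eq (fun x y z h h' => h.trans h')).add
      (r2.mul r4 GInv.eq (fun x y z h h' => h.trans h'))
  have hW : N.car κ W := hg.reps _ W (fun i => rep_rep _) tW tW'
  have hQ : N.car κ Q⁻¹ := by
    have h1 := hg.many p hp (fun j => (d1 j)⁻¹ * d2 j) (by
      intro i j h
      change (δ (a i))⁻¹ * δ (b i) = (δ (a j))⁻¹ * δ (b j)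
      rw [hpa i j h, hpb i j h])
    have h2 : N.Tr (D2' : Matrix κ κ (MonoidAlgebra k G)) := by
      rw [hD2']
      exact ⟨_, rfl, hg.dg _⟩
    have h3 := h1.mul h2
    apply tr_car
    convert h3 using 1
    change P * D1' + (1 - P) * D2' = _
    have h4 : (MV.dg k (fun j => (d1 j)⁻¹ * d2 j)).val = D1' * D2 := by
      rw [hD1', hD2]
      change Matrix.diagonal _ = Matrix.diagonal _ * Matrix.diagonal _
      rw [Matrix.diagonal_mul_diagonal]
      congr 1
      funext j
      rw [MonoidAlgebra.single_mul_single, one_mul]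
    rw [h4, ← hP, Matrix.add_mul, Matrix.mul_assoc P, Matrix.mul_assoc D1', m2, Matrix.mul_one,
      add_comm]
  have hfin : A = MV.dg k c * W * BI * Q⁻¹ := by
    simp only [W]
    group
  rw [hfin]
  exact N.mul _ _ (N.mul _ _ (N.mul _ _ (hg.dg _) hW) (hg.const v₀ B)) hQ

end split

end Pool.Agent.H1.KK
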