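import Pool.Agent.H1.KK.Colim2

set_option autoImplicit false
set_option linter.unusedSectionVars false
set_option linter.unusedSimpArgs false
set_option linter.style.haveILetI false

/-!
# Classes of groups which are closed under tree actions, directed colimits and subgroups
-/

namespace Pool.Agent.H1.KK

open Matrix TH57.Thr Pool.Agent.K4H37.MT Pool.Agent.H1.MV Pool.Agent.H1.MK

/-- a property of groups with a tree theorem for single groups -/
structure Base (P N : ∀ (G : Type) [Group G], Prop) : Prop where
  congr : ∀ (G H : Type) [Group G] [Group H], (G ≃* H) → P G → P H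
  ncongr : ∀ (G H : Type) [Group G] [Group H], (G ≃* H) → N G → N H
  nsub : ∀ (G : Type) [Group G] (H : Subgroup G), N G → N H
  zp : ∀ n : ℕ, P (Zp n)
  nzp : ∀ n : ℕ, N (Zp n)
  colim : ∀ (I : Type) [Preorder I] (H : I → Type) [∀ i, Group (H i)]
    (f : ∀ i j, i ≤ j → H i →* H j) (G : Type) [Group G] (φ : ∀ i, H i →* G), DC H f φ →
    (∀ i, P (H i)) → P G
  tree : ∀ (G V : Type) [Group G] [MulAction G V] (T : SimpleGraph V), T.IsTree →
    (∀ (g : G) (v w : V), T.Adj v w → T.Adj (g • v) (g • w)) →
    (∀ (g : G) (v w : V), T.Adj v w → ¬ (g • v = w ∧ g • w = v)) →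
    (∀ v : V, P (MulAction.stabilizer G v)) →
    (∀ v w : V, T.Adj v w → P (MulAction.stabilizer G ((v, w) : V × V)) ∧
      P (Multiplicative ℤ × MulAction.stabilizer G ((v, w) : V × V))) →
    (∀ p : ℕ → V, (∀ i, T.Adj (p i) (p (i + 1))) → (∀ i, p (i + 2) ≠ p i) →
      ∀ d : ℕ, 0 < d → ∃ m, N (Fx G m p) ∨ ∀ h : G, (∀ i ≤ m, h • p (i + d) = p i) →
        P (Subgroup.closure ((Fx G m p : Set G) ∪ {h}))) → P G

/-- all subgroups of the products with free abelian groups have the property -/
def St (P : ∀ (G : Type) [Group G], Prop) (G : Type) [Group G] : Prop :=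
  ∀ (n : ℕ) (K : Subgroup (G × Zp n)), P K

section st

variable {P N : ∀ (G : Type) [Group G], Prop} (hP : Base P N) {G : Type} [Group G]

include hP

theorem Base.use (h : St P G) (n : ℕ) {K : Type} [Group K] (f : K →* G × Zp n)
    (hf : Function.Injective f) : P K :=
  hP.congr _ _ (MonoidHom.ofInjective hf).symm (h n f.range)

theorem Base.nuse {A : Type} [Group A] (h : N A) {K : Type} [Group K] (f : K →* A)
    (hf : Function.Injective f) : N K :=
  hP.ncongr _ _ (MonoidHom.ofInjective hf).symm (hP.nsub _ _ h)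

theorem Base.st_inj (h : St P G) {K : Type} [Group K] (f : K →* G) (hf : Function.Injective f) :
    St P K := by
  intro n L
  refine hP.use h n ((f.prodMap (MonoidHom.id (Zp n))).comp L.subtype) ?_
  intro x y hxy
  have e0 : ((f x.1.1, x.1.2) : G × Zp n) = (f y.1.1, y.1.2) := hxy
  have e1 : f x.1.1 = f y.1.1 := (Prod.mk.inj e0).1
  have e2 : x.1.2 = y.1.2 := (Prod.mk.inj e0).2
  exact Subtype.ext (Prod.ext (hf e1) e2)

/-- the product of free abelian groups -/
def zpAdd (m n : ℕ) : Zp m × Zp n ≃* Zp (m + n) where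
  toFun z := Multiplicative.ofAdd fun i => Sum.elim (Multiplicative.toAdd z.1)
    (Multiplicative.toAdd z.2) (finSumFinEquiv.symm i)
  invFun w := (Multiplicative.ofAdd fun i => Multiplicative.toAdd w (finSumFinEquiv (Sum.inl i)),
    Multiplicative.ofAdd fun i => Multiplicative.toAdd w (finSumFinEquiv (Sum.inr i)))
  left_inv z := by
    apply Prod.ext
    · apply Multiplicative.toAdd.injective
      funext i
      simp
    · apply Multiplicative.toAdd.injective
      funext i
      simp
  right_inv w := by
    apply Multiplicative.toAdd.injective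
    funext i
    obtain ⟨j, rfl⟩ := finSumFinEquiv.surjective i
    rcases j with j | j <;> simp
  map_mul' z w := by
    apply Multiplicative.toAdd.injective
    funext i
    obtain ⟨j, rfl⟩ := finSumFinEquiv.surjective i
    rcases j with j | j <;> simp

theorem Base.st_zn (h : St P G) (m : ℕ) : St P (G × Zp m) := by
  intro n L
  let e : (G × Zp m) × Zp n ≃* G × Zp (m + n) :=
    MulEquiv.prodAssoc.trans (MulEquiv.prodCongr (MulEquiv.refl G) (zpAdd m n))
  exact hP.use h (m + n) (e.toMonoidHom.comp L.subtype)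
    (e.injective.comp L.subtype_injective)

theorem Base.st_zp (m : ℕ) : St P (Zp m) := by
  intro n L
  obtain ⟨r, ⟨e⟩⟩ := zp_sub (m + n) (L.map (zpAdd m n).toMonoidHom)
  have e1 : L ≃* L.map (zpAdd m n).toMonoidHom := L.equivMapOfInjective _ (zpAdd m n).injective
  exact hP.congr _ _ (e1.trans e).symm (hP.zp r)

theorem Base.self (h : St P G) : P G :=
  hP.use h 0 ((MonoidHom.id G).prod 1) (fun _ _ h => congrArg Prod.fst h)

theorem Base.st_colim {I : Type} [Preorder I] {H : I → Type} [∀ i, Group (H i)]
    {f : ∀ i j, i ≤ j → H i →* H j} {φ : ∀ i, H i →* G} (h : DC H f φ) (hA : ∀ i, St P (H i)) :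
    St P G := by
  intro n L
  exact hP.colim _ _ _ _ _ ((h.prod (Zp n)).comap L) fun i => hA i n _

/-- **The closure theorem** -/
theorem Base.st_tree {V : Type} [MulAction G V] {T : SimpleGraph V} (hT : T.IsTree)
    (hact : ∀ (g : G) (v w : V), T.Adj v w → T.Adj (g • v) (g • w))
    (hinv : ∀ (g : G) (v w : V), T.Adj v w → ¬ (g • v = w ∧ g • w = v))
    (hV : ∀ v : V, St P (MulAction.stabilizer G v))
    (hm : ∀ p : ℕ → V, (∀ i, T.Adj (p i) (p (i + 1))) → (∀ i, p (i + 2) ≠ p i) →
      ∀ d : ℕ, 0 < d → ∃ m, Fx G m p = ⊥ ∨ (∀ n, N (Fx G m p × Zp n)) ∨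
        ∀ h : G, (∀ i ≤ m, h • p (i + d) = p i) →
          St P (Subgroup.closure ((Fx G m p : Set G) ∪ {h}))) : St P G := by
  intro n K
  letI : MulAction (G × Zp n) V := fstAct G (Zp n) V
  have hsm : ∀ (q : K) (v : V), q • v = (q : G × Zp n).1 • v := fun _ _ => rfl
  refine hP.tree K V T hT (fun g v w h => hact g.1.1 v w h) (fun g v w h => hinv g.1.1 v w h)
    ?_ ?_ ?_
  · intro v
    let f : MulAction.stabilizer K v →* MulAction.stabilizer G v × Zp n :=
      { toFun := fun x => (⟨x.1.1.1, x.2⟩, x.1.1.2)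
        map_one' := rfl
        map_mul' := fun _ _ => rfl }
    refine hP.use (hV v) n f ?_
    intro x y hxy
    have e1 : (f x).1 = (f y).1 := congrArg Prod.fst hxy
    have e2 : (f x).2 = (f y).2 := congrArg Prod.snd hxy
    exact Subtype.ext (Subtype.ext (Prod.ext (congrArg Subtype.val e1) e2))
  · intro v w _
    let f : MulAction.stabilizer K ((v, w) : V × V) →* MulAction.stabilizer G v × Zp n :=
      { toFun := fun x => (⟨x.1.1.1, congrArg Prod.fst (MulAction.mem_stabilizer_iff.1 x.2)⟩,
          x.1.1.2)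
        map_one' := rfl
        map_mul' := fun _ _ => rfl }
    have hf : Function.Injective f := by
      intro x y hxy
      have e1 : (f x).1 = (f y).1 := congrArg Prod.fst hxy
      have e2 : (f x).2 = (f y).2 := congrArg Prod.snd hxy
      exact Subtype.ext (Subtype.ext (Prod.ext (congrArg Subtype.val e1) e2))
    refine ⟨hP.use (hV v) n f hf, ?_⟩
    let F : Multiplicative ℤ × MulAction.stabilizer K ((v, w) : V × V) →*
        MulAction.stabilizer G v × Zp (n + 1) :=
      { toFun := fun x => ((f x.2).1, (zpSucc n).symm (x.1, (f x.2).2))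
        map_one' := by
          rw [Prod.snd_one, Prod.fst_one, map_one]
          exact Prod.ext rfl (map_one (zpSucc n).symm)
        map_mul' := fun x y => by
          rw [Prod.snd_mul, Prod.fst_mul, map_mul]
          exact Prod.ext rfl (map_mul (zpSucc n).symm (x.1, (f x.2).2) (y.1, (f y.2).2)) }
    refine hP.use (hV v) (n + 1) F ?_
    intro x y hxy
    have h0 : (((f x.2).1, (zpSucc n).symm (x.1, (f x.2).2)) :
        MulAction.stabilizer G v × Zp (n + 1)) =
        ((f y.2).1, (zpSucc n).symm (y.1, (f y.2).2)) := hxy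
    have h1 : (f x.2).1 = (f y.2).1 := (Prod.mk.inj h0).1
    have h2 : ((x.1, (f x.2).2) : Multiplicative ℤ × Zp n) = (y.1, (f y.2).2) :=
      (zpSucc n).symm.injective (Prod.mk.inj h0).2
    have h3 : x.1 = y.1 := (Prod.mk.inj h2).1
    have h4 : (f x.2).2 = (f y.2).2 := (Prod.mk.inj h2).2
    exact Prod.ext h3 (hf (Prod.ext h1 h4))
  · intro p h1 h2 d hd
    obtain ⟨m, hm⟩ := hm p h1 h2 d hd
    refine ⟨m, ?_⟩
    let f : Fx K m p →* Fx G m p × Zp n :=
      { toFun := fun x => (⟨x.1.1.1, x.2⟩, x.1.1.2)
        map_one' := rfl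
        map_mul' := fun _ _ => rfl }
    have hf : Function.Injective f := by
      intro x y hxy
      have e1 : (f x).1 = (f y).1 := congrArg Prod.fst hxy
      have e2 : (f x).2 = (f y).2 := congrArg Prod.snd hxy
      exact Subtype.ext (Subtype.ext (Prod.ext (congrArg Subtype.val e1) e2))
    rcases hm with hm | hm | hm
    · left
      refine hP.nuse (hP.nzp n) ((MonoidHom.snd _ _).comp f) ?_
      intro x y hxy
      apply hf
      apply Prod.ext
      · apply Subtype.ext
        have h3 : ∀ z : Fx G m p, (z : G) = 1 := by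
          rintro ⟨z, hz⟩
          rw [hm, Subgroup.mem_bot] at hz
          exact hz
        rw [h3, h3]
      · exact hxy
    · left
      exact hP.nuse (hm n) f hf
    · right
      intro h hper
      have h3 := hm h.1.1 (fun i hi => hper i hi)
      have hle : (Subgroup.closure ((Fx K m p : Set K) ∪ {h})).map
          ((MonoidHom.fst G (Zp n)).comp K.subtype) ≤
          Subgroup.closure ((Fx G m p : Set G) ∪ {h.1.1}) := by
        rw [MonoidHom.map_closure, Subgroup.closure_le]
        rintro _ ⟨g, hg | hg, rfl⟩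
        · exact Subgroup.subset_closure (Or.inl hg)
        · have hg' : g = h := hg
          rw [hg']
          exact Subgroup.subset_closure (Or.inr rfl)
      let F : Subgroup.closure ((Fx K m p : Set K) ∪ {h}) →*
          Subgroup.closure ((Fx G m p : Set G) ∪ {h.1.1}) × Zp n :=
        { toFun := fun x => (⟨x.1.1.1, hle ⟨x.1, x.2, rfl⟩⟩, x.1.1.2)
          map_one' := rfl
          map_mul' := fun _ _ => rfl }
      refine hP.use h3 n F ?_
      intro x y hxy
      have e1 : (F x).1 = (F y).1 := congrArg Prod.fst hxy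
      have e2 : (F x).2 = (F y).2 := congrArg Prod.snd hxy
      exact Subtype.ext (Subtype.ext (Prod.ext (congrArg Subtype.val e1) e2))

end st

end Pool.Agent.H1.KK
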