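import Pool.Agent.H1.KK.GlueI
import Pool.Agent.H1.KK.Ki
import Pool.Agent.H1.MK.Blk

set_option autoImplicit false
set_option linter.unusedSectionVars false
set_option linter.unusedSimpArgs false

/-!
# Matrices located on vertices, up to idempotents over the coefficients
-/

namespace Pool.Agent.H1.KK

open Matrix TH57.Thr Pool.Agent.K4H37.MT Pool.Agent.H1.MV

section aug

variable {k : Type} [Ring k] {G : Type} [Group G] {Ω : Type} [MulAction G Ω]

theorem aug_single (g : G) (c : k) : MK.aug k G (MonoidAlgebra.single g c) = c := by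
  unfold MK.aug
  rw [MonoidAlgebra.liftNCRingHom_single]
  simp

theorem aug_io (c : k) : MK.aug k G (io k G c) = c := aug_single 1 c

theorem map_aug_io {m n : Type} (p : Matrix m n k) : (p.map (io k G)).map (MK.aug k G) = p := by
  ext1 i j
  exact aug_io _

theorem aug_ty {m n : Type} {a : m → Ω} {b : n → Ω} {M : Matrix m n (MonoidAlgebra k G)}
    (h : Ty a b Eq M) (i : m) (j : n) (hne : (M.map (MK.aug k G)) i j ≠ 0) :
    rep G (a i) = rep G (b j) := by
  have h3 : ∃ g, (M i j).coeff g ≠ 0 := by
    by_contra hcon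
    push Not at hcon
    apply hne
    have : M i j = 0 := by
      apply MonoidAlgebra.coeff_injective
      ext g
      exact hcon g
    rw [Matrix.map_apply, this, map_zero]
  obtain ⟨g, hg⟩ := h3
  exact rep_of_smul (h i j g hg)

theorem io_comm_single (c : k) (g : G) :
    io k G c * MonoidAlgebra.single g 1 = MonoidAlgebra.single g 1 * io k G c := by
  rw [io_apply, MonoidAlgebra.single_mul_single, MonoidAlgebra.single_mul_single, one_mul,
    mul_one, one_mul, mul_one]

end aug

section good

variable {k : Type} [Ring k] {G V : Type} [Group G] [MulAction G V]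

/-- the system contains the classes from the vertex groups and from idempotent matrices -/
structure Good (V : Type) [MulAction G V] (N : KI (MonoidAlgebra k G)) : Prop where
  vert : ∀ (v : V) (κ : Type) [Fintype κ] [DecidableEq κ]
      (a : (Matrix κ κ (MonoidAlgebra k (MulAction.stabilizer G v)))ˣ),
      N.car κ (Units.map (mpm (inc k (MulAction.stabilizer G v))) a)
  idem : ∀ (κ : Type) [Fintype κ] [DecidableEq κ] (p : Matrix κ κ k), p * p = p → ∀ g : G,
      N.Tr (1 - p.map (io k G) + p.map (io k G) *
        (Matrix.diagonal fun _ => MonoidAlgebra.single g 1 : Matrix κ κ (MonoidAlgebra k G)))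

variable {N : KI (MonoidAlgebra k G)} {κ : Type} [Fintype κ] [DecidableEq κ]

theorem tr_car {w : (Matrix κ κ (MonoidAlgebra k G))ˣ} (h : N.Tr w.val) : N.car κ w := by
  obtain ⟨w', hw, h⟩ := h
  have : w' = w := Units.ext hw
  rwa [this] at h

theorem Good.many (hg : Good V N) (p : Matrix κ κ k) (hp : p * p = p) (c : κ → G)
    (hc : ∀ i j, p i j ≠ 0 → c i = c j) :
    N.Tr (1 - p.map (io k G) + p.map (io k G) * (dg k c).val) := by
  classical
  obtain ⟨P, hP⟩ : ∃ P : Matrix κ κ (MonoidAlgebra k G), P = p.map (io k G) := ⟨_, rfl⟩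
  obtain ⟨D, hD⟩ : ∃ D : Matrix κ κ (MonoidAlgebra k G), D = (dg k c).val := ⟨_, rfl⟩
  have hDe : D = Matrix.diagonal fun j => MonoidAlgebra.single (c j) 1 := hD
  let e : Finset G → Matrix κ κ k := fun S => Matrix.diagonal fun j => if c j ∈ S then 1 else 0
  have hpe : ∀ S, p * e S = e S * p := by
    intro S
    ext1 i j
    change (p * (Matrix.diagonal (fun j => if c j ∈ S then 1 else 0) : Matrix κ κ k) :
      Matrix κ κ k) i j = ((Matrix.diagonal (fun j => if c j ∈ S then 1 else 0) :
        Matrix κ κ k) * p : Matrix κ κ k) i j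
    rw [Matrix.mul_diagonal, Matrix.diagonal_mul]
    by_cases h : p i j = 0
    · rw [h, zero_mul, mul_zero]
    · rw [hc i j h]
      by_cases h2 : c j ∈ S
      · rw [if_pos h2, mul_one, one_mul]
      · rw [if_neg h2, mul_zero, zero_mul]
  have hee : ∀ S, e S * e S = e S := by
    intro S
    change Matrix.diagonal _ * Matrix.diagonal _ = Matrix.diagonal _
    rw [Matrix.diagonal_mul_diagonal]
    congr 1
    funext j
    by_cases h2 : c j ∈ S
    · rw [if_pos h2, one_mul]
    · rw [if_neg h2, zero_mul]
  let E : Finset G → Matrix κ κ (MonoidAlgebra k G) := fun S => (e S).map (io k G)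
  have hE : ∀ S, E S = Matrix.diagonal fun j => if c j ∈ S then 1 else 0 := by
    intro S
    change (Matrix.diagonal _).map _ = _
    rw [Matrix.diagonal_map (map_zero _)]
    congr 1
    funext j
    by_cases h2 : c j ∈ S
    · rw [if_pos h2, if_pos h2, map_one]
    · rw [if_neg h2, if_neg h2, map_zero]
  have hDE : ∀ S, D * E S = E S * D := by
    intro S
    rw [hE, hDe, Matrix.diagonal_mul_diagonal, Matrix.diagonal_mul_diagonal]
    congr 1
    funext j
    by_cases h2 : c j ∈ S
    · rw [if_pos h2, mul_one, one_mul]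
    · rw [if_neg h2, mul_zero, zero_mul]
  have hPD : P * D = D * P := by
    ext1 i j
    rw [hDe, Matrix.mul_diagonal, Matrix.diagonal_mul, hP, Matrix.map_apply]
    by_cases h : p i j = 0
    · rw [h, map_zero, zero_mul, mul_zero]
    · rw [hc i j h, io_comm_single]
  have hPE : ∀ S, P * E S = E S * P := by
    intro S
    change P * (e S).map _ = (e S).map _ * P
    rw [hP, ← Matrix.map_mul, ← Matrix.map_mul, hpe]
  have key : ∀ S : Finset G, N.Tr (1 - P * E S + P * E S * D) := by
    intro S
    induction S using Finset.induction_on with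
    | empty =>
      have : E ∅ = 0 := by
        rw [hE]
        simp
      rw [this, Matrix.mul_zero, sub_zero, Matrix.zero_mul, add_zero]
      exact KI.Tr.one
    | insert g S hgS ih =>
      have h1 := hg.idem κ (p * e {g}) (by
        calc p * e {g} * (p * e {g}) = p * (e {g} * p) * e {g} := by
              simp only [Matrix.mul_assoc]
          _ = (p * p) * (e {g} * e {g}) := by
              rw [← hpe]
              simp only [Matrix.mul_assoc]
          _ = _ := by rw [hp, hee]) g
      have h2 : (p * e {g}).map (io k G) = P * E {g} := by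
        rw [Matrix.map_mul, ← hP]
      have h3 : P * E {g} * (Matrix.diagonal fun _ => MonoidAlgebra.single g 1 :
          Matrix κ κ (MonoidAlgebra k G)) = P * E {g} * D := by
        rw [Matrix.mul_assoc, Matrix.mul_assoc]
        congr 1
        rw [hE, hDe, Matrix.diagonal_mul_diagonal, Matrix.diagonal_mul_diagonal]
        congr 1
        funext j
        by_cases h4 : c j ∈ ({g} : Finset G)
        · rw [Finset.mem_singleton.1 h4]
        · rw [if_neg h4, zero_mul, zero_mul]
      rw [h2, h3] at h1
      have h4 : E (insert g S) = E S + E {g} := by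
        rw [hE, hE, hE, Matrix.diagonal_add]
        congr 1
        funext j
        by_cases h5 : c j = g
        · rw [h5, if_pos (Finset.mem_insert_self _ _), if_neg hgS,
            if_pos (Finset.mem_singleton_self _), zero_add]
        · by_cases h6 : c j ∈ S
          · rw [if_pos (Finset.mem_insert_of_mem h6), if_pos h6,
              if_neg (fun h => h5 (Finset.mem_singleton.1 h)), add_zero]
          · rw [if_neg (fun h => (Finset.mem_insert.1 h).elim h5 h6), if_neg h6,
              if_neg (fun h => h5 (Finset.mem_singleton.1 h)), add_zero]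
      have h5 : E S * E {g} = 0 := by
        rw [hE, hE, Matrix.diagonal_mul_diagonal, ← Matrix.diagonal_zero]
        congr 1
        funext j
        by_cases h5 : c j = g
        · rw [h5, if_neg hgS, zero_mul]
        · rw [if_neg (fun h => h5 (Finset.mem_singleton.1 h)), mul_zero]
      have h6 : (P * E S) * (P * E {g}) = 0 := by
        calc (P * E S) * (P * E {g}) = P * (E S * P) * E {g} := by
              simp only [Matrix.mul_assoc]
          _ = P * P * (E S * E {g}) := by
              rw [← hPE]
              simp only [Matrix.mul_assoc]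
          _ = 0 := by rw [h5, Matrix.mul_zero]
      have h7 : D * (P * E {g}) = (P * E {g}) * D := by
        rw [← Matrix.mul_assoc, ← hPD, Matrix.mul_assoc, hDE, ← Matrix.mul_assoc]
      have h8 := KI.Tr.mul ih h1
      convert h8 using 1
      obtain ⟨x, hx⟩ : ∃ x, x = P * E S := ⟨_, rfl⟩
      obtain ⟨y, hy⟩ : ∃ y, y = P * E {g} := ⟨_, rfl⟩
      rw [h4, Matrix.mul_add, ← hx, ← hy]
      rw [← hx, ← hy] at h6
      rw [← hy] at h7
      have e1 : (1 - x + x * D) * (1 - y + y * D) =
          1 - (x + y) + (x + y) * D + (x * y - x * y * D - x * (D * y) + x * (D * y) * D) := by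
        noncomm_ring
      rw [e1, h7, ← Matrix.mul_assoc x y D, h6]
      simp
  have h9 := key (Finset.univ.image c)
  have h10 : E (Finset.univ.image c) = 1 := by
    rw [hE, ← Matrix.diagonal_one]
    congr 1
    funext j
    rw [if_pos (Finset.mem_image_of_mem _ (Finset.mem_univ j))]
  rw [h10, Matrix.mul_one] at h9
  rw [← hP, ← hD]
  exact h9

theorem Good.dg (hg : Good V N) (c : κ → G) : N.car κ (MV.dg k c) := by
  have h1 := hg.many (1 : Matrix κ κ k) (Matrix.mul_one _) c (by
    intro i j h
    by_contra hne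
    apply h
    apply Matrix.one_apply_ne
    intro h2
    exact hne (by rw [h2]))
  rw [Matrix.map_one _ (map_zero _) (map_one _), sub_self, zero_add, Matrix.one_mul] at h1
  exact tr_car h1

theorem Good.const (hg : Good V N) (v : V) (a : (Matrix κ κ k)ˣ) :
    N.car κ (Units.map (mpm (io k G)) a) := by
  have h1 := hg.vert v κ (Units.map (mpm (io k (MulAction.stabilizer G v))) a)
  convert h1 using 1
  apply Units.ext
  exact (map_inc_io _ _).symm

theorem Good.unit (hg : Good V N) (v : V) (i : κ) (u : (MonoidAlgebra k G)ˣ)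
    (hu : u ∈ MK.TG k G) : N.car κ (Units.map (dgm i) u) := by
  obtain ⟨g, ε, hu⟩ := hu
  have h1 := hg.dg (κ := κ) (Function.update 1 i g)
  let a : (Matrix κ κ k)ˣ := Units.map (dgm i) (Units.map (Int.castRingHom k).toMonoidHom ε)
  have h2 := hg.const v a
  have h3 := N.mul _ _ h1 h2
  convert h3 using 1
  apply Units.ext
  change Matrix.diagonal (Function.update 1 i u.val) =
    Matrix.diagonal _ * (Matrix.diagonal (Function.update 1 i (((ε : ℤ) : k)))).map (io k G)
  rw [Matrix.diagonal_map (map_zero _), Matrix.diagonal_mul_diagonal]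
  congr 1
  funext j
  by_cases h : j = i
  · subst h
    simp only [Function.update_self]
    rw [hu, io_apply, MonoidAlgebra.single_mul_single, mul_one, one_mul]
  · simp only [Function.update_of_ne h, Pi.one_apply, map_one, mul_one]
    rfl

/-- classes which are trivial up to units -/
theorem KI.of_TTU {R : Type} [Ring R] {N : KI R} {U : Subgroup Rˣ}
    (hU : ∀ (κ : Type) [Fintype κ] [DecidableEq κ] (i : κ) (u : Rˣ), u ∈ U →
      N.car κ (Units.map (dgm i) u)) {κ : Type} [Fintype κ] [DecidableEq κ]
    {x : (Matrix κ κ R)ˣ} (h : TT U x) : N.car κ x := by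
  obtain ⟨μ, i1, i2, h⟩ := h
  apply N.unst (μ := μ)
  let W : Subgroup (Matrix (κ ⊕ μ) (κ ⊕ μ) R)ˣ :=
    { carrier := {x | N.car _ x}
      mul_mem' := fun ha hb => N.mul _ _ ha hb
      one_mem' := N.one
      inv_mem' := fun ha => N.inv _ ha }
  have h1 : HH U (κ ⊕ μ) ≤ W := by
    apply sup_le
    · intro y hy
      exact N.of_TT _ (TT_of_mem _ _ (commutator_le_HH _ hy))
    · rw [Subgroup.closure_le]
      rintro _ ⟨i, u, hu, rfl⟩
      exact hU _ i u hu
  exact h1 h

theorem Good.of_TT (hg : Good V N) (v : V) {x : (Matrix κ κ (MonoidAlgebra k G))ˣ}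
    (h : TT (MK.TG k G) x) : N.car κ x :=
  KI.of_TTU (fun _ _ _ i u hu => hg.unit v i u hu) h

theorem Good.reps [DecidableEq V] (hg : Good V N) (ω : κ → V)
    (y : (Matrix κ κ (MonoidAlgebra k G))ˣ) (hr : ∀ i, rep G (ω i) = ω i)
    (h1 : Ty ω ω Eq y.val) (h2 : Ty ω ω Eq (y⁻¹).val) : N.car κ y := by
  refine MK.block_ind (V := V) (PP := fun κ _ _ x => N.car κ x) ?_ ?_ ?_ ?_ _ κ rfl ω y hr h1 h2
  · intro κ _ _ _
    exact N.one
  · intro κ μ _ _ _ _ a d ha hd
    exact N.bsum ha hd
  · intro κ μ _ _ _ _ e x hx
    exact N.re e x hx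
  · intro v κ _ _ a
    exact hg.vert v κ a

/-- matrices located at vertices -/
theorem Good.same [DecidableEq V] (hg : Good V N) (ν : κ → V)
    (x : (Matrix κ κ (MonoidAlgebra k G))ˣ)
    (h1 : Ty ν ν Eq x.val) (h2 : Ty ν ν Eq (x⁻¹).val) : N.car κ x := by
  have hc : ∀ j, ∃ g : G, g • rep G (ν j) = ν j := fun j => rep_exists _
  choose c hc using hc
  have hc' : (fun j => (c j)⁻¹ • ν j) = fun j => rep G (ν j) := by
    funext j
    rw [inv_smul_eq_iff, hc]
  let x' := (MV.dg k c)⁻¹ * x * MV.dg k c
  have t1 : Ty (fun j => rep G (ν j)) (fun j => rep G (ν j)) Eq x'.val := by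
    have h3 := (h1.dg_left (fun j => (c j)⁻¹)).dg_right GInv.eq c
    rw [hc'] at h3
    have : x'.val = (MV.dg k (fun j => (c j)⁻¹)).val * x.val * (MV.dg k c).val := by
      change (MV.dg k c)⁻¹.val * x.val * (MV.dg k c).val = _
      rw [dg_inv]
    rw [this]; exact h3
  have t2 : Ty (fun j => rep G (ν j)) (fun j => rep G (ν j)) Eq (x'⁻¹).val := by
    have h3 := (h2.dg_left (fun j => (c j)⁻¹)).dg_right GInv.eq c
    rw [hc'] at h3
    have : (x'⁻¹).val = (MV.dg k (fun j => (c j)⁻¹)).val * (x⁻¹).val * (MV.dg k c).val := by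
      have : x'⁻¹ = (MV.dg k c)⁻¹ * x⁻¹ * MV.dg k c := by
        simp only [x', _root_.mul_inv_rev, inv_inv, mul_assoc]
      rw [this]
      change (MV.dg k c)⁻¹.val * (x⁻¹).val * (MV.dg k c).val = _
      rw [dg_inv]
    rw [this]; exact h3
  have h3 := hg.reps (fun j => rep G (ν j)) x' (fun i => rep_rep _) t1 t2
  have h4 := N.conj _ (MV.dg k c) h3
  have h5 : MV.dg k c * x' * (MV.dg k c)⁻¹ = x := by
    simp only [x']
    group
  rwa [h5] at h4

end good

end Pool.Agent.H1.KK
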